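import Pool.Agent.Lib.MP_43832e_gt.Spec

set_option linter.all false

noncomputable section

namespace MP43832

open Set Filter Topology

namespace Uniq

variable {n : ℕ} [NeZero n]

lemma exists_other (hn : 3 ≤ n) (i : Fin n) : ∃ j : Fin n, j ≠ i ∧ j ≠ i + 1 := by
  classical
  by_contra h
  push Not at h
  have hsub : (Finset.univ : Finset (Fin n)) ⊆ {i, i + 1} := by
    intro j _
    by_cases hj : j = i
    · simp [hj]
    · simp [h j hj]
  have := Finset.card_le_card hsub
  have h2 : ({i, i + 1} : Finset (Fin n)).card ≤ 2 := Finset.card_le_two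
  simp at this
  omega

lemma add_two_ne (hn : 3 ≤ n) (i : Fin n) : i + 1 + 1 ≠ i := by
  intro h
  have h1 : (1 : Fin n) + 1 = 0 := by
    have : i + (1 + 1) = i + 0 := by rw [add_zero, ← add_assoc]; exact h
    exact add_left_cancel this
  have h2 := congrArg Fin.val h1
  rw [Fin.val_add] at h2
  have h3 : ((1 : Fin n) : ℕ) = 1 := by
    obtain ⟨m, rfl⟩ : ∃ m, n = m + 2 := ⟨n - 2, by omega⟩
    rfl
  rw [h3] at h2
  have h4 : (1 + 1) % n = 2 := Nat.mod_eq_of_lt (by omega)
  rw [h4] at h2
  simp at h2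

lemma vne (hn : 3 ≤ n) {x : Coord n → ℝ} (hx : IsMP x) (i : Fin n) :
    pt x (some (i + 1)) ≠ pt x (some i) := by
  intro h
  obtain ⟨j, h1, h2⟩ := exists_other hn i
  have := hx.convex i j h1 h2
  rw [h] at this
  simp [det2] at this

lemma side_pos (hn : 3 ≤ n) {x : Coord n → ℝ} (hx : IsMP x) (i : Fin n) : 0 < side x i := by
  unfold side
  rw [norm_pos_iff, sub_ne_zero]
  exact vne hn hx i

/-- partial sums -/
def S (x : Coord n → ℝ) (i : Fin n) : ℝ := ∑ j ∈ Finset.univ.filter (fun j => j < i), side x j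

/-- the point on the boundary -/
def e (x : Coord n → ℝ) (i : Fin n) (r : ℝ) : ℂ :=
  pt x (some i) + (r / side x i) • (pt x (some (i + 1)) - pt x (some i))

lemma det2_line (a b : ℂ) (t : ℝ) (u v w : ℂ) :
    det2 (b - a) (u + t • (v - u) - w) = (1 - t) * det2 (b - a) (u - w) + t * det2 (b - a) (v - w) := by
  simp [det2]
  ring

lemma e_inj (hn : 3 ≤ n) {x : Coord n → ℝ} (hx : IsMP x) {i j : Fin n} {r r' : ℝ}
    (hr : 0 ≤ r) (hr1 : r < side x i) (hr' : 0 ≤ r') (hr1' : r' < side x j)
    (h : e x i r = e x j r') : i = j ∧ r = r' := by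
  have key : ∀ {i j : Fin n} {r r' : ℝ}, 0 ≤ r → r < side x i → 0 ≤ r' → r' < side x j →
      e x i r = e x j r' → j ≠ i → j = i + 1 := by
    intro i j r r' hr hr1 hr' hr1' h hne
    by_contra hj
    have h1 := hx.convex i j hne hj
    have h2 : 0 ≤ det2 (pt x (some (i + 1)) - pt x (some i)) (pt x (some (j + 1)) - pt x (some i)) := by
      by_cases hji : j + 1 = i
      · rw [hji]; simp [det2]
      · by_cases hji' : j + 1 = i + 1
        · rw [hji']; simp only [det2]; apply le_of_eq; ring
        · exact (hx.convex i (j + 1) hji hji').le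
    have h3 : det2 (pt x (some (i + 1)) - pt x (some i)) (e x i r - pt x (some i)) = 0 := by
      unfold e
      rw [det2_line]
      simp [det2]
      ring_nf
      simp
    rw [h] at h3
    unfold e at h3
    rw [det2_line] at h3
    have hs := side_pos hn hx j
    have h4 : 0 < 1 - r' / side x j := by
      rw [sub_pos, div_lt_one hs]; exact hr1'
    have h5 : 0 ≤ r' / side x j := div_nonneg hr' hs.le
    have h6 := mul_pos h4 h1
    have h7 := mul_nonneg h5 h2
    linarith
  by_cases hij : j = i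
  · subst hij
    refine ⟨rfl, ?_⟩
    unfold e at h
    have h1 : (r / side x j) • (pt x (some (j + 1)) - pt x (some j)) =
      (r' / side x j) • (pt x (some (j + 1)) - pt x (some j)) := add_left_cancel h
    have h2 := sub_ne_zero.2 (vne hn hx j)
    have h3 := smul_left_injective ℝ h2 h1
    have hs := side_pos hn hx j
    field_simp at h3
    exact h3
  · exfalso
    have h1 := key hr hr1 hr' hr1' h hij
    have h2 := key hr' hr1' hr hr1 h.symm (fun h => hij h.symm)
    rw [h1] at h2
    exact add_two_ne hn i h2.symm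

lemma exists_piece (hn : 3 ≤ n) {x : Coord n → ℝ} (hx : IsMP x) (s : ℝ) (hs : 0 ≤ s)
    (hs1 : s < 1) : ∃ (i : Fin n) (r : ℝ), 0 ≤ r ∧ r < side x i ∧ s = S x i + r := by
  classical
  set F : Finset (Fin n) := Finset.univ.filter (fun i => S x i ≤ s) with hF
  have hne : F.Nonempty := by
    refine ⟨0, ?_⟩
    rw [hF, Finset.mem_filter]
    refine ⟨Finset.mem_univ _, ?_⟩
    have : (Finset.univ.filter (fun j : Fin n => j < 0)) = ∅ := by
      apply Finset.filter_false_of_mem
      intro j _ hj
      rw [Fin.lt_def] at hj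
      simp at hj
    unfold S
    rw [this]
    simpa using hs
  set i := F.max' hne with hi
  have hiF : i ∈ F := F.max'_mem hne
  have hi1 : S x i ≤ s := by
    rw [hF, Finset.mem_filter] at hiF
    exact hiF.2
  refine ⟨i, s - S x i, by linarith, ?_, by ring⟩
  by_contra hcon
  push Not at hcon
  have hins : insert i (Finset.univ.filter (fun j => j < i)) = Finset.univ.filter (fun j : Fin n => j ≤ i) := by
    ext j
    simp only [Finset.mem_insert, Finset.mem_filter, Finset.mem_univ, true_and]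
    constructor
    · rintro (h | h)
      · exact h.le
      · exact h.le
    · intro h
      exact h.eq_or_lt
  have hsum : ∑ j ∈ Finset.univ.filter (fun j : Fin n => j ≤ i), side x j = side x i + S x i := by
    rw [← hins, Finset.sum_insert (by simp)]
    rfl
  by_cases hlast : (i : ℕ) + 1 < n
  · have hsucc : S x ⟨(i : ℕ) + 1, hlast⟩ = side x i + S x i := by
      rw [← hsum]
      unfold S
      apply Finset.sum_congr _ (fun _ _ => rfl)
      ext j
      simp only [Finset.mem_filter, Finset.mem_univ, true_and, Fin.lt_def, Fin.le_def]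
      omega
    have hmem : (⟨(i : ℕ) + 1, hlast⟩ : Fin n) ∈ F := by
      rw [hF, Finset.mem_filter]
      refine ⟨Finset.mem_univ _, ?_⟩
      rw [hsucc]; linarith
    have := F.le_max' _ hmem
    rw [← hi, Fin.le_def] at this
    simp at this
  · have hall : Finset.univ.filter (fun j : Fin n => j ≤ i) = Finset.univ := by
      apply Finset.filter_true_of_mem
      intro j _
      rw [Fin.le_def]
      have := j.isLt
      omega
    rw [hall, hx.perimeter] at hsum
    linarith

/-- the value of an arc length parametrisation -/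
lemma arc_eq (hn : 3 ≤ n) {x : Coord n → ℝ} (hx : IsMP x) {c : ℝ → ℂ} {τ : ℝ}
    (h : ∀ i : Fin n, ∀ r ∈ Icc (0 : ℝ) (side x i),
      c (τ + ∑ j ∈ Finset.univ.filter (fun j => j < i), side x j + r) =
        pt x (some i) + (r / side x i) • (pt x (some (i + 1)) - pt x (some i)))
    {i : Fin n} {r : ℝ} (hr : 0 ≤ r) (hr1 : r < side x i) : c (τ + (S x i + r)) = e x i r := by
  have := h i r ⟨hr, hr1.le⟩
  rw [← add_assoc]
  exact this

lemma per_int {c : ℝ → ℂ} (hc : ∀ t, c (t + 1) = c t) (t : ℝ) (k : ℤ) : c (t + k) = c t := by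
  have hp : Function.Periodic c 1 := hc
  have := hp.int_mul k t
  simpa using this

lemma per_fract {c : ℝ → ℂ} (hc : ∀ t, c (t + 1) = c t) (τ t : ℝ) :
    c (τ + Int.fract (t - τ)) = c t := by
  have := per_int hc (τ + Int.fract (t - τ)) ⌊t - τ⌋
  rw [← this]
  congr 1
  have := Int.fract_add_floor (t - τ)
  linarith

end Uniq

open Uniq in
theorem specUniq : SpecUniq := by
  intro n _ hn x c c' hx hc hc'
  obtain ⟨τ, hτ⟩ := hc.sides
  obtain ⟨τ', hτ'⟩ := hc'.sides
  have key : ∀ s, 0 ≤ s → s < 1 → c (τ + s) = c' (τ' + s) := by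
    intro s hs hs1
    obtain ⟨i, r, hr, hr1, rfl⟩ := exists_piece hn hx s hs hs1
    rw [arc_eq hn hx hτ hr hr1, arc_eq hn hx hτ' hr hr1]
  have hinj : ∀ s s', 0 ≤ s → s < 1 → 0 ≤ s' → s' < 1 → c (τ + s) = c (τ + s') → s = s' := by
    intro s s' hs hs1 hs' hs1' h
    obtain ⟨i, r, hr, hr1, rfl⟩ := exists_piece hn hx s hs hs1
    obtain ⟨j, r', hr', hr1', rfl⟩ := exists_piece hn hx s' hs' hs1'
    rw [arc_eq hn hx hτ hr hr1, arc_eq hn hx hτ hr' hr1'] at h
    obtain ⟨h1, h2⟩ := e_inj hn hx hr hr1 hr' hr1' h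
    rw [h1, h2]
  have h0 : c (τ + Int.fract (0 - τ)) = c 0 := per_fract hc.per τ 0
  have h0' : c' (τ' + Int.fract (0 - τ')) = c' 0 := per_fract hc'.per τ' 0
  have hf := Int.fract_nonneg (0 - τ)
  have hf1 := Int.fract_lt_one (0 - τ)
  have hf' := Int.fract_nonneg (0 - τ')
  have hf1' := Int.fract_lt_one (0 - τ')
  have heq : Int.fract (0 - τ) = Int.fract (0 - τ') := by
    apply hinj _ _ hf hf1 hf' hf1'
    rw [h0, key _ hf' hf1', h0', hc.zero, hc'.zero]
  have hdiff : ∃ k : ℤ, τ' - τ = k := by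
    refine ⟨⌊0 - τ⌋ - ⌊0 - τ'⌋, ?_⟩
    have h1 := Int.fract_add_floor (0 - τ)
    have h2 := Int.fract_add_floor (0 - τ')
    push_cast
    linarith
  obtain ⟨k, hk⟩ := hdiff
  funext t
  rw [← per_fract hc.per τ t, ← per_fract hc'.per τ' t, key _ (Int.fract_nonneg _) (Int.fract_lt_one _)]
  congr 2
  rw [Int.fract_eq_fract]
  exact ⟨k, by linarith⟩

end MP43832
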