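import Pool.Agent.Lib.MP_43832e_gt.JSpec
import Pool.Agent.Lib.MP_43832e_gt.Uniq

set_option linter.all false

noncomputable section

namespace MP43832

open Set Filter Topology MeasureTheory

namespace AnglesJA

lemma det2_eq' (a b : ℂ) : det2 a b = (b * starRingEnd ℂ a).im := by
  simp [det2, Complex.mul_im]
  ring

lemma plucker (a b c w : ℂ) :
    det2 a b * det2 c w = -det2 b w * det2 c a + det2 a w * det2 c b := by
  simp [det2]
  ring

variable {n : ℕ} [NeZero n]

/-- the side vectors -/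
def e (x : Coord n → ℝ) (i : Fin n) : ℂ := pt x (some (i + 1)) - pt x (some i)

/-- the side vectors, indexed by the natural numbers -/
def E (x : Coord n → ℝ) (k : ℕ) : ℂ := e x (Fin.ofNat n k)

lemma ofNat_succ (k : ℕ) : Fin.ofNat n (k + 1) = Fin.ofNat n k + 1 := by
  apply Fin.ext
  simp [Fin.val_add]

lemma cons (hn : 3 ≤ n) {x : Coord n → ℝ} (hx : IsMP x) (i : Fin n) :
    0 < det2 (e x i) (e x (i + 1)) := by
  have h1 := hx.convex i (i + 1 + 1) (Uniq.add_two_ne hn i) (by
    intro h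
    exact Uniq.vne hn hx (i + 1) (by rw [h]))
  have h2 : det2 (e x i) (e x (i + 1)) =
      det2 (pt x (some (i + 1)) - pt x (some i)) (pt x (some (i + 1 + 1)) - pt x (some i)) := by
    unfold e
    simp only [det2, Complex.sub_re, Complex.sub_im]
    ring
  rw [h2]
  exact h1

lemma E_cons (hn : 3 ≤ n) {x : Coord n → ℝ} (hx : IsMP x) (k : ℕ) :
    0 < det2 (E x k) (E x (k + 1)) := by
  unfold E
  rw [ofNat_succ]
  exact cons hn hx _

lemma E_ne (hn : 3 ≤ n) {x : Coord n → ℝ} (hx : IsMP x) (k : ℕ) : E x k ≠ 0 :=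
  sub_ne_zero.2 (Uniq.vne hn hx _)

/-- the angles between consecutive sides -/
def δ (x : Coord n → ℝ) (k : ℕ) : ℝ := Complex.arg (E x (k + 1) * starRingEnd ℂ (E x k))

lemma δ_mem (hn : 3 ≤ n) {x : Coord n → ℝ} (hx : IsMP x) (k : ℕ) : 0 < δ x k ∧ δ x k < Real.pi := by
  have h1 := E_cons hn hx k
  rw [det2_eq'] at h1
  have h2 : 0 < Real.sin (δ x k) := by
    unfold δ
    rw [Complex.sin_arg]
    apply div_pos h1
    rw [norm_pos_iff]
    intro h
    rw [h] at h1
    simp at h1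
  have h3 : 0 ≤ δ x k := Complex.arg_nonneg_iff.2 h1.le
  have h4 : δ x k ≤ Real.pi := Complex.arg_le_pi _
  constructor
  · rcases h3.eq_or_lt with h | h
    · rw [← h] at h2; simp at h2
    · exact h
  · rcases h4.eq_or_lt with h | h
    · rw [h] at h2; simp at h2
    · exact h

/-- the direction of the sides -/
def A (x : Coord n → ℝ) (k : ℕ) : ℝ := ∑ j ∈ Finset.range k, δ x j

lemma A_succ (x : Coord n → ℝ) (k : ℕ) : A x (k + 1) = A x k + δ x k := by
  unfold A
  rw [Finset.sum_range_succ]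

lemma A_zero (x : Coord n → ℝ) : A x 0 = 0 := by simp [A]

lemma A_mono (hn : 3 ≤ n) {x : Coord n → ℝ} (hx : IsMP x) : StrictMono (A x) := by
  apply strictMono_nat_of_lt_succ
  intro k
  rw [A_succ]
  have := (δ_mem hn hx k).1
  linarith

/-- the direction of the first side -/
def u0 (x : Coord n → ℝ) : ℂ := E x 0 / ‖E x 0‖

lemma u0_norm (hn : 3 ≤ n) {x : Coord n → ℝ} (hx : IsMP x) : ‖u0 x‖ = 1 := by
  unfold u0
  have := norm_pos_iff.2 (E_ne hn hx 0)
  rw [norm_div, Complex.norm_real, norm_norm, div_self this.ne']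

lemma polar (hn : 3 ≤ n) {x : Coord n → ℝ} (hx : IsMP x) (k : ℕ) :
    E x k = (‖E x k‖ : ℂ) * (u0 x * Complex.exp (A x k * Complex.I)) := by
  induction k with
  | zero =>
    rw [A_zero]
    unfold u0
    have : (‖E x 0‖ : ℂ) ≠ 0 := by
      rw [Complex.ofReal_ne_zero]
      exact (norm_pos_iff.2 (E_ne hn hx 0)).ne'
    simp only [Complex.ofReal_zero, zero_mul, Complex.exp_zero, mul_one]
    field_simp
  | succ k ih =>
    have hk : (‖E x k‖ : ℂ) ≠ 0 := by
      rw [Complex.ofReal_ne_zero]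
      exact (norm_pos_iff.2 (E_ne hn hx k)).ne'
    have h1 : ((‖E x (k + 1) * starRingEnd ℂ (E x k)‖ : ℝ) : ℂ) * Complex.exp (δ x k * Complex.I) =
        E x (k + 1) * starRingEnd ℂ (E x k) := Complex.norm_mul_exp_arg_mul_I _
    rw [norm_mul, RCLike.norm_conj] at h1
    push_cast at h1
    have h2 : starRingEnd ℂ (E x k) * E x k = (‖E x k‖ : ℂ) ^ 2 := by
      rw [mul_comm, Complex.mul_conj, Complex.normSq_eq_norm_sq]
      push_cast
      rfl
    have h3 : E x (k + 1) * (‖E x k‖ : ℂ) ^ 2 =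
        (‖E x (k + 1)‖ : ℂ) * (‖E x k‖ : ℂ) * Complex.exp (δ x k * Complex.I) * E x k := by
      rw [h1, mul_assoc, h2]
    rw [A_succ]
    push_cast
    rw [add_mul, Complex.exp_add]
    have h4 : (‖E x k‖ : ℂ) ^ 2 * E x (k + 1) = (‖E x k‖ : ℂ) ^ 2 * ((‖E x (k + 1)‖ : ℂ) *
        (u0 x * (Complex.exp (A x k * Complex.I) * Complex.exp (δ x k * Complex.I)))) := by
      rw [mul_comm, h3]
      conv_lhs => rw [ih]
      simp only [norm_mul, Complex.norm_real, norm_norm, u0_norm hn hx,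
        Complex.norm_exp_ofReal_mul_I, mul_one, one_mul]
      ring
    exact mul_left_cancel₀ (pow_ne_zero 2 hk) h4

lemma det2_E0 (hn : 3 ≤ n) {x : Coord n → ℝ} (hx : IsMP x) (k : ℕ) :
    det2 (E x 0) (E x k) = ‖E x 0‖ * ‖E x k‖ * Real.sin (A x k) := by
  have h0 : (‖E x 0‖ : ℂ) ≠ 0 := by
    rw [Complex.ofReal_ne_zero]
    exact (norm_pos_iff.2 (E_ne hn hx 0)).ne'
  have h1 : u0 x * starRingEnd ℂ (E x 0) = (‖E x 0‖ : ℂ) := by
    unfold u0
    rw [div_mul_eq_mul_div, Complex.mul_conj, Complex.normSq_eq_norm_sq]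
    push_cast
    field_simp
  rw [det2_eq']
  have h2 : E x k * starRingEnd ℂ (E x 0) =
      ((‖E x 0‖ * ‖E x k‖ : ℝ) : ℂ) * Complex.exp (A x k * Complex.I) := by
    conv_lhs => rw [polar hn hx k]
    push_cast
    rw [← h1]
    ring
  rw [h2, Complex.im_ofReal_mul, Complex.exp_ofReal_mul_I_im]

lemma det2_E0_pos (hn : 3 ≤ n) {x : Coord n → ℝ} (hx : IsMP x) {k : ℕ}
    (h : 2 * Real.pi ≤ A x k) (h2 : A x k < 3 * Real.pi) : 0 ≤ det2 (E x 0) (E x k) := by
  rw [det2_E0 hn hx]
  apply mul_nonneg (mul_nonneg (norm_nonneg _) (norm_nonneg _))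
  rw [← Real.sin_sub_two_pi]
  apply Real.sin_nonneg_of_nonneg_of_le_pi <;> linarith

lemma det2_E0_neg (hn : 3 ≤ n) {x : Coord n → ℝ} (hx : IsMP x) {k : ℕ}
    (h : Real.pi < A x k) (h2 : A x k < 2 * Real.pi) : det2 (E x 0) (E x k) < 0 := by
  rw [det2_E0 hn hx]
  have h0 := norm_pos_iff.2 (E_ne hn hx 0)
  have hk := norm_pos_iff.2 (E_ne hn hx k)
  apply mul_neg_of_pos_of_neg (mul_pos h0 hk)
  have : Real.sin (A x k) = -Real.sin (A x k - Real.pi) := by
    rw [Real.sin_sub_pi, neg_neg]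
  rw [this, neg_lt_zero]
  apply Real.sin_pos_of_pos_of_lt_pi <;> linarith

lemma ofNat_ne {j k : ℕ} (hj : j < n) (hk : k < n) (h : j ≠ k) :
    Fin.ofNat n j ≠ Fin.ofNat n k := by
  intro he
  have := congrArg Fin.val he
  simp only [Fin.ofNat] at this
  rw [Nat.mod_eq_of_lt hj, Nat.mod_eq_of_lt hk] at this
  exact h this

lemma A_lt (hn : 3 ≤ n) {x : Coord n → ℝ} (hx : IsMP x) : A x (n - 1) < 2 * Real.pi := by
  classical
  by_contra hcon
  push Not at hcon
  have hex : ∃ j, 2 * Real.pi ≤ A x j := ⟨n - 1, hcon⟩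
  set j := Nat.find hex with hj
  have hj1 : 2 * Real.pi ≤ A x j := Nat.find_spec hex
  have hj2 : j ≤ n - 1 := Nat.find_min' hex hcon
  have hpi := Real.pi_pos
  have hj0 : j ≠ 0 := by
    intro h
    rw [h, A_zero] at hj1
    linarith
  obtain ⟨m, hm⟩ : ∃ m, j = m + 1 := ⟨j - 1, by omega⟩
  have hm1 : A x m < 2 * Real.pi := by
    have := Nat.find_min hex (m := m) (by omega)
    push Not at this
    exact this
  have hm2 := A_succ x m
  have hm3 := δ_mem hn hx m
  rw [← hm] at hm2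
  have hm0 : m ≠ 0 := by
    intro h
    rw [h, A_zero] at hm2
    rw [h] at hm3
    linarith [hm3.2]
  -- the signs
  have s1 : det2 (E x 0) (E x m) < 0 := det2_E0_neg hn hx (by linarith [hm3.2]) hm1
  have s2 : 0 ≤ det2 (E x 0) (E x j) := det2_E0_pos hn hx hj1 (by linarith [hm3.2])
  have s3 : 0 < det2 (E x m) (E x j) := by rw [hm]; exact E_cons hn hx m
  -- the vertices
  have hsj : Fin.ofNat n j = Fin.ofNat n m + 1 := by rw [hm]; exact ofNat_succ m
  have h0' : (Fin.ofNat n 0) = (0 : Fin n) := by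
    apply Fin.ext
    simp
  have h1' : (Fin.ofNat n 0) + 1 = Fin.ofNat n 1 := (ofNat_succ 0).symm
  have n1 : Fin.ofNat n 0 ≠ Fin.ofNat n m := ofNat_ne (by omega) (by omega) (Ne.symm hm0)
  have n2 : Fin.ofNat n 0 ≠ Fin.ofNat n j := ofNat_ne (by omega) (by omega) (by omega)
  have n3 : Fin.ofNat n j ≠ Fin.ofNat n 1 := ofNat_ne (by omega) (by omega) (by omega)
  set w : ℂ := pt x (some (Fin.ofNat n 0)) - pt x (some (Fin.ofNat n j)) with hw
  have t1 : 0 < det2 (E x m) w := by
    have := hx.convex (Fin.ofNat n m) (Fin.ofNat n 0) n1 (by rw [← hsj]; exact n2)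
    have e1 : det2 (E x m) w = det2 (pt x (some (Fin.ofNat n m + 1)) - pt x (some (Fin.ofNat n m)))
        (pt x (some (Fin.ofNat n 0)) - pt x (some (Fin.ofNat n m))) := by
      rw [hw, hsj]
      unfold E e
      simp only [det2, Complex.sub_re, Complex.sub_im]
      ring
    rw [e1]
    exact this
  have t2 : 0 ≤ det2 (E x j) w := by
    by_cases h : Fin.ofNat n 0 = Fin.ofNat n j + 1
    · rw [hw, h]
      unfold E e
      simp only [det2]
      apply le_of_eq
      ring
    · exact (hx.convex (Fin.ofNat n j) (Fin.ofNat n 0) n2 h).le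
  have t3 : det2 (E x 0) w < 0 := by
    have := hx.convex (Fin.ofNat n 0) (Fin.ofNat n j) n2.symm (by rw [h1']; exact n3)
    have e1 : det2 (E x 0) w = -det2 (pt x (some (Fin.ofNat n 0 + 1)) - pt x (some (Fin.ofNat n 0)))
        (pt x (some (Fin.ofNat n j)) - pt x (some (Fin.ofNat n 0))) := by
      rw [hw]
      unfold E e
      simp only [det2, Complex.sub_re, Complex.sub_im]
      ring
    rw [e1]
    linarith
  have hp := plucker (E x m) (E x j) (E x 0) w
  have q1 := mul_neg_of_pos_of_neg s3 t3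
  have q2 : 0 ≤ -det2 (E x j) w * det2 (E x 0) (E x m) := by nlinarith
  have q3 : 0 ≤ det2 (E x m) w * det2 (E x 0) (E x j) := mul_nonneg t1.le s2
  linarith

end AnglesJA

open AnglesJA in
theorem specAngles : SpecAngles := by
  intro n _ hn x hx
  set g : ℝ := 2 * Real.pi - A x (n - 1) with hg
  have hg0 : 0 < g := by have := A_lt hn hx; linarith
  refine ⟨u0 x * Complex.exp ((-(g / 2) : ℝ) * Complex.I), fun i => A x i.val + g / 2, ?_, ?_, ?_, ?_⟩
  · rw [norm_mul, u0_norm hn hx, Complex.norm_exp_ofReal_mul_I, mul_one]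
  · intro i
    have h1 : A x 0 ≤ A x i.val := (A_mono hn hx).monotone (Nat.zero_le _)
    have h2 : A x i.val ≤ A x (n - 1) := (A_mono hn hx).monotone (by omega)
    rw [A_zero] at h1
    constructor
    · linarith
    · show A x i.val + g / 2 < 2 * Real.pi
      linarith
  · intro i j hij
    have := A_mono hn hx (show i.val < j.val from hij)
    show A x i.val + g / 2 < A x j.val + g / 2
    linarith
  · intro i
    have h1 := polar hn hx i.val
    have h2 : Fin.ofNat n i.val = i := by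
      apply Fin.ext
      simp [Nat.mod_eq_of_lt i.isLt]
    unfold E at h1
    rw [h2] at h1
    have h3 : (‖e x i‖ : ℝ) = side x i := rfl
    rw [h3] at h1
    show e x i = _
    rw [h1, mul_assoc (u0 x), ← Complex.exp_add]
    congr 3
    congr 1
    push_cast
    ring

end MP43832
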