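import Pool.Agent.Lib.MP_43832e_gt.JSpec
import Pool.Agent.Lib.MP_43832e_gt.Uniq

set_option linter.all false

/-!
# Marked polygons are limits of marked tables: the assembly
-/

noncomputable section

namespace MP43832

namespace Assemble

open Set Filter Topology MeasureTheory
open scoped ContDiff

variable {n : ℕ} [NeZero n]

lemma fin_succ {k : ℕ} (hk : k < n) (hk1 : k + 1 < n) : (⟨k, hk⟩ : Fin n) + 1 = ⟨k + 1, hk1⟩ := by
  apply Fin.ext
  have h3 : ((1 : Fin n) : ℕ) = 1 := by
    obtain ⟨m, rfl⟩ : ∃ m, n = m + 2 := ⟨n - 2, by omega⟩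
    rfl
  rw [Fin.val_add, h3]
  exact Nat.mod_eq_of_lt hk1

lemma filter_succ {k : ℕ} (hk : k < n) (hk1 : k + 1 < n) :
    Finset.univ.filter (fun j : Fin n => j < ⟨k + 1, hk1⟩) =
      insert ⟨k, hk⟩ (Finset.univ.filter (fun j : Fin n => j < ⟨k, hk⟩)) := by
  ext j
  simp only [Finset.mem_filter, Finset.mem_univ, true_and, Finset.mem_insert, Fin.lt_def,
    Fin.ext_iff]
  omega

lemma sum_filter_succ (f : Fin n → ℝ) {k : ℕ} (hk : k < n) (hk1 : k + 1 < n) :
    ∑ j ∈ Finset.univ.filter (fun j : Fin n => j < ⟨k + 1, hk1⟩), f j =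
      f ⟨k, hk⟩ + ∑ j ∈ Finset.univ.filter (fun j : Fin n => j < ⟨k, hk⟩), f j := by
  rw [filter_succ hk hk1, Finset.sum_insert (by simp)]

lemma sum_filter_zero (f : Fin n → ℝ) (h0 : 0 < n) :
    ∑ j ∈ Finset.univ.filter (fun j : Fin n => j < ⟨0, h0⟩), f j = 0 := by
  apply Finset.sum_eq_zero
  intro j hj
  rw [Finset.mem_filter, Fin.lt_def] at hj
  exact absurd hj.2 (Nat.not_lt_zero _)

variable (x : Coord n → ℝ) (w : ℂ) (β : Fin n → ℝ) (D : ℕ → MkTable.Dat)

/-- the curve, starting at the vertex `0` -/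
def Gam (m : ℕ) (s : ℝ) : ℂ := pt x (some 0) + w * ∫ u in (0 : ℝ)..s, (D m).T u

/-- the error on the side `i` -/
def eta (m : ℕ) (i : Fin n) : ℝ :=
  ∫ u in (Uniq.S x i)..(Uniq.S x i + side x i), ‖(D m).T u - Complex.exp (β i * Complex.I)‖

variable {x w β D}

lemma Gam_per (m : ℕ) (s : ℝ) : Gam x w D m (s + 1) = Gam x w D m s := by
  have h := (D m).γ_per s
  unfold MkTable.Dat.γ at h
  unfold Gam
  rw [add_left_cancel h]

lemma Gam_sub (m : ℕ) (a b : ℝ) : Gam x w D m b - Gam x w D m a = w * ∫ u in a..b, (D m).T u := by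
  unfold Gam
  rw [← intervalIntegral.integral_add_adjacent_intervals
    ((D m).T_cont.intervalIntegrable 0 a) ((D m).T_cont.intervalIntegrable a b)]
  ring

lemma piece (hw : ‖w‖ = 1) (m : ℕ) (i : Fin n) {r : ℝ} (hr : 0 ≤ r) (hr1 : r ≤ side x i) :
    ‖Gam x w D m (Uniq.S x i + r) - Gam x w D m (Uniq.S x i) -
      (r : ℂ) * (w * Complex.exp (β i * Complex.I))‖ ≤ eta x β D m i := by
  have hc : Continuous (fun u => (D m).T u - Complex.exp (β i * Complex.I)) :=
    (D m).T_cont.sub continuous_const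
  have h1 : Gam x w D m (Uniq.S x i + r) - Gam x w D m (Uniq.S x i) -
      (r : ℂ) * (w * Complex.exp (β i * Complex.I)) =
      w * ∫ u in (Uniq.S x i)..(Uniq.S x i + r), ((D m).T u - Complex.exp (β i * Complex.I)) := by
    rw [Gam_sub, intervalIntegral.integral_sub ((D m).T_cont.intervalIntegrable _ _)
      (continuous_const.intervalIntegrable _ _), intervalIntegral.integral_const,
      add_sub_cancel_left, Complex.real_smul]
    ring
  rw [h1, norm_mul, hw, one_mul]
  calc ‖∫ u in (Uniq.S x i)..(Uniq.S x i + r), ((D m).T u - Complex.exp (β i * Complex.I))‖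
      ≤ ∫ u in (Uniq.S x i)..(Uniq.S x i + r), ‖(D m).T u - Complex.exp (β i * Complex.I)‖ :=
        intervalIntegral.norm_integral_le_integral_norm (by linarith)
    _ ≤ eta x β D m i := by
        unfold eta
        refine intervalIntegral.integral_mono_interval (le_refl _) (by linarith) (by linarith)
          (Eventually.of_forall fun u => norm_nonneg _) (hc.norm.intervalIntegrable _ _)

lemma eta_nonneg (hn : 3 ≤ n) (hx : IsMP x) (m : ℕ) (i : Fin n) : 0 ≤ eta x β D m i := by
  unfold eta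
  refine intervalIntegral.integral_nonneg ?_ (fun u _ => norm_nonneg _)
  linarith [Uniq.side_pos hn hx i]

lemma vertex (hn : 3 ≤ n) (hx : IsMP x) (hw : ‖w‖ = 1)
    (hβ : ∀ i, pt x (some (i + 1)) - pt x (some i) =
        (side x i : ℂ) * (w * Complex.exp (β i * Complex.I))) (m : ℕ) :
    ∀ (k : ℕ) (hk : k < n), ‖Gam x w D m (Uniq.S x ⟨k, hk⟩) - pt x (some ⟨k, hk⟩)‖ ≤
      ∑ j ∈ Finset.univ.filter (fun j : Fin n => j < ⟨k, hk⟩), eta x β D m j := by
  intro k
  induction k with
  | zero =>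
    intro hk
    rw [sum_filter_zero]
    have h1 : Uniq.S x ⟨0, hk⟩ = 0 := sum_filter_zero _ _
    rw [h1]
    have h2 : (⟨0, hk⟩ : Fin n) = 0 := rfl
    rw [h2]
    simp [Gam]
  | succ k ih =>
    intro hk1
    have hk : k < n := by omega
    have h1 := ih hk
    rw [sum_filter_succ _ hk hk1]
    have h2 : Uniq.S x ⟨k + 1, hk1⟩ = Uniq.S x ⟨k, hk⟩ + side x ⟨k, hk⟩ := by
      unfold Uniq.S
      rw [sum_filter_succ _ hk hk1, add_comm]
    have h3 := piece (β := β) (D := D) hw m ⟨k, hk⟩ (Uniq.side_pos hn hx ⟨k, hk⟩).le (le_refl _)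
    rw [h2]
    have h4 := hβ ⟨k, hk⟩
    rw [fin_succ hk hk1] at h4
    have h5 : Gam x w D m (Uniq.S x ⟨k, hk⟩ + side x ⟨k, hk⟩) - pt x (some ⟨k + 1, hk1⟩) =
        (Gam x w D m (Uniq.S x ⟨k, hk⟩ + side x ⟨k, hk⟩) - Gam x w D m (Uniq.S x ⟨k, hk⟩) -
          (side x ⟨k, hk⟩ : ℂ) * (w * Complex.exp (β ⟨k, hk⟩ * Complex.I))) +
        (Gam x w D m (Uniq.S x ⟨k, hk⟩) - pt x (some ⟨k, hk⟩)) := by
      rw [← h4]; ring
    rw [h5]
    exact (norm_add_le _ _).trans (add_le_add h3 h1)

/-- the distance of the curve to the polygon -/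
lemma main_bound (hn : 3 ≤ n) (hx : IsMP x) (hw : ‖w‖ = 1)
    (hβ : ∀ i, pt x (some (i + 1)) - pt x (some i) =
        (side x i : ℂ) * (w * Complex.exp (β i * Complex.I))) (m : ℕ) (i : Fin n) {r : ℝ}
    (hr : 0 ≤ r) (hr1 : r ≤ side x i) :
    ‖Gam x w D m (Uniq.S x i + r) - (pt x (some i) + (r / side x i) •
      (pt x (some (i + 1)) - pt x (some i)))‖ ≤ ∑ j, eta x β D m j := by
  have h1 := vertex (D := D) hn hx hw hβ m i.1 i.2
  have h2 := piece (β := β) (D := D) hw m i hr hr1
  have hs := Uniq.side_pos hn hx i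
  have h3 : (r / side x i) • (pt x (some (i + 1)) - pt x (some i)) =
      (r : ℂ) * (w * Complex.exp (β i * Complex.I)) := by
    rw [hβ i, Complex.real_smul]
    push_cast
    have : (side x i : ℂ) ≠ 0 := by exact_mod_cast hs.ne'
    field_simp
  rw [h3]
  have h4 : Gam x w D m (Uniq.S x i + r) - (pt x (some i) +
      (r : ℂ) * (w * Complex.exp (β i * Complex.I))) =
      (Gam x w D m (Uniq.S x i + r) - Gam x w D m (Uniq.S x i) -
        (r : ℂ) * (w * Complex.exp (β i * Complex.I))) +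
      (Gam x w D m (Uniq.S x i) - pt x (some i)) := by ring
  rw [h4]
  refine (norm_add_le _ _).trans ((add_le_add h2 h1).trans ?_)
  have h5 : eta x β D m i + ∑ j ∈ Finset.univ.filter (fun j : Fin n => j < i), eta x β D m j =
      ∑ j ∈ insert i (Finset.univ.filter (fun j : Fin n => j < i)), eta x β D m j := by
    rw [Finset.sum_insert (by simp)]
  show eta x β D m i + ∑ j ∈ Finset.univ.filter (fun j : Fin n => j < i), eta x β D m j ≤ _
  rw [h5]
  exact Finset.sum_le_sum_of_subset_of_nonneg (Finset.subset_univ _)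
    (fun j _ _ => eta_nonneg hn hx m j)

lemma eta_tendsto (hn : 3 ≤ n) (hx : IsMP x)
    (hD : ∀ (i : Fin n) (s : ℝ), Uniq.S x i < s → s < Uniq.S x i + side x i →
      Tendsto (fun m => (D m).θ s) atTop (𝓝 (β i))) (i : Fin n) :
    Tendsto (fun m => eta x β D m i) atTop (𝓝 0) := by
  have hs := Uniq.side_pos hn hx i
  have h0 : (0 : ℝ) = ∫ u in (Uniq.S x i)..(Uniq.S x i + side x i), (0 : ℝ) := by simp
  unfold eta
  rw [h0]
  refine intervalIntegral.tendsto_integral_filter_of_dominated_convergence (fun _ => 2)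
    (Eventually.of_forall fun m => ?_) (Eventually.of_forall fun m => Eventually.of_forall
      fun u _ => ?_) (continuous_const.intervalIntegrable _ _) ?_
  · exact (((D m).T_cont.sub continuous_const).norm).aestronglyMeasurable
  · rw [Real.norm_eq_abs, abs_of_nonneg (norm_nonneg _)]
    refine (norm_sub_le _ _).trans ?_
    rw [(D m).T_norm, Complex.norm_exp_ofReal_mul_I]
    norm_num
  · have hne : ∀ᵐ u : ℝ, u ≠ Uniq.S x i + side x i := by
      have := (measure_singleton (μ := (volume : Measure ℝ)) (Uniq.S x i + side x i))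
      rw [ae_iff]
      simpa using this
    filter_upwards [hne] with u hu hui
    rw [uIoc_of_le (by linarith)] at hui
    have h1 := hD i u hui.1 (lt_of_le_of_ne hui.2 hu)
    have h2 : Tendsto (fun m => (D m).T u) atTop (𝓝 (Complex.exp (β i * Complex.I))) := by
      unfold MkTable.Dat.T
      exact (Complex.continuous_exp.tendsto _).comp
        (((Complex.continuous_ofReal.tendsto _).comp h1).mul_const _)
    have h3 := (h2.sub_const (Complex.exp (β i * Complex.I))).norm
    simpa using h3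

/-- rotation and shift of the data -/
def rot (D : MkTable.Dat) (φ s₀ : ℝ) (p : ℂ) : MkTable.Dat where
  θ s := D.θ (s + s₀) + φ
  θ' s := D.θ' (s + s₀)
  smooth := (D.smooth.comp (contDiff_id.add contDiff_const)).add contDiff_const
  der s := ((D.der (s + s₀)).comp_add_const s s₀).add_const φ
  pos s := D.pos _
  per s := by
    have := D.per (s + s₀)
    rw [show s + 1 + s₀ = s + s₀ + 1 by ring, this]
    ring
  surj y := by
    obtain ⟨s, hs⟩ := D.surj (y - φ)
    exact ⟨s - s₀, by simp only [sub_add_cancel]; rw [hs]; ring⟩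
  close := by
    have h1 : ∀ u : ℝ, Complex.exp (((D.θ (u + s₀) + φ : ℝ) : ℂ) * Complex.I) =
        D.T (u + s₀) * Complex.exp (φ * Complex.I) := by
      intro u
      unfold MkTable.Dat.T
      rw [← Complex.exp_add]
      push_cast
      ring_nf
    simp only [h1]
    rw [intervalIntegral.integral_mul_const, intervalIntegral.integral_comp_add_right (fun u => D.T u)]
    have hp : Function.Periodic D.T 1 := D.T_per
    have h2 := hp.intervalIntegral_add_eq s₀ 0
    rw [zero_add] at h2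
    have h3 : ∫ x in (0 : ℝ)..1, D.T x = 0 := D.close
    rw [zero_add, add_comm 1 s₀, h2, h3, zero_mul]
  p := p

lemma rot_T (D : MkTable.Dat) (φ s₀ : ℝ) (p : ℂ) (u : ℝ) :
    (rot D φ s₀ p).T u = Complex.exp (φ * Complex.I) * D.T (u + s₀) := by
  unfold MkTable.Dat.T rot
  rw [← Complex.exp_add]
  push_cast
  ring_nf

lemma rot_γ (m : ℕ) (φ s₀ : ℝ) (hφ : w = Complex.exp (φ * Complex.I)) (t : ℝ) :
    (rot (D m) φ s₀ (Gam x w D m s₀)).γ t = Gam x w D m (s₀ + t) := by
  unfold MkTable.Dat.γ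
  have h1 : (rot (D m) φ s₀ (Gam x w D m s₀)).p = Gam x w D m s₀ := rfl
  rw [h1]
  simp only [rot_T]
  rw [intervalIntegral.integral_const_mul, intervalIntegral.integral_comp_add_right
    (fun u => (D m).T u), ← hφ, zero_add, add_comm t s₀, ← Gam_sub (x := x) (w := w) (D := D)]
  ring

end Assemble

open Set Filter Topology MeasureTheory Assemble in
/-- JD -/
theorem specAssemble : SpecAssemble := by
  intro hA hF n _ hn x hx
  obtain ⟨w, β, hw, hβ1, hβ2, hβ⟩ := hA n hn x hx
  have hpos := Uniq.side_pos hn hx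
  -- the closing condition
  have hclose : ∑ i, (side x i : ℂ) * Complex.exp (β i * Complex.I) = 0 := by
    have h1 : ∑ i : Fin n, (pt x (some (i + 1)) - pt x (some i)) = 0 := by
      rw [Finset.sum_sub_distrib, sub_eq_zero]
      exact Equiv.sum_comp (Equiv.addRight (1 : Fin n)) (fun i => pt x (some i))
    simp only [hβ] at h1
    have h2 : ∑ i, (side x i : ℂ) * (w * Complex.exp (β i * Complex.I)) =
        w * ∑ i, (side x i : ℂ) * Complex.exp (β i * Complex.I) := by
      rw [Finset.mul_sum]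
      exact Finset.sum_congr rfl fun i _ => by ring
    rw [h2] at h1
    refine (mul_eq_zero.1 h1).resolve_left ?_
    rintro rfl
    simp at hw
  obtain ⟨D, hD⟩ := hF n β (side x) hβ2 hβ1 hpos hx.perimeter hclose
  have hη : ∀ i, Tendsto (fun m => eta x β D m i) atTop (𝓝 0) :=
    fun i => eta_tendsto (β := β) (D := D) hn hx hD i
  have hE : Tendsto (fun m => ∑ j, eta x β D m j) atTop (𝓝 0) := by
    have := tendsto_finsetSum Finset.univ (fun j _ => hη j)
    simpa using this
  -- the limit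
  set G : ℝ → ℂ := fun s => limUnder atTop (fun m => Gam x w D m s) with hG
  have hGper : ∀ s, G (s + 1) = G s := by
    intro s
    simp only [hG, Gam_per]
  have hlim : ∀ (i : Fin n) (r : ℝ), 0 ≤ r → r ≤ side x i →
      G (Uniq.S x i + r) = pt x (some i) + (r / side x i) •
        (pt x (some (i + 1)) - pt x (some i)) := by
    intro i r hr hr1
    apply Tendsto.limUnder_eq
    rw [tendsto_iff_norm_sub_tendsto_zero]
    exact squeeze_zero (fun _ => norm_nonneg _)
      (fun m => main_bound hn hx hw hβ m i hr hr1) hE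
  have hunif : ∀ m s, ‖Gam x w D m s - G s‖ ≤ ∑ j, eta x β D m j := by
    intro m s
    have e1 : Gam x w D m s = Gam x w D m (Int.fract s) := by
      have := Uniq.per_int (c := Gam x w D m) (Gam_per m) (Int.fract s) ⌊s⌋
      rw [Int.fract_add_floor] at this
      exact this
    have e2 : G s = G (Int.fract s) := by
      have := Uniq.per_int (c := G) hGper (Int.fract s) ⌊s⌋
      rw [Int.fract_add_floor] at this
      exact this
    obtain ⟨i, r, hr, hr1, he⟩ := Uniq.exists_piece hn hx (Int.fract s) (Int.fract_nonneg s)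
      (Int.fract_lt_one s)
    rw [e1, e2, he, hlim i r hr hr1.le]
    exact main_bound hn hx hw hβ m i hr hr1.le
  -- the marked point
  obtain ⟨i₀, hi₀⟩ := hx.marked
  rw [segment_eq_image'] at hi₀
  obtain ⟨ρ, ⟨hρ0, hρ1⟩, hρ⟩ := hi₀
  set s₀ := Uniq.S x i₀ + ρ * side x i₀ with hs₀
  refine ⟨fun t => G (s₀ + t), ⟨?_, ?_, ⟨-s₀, ?_⟩⟩, ?_⟩
  · intro t
    show G (s₀ + (t + 1)) = G (s₀ + t)
    rw [← add_assoc, hGper]
  · show G (s₀ + 0) = _
    rw [add_zero, hs₀, hlim i₀ _ (mul_nonneg hρ0 (hpos i₀).le) (by nlinarith [hpos i₀]),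
      mul_div_assoc, div_self (hpos i₀).ne', mul_one]
    exact hρ
  · intro i r hr
    show G (s₀ + (-s₀ + _ + r)) = _
    rw [← hlim i r hr.1 hr.2]
    congr 1
    unfold Uniq.S
    ring
  · obtain ⟨φ, hφ⟩ : ∃ φ : ℝ, w = Complex.exp (φ * Complex.I) := by
      refine ⟨Complex.arg w, ?_⟩
      have := Complex.norm_mul_exp_arg_mul_I w
      rw [hw] at this
      simpa using this.symm
    refine ⟨fun m => (rot (D m) φ s₀ (Gam x w D m s₀)).table, ?_⟩
    rw [Metric.tendstoUniformly_iff]
    intro ε hε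
    filter_upwards [hE.eventually (gt_mem_nhds hε)] with m hm t
    have e1 : (rot (D m) φ s₀ (Gam x w D m s₀)).table.γ t = Gam x w D m (s₀ + t) :=
      rot_γ m φ s₀ hφ t
    rw [e1, dist_comm, dist_eq_norm]
    exact (hunif m (s₀ + t)).trans_lt hm

end MP43832
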