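import Pool.Agent.Lib.MP_43832e_gt.Rho

set_option linter.all false

noncomputable section

namespace MP43832

open Set Filter Topology MeasureTheory
open scoped ContDiff

namespace FamilyJC

/-- the unnormalised kernel -/
def G (ε θ : ℝ) : ℝ := expNegInvGlue (Real.cos θ - Real.cos ε)

lemma G_smooth (ε : ℝ) : ContDiff ℝ ∞ (G ε) :=
  expNegInvGlue.contDiff.comp (Real.contDiff_cos.sub contDiff_const)

lemma G_cont (ε : ℝ) : Continuous (G ε) := (G_smooth ε).continuous

lemma G_nonneg (ε θ : ℝ) : 0 ≤ G ε θ := expNegInvGlue.nonneg _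

lemma G_per (ε θ : ℝ) : G ε (θ + 2 * Real.pi) = G ε θ := by
  unfold G
  rw [Real.cos_add_two_pi]

lemma G_zero {ε θ : ℝ} (hε : 0 < ε) (h1 : ε ≤ θ) (h2 : θ ≤ 2 * Real.pi - ε) : G ε θ = 0 := by
  unfold G
  apply expNegInvGlue.zero_of_nonpos
  rw [sub_nonpos]
  rcases le_total θ Real.pi with h | h
  · exact Real.cos_le_cos_of_nonneg_of_le_pi hε.le h h1
  · rw [← Real.cos_two_pi_sub θ]
    exact Real.cos_le_cos_of_nonneg_of_le_pi hε.le (by linarith) (by linarith)

lemma G_zero' {ε θ : ℝ} (hε : 0 < ε) (h1 : -(2 * Real.pi) + ε ≤ θ) (h2 : θ ≤ -ε) : G ε θ = 0 := by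
  rw [← G_per]
  exact G_zero hε (by linarith) (by linarith)

/-- the normalising constant -/
def K (ε : ℝ) : ℝ := ∫ u in (0 : ℝ)..(2 * Real.pi), G ε u

lemma K_pos {ε : ℝ} (h0 : 0 < ε) (h1 : ε < 1) : 0 < K ε := by
  apply intervalIntegral.integral_pos Real.two_pi_pos (G_cont ε).continuousOn
    (fun x _ => G_nonneg ε x)
  refine ⟨0, ⟨le_rfl, Real.two_pi_pos.le⟩, ?_⟩
  unfold G
  apply expNegInvGlue.pos_of_pos
  rw [Real.cos_zero, sub_pos]
  have := Real.cos_lt_cos_of_nonneg_of_le_pi (x := 0) (y := ε) le_rfl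
    (by linarith [Real.pi_gt_three]) h0
  rwa [Real.cos_zero] at this

/-- the kernel -/
def φ (ε θ : ℝ) : ℝ := (K ε)⁻¹ * G ε θ

lemma φ_smooth (ε : ℝ) : ContDiff ℝ ∞ (φ ε) := contDiff_const.mul (G_smooth ε)

lemma φ_cont (ε : ℝ) : Continuous (φ ε) := (φ_smooth ε).continuous

lemma φ_nonneg {ε : ℝ} (h0 : 0 < ε) (h1 : ε < 1) (θ : ℝ) : 0 ≤ φ ε θ :=
  mul_nonneg (inv_nonneg.2 (K_pos h0 h1).le) (G_nonneg ε θ)

lemma φ_per (ε θ : ℝ) : φ ε (θ + 2 * Real.pi) = φ ε θ := by
  unfold φ
  rw [G_per]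

lemma φ_int {ε : ℝ} (h0 : 0 < ε) (h1 : ε < 1) : ∫ u in (0 : ℝ)..(2 * Real.pi), φ ε u = 1 := by
  unfold φ
  rw [intervalIntegral.integral_const_mul]
  exact inv_mul_cancel₀ (K_pos h0 h1).ne'

lemma int_shift {f : ℝ → ℂ} (hf : ∀ u, f (u + 2 * Real.pi) = f u) (b : ℝ) :
    ∫ u in (0 : ℝ)..(2 * Real.pi), f (u - b) = ∫ u in (0 : ℝ)..(2 * Real.pi), f u := by
  rw [intervalIntegral.integral_comp_sub_right]
  have hp : Function.Periodic f (2 * Real.pi) := hf
  have := hp.intervalIntegral_add_eq (0 - b) 0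
  rw [zero_add] at this
  rw [← this]
  congr 1
  ring

lemma int_shift' {f : ℝ → ℝ} (hf : ∀ u, f (u + 2 * Real.pi) = f u) (b : ℝ) :
    ∫ u in (0 : ℝ)..(2 * Real.pi), f (u - b) = ∫ u in (0 : ℝ)..(2 * Real.pi), f u := by
  rw [intervalIntegral.integral_comp_sub_right]
  have hp : Function.Periodic f (2 * Real.pi) := hf
  have := hp.intervalIntegral_add_eq (0 - b) 0
  rw [zero_add] at this
  rw [← this]
  congr 1
  ring

variable {n : ℕ} (β ℓ : Fin n → ℝ)

/-- the radius of curvature -/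
def ρ (ε θ : ℝ) : ℝ := (1 - ε) * ∑ j, ℓ j * φ ε (θ - β j) + ε / (2 * Real.pi)

lemma ρ_smooth (ε : ℝ) : ContDiff ℝ ∞ (ρ β ℓ ε) := by
  unfold ρ
  refine (contDiff_const.mul ?_).add contDiff_const
  apply ContDiff.sum
  intro j _
  exact contDiff_const.mul ((φ_smooth ε).comp (contDiff_id.sub contDiff_const))

variable {β ℓ}

lemma ρ_pos (hℓ : ∀ i, 0 < ℓ i) {ε : ℝ} (h0 : 0 < ε) (h1 : ε < 1) (θ : ℝ) : 0 < ρ β ℓ ε θ := by
  unfold ρ
  have h2 : 0 ≤ ∑ j, ℓ j * φ ε (θ - β j) :=
    Finset.sum_nonneg (fun j _ => mul_nonneg (hℓ j).le (φ_nonneg h0 h1 _))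
  have h3 : 0 < ε / (2 * Real.pi) := div_pos h0 Real.two_pi_pos
  have h4 : 0 ≤ 1 - ε := by linarith
  have := mul_nonneg h4 h2
  linarith

lemma ρ_per (ε θ : ℝ) : ρ β ℓ ε (θ + 2 * Real.pi) = ρ β ℓ ε θ := by
  unfold ρ
  have : ∀ j, φ ε (θ + 2 * Real.pi - β j) = φ ε (θ - β j) := by
    intro j
    rw [← φ_per ε (θ - β j)]
    congr 1
    ring
  simp only [this]

/-- the primitive of the kernel -/
def Φ (ε b y : ℝ) : ℝ := ∫ u in (0 : ℝ)..y, φ ε (u - b)

lemma ii (ε b c y : ℝ) : IntervalIntegrable (fun u => φ ε (u - b)) volume c y := by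
  apply Continuous.intervalIntegrable
  exact (φ_cont ε).comp (continuous_id.sub continuous_const)

lemma ρ_int (ε y : ℝ) : ∫ u in (0 : ℝ)..y, ρ β ℓ ε u =
    (1 - ε) * ∑ j, ℓ j * Φ ε (β j) y + ε / (2 * Real.pi) * y := by
  unfold ρ
  rw [intervalIntegral.integral_add, intervalIntegral.integral_const_mul,
    intervalIntegral.integral_finset_sum]
  · congr 1
    · congr 1
      apply Finset.sum_congr rfl
      intro j _
      rw [intervalIntegral.integral_const_mul]
      rfl
    · rw [intervalIntegral.integral_const]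
      simp [mul_comm]
  · intro j _
    exact (ii ε (β j) 0 y).const_mul _
  · apply Continuous.intervalIntegrable
    refine continuous_const.mul ?_
    apply continuous_finset_sum
    intro j _
    exact continuous_const.mul ((φ_cont ε).comp (continuous_id.sub continuous_const))
  · exact intervalIntegrable_const

lemma Φ_two_pi {ε : ℝ} (h0 : 0 < ε) (h1 : ε < 1) (b : ℝ) : Φ ε b (2 * Real.pi) = 1 := by
  unfold Φ
  rw [int_shift' (φ_per ε), φ_int h0 h1]

lemma Φ_nonneg {ε : ℝ} (h0 : 0 < ε) (h1 : ε < 1) (b : ℝ) {y : ℝ} (hy : 0 ≤ y) : 0 ≤ Φ ε b y := by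
  unfold Φ
  exact intervalIntegral.integral_nonneg hy (fun u _ => φ_nonneg h0 h1 _)

lemma Φ_add (ε b y : ℝ) : Φ ε b y + ∫ u in y..(2 * Real.pi), φ ε (u - b) = Φ ε b (2 * Real.pi) := by
  unfold Φ
  exact intervalIntegral.integral_add_adjacent_intervals (ii ε b 0 y) (ii ε b y _)

lemma Φ_le_one {ε : ℝ} (h0 : 0 < ε) (h1 : ε < 1) (b : ℝ) {y : ℝ} (hy : y ≤ 2 * Real.pi) :
    Φ ε b y ≤ 1 := by
  have h := Φ_add ε b y
  rw [Φ_two_pi h0 h1] at h
  have : 0 ≤ ∫ u in y..(2 * Real.pi), φ ε (u - b) :=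
    intervalIntegral.integral_nonneg hy (fun u _ => φ_nonneg h0 h1 _)
  linarith

lemma Φ_zero {ε : ℝ} (h0 : 0 < ε) {b y : ℝ} (hy : 0 ≤ y) (hb : b ≤ 2 * Real.pi - ε)
    (hyb : y ≤ b - ε) : Φ ε b y = 0 := by
  unfold Φ
  rw [intervalIntegral.integral_congr (g := fun _ => (0 : ℝ)), intervalIntegral.integral_zero]
  intro u hu
  rw [uIcc_of_le hy] at hu
  simp only [φ]
  rw [G_zero' h0 (by linarith [hu.1]) (by linarith [hu.2]), mul_zero]

lemma Φ_one {ε : ℝ} (h0 : 0 < ε) (h1 : ε < 1) {b y : ℝ} (hy : y ≤ 2 * Real.pi) (hb : ε ≤ b)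
    (hyb : b + ε ≤ y) : Φ ε b y = 1 := by
  have h := Φ_add ε b y
  rw [Φ_two_pi h0 h1] at h
  have h2 : ∫ u in y..(2 * Real.pi), φ ε (u - b) = 0 := by
    rw [intervalIntegral.integral_congr (g := fun _ => (0 : ℝ)), intervalIntegral.integral_zero]
    intro u hu
    rw [uIcc_of_le hy] at hu
    simp only [φ]
    rw [G_zero h0 (by linarith [hu.1]) (by linarith [hu.2]), mul_zero]
  linarith

lemma ρ_int_one (hsum : ∑ i, ℓ i = 1) {ε : ℝ} (h0 : 0 < ε) (h1 : ε < 1) :
    ∫ u in (0 : ℝ)..(2 * Real.pi), ρ β ℓ ε u = 1 := by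
  rw [ρ_int]
  simp only [Φ_two_pi h0 h1, mul_one]
  rw [hsum]
  have := Real.two_pi_pos.ne'
  field_simp
  ring

lemma exp_int : ∫ u in (0 : ℝ)..(2 * Real.pi), Complex.exp (u * Complex.I) = 0 := by
  have h : ∀ u : ℝ, HasDerivAt (fun u : ℝ => -Complex.I * Complex.exp (u * Complex.I))
      (Complex.exp (u * Complex.I)) u := by
    intro u
    have h1 : HasDerivAt (fun u : ℝ => (u : ℂ) * Complex.I) Complex.I u := by
      have := (hasDerivAt_id u).ofReal_comp.mul_const Complex.I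
      simpa using this
    have h2 := (h1.cexp).const_mul (-Complex.I)
    have e : Complex.exp (u * Complex.I) = -Complex.I * (Complex.exp (u * Complex.I) * Complex.I) := by
      have h3 : Complex.I * Complex.I = -1 := Complex.I_mul_I
      linear_combination (Complex.exp (u * Complex.I)) * h3
    exact h2.congr_deriv e.symm
  rw [intervalIntegral.integral_eq_sub_of_hasDerivAt (fun u _ => h u)]
  · push_cast
    rw [Complex.exp_two_pi_mul_I]
    simp
  · apply Continuous.intervalIntegrable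
    fun_prop

lemma ρ_close (hcl : ∑ i, (ℓ i : ℂ) * Complex.exp (β i * Complex.I) = 0) (ε : ℝ) :
    ∫ u in (0 : ℝ)..(2 * Real.pi), (ρ β ℓ ε u : ℂ) * Complex.exp (u * Complex.I) = 0 := by
  set κ : ℂ := ∫ u in (0 : ℝ)..(2 * Real.pi), (φ ε u : ℂ) * Complex.exp (u * Complex.I) with hκ
  have hper : ∀ u : ℝ, (φ ε (u + 2 * Real.pi) : ℂ) * Complex.exp ((u + 2 * Real.pi : ℝ) * Complex.I) =
      (φ ε u : ℂ) * Complex.exp (u * Complex.I) := by
    intro u
    rw [φ_per]
    push_cast
    rw [add_mul, Complex.exp_add, Complex.exp_two_pi_mul_I, mul_one]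
  have hj : ∀ j, ∫ u in (0 : ℝ)..(2 * Real.pi), (φ ε (u - β j) : ℂ) * Complex.exp (u * Complex.I) =
      Complex.exp (β j * Complex.I) * κ := by
    intro j
    have h1 := int_shift (f := fun u : ℝ => (φ ε u : ℂ) * Complex.exp (u * Complex.I)) hper (β j)
    rw [hκ, ← h1, ← intervalIntegral.integral_const_mul]
    apply intervalIntegral.integral_congr
    intro u _
    simp only
    rw [mul_left_comm, ← Complex.exp_add]
    congr 2
    push_cast
    ring
  have hc1 : ∀ j, Continuous (fun u : ℝ => (φ ε (u - β j) : ℂ) * Complex.exp (u * Complex.I)) := by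
    intro j
    have h1 : Continuous (fun u : ℝ => (φ ε (u - β j) : ℂ)) :=
      Complex.continuous_ofReal.comp ((φ_cont ε).comp (continuous_id.sub continuous_const))
    refine h1.mul ?_
    fun_prop
  have h1 : ∀ u : ℝ, (ρ β ℓ ε u : ℂ) * Complex.exp (u * Complex.I) =
      (1 - ε : ℂ) * ∑ j, (ℓ j : ℂ) * ((φ ε (u - β j) : ℂ) * Complex.exp (u * Complex.I)) +
        (ε / (2 * Real.pi) : ℂ) * Complex.exp (u * Complex.I) := by
    intro u
    unfold ρ
    push_cast
    rw [add_mul, mul_assoc, Finset.sum_mul]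
    congr 2
    apply Finset.sum_congr rfl
    intro j _
    ring
  simp_rw [h1]
  rw [intervalIntegral.integral_add, intervalIntegral.integral_const_mul,
    intervalIntegral.integral_const_mul, exp_int, mul_zero, add_zero,
    intervalIntegral.integral_finset_sum]
  · simp_rw [intervalIntegral.integral_const_mul, hj, ← mul_assoc]
    rw [← Finset.sum_mul, hcl, zero_mul, mul_zero]
  · intro j _
    exact ((hc1 j).const_mul _).intervalIntegrable _ _
  · apply Continuous.intervalIntegrable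
    refine continuous_const.mul ?_
    apply continuous_finset_sum
    intro j _
    exact continuous_const.mul (hc1 j)
  · apply Continuous.intervalIntegrable
    fun_prop

end FamilyJC

open FamilyJC in
theorem specFamily : SpecFamily := by
  intro n _ β ℓ hβ hβ2 hℓ hsum hcl
  set e : ℕ → ℝ := fun m => 1 / ((m : ℝ) + 2) with he
  have he0 : ∀ m, 0 < e m := fun m => by simp only [he]; positivity
  have he1 : ∀ m, e m < 1 := fun m => by
    simp only [he]
    rw [div_lt_one (by positivity)]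
    have : (0 : ℝ) ≤ m := Nat.cast_nonneg m
    linarith
  have helim : Tendsto e atTop (𝓝 0) := by
    have h1 : Tendsto (fun m : ℕ => (m : ℝ) + 2) atTop atTop :=
      tendsto_atTop_add_const_right _ _ tendsto_natCast_atTop_atTop
    exact (tendsto_const_nhds (x := (1 : ℝ))).div_atTop h1
  have hD : ∀ m, ∃ D : MkTable.Dat, ∀ s, ∫ u in (0 : ℝ)..(D.θ s), ρ β ℓ (e m) u = s := fun m =>
    specRho (ρ β ℓ (e m)) (ρ_smooth β ℓ (e m)) (ρ_pos hℓ (he0 m) (he1 m)) (ρ_per (e m))
      (ρ_int_one hsum (he0 m) (he1 m)) (ρ_close hcl (e m))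
  choose D hD using hD
  refine ⟨D, ?_⟩
  intro i s hs1 hs2
  set L : ℝ := ∑ j ∈ Finset.univ.filter (fun j => j < i), ℓ j with hL
  have hL0 : 0 ≤ L := Finset.sum_nonneg (fun j _ => (hℓ j).le)
  -- monotonicity
  have hmono : ∀ m, StrictMono (fun y => ∫ u in (0 : ℝ)..y, ρ β ℓ (e m) u) := by
    intro m
    apply strictMono_of_deriv_pos
    intro y
    rw [(RhoJB.F_der (ρ_smooth β ℓ (e m)).continuous y).deriv]
    exact ρ_pos hℓ (he0 m) (he1 m) y
  rw [Metric.tendsto_atTop]
  suffices h : ∀ η : ℝ, 0 < η → η ≤ β i → η ≤ 2 * Real.pi - β i → ∃ N, ∀ m ≥ N,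
      dist ((D m).θ s) (β i) < η by
    intro η hη
    obtain ⟨N, hN⟩ := h (min η (min (β i) (2 * Real.pi - β i)))
      (lt_min hη (lt_min (hβ2 i).1 (by linarith [(hβ2 i).2])))
      ((min_le_right _ _).trans (min_le_left _ _)) ((min_le_right _ _).trans (min_le_right _ _))
    exact ⟨N, fun m hm => (hN m hm).trans_le (min_le_left _ _)⟩
  intro η hη hη1 hη2
  -- a lower bound for the distance from the `β j` to `0` and `2 π`
  obtain ⟨b0, hb0, hb1⟩ : ∃ b0 : ℝ, 0 < b0 ∧ ∀ j, b0 ≤ β j ∧ b0 ≤ 2 * Real.pi - β j := by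
    have hne : (Finset.univ : Finset (Fin n)).Nonempty := ⟨0, Finset.mem_univ _⟩
    refine ⟨Finset.univ.inf' hne (fun j => min (β j) (2 * Real.pi - β j)), ?_, ?_⟩
    · rw [Finset.lt_inf'_iff]
      intro j _
      exact lt_min (hβ2 j).1 (by linarith [(hβ2 j).2])
    · intro j
      have := Finset.inf'_le (fun j => min (β j) (2 * Real.pi - β j)) (Finset.mem_univ j)
      exact ⟨this.trans (min_le_left _ _), this.trans (min_le_right _ _)⟩
  -- the smallness conditions
  have hev : ∀ᶠ m in atTop, e m < η ∧ e m < b0 ∧ e m < s - L ∧ e m < (L + ℓ i - s) := by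
    have h1 : ∀ c : ℝ, 0 < c → ∀ᶠ m in atTop, e m < c := fun c hc =>
      (tendsto_order.1 helim).2 c hc
    exact (h1 _ hη).and ((h1 _ hb0).and ((h1 _ (by linarith)).and (h1 _ (by linarith))))
  obtain ⟨N, hN⟩ := eventually_atTop.1 hev
  refine ⟨N, fun m hm => ?_⟩
  obtain ⟨k1, k2, k3, k4⟩ := hN m hm
  have p0 := he0 m
  have p1 := he1 m
  rw [Real.dist_eq, abs_lt]
  constructor
  · -- `β i - η < θ`
    have key : ∫ u in (0 : ℝ)..(β i - η), ρ β ℓ (e m) u < s := by
      rw [ρ_int]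
      have h1 : ∑ j, ℓ j * Φ (e m) (β j) (β i - η) ≤ L := by
        rw [hL, Finset.sum_filter]
        apply Finset.sum_le_sum
        intro j _
        by_cases hji : j < i
        · rw [if_pos hji]
          have := Φ_le_one p0 p1 (β j) (y := β i - η) (by linarith [(hβ2 i).2])
          nlinarith [hℓ j]
        · rw [if_neg hji]
          have h2 : β i ≤ β j := hβ.monotone (not_lt.1 hji)
          rw [Φ_zero p0 (by linarith) (by linarith [(hb1 j).2]) (by linarith), mul_zero]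
      have h2 : 0 ≤ ∑ j, ℓ j * Φ (e m) (β j) (β i - η) :=
        Finset.sum_nonneg (fun j _ => mul_nonneg (hℓ j).le (Φ_nonneg p0 p1 _ (by linarith)))
      have h3 : e m / (2 * Real.pi) * (β i - η) ≤ e m := by
        rw [div_mul_eq_mul_div, div_le_iff₀ Real.two_pi_pos]
        apply mul_le_mul_of_nonneg_left _ p0.le
        linarith [(hβ2 i).2]
      nlinarith
    have h4 : (∫ u in (0 : ℝ)..(β i - η), ρ β ℓ (e m) u) < ∫ u in (0 : ℝ)..((D m).θ s), ρ β ℓ (e m) u := by
      rw [hD m s]; exact key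
    have := (hmono m).lt_iff_lt.1 h4
    linarith
  · -- `θ < β i + η`
    have key : s < ∫ u in (0 : ℝ)..(β i + η), ρ β ℓ (e m) u := by
      rw [ρ_int]
      have h1 : L + ℓ i ≤ ∑ j, ℓ j * Φ (e m) (β j) (β i + η) := by
        have hsplit : L + ℓ i = ∑ j, if j ≤ i then ℓ j else 0 := by
          rw [← Finset.sum_filter]
          have hins : Finset.univ.filter (fun j : Fin n => j ≤ i) =
              insert i (Finset.univ.filter (fun j => j < i)) := by
            ext j
            simp only [Finset.mem_insert, Finset.mem_filter, Finset.mem_univ, true_and]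
            constructor
            · intro h
              exact h.eq_or_lt
            · rintro (h | h)
              · exact h.le
              · exact h.le
          rw [hins, Finset.sum_insert (by simp)]
          rw [add_comm]
        rw [hsplit]
        apply Finset.sum_le_sum
        intro j _
        by_cases hji : j ≤ i
        · rw [if_pos hji]
          have h2 : β j ≤ β i := hβ.monotone hji
          rw [Φ_one p0 p1 (by linarith) (by linarith [(hb1 j).1]) (by linarith), mul_one]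
        · rw [if_neg hji]
          exact mul_nonneg (hℓ j).le (Φ_nonneg p0 p1 _ (by linarith [(hβ2 i).1]))
      have h2 : ∑ j, ℓ j * Φ (e m) (β j) (β i + η) ≤ 1 := by
        rw [← hsum]
        apply Finset.sum_le_sum
        intro j _
        have := Φ_le_one p0 p1 (β j) (y := β i + η) (by linarith)
        nlinarith [hℓ j]
      have h3 : 0 ≤ e m / (2 * Real.pi) * (β i + η) :=
        mul_nonneg (div_nonneg p0.le Real.two_pi_pos.le) (by linarith [(hβ2 i).1])
      nlinarith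
    have h4 : (∫ u in (0 : ℝ)..((D m).θ s), ρ β ℓ (e m) u) < ∫ u in (0 : ℝ)..(β i + η), ρ β ℓ (e m) u := by
      rw [hD m s]; exact key
    have := (hmono m).lt_iff_lt.1 h4
    linarith

end MP43832
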