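import Pool.Agent.Lib.MP_43832e_gt.Angles
import Pool.Agent.Lib.MP_43832e_gt.Family
import Pool.Agent.Lib.MP_43832e_gt.Assemble

set_option linter.all false

namespace MP43832

/-- J: marked polygons are limits of marked tables -/
theorem specApprox : SpecApprox := specAssemble specAngles specFamily

end MP43832
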