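import Pool.Agent.Lib.MP_43832e_gt.Spec

/-!
# Brouwer's theorem: a bounded continuous perturbation of the identity has a zero

The proof is the one of Milnor and Rogers: the volume of the image of a ball under
`(1 - t) x + t G x` is a polynomial in `t`.
-/

noncomputable section

namespace MP43832

namespace Brouwer

open Set Filter Topology MeasureTheory Metric
open scoped ContDiff NNReal Convolution

section Vol

variable {E : Type*} [NormedAddCommGroup E] [InnerProductSpace ℝ E] [FiniteDimensional ℝ E]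
  [MeasurableSpace E] [BorelSpace E]

omit [FiniteDimensional ℝ E] [MeasurableSpace E] [BorelSpace E] in
theorem norm_normalize_sub {a b : E} (ha : a ≠ 0) (hb : b ≠ 0) :
    ‖‖a‖⁻¹ • a - ‖b‖⁻¹ • b‖ ≤ 2 * ‖a‖⁻¹ * ‖a - b‖ := by
  have ha' : 0 < ‖a‖ := norm_pos_iff.mpr ha
  have hb' : 0 < ‖b‖ := norm_pos_iff.mpr hb
  have e : ‖a‖⁻¹ • a - ‖b‖⁻¹ • b = ‖a‖⁻¹ • (a - b) + (‖a‖⁻¹ - ‖b‖⁻¹) • b := by
    rw [smul_sub, sub_smul]; abel
  rw [e]
  refine (norm_add_le _ _).trans ?_
  rw [norm_smul, norm_smul]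
  have h1 : ‖‖a‖⁻¹‖ = ‖a‖⁻¹ := by rw [norm_inv, norm_norm]
  have h2 : ‖‖a‖⁻¹ - ‖b‖⁻¹‖ * ‖b‖ = |‖b‖ - ‖a‖| * ‖a‖⁻¹ := by
    have : ‖a‖⁻¹ - ‖b‖⁻¹ = (‖b‖ - ‖a‖) * (‖a‖⁻¹ * ‖b‖⁻¹) := by
      field_simp
    rw [this, Real.norm_eq_abs, abs_mul, abs_of_pos (by positivity : 0 < ‖a‖⁻¹ * ‖b‖⁻¹)]
    field_simp
  rw [h1, h2]
  have h3 : |‖b‖ - ‖a‖| ≤ ‖a - b‖ := by
    rw [abs_sub_comm]; exact abs_norm_sub_norm_le a b
  have h4 : |‖b‖ - ‖a‖| * ‖a‖⁻¹ ≤ ‖a - b‖ * ‖a‖⁻¹ :=
    mul_le_mul_of_nonneg_right h3 (by positivity)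
  nlinarith [h4]

/-- the homotopy -/
def ft (G : E → E) (t : ℝ) (x : E) : E := (1 - t) • x + t • G x

/-- its derivative -/
def ft' (A : E →L[ℝ] E) (t : ℝ) : E →L[ℝ] E := (1 - t) • ContinuousLinearMap.id ℝ E + t • A

omit [FiniteDimensional ℝ E] [MeasurableSpace E] [BorelSpace E] in
theorem ft_hasFDerivAt {G : E → E} (hG : ContDiff ℝ 1 G) (t : ℝ) (x : E) :
    HasFDerivAt (ft G t) (ft' (fderiv ℝ G x) t) x := by
  have h := (hG.differentiable (by simp)).differentiableAt (x := x) |>.hasFDerivAt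
  exact ((hasFDerivAt_id x).const_smul (1 - t)).add (h.const_smul t)

omit [FiniteDimensional ℝ E] [MeasurableSpace E] [BorelSpace E] in
theorem ft_injective {G : E → E} {L : ℝ≥0} (hL : LipschitzWith L G) {t : ℝ} (ht : 0 ≤ t)
    (htL : t * L < 1 - t) : Function.Injective (ft G t) := by
  intro x y hxy
  by_contra hne
  have hpos : 0 < ‖x - y‖ := norm_pos_iff.mpr (sub_ne_zero.mpr hne)
  have e : (1 - t) • (x - y) = t • (G y - G x) := by
    unfold ft at hxy
    rw [smul_sub, smul_sub]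
    have := hxy
    rw [← sub_eq_zero] at this ⊢
    rw [← this]; abel
  have h1 : ‖(1 - t) • (x - y)‖ = (1 - t) * ‖x - y‖ := by
    rw [norm_smul, Real.norm_eq_abs, abs_of_pos]
    have : 0 ≤ t * L := by positivity
    linarith
  have h2 : ‖t • (G y - G x)‖ ≤ t * (L * ‖x - y‖) := by
    rw [norm_smul, Real.norm_eq_abs, abs_of_nonneg ht]
    refine mul_le_mul_of_nonneg_left ?_ ht
    have := hL.dist_le_mul y x
    rw [dist_eq_norm, dist_eq_norm, norm_sub_rev y x] at this
    exact this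
  rw [← e, h1] at h2
  nlinarith

omit [MeasurableSpace E] [BorelSpace E] in
theorem ft_surj {G : E → E} {L : ℝ≥0} (hL : LipschitzWith L G) {t : ℝ} (ht : 0 ≤ t)
    (htL : t * L < 1 - t) (y : E) : ∃ x, ft G t x = y := by
  have h0 : 0 ≤ t * L := by positivity
  have h1 : 0 < 1 - t := by linarith
  have hK0 : 0 ≤ (1 - t)⁻¹ * (t * L) := by positivity
  set K : ℝ≥0 := ⟨(1 - t)⁻¹ * (t * L), hK0⟩ with hK
  have hK1 : K < 1 := by
    rw [← NNReal.coe_lt_coe]
    change (1 - t)⁻¹ * (t * L) < 1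
    rw [inv_mul_lt_iff₀ h1]; linarith
  have hlip : LipschitzWith K (fun x => (1 - t)⁻¹ • (y - t • G x)) := by
    refine LipschitzWith.of_dist_le_mul fun a b => ?_
    rw [dist_eq_norm, ← smul_sub]
    have : y - t • G a - (y - t • G b) = t • (G b - G a) := by rw [smul_sub]; abel
    rw [this, norm_smul, norm_smul, Real.norm_eq_abs, Real.norm_eq_abs, abs_of_nonneg ht,
      abs_of_pos (inv_pos.mpr h1)]
    have h := hL.dist_le_mul b a
    rw [dist_eq_norm, dist_comm] at h
    change (1 - t)⁻¹ * (t * ‖G b - G a‖) ≤ (1 - t)⁻¹ * (t * L) * dist a b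
    have h' : t * ‖G b - G a‖ ≤ t * (L * dist a b) := mul_le_mul_of_nonneg_left h ht
    have := mul_le_mul_of_nonneg_left h' (inv_pos.mpr h1).le
    calc _ ≤ (1 - t)⁻¹ * (t * (L * dist a b)) := this
      _ = _ := by ring
  have hc : ContractingWith K (fun x => (1 - t)⁻¹ • (y - t • G x)) := ⟨hK1, hlip⟩
  refine ⟨hc.fixedPoint, ?_⟩
  have hf := hc.fixedPoint_isFixedPt
  have hf' : (1 - t)⁻¹ • (y - t • G hc.fixedPoint) = hc.fixedPoint := hf
  unfold ft
  nth_rewrite 1 [← hf']
  rw [smul_smul, mul_inv_cancel₀ h1.ne', one_smul]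
  abel

omit [FiniteDimensional ℝ E] [MeasurableSpace E] [BorelSpace E] in
theorem ft'_injective {A : E →L[ℝ] E} {L : ℝ≥0} (hA : ‖A‖ ≤ L) {t : ℝ} (ht : 0 ≤ t)
    (htL : t * L < 1 - t) : Function.Injective (ft' A t) := by
  rw [injective_iff_map_eq_zero]
  intro v hv
  by_contra hne
  have hpos : 0 < ‖v‖ := norm_pos_iff.mpr hne
  have e : (1 - t) • v = -(t • A v) := by
    have : (1 - t) • v + t • A v = 0 := hv
    exact eq_neg_of_add_eq_zero_left this
  have h1 : ‖(1 - t) • v‖ = (1 - t) * ‖v‖ := by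
    rw [norm_smul, Real.norm_eq_abs, abs_of_pos]
    have : 0 ≤ t * L := by positivity
    linarith
  have h2 : ‖-(t • A v)‖ ≤ t * (L * ‖v‖) := by
    rw [norm_neg, norm_smul, Real.norm_eq_abs, abs_of_nonneg ht]
    refine mul_le_mul_of_nonneg_left ?_ ht
    exact (A.le_opNorm v).trans (mul_le_mul_of_nonneg_right hA (norm_nonneg _))
  rw [← e, h1] at h2
  nlinarith

omit [MeasurableSpace E] [BorelSpace E] in
theorem ft'_det_pos {A : E →L[ℝ] E} {L : ℝ≥0} (hA : ‖A‖ ≤ L) {t : ℝ} (ht : 0 ≤ t)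
    (htL : t * L < 1 - t) : 0 < (ft' A t).det := by
  have hne : ∀ s ∈ Icc (0 : ℝ) t, (ft' A s).det ≠ 0 := by
    intro s hs h0
    have hsL : s * L < 1 - s := by
      have : s * L ≤ t * L := mul_le_mul_of_nonneg_right hs.2 L.2
      linarith [hs.2]
    have hinj := ft'_injective hA hs.1 hsL
    have hlt := LinearMap.bot_lt_ker_of_det_eq_zero (f := ((ft' A s : E →L[ℝ] E) : E →ₗ[ℝ] E)) h0
    have hker : LinearMap.ker ((ft' A s : E →L[ℝ] E) : E →ₗ[ℝ] E) = ⊥ :=
      LinearMap.ker_eq_bot.mpr hinj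
    rw [hker] at hlt
    exact lt_irrefl _ hlt
  have hcont : Continuous fun s : ℝ => (ft' A s).det := by
    refine ContinuousLinearMap.continuous_det.comp ?_
    unfold ft'
    fun_prop
  have h0 : (ft' A 0).det = 1 := by
    have : ft' A 0 = ContinuousLinearMap.id ℝ E := by simp [ft']
    rw [this]
    simp [ContinuousLinearMap.det]
  by_contra hle
  rw [not_lt] at hle
  have hz : (0 : ℝ) ∈ (fun s : ℝ => (ft' A s).det) '' Icc 0 t := by
    have := intermediate_value_Icc' ht hcont.continuousOn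
    apply this
    simp only [h0]
    exact ⟨hle, zero_le_one⟩
  obtain ⟨s, hs, hs0⟩ := hz
  exact hne s hs hs0

omit [MeasurableSpace E] [BorelSpace E] in
theorem ft_image {G : E → E} {L : ℝ≥0} (hL : LipschitzWith L G) {M : ℝ} (hM : 0 < M)
    (h1 : ∀ x, ‖G x‖ = M) (h2 : ∀ x, M ≤ ‖x‖ → G x = (M / ‖x‖) • x) {t : ℝ} (ht : 0 ≤ t)
    (htL : t * L < 1 - t) : ft G t '' ball 0 M = ball 0 M := by
  have h0 : 0 ≤ t * L := by positivity
  have ht1 : 0 < 1 - t := by linarith
  apply Subset.antisymm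
  · rintro _ ⟨x, hx, rfl⟩
    rw [mem_ball_zero_iff] at hx ⊢
    unfold ft
    refine (norm_add_le _ _).trans_lt ?_
    rw [norm_smul, norm_smul, h1, Real.norm_eq_abs, Real.norm_eq_abs, abs_of_pos ht1,
      abs_of_nonneg ht]
    nlinarith
  · intro y hy
    obtain ⟨x, hx⟩ := ft_surj hL ht htL y
    refine ⟨x, ?_, hx⟩
    rw [mem_ball_zero_iff] at hy ⊢
    by_contra hxM
    rw [not_lt] at hxM
    have hx0 : 0 < ‖x‖ := hM.trans_le hxM
    have e : ft G t x = ((1 - t) + t * (M / ‖x‖)) • x := by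
      unfold ft
      rw [h2 x hxM, add_smul, smul_smul]
    have hn : ‖ft G t x‖ = (1 - t) * ‖x‖ + t * M := by
      rw [e, norm_smul, Real.norm_eq_abs, abs_of_nonneg (by positivity)]
      field_simp
    rw [← hx, hn] at hy
    nlinarith

theorem integral_det {G : E → E} (hG : ContDiff ℝ 1 G) {L : ℝ≥0} (hL : LipschitzWith L G) {M : ℝ}
    (hM : 0 < M) (h1 : ∀ x, ‖G x‖ = M) (h2 : ∀ x, M ≤ ‖x‖ → G x = (M / ‖x‖) • x) {t : ℝ}
    (ht : 0 ≤ t) (htL : t * L < 1 - t) :
    ∫ x in ball (0 : E) M, (ft' (fderiv ℝ G x) t).det = (volume (ball (0 : E) M)).toReal := by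
  have hA : ∀ x, ‖fderiv ℝ G x‖ ≤ L := fun x => norm_fderiv_le_of_lipschitz ℝ hL
  have hl := lintegral_abs_det_fderiv_eq_addHaar_image (μ := (volume : Measure E))
    (s := ball (0 : E) M) (f := ft G t) (f' := fun x => ft' (fderiv ℝ G x) t) measurableSet_ball
    (fun x _ => (ft_hasFDerivAt hG t x).hasFDerivWithinAt) (ft_injective hL ht htL).injOn
  rw [ft_image hL hM h1 h2 ht htL] at hl
  rw [← hl, integral_eq_lintegral_of_nonneg_ae]
  · congr 1
    refine lintegral_congr fun x => ?_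
    rw [abs_of_pos (ft'_det_pos (hA x) ht htL)]
  · exact Filter.Eventually.of_forall fun x => (ft'_det_pos (hA x) ht htL).le
  · have hc : Continuous fun x : E => (ft' (fderiv ℝ G x) t).det := by
      refine ContinuousLinearMap.continuous_det.comp ?_
      have := hG.continuous_fderiv (by simp)
      unfold ft'
      fun_prop
    exact hc.aestronglyMeasurable

omit [MeasurableSpace E] [BorelSpace E] in
/-- the determinant is a polynomial in `t` of degree at most the dimension: interpolation -/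
theorem det_interp (A : E →L[ℝ] E) (v : ℕ → ℝ) (hv : Function.Injective v) :
    (ft' A 1).det = ∑ i ∈ Finset.range (Module.finrank ℝ E + 1),
      (ft' A (v i)).det *
        (Lagrange.basis (Finset.range (Module.finrank ℝ E + 1)) v i).eval 1 := by
  classical
  set b := Module.finBasis ℝ E
  set T : Matrix (Fin (Module.finrank ℝ E)) (Fin (Module.finrank ℝ E)) ℝ :=
    LinearMap.toMatrix b b ((A - ContinuousLinearMap.id ℝ E : E →L[ℝ] E) : E →ₗ[ℝ] E) with hT
  set p : Polynomial ℝ := Matrix.det ((Polynomial.X : Polynomial ℝ) • T.map Polynomial.C +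
    (1 : Matrix (Fin (Module.finrank ℝ E)) (Fin (Module.finrank ℝ E)) ℝ).map Polynomial.C) with hp
  have hdeg : p.degree < ((Finset.range (Module.finrank ℝ E + 1)).card : WithBot ℕ) := by
    rw [Finset.card_range]
    refine (Polynomial.degree_le_natDegree).trans_lt ?_
    have := Polynomial.natDegree_det_X_add_C_le T 1
    rw [Fintype.card_fin] at this
    exact_mod_cast Nat.lt_succ_of_le this
  have heval : ∀ t : ℝ, p.eval t = (ft' A t).det := by
    intro t
    rw [hp, ← Polynomial.coe_evalRingHom, RingHom.map_det]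
    rw [ContinuousLinearMap.det, ← LinearMap.det_toMatrix b]
    congr 1
    have e : ((ft' A t : E →L[ℝ] E) : E →ₗ[ℝ] E) = t •
        ((A - ContinuousLinearMap.id ℝ E : E →L[ℝ] E) : E →ₗ[ℝ] E) + LinearMap.id := by
      ext x
      simp only [ft', ContinuousLinearMap.toLinearMap_add, ContinuousLinearMap.toLinearMap_smul,
        ContinuousLinearMap.toLinearMap_sub, ContinuousLinearMap.coe_id, LinearMap.add_apply,
        LinearMap.smul_apply, LinearMap.sub_apply, LinearMap.id_apply,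
        ContinuousLinearMap.coe_coe]
      rw [smul_sub, sub_smul, one_smul]; abel
    rw [e, map_add (LinearMap.toMatrix b b), map_smul (LinearMap.toMatrix b b), ← hT,
      LinearMap.toMatrix_id]
    ext i j
    simp only [RingHom.mapMatrix_apply, Matrix.map_apply, Matrix.add_apply, Matrix.smul_apply,
      map_add, smul_eq_mul, Polynomial.coe_evalRingHom, Polynomial.eval_mul, Polynomial.eval_X,
      Polynomial.eval_C]
  have hint := Lagrange.eq_interpolate (s := Finset.range (Module.finrank ℝ E + 1)) (v := v)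
    hv.injOn hdeg
  have h1 : p.eval 1 = _ := congrArg (Polynomial.eval 1) hint
  rw [heval] at h1
  rw [h1, Lagrange.interpolate_apply, Polynomial.eval_finsetSum]
  refine Finset.sum_congr rfl fun i _ => ?_
  rw [Polynomial.eval_mul, Polynomial.eval_C, heval]

omit [MeasurableSpace E] [BorelSpace E] in
theorem det_fderiv_zero {G : E → E} (hG : ContDiff ℝ 1 G) {M : ℝ} (hM : 0 < M)
    (h1 : ∀ x, ‖G x‖ = M) (x : E) : (fderiv ℝ G x).det = 0 := by
  by_contra hne
  have hd := (hG.differentiable (by simp)).differentiableAt (x := x) |>.hasFDerivAt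
  have hin : ∀ v, inner ℝ (G x) (fderiv ℝ G x v) = 0 := by
    intro v
    have hI := hd.inner ℝ hd
    have hconst : (fun y => inner ℝ (G y) (G y)) = fun _ => M ^ 2 := by
      funext y
      rw [real_inner_self_eq_norm_sq, h1]
    rw [hconst] at hI
    have := hI.unique (hasFDerivAt_const (M ^ 2) x)
    have hv := congrArg (fun l => l v) this
    simp only [ContinuousLinearMap.coe_comp, Function.comp_apply,
      ContinuousLinearMap.prod_apply, fderivInnerCLM_apply,
      _root_.zero_apply] at hv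
    rw [real_inner_comm (G x) (fderiv ℝ G x v)] at hv
    linarith
  have hsurj : Function.Surjective (fderiv ℝ G x) := by
    intro y
    obtain ⟨z, hz⟩ := (LinearMap.equivOfDetNeZero
      ((fderiv ℝ G x : E →L[ℝ] E) : E →ₗ[ℝ] E) hne).surjective y
    exact ⟨z, hz⟩
  obtain ⟨v, hv⟩ := hsurj (G x)
  have := hin v
  rw [hv, real_inner_self_eq_norm_sq, h1] at this
  exact absurd this (by positivity)

theorem no_retraction {G : E → E} (hG : ContDiff ℝ 1 G) {L : ℝ≥0} (hL : LipschitzWith L G)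
    {M : ℝ} (hM : 0 < M) (h1 : ∀ x, ‖G x‖ = M) (h2 : ∀ x, M ≤ ‖x‖ → G x = (M / ‖x‖) • x) :
    False := by
  classical
  set t0 : ℝ := (2 * (L + 1))⁻¹ with ht0
  have hL0 : (0 : ℝ) ≤ L := L.2
  have ht0pos : 0 < t0 := by positivity
  set v : ℕ → ℝ := fun i => t0 / (i + 1) with hv
  have hvpos : ∀ i, 0 ≤ v i := fun i => by simp only [hv]; positivity
  have hvL : ∀ i, v i * L < 1 - v i := by
    intro i
    have hle : v i ≤ t0 := by
      simp only [hv]
      rw [div_le_iff₀ (by positivity)]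
      have : (0 : ℝ) ≤ i := Nat.cast_nonneg i
      nlinarith
    have h3 : t0 * (L + 1) = 1 / 2 := by
      rw [ht0]; field_simp
    nlinarith [hvpos i]
  have hinj : Function.Injective v := by
    intro i j hij
    simp only [hv] at hij
    have hi : (0 : ℝ) < i + 1 := by positivity
    have hj : (0 : ℝ) < j + 1 := by positivity
    rw [div_eq_div_iff hi.ne' hj.ne'] at hij
    have := mul_left_cancel₀ ht0pos.ne' hij
    have : (j : ℝ) = i := by linarith
    exact_mod_cast this.symm
  set N := Module.finrank ℝ E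
  have hcont : ∀ t : ℝ, Continuous fun x : E => (ft' (fderiv ℝ G x) t).det := by
    intro t
    refine ContinuousLinearMap.continuous_det.comp ?_
    have := hG.continuous_fderiv (by simp)
    unfold ft'
    fun_prop
  have hintg : ∀ t : ℝ, IntegrableOn (fun x : E => (ft' (fderiv ℝ G x) t).det) (ball 0 M) := by
    intro t
    exact ((hcont t).continuousOn.integrableOn_compact (isCompact_closedBall 0 M)).mono_set
      ball_subset_closedBall
  have hzero : ∫ x in ball (0 : E) M, (ft' (fderiv ℝ G x) 1).det = 0 := by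
    have : ∀ x : E, (ft' (fderiv ℝ G x) 1).det = 0 := by
      intro x
      have : ft' (fderiv ℝ G x) 1 = fderiv ℝ G x := by simp [ft']
      rw [this]
      exact det_fderiv_zero hG hM h1 x
    simp [this]
  have hsum : ∫ x in ball (0 : E) M, (ft' (fderiv ℝ G x) 1).det =
      (volume (ball (0 : E) M)).toReal := by
    have e : (fun x : E => (ft' (fderiv ℝ G x) 1).det) = fun x =>
        ∑ i ∈ Finset.range (N + 1), (ft' (fderiv ℝ G x) (v i)).det *
          (Lagrange.basis (Finset.range (N + 1)) v i).eval 1 := by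
      funext x
      exact det_interp _ v hinj
    rw [e, integral_finsetSum _ (fun i _ => (hintg (v i)).mul_const _)]
    simp_rw [integral_mul_const, integral_det hG hL hM h1 h2 (hvpos _) (hvL _)]
    rw [← Finset.mul_sum, ← Polynomial.eval_finsetSum,
      Lagrange.sum_basis hinj.injOn ⟨0, by simp⟩, Polynomial.eval_one, mul_one]
  rw [hzero] at hsum
  have hpos : 0 < (volume (ball (0 : E) M)).toReal :=
    ENNReal.toReal_pos (measure_ball_pos _ _ hM).ne' measure_ball_lt_top.ne
  linarith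

theorem exists_zero (β : E → E) (hβ : Continuous β) (R : ℝ) (hR : ∀ y, ‖β y‖ ≤ R) :
    ∃ y, y + β y = 0 := by
  by_contra hcon
  push Not at hcon
  have hR0 : 0 ≤ R := (norm_nonneg _).trans (hR 0)
  -- cut off
  set χ : E → ℝ := fun y => max 0 (min 1 (R + 2 - ‖y‖)) with hχ
  have hχc : Continuous χ := by
    simp only [hχ]; fun_prop
  have hχ0 : ∀ y, 0 ≤ χ y := fun y => le_max_left _ _
  have hχ1 : ∀ y, χ y ≤ 1 := fun y => max_le zero_le_one (min_le_left _ _)
  have hχin : ∀ y, ‖y‖ ≤ R + 1 → χ y = 1 := by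
    intro y hy
    simp only [hχ]
    rw [min_eq_left (by linarith), max_eq_right zero_le_one]
  have hχout : ∀ y, R + 2 ≤ ‖y‖ → χ y = 0 := by
    intro y hy
    simp only [hχ]
    rw [max_eq_left]
    exact (min_le_right _ _).trans (by linarith)
  set g0 : E → E := fun y => χ y • β y with hg0
  have hg0c : Continuous g0 := hχc.smul hβ
  have hg0b : ∀ y, ‖g0 y‖ ≤ R := by
    intro y
    simp only [hg0]
    rw [norm_smul, Real.norm_eq_abs, abs_of_nonneg (hχ0 y)]
    calc χ y * ‖β y‖ ≤ 1 * R := mul_le_mul (hχ1 y) (hR y) (norm_nonneg _) zero_le_one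
      _ = R := one_mul R
  have hg0out : ∀ y, R + 2 ≤ ‖y‖ → g0 y = 0 := by
    intro y hy
    simp only [hg0]
    rw [hχout y hy, zero_smul]
  have hg0s : HasCompactSupport g0 := by
    refine HasCompactSupport.intro (isCompact_closedBall (0 : E) (R + 2)) fun y hy => ?_
    apply hg0out
    rw [mem_closedBall_zero_iff, not_le] at hy
    exact hy.le
  have hf0 : ∀ y, y + g0 y ≠ 0 := by
    intro y
    rcases le_total ‖y‖ (R + 1) with hy | hy
    · have : g0 y = β y := by
        simp only [hg0]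
        rw [hχin y hy, one_smul]
      rw [this]
      exact hcon y
    · intro h
      have h1 : y = -g0 y := eq_neg_of_add_eq_zero_left h
      have h2 : ‖y‖ ≤ R := by
        rw [h1, norm_neg]; exact hg0b y
      linarith
  -- lower bound
  obtain ⟨ε, hε, hlow⟩ : ∃ ε : ℝ, 0 < ε ∧ ∀ y, ε ≤ ‖y + g0 y‖ := by
    obtain ⟨y0, -, hy0⟩ := (isCompact_closedBall (0 : E) (R + 2)).exists_isMinOn
      ⟨0, mem_closedBall_self (by linarith)⟩
      (f := fun y : E => ‖y + g0 y‖) (by fun_prop)
    refine ⟨min ‖y0 + g0 y0‖ 1, lt_min (norm_pos_iff.mpr (hf0 y0)) one_pos, fun y => ?_⟩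
    by_cases hy : y ∈ closedBall (0 : E) (R + 2)
    · exact (min_le_left _ _).trans (hy0 hy)
    · rw [mem_closedBall_zero_iff, not_le] at hy
      rw [hg0out y hy.le, add_zero]
      exact (min_le_right _ _).trans (by linarith)
  -- smoothing
  have huc : UniformContinuous g0 := hg0s.uniformContinuous_of_continuous hg0c
  rw [Metric.uniformContinuous_iff] at huc
  obtain ⟨δ, hδ, hδg⟩ := huc (ε / 2) (by positivity)
  let φ : ContDiffBump (0 : E) := ⟨δ / 4, δ / 2, by positivity, by linarith⟩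
  set g : E → E := (φ.normed volume ⋆[ContinuousLinearMap.lsmul ℝ ℝ, volume] g0 : E → E) with hg
  have hgd : ∀ x, dist (g x) (g0 x) ≤ ε / 2 := by
    intro x
    refine φ.dist_normed_convolution_le hg0c.aestronglyMeasurable fun y hy => ?_
    refine (hδg ?_).le
    have : dist y x < δ / 2 := hy
    linarith
  have hφs : HasCompactSupport (φ.normed (volume : Measure E)) := φ.hasCompactSupport_normed
  have hgs : HasCompactSupport g := hφs.convolution _ hg0s
  have hgC : ContDiff ℝ 1 g := by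
    have := hφs.contDiff_convolution_left
      (ContinuousLinearMap.lsmul ℝ ℝ) (n := 1) (μ := (volume : Measure E)) (g := g0)
      φ.contDiff_normed hg0c.locallyIntegrable
    exact_mod_cast this
  obtain ⟨C, hC⟩ := ContDiff.lipschitzWith_of_hasCompactSupport hgs hgC (by simp)
  obtain ⟨M, hM, hMs⟩ := hgs.isCompact.isBounded.subset_ball_lt 0 0
  have hgM : ∀ x, M ≤ ‖x‖ → g x = 0 := by
    intro x hx
    by_contra hne
    have := hMs (subset_tsupport g (Function.mem_support.mpr hne))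
    rw [mem_ball_zero_iff] at this
    linarith
  set F : E → E := fun x => x + g x with hF
  have hFC : ContDiff ℝ 1 F := contDiff_id.add hgC
  have hFlow : ∀ x, ε / 2 ≤ ‖F x‖ := by
    intro x
    have h1 := hlow x
    have h2 : ‖x + g0 x‖ ≤ ‖F x‖ + ‖g x - g0 x‖ := by
      have : x + g0 x = F x - (g x - g0 x) := by simp only [hF]; abel
      rw [this]; exact norm_sub_le _ _
    have h3 := hgd x
    rw [dist_eq_norm] at h3
    linarith
  have hF0 : ∀ x, F x ≠ 0 := fun x => norm_pos_iff.mp ((by positivity : 0 < ε / 2).trans_le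
    (hFlow x))
  have hFL : LipschitzWith (1 + C) F := LipschitzWith.id.add hC
  set G : E → E := fun x => M • (‖F x‖⁻¹ • F x) with hG
  have hGC : ContDiff ℝ 1 G := by
    have hn : ContDiff ℝ 1 fun x => ‖F x‖ := hFC.norm ℝ hF0
    exact (((hn.inv fun x => norm_ne_zero_iff.mpr (hF0 x)).smul hFC).const_smul M)
  have hM' : (0 : ℝ) ≤ M * (4 / ε) * (1 + C) := by positivity
  have hGL : LipschitzWith ⟨M * (4 / ε) * (1 + C), hM'⟩ G := by
    refine LipschitzWith.of_dist_le_mul fun x y => ?_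
    rw [dist_eq_norm]
    simp only [hG]
    rw [← smul_sub, norm_smul, Real.norm_eq_abs, abs_of_pos hM]
    have h1 := norm_normalize_sub (hF0 x) (hF0 y)
    have h2 : ‖F x - F y‖ ≤ (1 + C) * dist x y := by
      have := hFL.dist_le_mul x y
      rw [dist_eq_norm] at this
      exact_mod_cast this
    have h3 : ‖F x‖⁻¹ ≤ 2 / ε := by
      rw [inv_le_comm₀ (norm_pos_iff.mpr (hF0 x)) (by positivity)]
      have := hFlow x
      have e : (2 / ε)⁻¹ = ε / 2 := by rw [inv_div]
      rw [e]; exact this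
    have h4 : 2 * ‖F x‖⁻¹ * ‖F x - F y‖ ≤ 2 * (2 / ε) * ((1 + C) * dist x y) := by
      have h5 : 0 ≤ ‖F x‖⁻¹ := by positivity
      have h6 : 2 * ‖F x‖⁻¹ ≤ 2 * (2 / ε) := by linarith
      exact mul_le_mul h6 h2 (norm_nonneg _) (by positivity)
    change M * _ ≤ M * (4 / ε) * (1 + C) * dist x y
    calc M * ‖‖F x‖⁻¹ • F x - ‖F y‖⁻¹ • F y‖ ≤ M * (2 * (2 / ε) * ((1 + C) * dist x y)) :=
          mul_le_mul_of_nonneg_left (h1.trans h4) hM.le
      _ = _ := by ring
  refine no_retraction hGC hGL hM (fun x => ?_) (fun x hx => ?_)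
  · simp only [hG]
    rw [norm_smul, norm_smul, norm_inv, norm_norm, Real.norm_eq_abs, abs_of_pos hM,
      inv_mul_cancel₀ (norm_ne_zero_iff.mpr (hF0 x)), mul_one]
  · have : F x = x := by simp only [hF]; rw [hgM x hx, add_zero]
    simp only [hG]
    rw [this, smul_smul, div_eq_mul_inv]

end Vol

end Brouwer

/-- A -/
theorem specBrouwer : SpecBrouwer := by
  intro N β hβ ⟨R, hR⟩
  exact Brouwer.exists_zero β hβ R hR

end MP43832
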