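import Pool.Agent.Lib.MP_43832e_gt.Spec

set_option linter.all false

noncomputable section

namespace MP43832

open Set Filter Topology MeasureTheory
open scoped ContDiff

namespace Core

/-- the projection of the line to `[0, 1]` -/
def K (s : ℝ) : ℝ := (projIcc (0 : ℝ) 1 zero_le_one s : ℝ)

theorem K_mem (s : ℝ) : K s ∈ Icc (0 : ℝ) 1 := (projIcc (0 : ℝ) 1 zero_le_one s).2

theorem K_cont : Continuous K := continuous_subtype_val.comp continuous_projIcc

theorem K_of {s : ℝ} (h : s ∈ Icc (0 : ℝ) 1) : K s = s := by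
  unfold K
  rw [projIcc_of_mem _ h]

theorem norm_comb (a b : ℝ) : ‖a • ContinuousLinearMap.fst ℝ ℝ ℝ +
    b • ContinuousLinearMap.snd ℝ ℝ ℝ‖ ≤ |a| + |b| := by
  calc ‖a • ContinuousLinearMap.fst ℝ ℝ ℝ + b • ContinuousLinearMap.snd ℝ ℝ ℝ‖
      ≤ ‖a • ContinuousLinearMap.fst ℝ ℝ ℝ‖ + ‖b • ContinuousLinearMap.snd ℝ ℝ ℝ‖ :=
        norm_add_le _ _
    _ ≤ |a| * 1 + |b| * 1 := by
        rw [norm_smul, norm_smul, Real.norm_eq_abs, Real.norm_eq_abs]
        exact add_le_add (mul_le_mul_of_nonneg_left (ContinuousLinearMap.norm_fst_le ℝ ℝ ℝ)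
          (abs_nonneg _)) (mul_le_mul_of_nonneg_left (ContinuousLinearMap.norm_snd_le ℝ ℝ ℝ)
          (abs_nonneg _))
    _ = |a| + |b| := by ring

theorem nice_lip {h hq hp : ℝ × ℝ → ℝ} {C ℓ : ℝ} (hN : Nice h hq hp C ℓ) (z z' : ℝ × ℝ) :
    |h z - h z'| ≤ 2 * C * (|z.1 - z'.1| + |z.2 - z'.2|) := by
  have hC : 0 ≤ C := (abs_nonneg _).trans (hN.bdd z).1
  have h1 : ‖h z - h z'‖ ≤ 2 * C * ‖z - z'‖ := by
    apply Convex.norm_image_sub_le_of_norm_hasFDerivWithin_le (s := univ) (𝕜 := ℝ)
      (f' := fun z => hq z • ContinuousLinearMap.fst ℝ ℝ ℝ + hp z • ContinuousLinearMap.snd ℝ ℝ ℝ)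
    · intro x _
      exact (hN.der x).hasFDerivWithinAt
    · intro x _
      refine (norm_comb _ _).trans ?_
      have := hN.bdd x
      linarith [this.1, this.2]
    · exact convex_univ
    · exact mem_univ _
    · exact mem_univ _
  have h2 : ‖z - z'‖ ≤ |z.1 - z'.1| + |z.2 - z'.2| := by
    rw [Prod.norm_def]
    apply max_le
    · simpa using abs_nonneg (z.2 - z'.2)
    · simpa using abs_nonneg (z.1 - z'.1)
  calc |h z - h z'| = ‖h z - h z'‖ := (Real.norm_eq_abs _).symm
    _ ≤ 2 * C * ‖z - z'‖ := h1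
    _ ≤ _ := by gcongr

theorem abs_int_le {g : ℝ → ℝ} {a b c : ℝ} (hab : a ≤ b) (hg : ∀ x ∈ Icc a b, |g x| ≤ c) :
    |∫ x in a..b, g x| ≤ c * (b - a) := by
  have := intervalIntegral.norm_integral_le_of_norm_le_const (a := a) (b := b)
    (f := g) (C := c) (fun x hx => by
      rw [uIoc_of_le hab] at hx
      exact hg x ⟨hx.1.le, hx.2⟩)
  rw [Real.norm_eq_abs, abs_of_nonneg (sub_nonneg.2 hab)] at this
  exact this

/-- averages of nice functions are nice -/
theorem nice_avg {H Hq Hp : ℝ → ℝ × ℝ → ℝ} {C ℓ : ℝ} (hC : 0 ≤ C) (hℓ : 0 ≤ ℓ)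
    (hN : ∀ s, Nice (H s) (Hq s) (Hp s) C ℓ)
    (cH : Continuous (fun x : ℝ × (ℝ × ℝ) => H x.1 x.2))
    (cHq : Continuous (fun x : ℝ × (ℝ × ℝ) => Hq x.1 x.2))
    (cHp : Continuous (fun x : ℝ × (ℝ × ℝ) => Hp x.1 x.2)) (a b : ℝ) (hab : a ≤ b)
    (hb1 : b - a ≤ 1) :
    Nice (fun z => ∫ s in a..b, H s z) (fun z => ∫ s in a..b, Hq s z)
      (fun z => ∫ s in a..b, Hp s z) C ℓ := by
  have iH : ∀ z, Continuous fun s => H s z := fun z => cH.comp (by fun_prop : Continuous fun s : ℝ => (s, z))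
  have iHq : ∀ z, Continuous fun s => Hq s z :=
    fun z => cHq.comp (by fun_prop : Continuous fun s : ℝ => (s, z))
  have iHp : ∀ z, Continuous fun s => Hp s z :=
    fun z => cHp.comp (by fun_prop : Continuous fun s : ℝ => (s, z))
  have hd0 : 0 ≤ b - a := sub_nonneg.2 hab
  refine ⟨?_, ?_, ?_⟩
  · intro z
    have h1 := intervalIntegral.hasFDerivAt_integral_of_dominated_of_fderiv_le (μ := volume)
      (a := a) (b := b) (s := univ) (𝕜 := ℝ)
      (bound := fun _ => 2 * C) (F := fun z s => H s z)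
      (F' := fun z s => Hq s z • ContinuousLinearMap.fst ℝ ℝ ℝ +
        Hp s z • ContinuousLinearMap.snd ℝ ℝ ℝ) (x₀ := z) univ_mem
      (Eventually.of_forall fun w => (iH w).aestronglyMeasurable)
      ((iH z).intervalIntegrable _ _)
      (((((iHq z).smul continuous_const).add ((iHp z).smul continuous_const))).aestronglyMeasurable)
      (Eventually.of_forall fun s _ w _ => by
        refine (norm_comb _ _).trans ?_
        have := (hN s).bdd w
        linarith [this.1, this.2])
      (continuous_const.intervalIntegrable _ _)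
      (Eventually.of_forall fun s _ w _ => (hN s).der w)
    have h2 : ∫ s in a..b, (Hq s z • ContinuousLinearMap.fst ℝ ℝ ℝ +
        Hp s z • ContinuousLinearMap.snd ℝ ℝ ℝ) =
        (∫ s in a..b, Hq s z) • ContinuousLinearMap.fst ℝ ℝ ℝ +
        (∫ s in a..b, Hp s z) • ContinuousLinearMap.snd ℝ ℝ ℝ := by
      rw [intervalIntegral.integral_add, intervalIntegral.integral_smul_const,
        intervalIntegral.integral_smul_const]
      · exact ((iHq z).smul continuous_const).intervalIntegrable _ _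
      · exact ((iHp z).smul continuous_const).intervalIntegrable _ _
    rw [h2] at h1
    exact h1
  · intro z
    constructor
    · calc |∫ s in a..b, Hq s z| ≤ C * (b - a) := abs_int_le hab fun s _ => ((hN s).bdd z).1
        _ ≤ C * 1 := by gcongr
        _ = C := mul_one C
    · calc |∫ s in a..b, Hp s z| ≤ C * (b - a) := abs_int_le hab fun s _ => ((hN s).bdd z).2
        _ ≤ C * 1 := by gcongr
        _ = C := mul_one C
  · intro z z'
    have h0 : 0 ≤ |z.1 - z'.1| + |z.2 - z'.2| := by positivity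
    constructor
    · rw [← intervalIntegral.integral_sub ((iHq z).intervalIntegrable _ _)
        ((iHq z').intervalIntegrable _ _)]
      calc |∫ s in a..b, (Hq s z - Hq s z')| ≤ (ℓ * (|z.1 - z'.1| + |z.2 - z'.2|)) * (b - a) :=
            abs_int_le hab fun s _ => ((hN s).lip z z').1
        _ ≤ (ℓ * (|z.1 - z'.1| + |z.2 - z'.2|)) * 1 := by gcongr
        _ = _ := mul_one _
    · rw [← intervalIntegral.integral_sub ((iHp z).intervalIntegrable _ _)
        ((iHp z').intervalIntegrable _ _)]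
      calc |∫ s in a..b, (Hp s z - Hp s z')| ≤ (ℓ * (|z.1 - z'.1| + |z.2 - z'.2|)) * (b - a) :=
            abs_int_le hab fun s _ => ((hN s).lip z z').2
        _ ≤ (ℓ * (|z.1 - z'.1| + |z.2 - z'.2|)) * 1 := by gcongr
        _ = _ := mul_one _

/-- comparison of the discrete and the continuous trajectory -/
theorem compare {H Hq Hp : ℝ → ℝ × ℝ → ℝ} {C ℓ : ℝ} (hC : 0 ≤ C) (hℓ : 0 ≤ ℓ)
    (hN : ∀ s, Nice (H s) (Hq s) (Hp s) C ℓ)
    (cH : Continuous (fun x : ℝ × (ℝ × ℝ) => H x.1 x.2))
    (cHq : Continuous (fun x : ℝ × (ℝ × ℝ) => Hq x.1 x.2))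
    (cHp : Continuous (fun x : ℝ × (ℝ × ℝ) => Hp x.1 x.2)) (N : ℕ) (hN0 : 0 < N)
    (x p : ℕ → ℝ) (τ : ℕ → ℝ) (hτ : ∀ j, τ j = j / N)
    (hx : ∀ j < N, x (j + 1) = x j + ∫ s in (τ j)..(τ (j + 1)), Hp s (x j, p (j + 1)))
    (hp : ∀ j < N, p (j + 1) = p j - ∫ s in (τ j)..(τ (j + 1)), Hq s (x j, p (j + 1)))
    (hp0 : |p 0| ≤ C) (z : ℝ → ℝ × ℝ) (hzc : Continuous z) (hz0 : z 0 = (x 0, p 0))
    (hz1 : ∀ a b, 0 ≤ a → a ≤ b → b ≤ 1 → (z b).1 - (z a).1 = ∫ u in a..b, Hp u (z u))
    (hz2 : ∀ a b, 0 ≤ a → a ≤ b → b ≤ 1 → (z b).2 - (z a).2 = -∫ u in a..b, Hq u (z u)) :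
    |(z 1).1 - x N| ≤ 3 * C * Real.exp (2 * ℓ) / N ∧
    (∫ s in (0 : ℝ)..1, ((z s).2 * Hp s (z s) - H s (z s))) ≤
      ∑ j ∈ Finset.range N, (p (j + 1) * (x (j + 1) - x j) -
        ∫ s in (τ j)..(τ (j + 1)), H s (x j, p (j + 1))) +
        (3 * C + 2 * C * ℓ) * (3 * C * Real.exp (2 * ℓ)) / N := by
  have hNp : (0 : ℝ) < N := Nat.cast_pos.2 hN0
  have hτ0 : ∀ j, 0 ≤ τ j := fun j => by rw [hτ]; positivity
  have hτs : ∀ j, τ (j + 1) - τ j = 1 / N := fun j => by
    rw [hτ, hτ]
    push_cast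
    field_simp
    ring
  have hτle : ∀ j, τ j ≤ τ (j + 1) := fun j => by
    have h1 := hτs j
    have h2 : 0 < 1 / (N : ℝ) := by positivity
    linarith
  have hτ1 : ∀ j < N, τ (j + 1) ≤ 1 := fun j hj => by
    rw [hτ, div_le_one hNp]
    exact_mod_cast hj
  have iz1 : Continuous fun s => (z s).1 := continuous_fst.comp hzc
  have iz2 : Continuous fun s => (z s).2 := continuous_snd.comp hzc
  have iH : Continuous fun s => H s (z s) := cH.comp (continuous_id.prodMk hzc)
  have iHq : Continuous fun s => Hq s (z s) := cHq.comp (continuous_id.prodMk hzc)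
  have iHp : Continuous fun s => Hp s (z s) := cHp.comp (continuous_id.prodMk hzc)
  have iHw : ∀ w, Continuous fun s => H s w :=
    fun w => cH.comp (by fun_prop : Continuous fun s : ℝ => (s, w))
  have iHqw : ∀ w, Continuous fun s => Hq s w :=
    fun w => cHq.comp (by fun_prop : Continuous fun s : ℝ => (s, w))
  have iHpw : ∀ w, Continuous fun s => Hp s w :=
    fun w => cHp.comp (by fun_prop : Continuous fun s : ℝ => (s, w))
  -- the basic estimate on one interval
  have hstep : ∀ j < N, ∀ s ∈ Icc (τ j) (τ (j + 1)), |(z s).1 - x j| + |(z s).2 - p (j + 1)| ≤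
      |(z (τ j)).1 - x j| + |(z (τ j)).2 - p j| + 3 * C / N := by
    intro j hj s hs
    have h1 : |(z s).1 - (z (τ j)).1| ≤ C / N := by
      rw [hz1 (τ j) s (hτ0 j) hs.1 (hs.2.trans (hτ1 j hj))]
      calc |∫ u in (τ j)..s, Hp u (z u)| ≤ C * (s - τ j) :=
            abs_int_le hs.1 fun u _ => ((hN u).bdd _).2
        _ ≤ C * (1 / N) := by
            apply mul_le_mul_of_nonneg_left _ hC
            have := hτs j
            linarith [hs.2]
        _ = C / N := by ring
    have h2 : |(z s).2 - (z (τ j)).2| ≤ C / N := by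
      rw [hz2 (τ j) s (hτ0 j) hs.1 (hs.2.trans (hτ1 j hj)), abs_neg]
      calc |∫ u in (τ j)..s, Hq u (z u)| ≤ C * (s - τ j) :=
            abs_int_le hs.1 fun u _ => ((hN u).bdd _).1
        _ ≤ C * (1 / N) := by
            apply mul_le_mul_of_nonneg_left _ hC
            have := hτs j
            linarith [hs.2]
        _ = C / N := by ring
    have h3 : |p j - p (j + 1)| ≤ C / N := by
      have h4 : p j - p (j + 1) = ∫ s in (τ j)..(τ (j + 1)), Hq s (x j, p (j + 1)) := by
        have := hp j hj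
        linarith
      rw [h4]
      calc |∫ s in (τ j)..(τ (j + 1)), Hq s (x j, p (j + 1))| ≤ C * (τ (j + 1) - τ j) :=
            abs_int_le (hτle j) fun u _ => ((hN u).bdd _).1
        _ = C / N := by rw [hτs]; ring
    have h5 : |(z s).1 - x j| ≤ |(z s).1 - (z (τ j)).1| + |(z (τ j)).1 - x j| := abs_sub_le _ _ _
    have h6 : |(z s).2 - p (j + 1)| ≤ |(z s).2 - (z (τ j)).2| + |(z (τ j)).2 - p (j + 1)| :=
      abs_sub_le _ _ _
    have h7 : |(z (τ j)).2 - p (j + 1)| ≤ |(z (τ j)).2 - p j| + |p j - p (j + 1)| :=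
      abs_sub_le _ _ _
    have h8 : 3 * C / N = C / N + C / N + C / N := by ring
    linarith
  -- the discrete Gronwall estimate
  have hgr : ∀ j ≤ N, |(z (τ j)).1 - x j| + |(z (τ j)).2 - p j| + 3 * C / N ≤
      (1 + 2 * ℓ / N) ^ j * (3 * C / N) := by
    intro j
    induction j with
    | zero =>
      intro _
      have h1 : τ 0 = 0 := by rw [hτ]; simp
      rw [h1, hz0]
      simp
    | succ j ih =>
      intro hj
      have hjN : j < N := by omega
      have ih' := ih (by omega)
      set D : ℝ := |(z (τ j)).1 - x j| + |(z (τ j)).2 - p j| + 3 * C / N with hD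
      have hst := hstep j hjN
      have h1 : |(z (τ (j + 1))).1 - x (j + 1)| ≤ |(z (τ j)).1 - x j| + ℓ / N * D := by
        have e : (z (τ (j + 1))).1 - x (j + 1) = ((z (τ j)).1 - x j) +
            ∫ s in (τ j)..(τ (j + 1)), (Hp s (z s) - Hp s (x j, p (j + 1))) := by
          rw [intervalIntegral.integral_sub (iHp.intervalIntegrable _ _)
            ((iHpw _).intervalIntegrable _ _), ← hz1 _ _ (hτ0 j) (hτle j) (hτ1 j hjN), hx j hjN]
          ring
        rw [e]
        refine (abs_add_le _ _).trans (add_le_add le_rfl ?_)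
        calc |∫ s in (τ j)..(τ (j + 1)), (Hp s (z s) - Hp s (x j, p (j + 1)))|
            ≤ (ℓ * D) * (τ (j + 1) - τ j) := by
              apply abs_int_le (hτle j)
              intro s hs
              refine (((hN s).lip _ _).2).trans ?_
              exact mul_le_mul_of_nonneg_left (hst s hs) hℓ
          _ = ℓ / N * D := by rw [hτs]; ring
      have h2 : |(z (τ (j + 1))).2 - p (j + 1)| ≤ |(z (τ j)).2 - p j| + ℓ / N * D := by
        have e : (z (τ (j + 1))).2 - p (j + 1) = ((z (τ j)).2 - p j) -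
            ∫ s in (τ j)..(τ (j + 1)), (Hq s (z s) - Hq s (x j, p (j + 1))) := by
          rw [intervalIntegral.integral_sub (iHq.intervalIntegrable _ _)
            ((iHqw _).intervalIntegrable _ _)]
          have e1 := hz2 _ _ (hτ0 j) (hτle j) (hτ1 j hjN)
          have e2 := hp j hjN
          linarith
        rw [e]
        refine (abs_sub _ _).trans (add_le_add le_rfl ?_)
        calc |∫ s in (τ j)..(τ (j + 1)), (Hq s (z s) - Hq s (x j, p (j + 1)))|
            ≤ (ℓ * D) * (τ (j + 1) - τ j) := by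
              apply abs_int_le (hτle j)
              intro s hs
              refine (((hN s).lip _ _).1).trans ?_
              exact mul_le_mul_of_nonneg_left (hst s hs) hℓ
          _ = ℓ / N * D := by rw [hτs]; ring
      calc |(z (τ (j + 1))).1 - x (j + 1)| + |(z (τ (j + 1))).2 - p (j + 1)| + 3 * C / N
          ≤ (|(z (τ j)).1 - x j| + ℓ / N * D) + (|(z (τ j)).2 - p j| + ℓ / N * D) +
            3 * C / N := by linarith
        _ = (1 + 2 * ℓ / N) * D := by rw [hD]; ring
        _ ≤ (1 + 2 * ℓ / N) * ((1 + 2 * ℓ / N) ^ j * (3 * C / N)) := by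
            apply mul_le_mul_of_nonneg_left ih'
            positivity
        _ = (1 + 2 * ℓ / N) ^ (j + 1) * (3 * C / N) := by ring
  have hgr' : ∀ j ≤ N, |(z (τ j)).1 - x j| + |(z (τ j)).2 - p j| + 3 * C / N ≤
      3 * C * Real.exp (2 * ℓ) / N := by
    intro j hj
    refine (hgr j hj).trans ?_
    have h1 : (1 + 2 * ℓ / N) ^ j ≤ Real.exp (2 * ℓ) := by
      calc (1 + 2 * ℓ / N) ^ j ≤ (1 + 2 * ℓ / N) ^ N := by
            apply pow_le_pow_right₀ _ hj
            have : 0 ≤ 2 * ℓ / N := by positivity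
            linarith
        _ ≤ (Real.exp (2 * ℓ / N)) ^ N := by
            apply pow_le_pow_left₀ (by positivity)
            rw [add_comm]
            exact Real.add_one_le_exp _
        _ = Real.exp (2 * ℓ) := by
            rw [← Real.exp_nat_mul]
            congr 1
            field_simp
    calc (1 + 2 * ℓ / N) ^ j * (3 * C / N) ≤ Real.exp (2 * ℓ) * (3 * C / N) := by
          apply mul_le_mul_of_nonneg_right h1
          positivity
      _ = _ := by ring
  set E : ℝ := 3 * C * Real.exp (2 * ℓ) with hE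
  have hE0 : 0 ≤ E := by positivity
  have hpb : ∀ j ≤ N, |p j| ≤ 2 * C := by
    have h1 : ∀ j ≤ N, |p j| ≤ C + j * (C / N) := by
      intro j
      induction j with
      | zero =>
        intro _
        simpa using hp0
      | succ j ih =>
        intro hj
        have h2 := ih (by omega)
        have h3 := hp j (by omega)
        have h4 : |∫ s in (τ j)..(τ (j + 1)), Hq s (x j, p (j + 1))| ≤ C / N := by
          calc |∫ s in (τ j)..(τ (j + 1)), Hq s (x j, p (j + 1))| ≤ C * (τ (j + 1) - τ j) :=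
                abs_int_le (hτle j) fun u _ => ((hN u).bdd _).1
            _ = C / N := by rw [hτs]; ring
        calc |p (j + 1)| = |p j - ∫ s in (τ j)..(τ (j + 1)), Hq s (x j, p (j + 1))| := by
              rw [← h3]
          _ ≤ |p j| + |∫ s in (τ j)..(τ (j + 1)), Hq s (x j, p (j + 1))| := abs_sub _ _
          _ ≤ (C + j * (C / N)) + C / N := add_le_add h2 h4
          _ = C + ((j + 1 : ℕ) : ℝ) * (C / N) := by push_cast; ring
    intro j hj
    refine (h1 j hj).trans ?_
    have h2 : (j : ℝ) * (C / N) ≤ N * (C / N) := by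
      apply mul_le_mul_of_nonneg_right _ (by positivity)
      exact_mod_cast hj
    have h3 : (N : ℝ) * (C / N) = C := by field_simp
    linarith
  constructor
  · have h1 := hgr' N le_rfl
    have h2 : τ N = 1 := by rw [hτ]; field_simp
    rw [h2] at h1
    have h3 : 0 ≤ |(z 1).2 - p N| := abs_nonneg _
    have h4 : 0 ≤ 3 * C / N := by positivity
    linarith
  · have iI : Continuous fun s => (z s).2 * Hp s (z s) - H s (z s) := (iz2.mul iHp).sub iH
    have e1 : (∫ s in (0 : ℝ)..1, ((z s).2 * Hp s (z s) - H s (z s))) =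
        ∑ j ∈ Finset.range N, ∫ s in (τ j)..(τ (j + 1)), ((z s).2 * Hp s (z s) - H s (z s)) := by
      rw [intervalIntegral.sum_integral_adjacent_intervals
        (fun k _ => iI.intervalIntegrable _ _)]
      have h1 : τ 0 = 0 := by rw [hτ]; simp
      have h2 : τ N = 1 := by rw [hτ]; field_simp
      rw [h1, h2]
    have e2 : ∀ j ∈ Finset.range N,
        (∫ s in (τ j)..(τ (j + 1)), ((z s).2 * Hp s (z s) - H s (z s))) ≤
        (p (j + 1) * (x (j + 1) - x j) - ∫ s in (τ j)..(τ (j + 1)), H s (x j, p (j + 1))) +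
          (3 * C + 2 * C * ℓ) * (E / N) / N := by
      intro j hj
      have hjN : j < N := Finset.mem_range.1 hj
      have hcw : Continuous fun s => p (j + 1) * Hp s (x j, p (j + 1)) :=
        continuous_const.mul (iHpw _)
      have hcw2 : Continuous fun s => p (j + 1) * Hp s (x j, p (j + 1)) - H s (x j, p (j + 1)) :=
        hcw.sub (iHw _)
      have h1 : p (j + 1) * (x (j + 1) - x j) -
          (∫ s in (τ j)..(τ (j + 1)), H s (x j, p (j + 1))) =
          ∫ s in (τ j)..(τ (j + 1)), (p (j + 1) * Hp s (x j, p (j + 1)) -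
            H s (x j, p (j + 1))) := by
        rw [intervalIntegral.integral_sub (hcw.intervalIntegrable _ _)
          ((iHw _).intervalIntegrable _ _), intervalIntegral.integral_const_mul, hx j hjN]
        ring
      have h2 : |∫ s in (τ j)..(τ (j + 1)), (((z s).2 * Hp s (z s) - H s (z s)) -
          (p (j + 1) * Hp s (x j, p (j + 1)) - H s (x j, p (j + 1))))| ≤
          ((3 * C + 2 * C * ℓ) * (E / N)) * (τ (j + 1) - τ j) := by
        apply abs_int_le (hτle j)
        intro s hs
        have hd : |(z s).1 - x j| + |(z s).2 - p (j + 1)| ≤ E / N :=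
          (hstep j hjN s hs).trans (hgr' j (by omega))
        have h3 : |H s (z s) - H s (x j, p (j + 1))| ≤ 2 * C * (E / N) := by
          refine (nice_lip (hN s) _ _).trans ?_
          exact mul_le_mul_of_nonneg_left hd (by positivity)
        have h4 : |Hp s (z s) - Hp s (x j, p (j + 1))| ≤ ℓ * (E / N) := by
          refine ((hN s).lip _ _).2.trans ?_
          exact mul_le_mul_of_nonneg_left hd hℓ
        have h5 : |(z s).2 - p (j + 1)| ≤ E / N := by
          have : 0 ≤ |(z s).1 - x j| := abs_nonneg _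
          linarith
        have h6 : |Hp s (z s)| ≤ C := ((hN s).bdd _).2
        have h7 : |p (j + 1)| ≤ 2 * C := hpb (j + 1) (by omega)
        have e : ((z s).2 * Hp s (z s) - H s (z s)) -
            (p (j + 1) * Hp s (x j, p (j + 1)) - H s (x j, p (j + 1))) =
            ((z s).2 - p (j + 1)) * Hp s (z s) +
            p (j + 1) * (Hp s (z s) - Hp s (x j, p (j + 1))) -
            (H s (z s) - H s (x j, p (j + 1))) := by ring
        rw [e]
        have h8 : |((z s).2 - p (j + 1)) * Hp s (z s)| ≤ (E / N) * C := by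
          rw [abs_mul]
          exact mul_le_mul h5 h6 (abs_nonneg _) (by positivity)
        have h9 : |p (j + 1) * (Hp s (z s) - Hp s (x j, p (j + 1)))| ≤ (2 * C) * (ℓ * (E / N)) := by
          rw [abs_mul]
          exact mul_le_mul h7 h4 (abs_nonneg _) (by positivity)
        calc |((z s).2 - p (j + 1)) * Hp s (z s) +
            p (j + 1) * (Hp s (z s) - Hp s (x j, p (j + 1))) -
            (H s (z s) - H s (x j, p (j + 1)))|
            ≤ |((z s).2 - p (j + 1)) * Hp s (z s) +
            p (j + 1) * (Hp s (z s) - Hp s (x j, p (j + 1)))| +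
            |H s (z s) - H s (x j, p (j + 1))| := abs_sub _ _
          _ ≤ (|((z s).2 - p (j + 1)) * Hp s (z s)| +
            |p (j + 1) * (Hp s (z s) - Hp s (x j, p (j + 1)))|) +
            |H s (z s) - H s (x j, p (j + 1))| := by gcongr; exact abs_add_le _ _
          _ ≤ ((E / N) * C + (2 * C) * (ℓ * (E / N))) + 2 * C * (E / N) := by linarith
          _ = (3 * C + 2 * C * ℓ) * (E / N) := by ring
      rw [intervalIntegral.integral_sub (iI.intervalIntegrable _ _)
        (hcw2.intervalIntegrable _ _), ← h1, hτs] at h2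
      have h3 := (abs_le.1 h2).2
      have h4 : ((3 * C + 2 * C * ℓ) * (E / N)) * (1 / N) =
        (3 * C + 2 * C * ℓ) * (E / N) / N := by ring
      linarith
    rw [e1]
    refine (Finset.sum_le_sum e2).trans ?_
    rw [Finset.sum_add_distrib]
    apply add_le_add le_rfl
    rw [Finset.sum_const, Finset.card_range, nsmul_eq_mul]
    apply le_of_eq
    field_simp

end Core

open Core in
theorem specCore (hD : SpecDiscrete) : SpecCore := by
  intro H Hq Hp C ℓ hN cH cHq cHp f f' hf hC hL Q₀ M cM hM Z hZ0 hZ ε hε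
  have hC0 : 0 ≤ C := (abs_nonneg _).trans (hC 0)
  have hℓ0 : 0 ≤ ℓ := by
    have := hL 1 0
    simp only [sub_zero, abs_one, mul_one] at this
    exact (abs_nonneg _).trans this
  have hN' : ∀ s, Nice (H (K s)) (Hq (K s)) (Hp (K s)) C ℓ := fun s => hN _ (K_mem s)
  have cK : Continuous fun x : ℝ × (ℝ × ℝ) => (K x.1, x.2) :=
    (K_cont.comp continuous_fst).prodMk continuous_snd
  have mK : ∀ x : ℝ × (ℝ × ℝ), (K x.1, x.2) ∈ (Icc 0 1 ×ˢ univ : Set (ℝ × (ℝ × ℝ))) :=
    fun x => ⟨K_mem _, mem_univ _⟩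
  have cH' : Continuous (fun x : ℝ × (ℝ × ℝ) => H (K x.1) x.2) := cH.comp_continuous cK mK
  have cHq' : Continuous (fun x : ℝ × (ℝ × ℝ) => Hq (K x.1) x.2) := cHq.comp_continuous cK mK
  have cHp' : Continuous (fun x : ℝ × (ℝ × ℝ) => Hp (K x.1) x.2) := cHp.comp_continuous cK mK
  have cM' : Continuous (fun s => M (K s)) := cM.comp_continuous K_cont K_mem
  obtain ⟨N, hNε⟩ := exists_nat_gt ((3 * C * Real.exp (2 * ℓ) +
    (3 * C + 2 * C * ℓ) * (3 * C * Real.exp (2 * ℓ))) / ε)
  have hNp : (0 : ℝ) < N := by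
    refine lt_of_le_of_lt ?_ hNε
    positivity
  have hN0 : 0 < N := by exact_mod_cast hNp
  have hEε : 3 * C * Real.exp (2 * ℓ) / N +
      (3 * C + 2 * C * ℓ) * (3 * C * Real.exp (2 * ℓ)) / N ≤ ε := by
    rw [← add_div, div_le_iff₀ hNp]
    rw [div_lt_iff₀ hε] at hNε
    linarith
  have hA0 : 0 ≤ 3 * C * Real.exp (2 * ℓ) / N := by positivity
  have hB0 : 0 ≤ (3 * C + 2 * C * ℓ) * (3 * C * Real.exp (2 * ℓ)) / N := by positivity
  let τ : ℕ → ℝ := fun j => j / N
  have hτs : ∀ j, τ (j + 1) - τ j = 1 / N := fun j => by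
    simp only [τ]
    push_cast
    field_simp
    ring
  have hτle : ∀ j, τ j ≤ τ (j + 1) := fun j => by
    have h1 := hτs j
    have h2 : 0 < 1 / (N : ℝ) := by positivity
    linarith
  have hτ1 : ∀ j, τ (j + 1) - τ j ≤ 1 := fun j => by
    rw [hτs, div_le_one hNp]
    exact_mod_cast hN0
  obtain ⟨x, p, hxN, hp0, hxp, hact⟩ := hD N (fun j z => ∫ s in (τ j)..(τ (j + 1)), H (K s) z)
    (fun j z => ∫ s in (τ j)..(τ (j + 1)), Hq (K s) z)
    (fun j z => ∫ s in (τ j)..(τ (j + 1)), Hp (K s) z) C ℓ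
    (fun j => nice_avg hC0 hℓ0 hN' cH' cHq' cHp' _ _ (hτle j) (hτ1 j)) f f' hf hC hL Q₀
    (fun j => ∫ s in (τ j)..(τ (j + 1)), M (K s))
    (fun j z => by
      rw [← intervalIntegral.integral_neg]
      apply intervalIntegral.integral_mono_on (hτle j)
      · exact ((cH'.comp (by fun_prop : Continuous fun s : ℝ => (s, z))).neg).intervalIntegrable _ _
      · exact cM'.intervalIntegrable _ _
      · intro s _
        exact hM _ (K_mem s) z)
  have hd : ∀ s ∈ Icc (0 : ℝ) 1, HasDerivWithinAt (fun t => Z t (x 0))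
        (Hp s (Z s (x 0)), -Hq s (Z s (x 0))) (Icc 0 1) s := fun s hs => hZ s hs (x 0)
  let z : ℝ → ℝ × ℝ := fun s => Z (K s) (x 0)
  have hZc : ContinuousOn (fun t => Z t (x 0)) (Icc 0 1) := fun s hs => (hd s hs).continuousWithinAt
  have hzc : Continuous z := hZc.comp_continuous K_cont K_mem
  have hz0 : z 0 = (x 0, p 0) := by
    simp only [z]
    rw [K_of ⟨le_rfl, zero_le_one⟩, hZ0, hp0]
  have hcont1 : Continuous fun u => Hp (K u) (z u) := cHp'.comp (continuous_id.prodMk hzc)
  have hcont2 : Continuous fun u => Hq (K u) (z u) := cHq'.comp (continuous_id.prodMk hzc)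
  have hcont3 : Continuous fun u => -Hq (K u) (z u) := hcont2.neg
  have hzd : ∀ s ∈ Ioo (0 : ℝ) 1, HasDerivAt z (Hp (K s) (z s), -Hq (K s) (z s)) s := by
    intro s hs
    have hs' : s ∈ Icc (0 : ℝ) 1 := ⟨hs.1.le, hs.2.le⟩
    have h1 := (hd s hs').hasDerivAt (Icc_mem_nhds hs.1 hs.2)
    have h2 : (fun t => Z t (x 0)) =ᶠ[𝓝 s] z := by
      filter_upwards [Icc_mem_nhds hs.1 hs.2] with t ht
      simp only [z]
      rw [K_of ht]
    have h3 := h1.congr_of_eventuallyEq h2.symm
    simp only [z]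
    rw [K_of hs']
    exact h3
  have hz1 : ∀ a b, 0 ≤ a → a ≤ b → b ≤ 1 →
      (z b).1 - (z a).1 = ∫ u in a..b, Hp (K u) (z u) := by
    intro a b ha hab hb
    rw [intervalIntegral.integral_eq_sub_of_hasDerivAt_of_le hab (f := fun s => (z s).1)
      (continuous_fst.comp hzc).continuousOn _ (hcont1.intervalIntegrable _ _)]
    intro s hs
    exact (hzd s ⟨ha.trans_lt hs.1, hs.2.trans_le hb⟩).fst
  have hz2 : ∀ a b, 0 ≤ a → a ≤ b → b ≤ 1 →
      (z b).2 - (z a).2 = -∫ u in a..b, Hq (K u) (z u) := by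
    intro a b ha hab hb
    rw [← intervalIntegral.integral_neg,
      intervalIntegral.integral_eq_sub_of_hasDerivAt_of_le hab (f := fun s => (z s).2)
      (continuous_snd.comp hzc).continuousOn _ (hcont3.intervalIntegrable _ _)]
    intro s hs
    exact (hzd s ⟨ha.trans_lt hs.1, hs.2.trans_le hb⟩).snd
  have hcmp := compare hC0 hℓ0 hN' cH' cHq' cHp' N hN0 x p τ (fun j => rfl)
    (fun j hj => (hxp j hj).1) (fun j hj => (hxp j hj).2) (by rw [hp0]; exact hC _) z hzc hz0
    hz1 hz2
  refine ⟨x 0, ?_, ?_⟩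
  · have h1 : z 1 = Z 1 (x 0) := by
      simp only [z]
      rw [K_of ⟨zero_le_one, le_rfl⟩]
    rw [← h1, ← hxN]
    exact hcmp.1.trans (by linarith)
  · have e1 : (∫ s in (0 : ℝ)..1, ((Z s (x 0)).2 * Hp s (Z s (x 0)) - H s (Z s (x 0)))) =
        ∫ s in (0 : ℝ)..1, ((z s).2 * Hp (K s) (z s) - H (K s) (z s)) := by
      apply intervalIntegral.integral_congr
      intro s hs
      rw [uIcc_of_le zero_le_one] at hs
      simp only [z]
      rw [K_of hs]
    have e2 : (∫ s in (0 : ℝ)..1, M s) =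
        ∑ j ∈ Finset.range N, ∫ s in (τ j)..(τ (j + 1)), M (K s) := by
      rw [intervalIntegral.sum_integral_adjacent_intervals
        (fun k _ => cM'.intervalIntegrable _ _)]
      have h1 : τ 0 = 0 := by simp [τ]
      have h2 : τ N = 1 := by simp only [τ]; field_simp
      rw [h1, h2]
      apply intervalIntegral.integral_congr
      intro s hs
      rw [uIcc_of_le zero_le_one] at hs
      simp only
      rw [K_of hs]
    rw [e1, e2]
    have h2 := hcmp.2
    linarith

end MP43832
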