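import Mathlib

set_option linter.all false

/-!
# The Hofer distance between billiard ball maps: definitions

The plane is identified with `ℂ`.  The annulus `A = S¹ × (-1, 1)`, `S¹ = ℝ / ℤ`, is described by
its universal cover, the strip `ℝ × (-1, 1)` with coordinates `(q, p)`: functions on `A` are
functions on the strip which are `1`-periodic in `q`, and maps `A → A` isotopic to the identity are
given by their lifts to the strip, which commute with the translation `(q, p) ↦ (q + 1, p)`.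
-/

noncomputable section

namespace MP43832

open Set Filter Topology MeasureTheory
open scoped ContDiff

/-- the determinant of two vectors of the plane -/
def det2 (a b : ℂ) : ℝ := a.re * b.im - a.im * b.re

/-- A marked billiard table, given by the counterclockwise arc length parametrisation `γ` of the
boundary of a smooth convex body whose boundary has length `1` and positive curvature; the marked
point is `γ 0`. -/
structure Table where
  /-- the counterclockwise arc length parametrisation of the boundary -/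
  γ : ℝ → ℂ
  smooth : ContDiff ℝ ∞ γ
  per : ∀ q, γ (q + 1) = γ q
  speed : ∀ q, ‖deriv γ q‖ = 1
  inj : InjOn γ (Ico 0 1)
  curv : ∀ q, 0 < det2 (deriv γ q) (deriv (deriv γ) q)
  /-- the convex body -/
  body : Set ℂ
  convex : Convex ℝ body
  compact : IsCompact body
  boundary : frontier body = range γ

/-- the length of the chord from `γ q` to `γ Q` -/
def len (α : Table) (q Q : ℝ) : ℝ := ‖α.γ Q - α.γ q‖

/-- the unit vector `u` in the direction from `γ q` to `γ Q` -/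
def dir (α : Table) (q Q : ℝ) : ℂ := (‖α.γ Q - α.γ q‖)⁻¹ • (α.γ Q - α.γ q)

/-- `⟨u, γ'(q)⟩` -/
def pp (α : Table) (q Q : ℝ) : ℝ := inner ℝ (dir α q Q) (deriv α.γ q)

/-- `⟨u, γ'(Q)⟩` -/
def PP (α : Table) (q Q : ℝ) : ℝ := inner ℝ (dir α q Q) (deriv α.γ Q)

/-- `w` is (a lift of) the image of `z` under the billiard ball map of the table `α` -/
def Bil (α : Table) (z w : ℝ × ℝ) : Prop :=
  (∀ k : ℤ, w.1 - z.1 ≠ k) ∧ z.2 = pp α z.1 w.1 ∧ w.2 = PP α z.1 w.1

/-- the universal cover of the annulus `A` -/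
def Strip : Set (ℝ × ℝ) := {z | -1 < z.2 ∧ z.2 < 1}

/-- the Hamiltonian vector field of `h` for `ω = dp ∧ dq` (`i_X ω = - dh`) -/
def XH (h : ℝ × ℝ → ℝ) (z : ℝ × ℝ) : ℝ × ℝ :=
  (fderiv ℝ h z (0, 1), -fderiv ℝ h z (1, 0))

/-- Hamiltonian paths from the billiard ball map of `α` to the billiard ball map of `β` -/
structure HamPath (α β : Table) where
  /-- the lifts of the symplectomorphisms `φ_s` -/
  Φ : ℝ → ℝ × ℝ → ℝ × ℝ
  /-- the Hamiltonians `H_s` -/
  H : ℝ → ℝ × ℝ → ℝ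
  smoothΦ : ContDiffOn ℝ ∞ (fun x : ℝ × (ℝ × ℝ) => Φ x.1 x.2) (Icc 0 1 ×ˢ Strip)
  smoothH : ContDiffOn ℝ ∞ (fun x : ℝ × (ℝ × ℝ) => H x.1 x.2) (Icc 0 1 ×ˢ Strip)
  perΦ : ∀ s ∈ Icc (0 : ℝ) 1, ∀ z ∈ Strip, Φ s (z.1 + 1, z.2) = ((Φ s z).1 + 1, (Φ s z).2)
  perH : ∀ s ∈ Icc (0 : ℝ) 1, ∀ z ∈ Strip, H s (z.1 + 1, z.2) = H s z
  /-- `φ_s` is a bijection of `A` -/
  bij : ∀ s ∈ Icc (0 : ℝ) 1, BijOn (Φ s) Strip Strip
  /-- `φ_s` preserves `ω` -/
  symp : ∀ s ∈ Icc (0 : ℝ) 1, ∀ z ∈ Strip, (fderiv ℝ (Φ s) z).det = 1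
  /-- `dφ_s / ds = X_s ∘ φ_s` -/
  flow : ∀ s ∈ Icc (0 : ℝ) 1, ∀ z ∈ Strip,
    HasDerivWithinAt (fun t => Φ t z) (XH (H s) (Φ s z)) (Icc 0 1) s
  /-- `φ_s` extends continuously by the identity to `∂A` -/
  bdryΦ : ∀ s ∈ Icc (0 : ℝ) 1, ∀ z : ℝ × ℝ, z.2 = 1 ∨ z.2 = -1 → ∃ k : ℤ,
    Tendsto (Φ s) (𝓝[Strip] z) (𝓝 (z.1 + k, z.2))
  /-- `H_s` extends continuously by `0` to `∂A` -/
  bdryH : ∀ s ∈ Icc (0 : ℝ) 1, ∀ z : ℝ × ℝ, z.2 = 1 ∨ z.2 = -1 →
    Tendsto (H s) (𝓝[Strip] z) (𝓝 0)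
  start : ∀ z ∈ Strip, Bil α z (Φ 0 z)
  finish : ∀ z ∈ Strip, Bil β z (Φ 1 z)

/-- `∫₀¹ (sup H_s - inf H_s) ds` -/
def HamPath.length {α β : Table} (P : HamPath α β) : ENNReal :=
  ∫⁻ s in Icc (0 : ℝ) 1, ENNReal.ofReal (sSup (P.H s '' Strip) - sInf (P.H s '' Strip))

/-- The path `(φ_s, H_s)` extends continuously, jointly in `s` and the point, by the identity and
by `0` to `∂A`. -/
def HamPath.Cont {α β : Table} (P : HamPath α β) : Prop :=
  ∀ s ∈ Icc (0 : ℝ) 1, ∀ z : ℝ × ℝ, z.2 = 1 ∨ z.2 = -1 → (∃ k : ℤ,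
    Tendsto (fun x : ℝ × (ℝ × ℝ) => P.Φ x.1 x.2) (𝓝[Icc 0 1 ×ˢ Strip] (s, z))
      (𝓝 (z.1 + k, z.2))) ∧
    Tendsto (fun x : ℝ × (ℝ × ℝ) => P.H x.1 x.2) (𝓝[Icc 0 1 ×ˢ Strip] (s, z)) (𝓝 0)

/-- the Hofer distance of the billiard ball maps of `α` and `β` -/
def dH (α β : Table) : ENNReal := ⨅ P : HamPath α β, P.length

/-- the difference of the chord lengths of two closed curves -/
def dfn (c d : ℝ → ℂ) (x : ℝ × ℝ) : ℝ := ‖d x.2 - d x.1‖ - ‖c x.2 - c x.1‖

/-- the oscillation of the difference of the chord lengths -/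
def osc (c d : ℝ → ℂ) : ℝ := sSup (range (dfn c d)) - sInf (range (dfn c d))

/-! ## Semi-algebraic sets -/

/-- The semi-algebraic subsets of `ℝ^ι`: the finite boolean combinations of the sets
`{x | 0 < f x}`, `f` a polynomial. -/
inductive SemiAlg {ι : Type} : Set (ι → ℝ) → Prop
  | pos (f : MvPolynomial ι ℝ) : SemiAlg {x | 0 < MvPolynomial.eval x f}
  | compl {s : Set (ι → ℝ)} : SemiAlg s → SemiAlg sᶜ
  | union {s t : Set (ι → ℝ)} : SemiAlg s → SemiAlg t → SemiAlg (s ∪ t)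

/-! ## Marked polygons -/

/-- The coordinates describing a marked `n`-gon: the two coordinates of the vertices `some i` and
of the marked point `none`. -/
abbrev Coord (n : ℕ) : Type := Option (Fin n) × Fin 2

/-- a vertex, or the marked point -/
def pt {n : ℕ} (x : Coord n → ℝ) (o : Option (Fin n)) : ℂ := ⟨x (o, 0), x (o, 1)⟩

/-- the length of the side from the vertex `i` to the next one -/
def side {n : ℕ} [NeZero n] (x : Coord n → ℝ) (i : Fin n) : ℝ :=
  ‖pt x (some (i + 1)) - pt x (some i)‖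

/-- `x` describes a marked convex `n`-gon of perimeter `1`: the vertices are listed in
counterclockwise order, and the marked point is on the boundary. -/
structure IsMP {n : ℕ} [NeZero n] (x : Coord n → ℝ) : Prop where
  convex : ∀ i j : Fin n, j ≠ i → j ≠ i + 1 →
    0 < det2 (pt x (some (i + 1)) - pt x (some i)) (pt x (some j) - pt x (some i))
  perimeter : ∑ i, side x i = 1
  marked : ∃ i : Fin n, pt x none ∈ segment ℝ (pt x (some i)) (pt x (some (i + 1)))

/-- `c` is the counterclockwise arc length parametrisation of the boundary of the marked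
polygon `x`, starting at the marked point -/
structure IsArc {n : ℕ} [NeZero n] (x : Coord n → ℝ) (c : ℝ → ℂ) : Prop where
  per : ∀ t, c (t + 1) = c t
  zero : c 0 = pt x none
  sides : ∃ τ : ℝ, ∀ i : Fin n, ∀ r ∈ Icc (0 : ℝ) (side x i),
    c (τ + ∑ j ∈ Finset.univ.filter (fun j => j < i), side x j + r) =
      pt x (some i) + (r / side x i) • (pt x (some (i + 1)) - pt x (some i))

end MP43832
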