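import Pool.Agent.Lib.MP_43832e_gt.Spec

set_option linter.all false

noncomputable section

namespace MP43832

open Set Filter Topology MeasureTheory
open scoped ContDiff

namespace Discrete

variable {N : ℕ}

/-- `x_j = Q₀ - ∑_{i ≥ j} y_i` -/
def X (Q₀ : ℝ) (j : ℕ) (y : EuclideanSpace ℝ (Fin N)) : ℝ :=
  Q₀ - ∑ i : Fin N, if j ≤ (i : ℕ) then y i else 0

theorem X_top (Q₀ : ℝ) (y : EuclideanSpace ℝ (Fin N)) : X Q₀ N y = Q₀ := by
  unfold X
  rw [Finset.sum_eq_zero]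
  · simp
  · intro i _
    rw [if_neg]
    have := i.2
    omega

theorem X_zero (Q₀ : ℝ) (y : EuclideanSpace ℝ (Fin N)) : X Q₀ 0 y = Q₀ - ∑ i, y i := by
  unfold X
  simp

theorem X_succ (Q₀ : ℝ) (y : EuclideanSpace ℝ (Fin N)) (j : Fin N) :
    X Q₀ ((j : ℕ) + 1) y - X Q₀ (j : ℕ) y = y j := by
  unfold X
  have : ∑ i : Fin N, (if (j : ℕ) ≤ (i : ℕ) then y i else 0) =
      (∑ i : Fin N, if (j : ℕ) + 1 ≤ (i : ℕ) then y i else 0) + y j := by
    have h2 : y j = ∑ i : Fin N, if i = j then y i else 0 := by simp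
    rw [h2, ← Finset.sum_add_distrib]
    apply Finset.sum_congr rfl
    intro i _
    by_cases h : i = j
    · subst h
      simp
    · have h3 : (i : ℕ) ≠ (j : ℕ) := fun h' => h (Fin.ext h')
      rw [if_neg h, add_zero]
      by_cases h4 : (j : ℕ) ≤ (i : ℕ)
      · rw [if_pos h4, if_pos (by omega)]
      · rw [if_neg h4, if_neg (by omega)]
  rw [this]
  ring

theorem X_add (Q₀ : ℝ) (j : ℕ) (y v : EuclideanSpace ℝ (Fin N)) (t : ℝ) :
    X Q₀ j (y + t • v) = X Q₀ j y + t * (-∑ i : Fin N, if j ≤ (i : ℕ) then v i else 0) := by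
  unfold X
  have : ∑ i : Fin N, (if j ≤ (i : ℕ) then (y + t • v) i else 0) =
      (∑ i : Fin N, if j ≤ (i : ℕ) then y i else 0) +
        t * ∑ i : Fin N, if j ≤ (i : ℕ) then v i else 0 := by
    rw [Finset.mul_sum, ← Finset.sum_add_distrib]
    apply Finset.sum_congr rfl
    intro i _
    split_ifs <;> simp
  rw [this]
  ring

theorem abs_le_norm (y : EuclideanSpace ℝ (Fin N)) (i : Fin N) : |y i| ≤ ‖y‖ := by
  have := PiLp.norm_apply_le y i
  simpa using this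

theorem norm_le_of (y : EuclideanSpace ℝ (Fin N)) (c : ℝ) (h : ∀ i, |y i| ≤ c) :
    ‖y‖ ≤ N * c := by
  have h1 : y = ∑ i, y i • EuclideanSpace.single i (1 : ℝ) := by
    ext j
    simp [Finset.sum_apply, Pi.single_apply]
  calc ‖y‖ = ‖∑ i, y i • EuclideanSpace.single i (1 : ℝ)‖ := by rw [← h1]
    _ ≤ ∑ i, ‖y i • EuclideanSpace.single i (1 : ℝ)‖ := norm_sum_le _ _
    _ ≤ ∑ i : Fin N, c := by
        apply Finset.sum_le_sum
        intro i _
        rw [norm_smul]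
        simpa using h i
    _ = N * c := by simp

theorem X_lip (Q₀ : ℝ) (j : ℕ) (y v : EuclideanSpace ℝ (Fin N)) :
    |X Q₀ j y - X Q₀ j v| ≤ N * ‖y - v‖ := by
  unfold X
  have : (Q₀ - ∑ i : Fin N, if j ≤ (i : ℕ) then y i else 0) -
      (Q₀ - ∑ i : Fin N, if j ≤ (i : ℕ) then v i else 0) =
      ∑ i : Fin N, if j ≤ (i : ℕ) then (v - y) i else 0 := by
    rw [sub_sub_sub_cancel_left, ← Finset.sum_sub_distrib]
    apply Finset.sum_congr rfl
    intro i _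
    split_ifs <;> simp
  rw [this]
  calc |∑ i : Fin N, if j ≤ (i : ℕ) then (v - y) i else 0|
      ≤ ∑ i : Fin N, |if j ≤ (i : ℕ) then (v - y) i else 0| := Finset.abs_sum_le_sum_abs _ _
    _ ≤ ∑ i : Fin N, ‖y - v‖ := by
        apply Finset.sum_le_sum
        intro i _
        split_ifs
        · rw [norm_sub_rev]
          exact abs_le_norm _ _
        · simp
    _ = N * ‖y - v‖ := by simp

/-- the nonlinear part of the action -/
def b (h : ℕ → ℝ × ℝ → ℝ) (f : ℝ → ℝ) (Q₀ : ℝ)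
    (z : EuclideanSpace ℝ (Fin N) × EuclideanSpace ℝ (Fin N)) : ℝ :=
  f (X Q₀ 0 z.1) - ∑ j : Fin N, h j (X Q₀ j z.1, z.2 j)

def g₁ (hq : ℕ → ℝ × ℝ → ℝ) (f' : ℝ → ℝ) (Q₀ : ℝ)
    (z : EuclideanSpace ℝ (Fin N) × EuclideanSpace ℝ (Fin N)) : EuclideanSpace ℝ (Fin N) :=
  WithLp.toLp 2 fun i : Fin N => -f' (X Q₀ 0 z.1) +
    ∑ j : Fin N, if (j : ℕ) ≤ (i : ℕ) then hq j (X Q₀ j z.1, z.2 j) else 0

def g₂ (hp : ℕ → ℝ × ℝ → ℝ) (Q₀ : ℝ)
    (z : EuclideanSpace ℝ (Fin N) × EuclideanSpace ℝ (Fin N)) : EuclideanSpace ℝ (Fin N) :=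
  WithLp.toLp 2 fun i : Fin N => -hp i (X Q₀ i z.1, z.2 i)

theorem b_der (h hq hp : ℕ → ℝ × ℝ → ℝ) (C ℓ : ℝ) (hN : ∀ j, Nice (h j) (hq j) (hp j) C ℓ)
    (f f' : ℝ → ℝ) (hf : ∀ x, HasDerivAt f (f' x) x) (Q₀ : ℝ)
    (z v : EuclideanSpace ℝ (Fin N) × EuclideanSpace ℝ (Fin N)) :
    HasDerivAt (fun t : ℝ => b h f Q₀ (z + t • v))
      (inner ℝ (g₁ hq f' Q₀ z) v.1 + inner ℝ (g₂ hp Q₀ z) v.2) 0 := by
  have hX : ∀ j : ℕ, HasDerivAt (fun t : ℝ => X Q₀ j (z + t • v).1)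
      (-∑ i : Fin N, if j ≤ (i : ℕ) then v.1 i else 0) 0 := by
    intro j
    have h1 : (fun t : ℝ => X Q₀ j (z + t • v).1) = fun t : ℝ => X Q₀ j z.1 + t *
        (-∑ i : Fin N, if j ≤ (i : ℕ) then v.1 i else 0) := by
      funext t
      rw [← X_add]
      simp
    rw [h1]
    have := ((hasDerivAt_id (0 : ℝ)).mul_const
      (-∑ i : Fin N, if j ≤ (i : ℕ) then v.1 i else 0)).const_add (X Q₀ j z.1)
    simpa using this
  have hP : ∀ j : Fin N, HasDerivAt (fun t : ℝ => (z + t • v).2 j) (v.2 j) 0 := by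
    intro j
    have h1 : (fun t : ℝ => (z + t • v).2 j) = fun t : ℝ => z.2 j + t * v.2 j := by
      funext t
      simp
    rw [h1]
    have := ((hasDerivAt_id (0 : ℝ)).mul_const (v.2 j)).const_add (z.2 j)
    simpa using this
  have h0 : (z + (0 : ℝ) • v) = z := by simp
  have hfd : HasDerivAt (fun t : ℝ => f (X Q₀ 0 (z + t • v).1))
      (f' (X Q₀ 0 z.1) * (-∑ i : Fin N, if 0 ≤ (i : ℕ) then v.1 i else 0)) 0 := by
    have h2 : HasDerivAt f (f' (X Q₀ 0 z.1)) (X Q₀ 0 (z + (0 : ℝ) • v).1) := by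
      rw [h0]
      exact hf _
    exact HasDerivAt.comp (0 : ℝ) h2 (hX 0)
  have hhd : ∀ j : Fin N, HasDerivAt (fun t : ℝ => h j (X Q₀ j (z + t • v).1, (z + t • v).2 j))
      (hq j (X Q₀ j z.1, z.2 j) * (-∑ i : Fin N, if (j : ℕ) ≤ (i : ℕ) then v.1 i else 0) +
        hp j (X Q₀ j z.1, z.2 j) * v.2 j) 0 := by
    intro j
    have h2 := (hN j).der (X Q₀ j (z + (0 : ℝ) • v).1, (z + (0 : ℝ) • v).2 j)
    have h3 := h2.comp_hasDerivAt (0 : ℝ) ((hX j).prodMk (hP j))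
    rw [h0] at h3
    simpa [Function.comp_def] using h3
  have hb : HasDerivAt (fun t : ℝ => b h f Q₀ (z + t • v))
      (f' (X Q₀ 0 z.1) * (-∑ i : Fin N, if 0 ≤ (i : ℕ) then v.1 i else 0) -
      ∑ j : Fin N, (hq j (X Q₀ j z.1, z.2 j) *
        (-∑ i : Fin N, if (j : ℕ) ≤ (i : ℕ) then v.1 i else 0) +
        hp j (X Q₀ j z.1, z.2 j) * v.2 j)) 0 := by
    unfold b
    exact hfd.sub (HasDerivAt.fun_sum fun j _ => hhd j)
  convert hb using 1
  have e1 : inner ℝ (g₁ hq f' Q₀ z) v.1 = ∑ i : Fin N, v.1 i * (-f' (X Q₀ 0 z.1) +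
    ∑ j : Fin N, if (j : ℕ) ≤ (i : ℕ) then hq j (X Q₀ j z.1, z.2 j) else 0) := by
    rw [PiLp.inner_apply]
    apply Finset.sum_congr rfl
    intro i _
    simp [g₁]
  have e2 : inner ℝ (g₂ hp Q₀ z) v.2 = ∑ i : Fin N, v.2 i * (-hp i (X Q₀ i z.1, z.2 i)) := by
    rw [PiLp.inner_apply]
    apply Finset.sum_congr rfl
    intro i _
    simp [g₂]
  rw [e1, e2]
  have e3 : ∑ i : Fin N, v.1 i * (-f' (X Q₀ 0 z.1) +
      ∑ j : Fin N, if (j : ℕ) ≤ (i : ℕ) then hq j (X Q₀ j z.1, z.2 j) else 0) =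
      -(f' (X Q₀ 0 z.1) * ∑ i : Fin N, v.1 i) +
      ∑ j : Fin N, hq j (X Q₀ j z.1, z.2 j) *
        ∑ i : Fin N, if (j : ℕ) ≤ (i : ℕ) then v.1 i else 0 := by
    simp only [mul_add, Finset.sum_add_distrib, Finset.mul_sum]
    congr 1
    · rw [← Finset.sum_neg_distrib]
      apply Finset.sum_congr rfl
      intro i _
      ring
    · rw [Finset.sum_comm]
      apply Finset.sum_congr rfl
      intro j _
      apply Finset.sum_congr rfl
      intro i _
      split_ifs <;> ring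
  rw [e3]
  simp only [mul_neg, Finset.sum_add_distrib, Finset.sum_neg_distrib]
  have e4 : ∑ i : Fin N, (if 0 ≤ (i : ℕ) then v.1 i else 0) = ∑ i : Fin N, v.1 i := by simp
  have e5 : ∑ x : Fin N, hp (x : ℕ) (X Q₀ x z.1, z.2 x) * v.2 x =
      ∑ x : Fin N, v.2 x * hp (x : ℕ) (X Q₀ x z.1, z.2 x) := by
    apply Finset.sum_congr rfl
    intro i _
    ring
  rw [e4, e5]
  ring

end Discrete

open Discrete in
theorem specDiscrete (hS : SpecSaddle) : SpecDiscrete := by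
  intro N h hq hp C ℓ hN f f' hf hC hL Q₀ m hm
  have hC0 : 0 ≤ C := (abs_nonneg _).trans (hC 0)
  have hℓ0 : 0 ≤ ℓ := by
    have := hL 1 0
    simp only [sub_zero, abs_one, mul_one] at this
    exact (abs_nonneg _).trans this
  have hf'c : Continuous f' := by
    have : LipschitzWith (Real.toNNReal ℓ) f' := by
      apply LipschitzWith.of_dist_le_mul
      intro x y
      rw [Real.dist_eq, Real.dist_eq, Real.coe_toNNReal ℓ hℓ0]
      exact hL x y
    exact this.continuous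
  have hbc := b_der (N := N) h hq hp C ℓ hN f f' hf Q₀
  set P₀ : ℝ → ℝ := fun Y => ∫ t in (0 : ℝ)..1, f' (Q₀ - t * Y) with hP₀
  have hP₀c : Continuous P₀ := by
    apply intervalIntegral.continuous_parametric_intervalIntegral_of_continuous'
    exact hf'c.comp (by fun_prop)
  have hP₀b : ∀ Y, |P₀ Y| ≤ C := by
    intro Y
    have := intervalIntegral.norm_integral_le_of_norm_le_const (a := (0 : ℝ)) (b := 1)
      (f := fun t => f' (Q₀ - t * Y)) (C := C) (fun x _ => hC _)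
    simpa using this
  have hP₀m : ∀ Y, P₀ Y * Y = f Q₀ - f (Q₀ - Y) := by
    intro Y
    have h1 : ∀ t ∈ uIcc (0 : ℝ) 1, HasDerivAt (fun t => -f (Q₀ - t * Y)) (f' (Q₀ - t * Y) * Y) t := by
      intro t _
      have h2 : HasDerivAt (fun t => Q₀ - t * Y) (-Y) t := by
        have := ((hasDerivAt_id t).mul_const Y).const_sub Q₀
        simpa using this
      have h3 := (HasDerivAt.comp t (hf (Q₀ - t * Y)) h2).neg
      have h4 : -(f' (Q₀ - t * Y) * -Y) = f' (Q₀ - t * Y) * Y := by ring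
      rw [h4] at h3
      exact h3
    have h2 := intervalIntegral.integral_eq_sub_of_hasDerivAt h1
      (((hf'c.comp (by fun_prop)).mul continuous_const).intervalIntegrable 0 1)
    rw [intervalIntegral.integral_mul_const] at h2
    simp only [one_mul, zero_mul, sub_zero] at h2
    rw [hP₀]
    simp only
    rw [h2]
    ring
  have hg1 : ∀ z : EuclideanSpace ℝ (Fin N) × EuclideanSpace ℝ (Fin N),
      ‖g₁ hq f' Q₀ z‖ ≤ N * (C + N * C) := by
    intro z
    apply norm_le_of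
    intro i
    have : |∑ j : Fin N, if (j : ℕ) ≤ (i : ℕ) then hq j (X Q₀ j z.1, z.2 j) else 0| ≤ N * C := by
      calc |∑ j : Fin N, if (j : ℕ) ≤ (i : ℕ) then hq j (X Q₀ j z.1, z.2 j) else 0|
          ≤ ∑ j : Fin N, |if (j : ℕ) ≤ (i : ℕ) then hq j (X Q₀ j z.1, z.2 j) else 0| :=
            Finset.abs_sum_le_sum_abs _ _
        _ ≤ ∑ j : Fin N, C := by
            apply Finset.sum_le_sum
            intro j _
            split_ifs
            · exact ((hN j).bdd _).1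
            · simpa using hC0
        _ = N * C := by simp
    calc |(g₁ hq f' Q₀ z) i| = |-f' (X Q₀ 0 z.1) +
        ∑ j : Fin N, if (j : ℕ) ≤ (i : ℕ) then hq j (X Q₀ j z.1, z.2 j) else 0| := rfl
      _ ≤ |-f' (X Q₀ 0 z.1)| +
          |∑ j : Fin N, if (j : ℕ) ≤ (i : ℕ) then hq j (X Q₀ j z.1, z.2 j) else 0| := abs_add_le _ _
      _ ≤ C + N * C := by
          rw [abs_neg]
          exact add_le_add (hC _) this
  have hg2 : ∀ z : EuclideanSpace ℝ (Fin N) × EuclideanSpace ℝ (Fin N),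
      ‖g₂ hp Q₀ z‖ ≤ N * C := by
    intro z
    apply norm_le_of
    intro i
    calc |(g₂ hp Q₀ z) i| = |-hp i (X Q₀ i z.1, z.2 i)| := rfl
      _ ≤ C := by
          rw [abs_neg]
          exact ((hN i).bdd _).2
  have hkey : ∀ (z z' : EuclideanSpace ℝ (Fin N) × EuclideanSpace ℝ (Fin N)) (j : Fin N),
      |X Q₀ j z.1 - X Q₀ j z'.1| + |z.2 j - z'.2 j| ≤
        (N + 1) * (‖z.1 - z'.1‖ + ‖z.2 - z'.2‖) := by
    intro z z' j
    have h1 := X_lip Q₀ j z.1 z'.1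
    have h2 : |z.2 j - z'.2 j| ≤ ‖z.2 - z'.2‖ := by
      have := abs_le_norm (z.2 - z'.2) j
      simpa using this
    have h3 : 0 ≤ (N : ℝ) * ‖z.2 - z'.2‖ := by positivity
    have h4 : 0 ≤ ‖z.1 - z'.1‖ := norm_nonneg _
    nlinarith
  have hl1 : ∀ z z' : EuclideanSpace ℝ (Fin N) × EuclideanSpace ℝ (Fin N),
      ‖g₁ hq f' Q₀ z - g₁ hq f' Q₀ z'‖ ≤
        (N * (ℓ * (N + 1) + N * (ℓ * (N + 1)))) * (‖z.1 - z'.1‖ + ‖z.2 - z'.2‖) := by
    intro z z'
    rw [mul_assoc]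
    apply norm_le_of
    intro i
    have e : (g₁ hq f' Q₀ z - g₁ hq f' Q₀ z') i = -(f' (X Q₀ 0 z.1) - f' (X Q₀ 0 z'.1)) +
        ∑ j : Fin N, if (j : ℕ) ≤ (i : ℕ) then
          hq j (X Q₀ j z.1, z.2 j) - hq j (X Q₀ j z'.1, z'.2 j) else 0 := by
      have : (g₁ hq f' Q₀ z - g₁ hq f' Q₀ z') i = (-f' (X Q₀ 0 z.1) +
        ∑ j : Fin N, if (j : ℕ) ≤ (i : ℕ) then hq j (X Q₀ j z.1, z.2 j) else 0) -
        (-f' (X Q₀ 0 z'.1) +
        ∑ j : Fin N, if (j : ℕ) ≤ (i : ℕ) then hq j (X Q₀ j z'.1, z'.2 j) else 0) := rfl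
      rw [this]
      have h2 : ∑ j : Fin N, (if (j : ℕ) ≤ (i : ℕ) then
          hq j (X Q₀ j z.1, z.2 j) - hq j (X Q₀ j z'.1, z'.2 j) else 0) =
          (∑ j : Fin N, if (j : ℕ) ≤ (i : ℕ) then hq j (X Q₀ j z.1, z.2 j) else 0) -
          ∑ j : Fin N, if (j : ℕ) ≤ (i : ℕ) then hq j (X Q₀ j z'.1, z'.2 j) else 0 := by
        rw [← Finset.sum_sub_distrib]
        apply Finset.sum_congr rfl
        intro j _
        split_ifs <;> simp
      rw [h2]
      ring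
    rw [e]
    have hpos : 0 ≤ ‖z.1 - z'.1‖ + ‖z.2 - z'.2‖ := by positivity
    have h3 : |f' (X Q₀ 0 z.1) - f' (X Q₀ 0 z'.1)| ≤
        ℓ * (N + 1) * (‖z.1 - z'.1‖ + ‖z.2 - z'.2‖) := by
      calc |f' (X Q₀ 0 z.1) - f' (X Q₀ 0 z'.1)| ≤ ℓ * |X Q₀ 0 z.1 - X Q₀ 0 z'.1| := hL _ _
        _ ≤ ℓ * ((N + 1) * (‖z.1 - z'.1‖ + ‖z.2 - z'.2‖)) := by
            apply mul_le_mul_of_nonneg_left _ hℓ0
            have h1 := X_lip Q₀ 0 z.1 z'.1
            have h3 : 0 ≤ (N : ℝ) * ‖z.2 - z'.2‖ := by positivity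
            have h4 : 0 ≤ ‖z.1 - z'.1‖ := norm_nonneg _
            have h5 : 0 ≤ ‖z.2 - z'.2‖ := norm_nonneg _
            nlinarith
        _ = _ := by ring
    have h4 : |∑ j : Fin N, if (j : ℕ) ≤ (i : ℕ) then
          hq j (X Q₀ j z.1, z.2 j) - hq j (X Q₀ j z'.1, z'.2 j) else 0| ≤
          N * (ℓ * (N + 1) * (‖z.1 - z'.1‖ + ‖z.2 - z'.2‖)) := by
      calc |∑ j : Fin N, if (j : ℕ) ≤ (i : ℕ) then
          hq j (X Q₀ j z.1, z.2 j) - hq j (X Q₀ j z'.1, z'.2 j) else 0|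
          ≤ ∑ j : Fin N, |if (j : ℕ) ≤ (i : ℕ) then
          hq j (X Q₀ j z.1, z.2 j) - hq j (X Q₀ j z'.1, z'.2 j) else 0| :=
            Finset.abs_sum_le_sum_abs _ _
        _ ≤ ∑ j : Fin N, (ℓ * (N + 1) * (‖z.1 - z'.1‖ + ‖z.2 - z'.2‖)) := by
            apply Finset.sum_le_sum
            intro j _
            split_ifs
            · calc |hq j (X Q₀ j z.1, z.2 j) - hq j (X Q₀ j z'.1, z'.2 j)|
                  ≤ ℓ * (|X Q₀ j z.1 - X Q₀ j z'.1| + |z.2 j - z'.2 j|) := ((hN j).lip _ _).1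
                _ ≤ ℓ * ((N + 1) * (‖z.1 - z'.1‖ + ‖z.2 - z'.2‖)) :=
                    mul_le_mul_of_nonneg_left (hkey z z' j) hℓ0
                _ = _ := by ring
            · rw [abs_zero]
              positivity
        _ = _ := by simp
    calc |-(f' (X Q₀ 0 z.1) - f' (X Q₀ 0 z'.1)) + ∑ j : Fin N, if (j : ℕ) ≤ (i : ℕ) then
          hq j (X Q₀ j z.1, z.2 j) - hq j (X Q₀ j z'.1, z'.2 j) else 0|
        ≤ |-(f' (X Q₀ 0 z.1) - f' (X Q₀ 0 z'.1))| + |∑ j : Fin N, if (j : ℕ) ≤ (i : ℕ) then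
          hq j (X Q₀ j z.1, z.2 j) - hq j (X Q₀ j z'.1, z'.2 j) else 0| := abs_add_le _ _
      _ ≤ ℓ * (N + 1) * (‖z.1 - z'.1‖ + ‖z.2 - z'.2‖) +
          N * (ℓ * (N + 1) * (‖z.1 - z'.1‖ + ‖z.2 - z'.2‖)) := by
          rw [abs_neg]
          exact add_le_add h3 h4
      _ = _ := by ring
  have hl2 : ∀ z z' : EuclideanSpace ℝ (Fin N) × EuclideanSpace ℝ (Fin N),
      ‖g₂ hp Q₀ z - g₂ hp Q₀ z'‖ ≤
        (N * (ℓ * (N + 1))) * (‖z.1 - z'.1‖ + ‖z.2 - z'.2‖) := by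
    intro z z'
    rw [mul_assoc]
    apply norm_le_of
    intro i
    have e : (g₂ hp Q₀ z - g₂ hp Q₀ z') i =
        -(hp i (X Q₀ i z.1, z.2 i) - hp i (X Q₀ i z'.1, z'.2 i)) := by
      have : (g₂ hp Q₀ z - g₂ hp Q₀ z') i = -hp i (X Q₀ i z.1, z.2 i) -
        (-hp i (X Q₀ i z'.1, z'.2 i)) := rfl
      rw [this]
      ring
    rw [e, abs_neg]
    calc |hp i (X Q₀ i z.1, z.2 i) - hp i (X Q₀ i z'.1, z'.2 i)|
        ≤ ℓ * (|X Q₀ i z.1 - X Q₀ i z'.1| + |z.2 i - z'.2 i|) := ((hN i).lip _ _).2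
      _ ≤ ℓ * ((N + 1) * (‖z.1 - z'.1‖ + ‖z.2 - z'.2‖)) :=
          mul_le_mul_of_nonneg_left (hkey z z' i) hℓ0
      _ = _ := by ring
  have hN0 : (0 : ℝ) ≤ N := Nat.cast_nonneg N
  obtain ⟨z, hz1, hz2, hz3⟩ := hS N (b h f Q₀) (g₁ hq f' Q₀) (g₂ hp Q₀) (N * (C + N * C))
    (N * (ℓ * (N + 1) + N * (ℓ * (N + 1)))) hbc
    (fun z => ⟨hg1 z, (hg2 z).trans (mul_le_mul_of_nonneg_left
      (by have : 0 ≤ (N : ℝ) * C := by positivity
          linarith) hN0)⟩)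
    (fun z z' => ⟨hl1 z z', (hl2 z z').trans (by
      apply mul_le_mul_of_nonneg_right _ (by positivity)
      apply mul_le_mul_of_nonneg_left _ hN0
      have : 0 ≤ (N : ℝ) * (ℓ * (N + 1)) := by positivity
      linarith)⟩)
    (fun y => WithLp.toLp 2 fun _ : Fin N => P₀ (∑ i, y i))
    (f Q₀ + ∑ j ∈ Finset.range N, m j) (N * C)
    (by
      apply (PiLp.continuous_toLp 2 _).comp
      apply continuous_pi
      intro i
      apply hP₀c.comp
      fun_prop)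
    (fun y => norm_le_of _ _ fun i => hP₀b _)
    (by
      intro y
      have e1 : inner ℝ (WithLp.toLp 2 fun _ : Fin N => P₀ (∑ i, y i)) y =
          P₀ (∑ i, y i) * ∑ i, y i := by
        rw [PiLp.inner_apply, Finset.mul_sum]
        apply Finset.sum_congr rfl
        intro i _
        simp [mul_comm]
      rw [e1, hP₀m]
      unfold b
      rw [X_zero]
      have e2 : -∑ j : Fin N, h j (X Q₀ j y, P₀ (∑ i, y i)) ≤ ∑ j ∈ Finset.range N, m j := by
        rw [← Finset.sum_neg_distrib, ← Fin.sum_univ_eq_sum_range (fun j => m j)]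
        exact Finset.sum_le_sum fun j _ => hm j _
      simp only
      linarith)
  -- the solution
  let x : ℕ → ℝ := fun j => X Q₀ j z.1
  let p : ℕ → ℝ := fun j => match j with
    | 0 => f' (x 0)
    | (k + 1) => if hk : k < N then z.2 ⟨k, hk⟩ else 0
  have hp0 : p 0 = f' (x 0) := rfl
  have hps : ∀ (k : ℕ) (hk : k < N), p (k + 1) = z.2 ⟨k, hk⟩ := by
    intro k hk
    exact dif_pos hk
  have hpi : ∀ i : Fin N, z.2 i = f' (x 0) -
      ∑ j : Fin N, if (j : ℕ) ≤ (i : ℕ) then hq j (X Q₀ j z.1, z.2 j) else 0 := by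
    intro i
    have h1 : (z.2 + g₁ hq f' Q₀ z) i = 0 := by rw [hz1]; rfl
    have h2 : (z.2 + g₁ hq f' Q₀ z) i = z.2 i + (-f' (X Q₀ 0 z.1) +
      ∑ j : Fin N, if (j : ℕ) ≤ (i : ℕ) then hq j (X Q₀ j z.1, z.2 j) else 0) := rfl
    rw [h2] at h1
    linarith
  have hyi : ∀ i : Fin N, z.1 i = hp i (X Q₀ i z.1, z.2 i) := by
    intro i
    have h1 : (z.1 + g₂ hp Q₀ z) i = 0 := by rw [hz2]; rfl
    have h2 : (z.1 + g₂ hp Q₀ z) i = z.1 i + (-hp i (X Q₀ i z.1, z.2 i)) := rfl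
    rw [h2] at h1
    linarith
  -- the finite sums
  have hpart : ∀ k : ℕ, k ≤ N → p k = f' (x 0) -
      ∑ j : Fin N, if (j : ℕ) < k then hq j (X Q₀ j z.1, z.2 j) else 0 := by
    intro k hk
    cases k with
    | zero => simp [hp0]
    | succ k =>
      rw [hps k (by omega), hpi ⟨k, by omega⟩]
      congr 1
      apply Finset.sum_congr rfl
      intro j _
      by_cases h : (j : ℕ) ≤ k
      · rw [if_pos h, if_pos (by omega)]
      · rw [if_neg h, if_neg (by omega)]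
  refine ⟨x, p, X_top Q₀ z.1, hp0, ?_, ?_⟩
  · intro j hj
    have hx := X_succ Q₀ z.1 ⟨j, hj⟩
    simp only at hx
    have hy := hyi ⟨j, hj⟩
    simp only at hy
    constructor
    · rw [hps j hj]
      show X Q₀ (j + 1) z.1 = X Q₀ j z.1 + hp j (X Q₀ j z.1, z.2 ⟨j, hj⟩)
      rw [← hy, ← hx]
      ring
    · have h1 : p (j + 1) = p j - hq j (x j, z.2 ⟨j, hj⟩) := by
        rw [hpart (j + 1) (by omega), hpart j (by omega)]
        have h2 : ∑ i : Fin N, (if (i : ℕ) < j + 1 then hq i (X Q₀ i z.1, z.2 i) else 0) =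
            (∑ i : Fin N, if (i : ℕ) < j then hq i (X Q₀ i z.1, z.2 i) else 0) +
              hq j (x j, z.2 ⟨j, hj⟩) := by
          have h3 : hq j (x j, z.2 ⟨j, hj⟩) = ∑ i : Fin N, if i = ⟨j, hj⟩ then
              hq i (X Q₀ i z.1, z.2 i) else 0 := by
            rw [Finset.sum_eq_single (⟨j, hj⟩ : Fin N)]
            · rw [if_pos rfl]
            · intro i _ hi
              rw [if_neg hi]
            · intro h
              exact absurd (Finset.mem_univ _) h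
          rw [h3, ← Finset.sum_add_distrib]
          apply Finset.sum_congr rfl
          intro i _
          by_cases h : i = ⟨j, hj⟩
          · subst h
            simp
          · have h4 : (i : ℕ) ≠ j := fun h' => h (Fin.ext h')
            rw [if_neg h, add_zero]
            by_cases h5 : (i : ℕ) < j
            · rw [if_pos h5, if_pos (by omega)]
            · rw [if_neg h5, if_neg (by omega)]
        rw [h2]
        ring
      rw [← hps j hj] at h1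
      exact h1
  · have e1 : inner ℝ z.2 z.1 + b h f Q₀ z = f (x 0) + ∑ j ∈ Finset.range N,
        (p (j + 1) * (x (j + 1) - x j) - h j (x j, p (j + 1))) := by
      rw [PiLp.inner_apply]
      unfold b
      rw [← Fin.sum_univ_eq_sum_range
        (fun j => p (j + 1) * (x (j + 1) - x j) - h j (x j, p (j + 1))) N,
        Finset.sum_sub_distrib]
      have e2 : ∑ i : Fin N, inner ℝ (z.2 i) (z.1 i) =
          ∑ i : Fin N, p ((i : ℕ) + 1) * (x ((i : ℕ) + 1) - x (i : ℕ)) := by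
        apply Finset.sum_congr rfl
        intro i _
        have h1 : x ((i : ℕ) + 1) - x (i : ℕ) = z.1 i := X_succ Q₀ z.1 i
        have h2 : p ((i : ℕ) + 1) = z.2 i := hps i i.2
        rw [h1, h2]
        simp [mul_comm]
      have e3 : ∑ j : Fin N, h j (X Q₀ j z.1, z.2 j) =
          ∑ j : Fin N, h (j : ℕ) (x (j : ℕ), p ((j : ℕ) + 1)) := by
        apply Finset.sum_congr rfl
        intro i _
        have h2 : p ((i : ℕ) + 1) = z.2 i := hps i i.2
        rw [h2]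
      rw [e2, e3]
      show _ + (f (x 0) - _) = _
      ring
    rw [← e1]
    exact hz3

end MP43832
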