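import Pool.Agent.Lib.MP_43832e_gt.Spec

set_option linter.all false

/-!
# Module F: the chord length of a billiard table
-/

noncomputable section

namespace MP43832
namespace F

open Set Filter Topology
open scoped ContDiff

variable (α : Table)

/-! ### plane vectors -/

lemma inner_eq (a b : ℂ) : inner ℝ a b = a.re * b.re + a.im * b.im := by
  rw [Complex.inner]
  simp [Complex.mul_re]
  ring

lemma det2_add_right (a b c : ℂ) : det2 a (b + c) = det2 a b + det2 a c := by
  simp [det2]; ring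

lemma det2_sub_right (a b c : ℂ) : det2 a (b - c) = det2 a b - det2 a c := by
  simp [det2]; ring

lemma det2_smul_right (a b : ℂ) (r : ℝ) : det2 a (r • b) = r * det2 a b := by
  simp [det2]; ring

lemma det2_smul_left (a b : ℂ) (r : ℝ) : det2 (r • a) b = r * det2 a b := by
  simp [det2]; ring

lemma det2_swap (a b : ℂ) : det2 a b = -det2 b a := by
  simp [det2]; ring

/-- `det2 a` as a continuous linear map -/
def detL (a : ℂ) : ℂ →L[ℝ] ℝ := a.re • Complex.imCLM - a.im • Complex.reCLM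

lemma detL_apply (a b : ℂ) : detL a b = det2 a b := by
  simp [detL, det2]

lemma inner_sq_add_det_sq (a b : ℂ) : (inner ℝ a b) ^ 2 + det2 a b ^ 2 = ‖a‖ ^ 2 * ‖b‖ ^ 2 := by
  rw [inner_eq, ← Complex.normSq_eq_norm_sq, ← Complex.normSq_eq_norm_sq, Complex.normSq_apply,
    Complex.normSq_apply, det2]
  ring

/-- a vector orthogonal to two linearly independent vectors is zero -/
lemma eq_zero_of_det (a b v : ℂ) (h : det2 a b ≠ 0) (ha : det2 a v = 0) (hb : det2 b v = 0) :
    v = 0 := by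
  have e1 : det2 a b * v.re = 0 := by
    have : det2 a b * v.re = b.re * det2 a v - a.re * det2 b v := by simp only [det2]; ring
    rw [this, ha, hb]; ring
  have e2 : det2 a b * v.im = 0 := by
    have : det2 a b * v.im = b.im * det2 a v - a.im * det2 b v := by simp only [det2]; ring
    rw [this, ha, hb]; ring
  apply Complex.ext
  · simpa [h] using e1
  · simpa [h] using e2

lemma clm_eq (f : ℂ →L[ℝ] ℝ) (a b v : ℂ) :
    det2 a b * f v = det2 v b * f a + det2 a v * f b := by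
  have hf : ∀ z : ℂ, f z = z.re * f 1 + z.im * f Complex.I := by
    intro z
    conv_lhs => rw [← Complex.re_add_im z]
    have h1 : ((z.re : ℝ) : ℂ) = z.re • (1 : ℂ) := by simp
    have h2 : ((z.im : ℝ) : ℂ) * Complex.I = z.im • Complex.I := by simp
    rw [h1, h2, map_add, map_smul, map_smul]
    simp
  rw [hf v, hf a, hf b]
  simp only [det2]
  ring

/-! ### the curve -/

lemma diff : Differentiable ℝ α.γ := α.smooth.differentiable (by simp)

lemma smooth' : ContDiff ℝ ∞ (deriv α.γ) := by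
  have := α.smooth
  exact (contDiff_infty_iff_deriv.1 this).2

lemma smooth'' : ContDiff ℝ ∞ (deriv (deriv α.γ)) := by
  exact (contDiff_infty_iff_deriv.1 (smooth' α)).2

lemma diff' : Differentiable ℝ (deriv α.γ) := (smooth' α).differentiable (by simp)

lemma hd (q : ℝ) : HasDerivAt α.γ (deriv α.γ q) q := (diff α q).hasDerivAt

lemma hd' (q : ℝ) : HasDerivAt (deriv α.γ) (deriv (deriv α.γ) q) q := (diff' α q).hasDerivAt

lemma per' (q : ℝ) : deriv α.γ (q + 1) = deriv α.γ q := by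
  have h := (hd α (q + 1)).comp_add_const q 1
  have e : (fun x => α.γ (x + 1)) = α.γ := funext α.per
  rw [e] at h
  exact h.unique (hd α q)

lemma per'' (q : ℝ) : deriv (deriv α.γ) (q + 1) = deriv (deriv α.γ) q := by
  have h := (hd' α (q + 1)).comp_add_const q 1
  have e : (fun x => deriv α.γ (x + 1)) = deriv α.γ := funext (per' α)
  rw [e] at h
  exact h.unique (hd' α q)

lemma periodic : Function.Periodic α.γ 1 := α.per

lemma ne_of_lt {q Q : ℝ} (h : q < Q) (h' : Q < q + 1) : α.γ Q ≠ α.γ q := by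
  intro e
  have p1 : α.γ (Int.fract Q) = α.γ Q := by
    have := (periodic α).sub_int_mul_eq (x := Q) ⌊Q⌋
    rw [mul_one] at this
    exact this
  have p2 : α.γ (Int.fract q) = α.γ q := by
    have := (periodic α).sub_int_mul_eq (x := q) ⌊q⌋
    rw [mul_one] at this
    exact this
  have hf : Int.fract Q = Int.fract q := by
    apply α.inj ⟨Int.fract_nonneg _, Int.fract_lt_one _⟩ ⟨Int.fract_nonneg _, Int.fract_lt_one _⟩
    rw [p1, p2, e]
  have hz : Q - q = ((⌊Q⌋ - ⌊q⌋ : ℤ) : ℝ) := by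
    have h1 := Int.floor_add_fract Q
    have h2 := Int.floor_add_fract q
    push_cast
    linarith
  have h1 : (0 : ℝ) < ((⌊Q⌋ - ⌊q⌋ : ℤ) : ℝ) := by rw [← hz]; linarith
  have h2 : ((⌊Q⌋ - ⌊q⌋ : ℤ) : ℝ) < 1 := by rw [← hz]; linarith
  have h3 : (0 : ℤ) < ⌊Q⌋ - ⌊q⌋ := by exact_mod_cast h1
  have h4 : ⌊Q⌋ - ⌊q⌋ < (1 : ℤ) := by exact_mod_cast h2
  omega

/-! ### the support property -/

/-- a nonzero functional with maximum on the body at `γ q` -/
lemma exists_support (q : ℝ) : ∃ f : ℂ →L[ℝ] ℝ, f ≠ 0 ∧ ∀ t, f (α.γ t) ≤ f (α.γ q) := by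
  have hcl : IsClosed α.body := α.compact.isClosed
  have hmem : ∀ t, α.γ t ∈ α.body := by
    intro t
    have : α.γ t ∈ frontier α.body := by rw [α.boundary]; exact mem_range_self t
    exact hcl.frontier_subset this
  have hq : α.γ q ∉ interior α.body := by
    have : α.γ q ∈ frontier α.body := by rw [α.boundary]; exact mem_range_self q
    exact this.2
  by_cases hi : (interior α.body).Nonempty
  · obtain ⟨f, hf⟩ := geometric_hahn_banach_open_point α.convex.interior isOpen_interior hq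
    refine ⟨f, ?_, ?_⟩
    · rintro rfl
      obtain ⟨x, hx⟩ := hi
      have := hf x hx
      simp at this
    · intro t
      have hsub : closure (interior α.body) ⊆ {x | f x ≤ f (α.γ q)} := by
        apply closure_minimal
        · intro x hx
          exact (hf x hx).le
        · exact isClosed_le f.continuous continuous_const
      have hc : α.γ t ∈ closure (interior α.body) := by
        rw [α.convex.closure_interior_eq_closure_of_nonempty_interior hi]
        exact subset_closure (hmem t)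
      exact hsub hc
  · exfalso
    rw [α.convex.interior_nonempty_iff_affineSpan_eq_top] at hi
    have hdir : (affineSpan ℝ α.body).direction ≠ ⊤ := by
      intro h
      apply hi
      rw [AffineSubspace.direction_eq_top_iff_of_nonempty] at h
      · exact h
      · exact ⟨α.γ q, subset_affineSpan ℝ _ (hmem q)⟩
    obtain ⟨f, hf0, hf⟩ := Submodule.exists_le_ker_of_lt_top _ (lt_top_iff_ne_top.2 hdir)
    have hc : ∀ t, f (α.γ t - α.γ q) = 0 := by
      intro t
      have : α.γ t - α.γ q ∈ (affineSpan ℝ α.body).direction := by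
        apply AffineSubspace.vsub_mem_direction
        · exact subset_affineSpan ℝ _ (hmem t)
        · exact subset_affineSpan ℝ _ (hmem q)
      exact hf this
    set g : ℂ →L[ℝ] ℝ := LinearMap.toContinuousLinearMap f with hg
    have hgf : ∀ x, g x = f x := fun x => rfl
    have hcst : (fun t => g (α.γ t)) = fun _ => g (α.γ q) := by
      funext t
      have := hc t
      rw [map_sub, sub_eq_zero] at this
      exact this
    have h1 : ∀ t, g (deriv α.γ t) = 0 := by
      intro t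
      have h := (g.hasFDerivAt (x := α.γ t)).comp_hasDerivAt t (hd α t)
      have e : (⇑g ∘ α.γ) = fun _ => g (α.γ q) := hcst
      rw [e] at h
      exact (h.unique (hasDerivAt_const t _)) 
    have h2 : ∀ t, g (deriv (deriv α.γ) t) = 0 := by
      intro t
      have h := (g.hasFDerivAt (x := deriv α.γ t)).comp_hasDerivAt t (hd' α t)
      have e : (⇑g ∘ deriv α.γ) = fun _ => (0 : ℝ) := funext h1
      rw [e] at h
      exact (h.unique (hasDerivAt_const t _)) 
    have hg0 : g = 0 := by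
      ext v
      have := clm_eq g (deriv α.γ q) (deriv (deriv α.γ) q) v
      rw [h1, h2] at this
      have hk := α.curv q
      have : det2 (deriv α.γ q) (deriv (deriv α.γ) q) * g v = 0 := by rw [this]; ring
      simpa [hk.ne'] using this
    apply hf0
    ext v
    exact congrArg (fun k : ℂ →L[ℝ] ℝ => k v) hg0

lemma second_order {g : ℝ → ℝ} {q : ℝ} (hg : ContinuousAt g q) (h1 : deriv g q = 0)
    (hm : IsLocalMax g q) : deriv (deriv g) q ≤ 0 := by
  by_contra hcon
  push Not at hcon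
  have hmin : IsLocalMin g q := isLocalMin_of_deriv_deriv_pos hcon h1 hg
  have hev : g =ᶠ[𝓝 q] fun _ => g q := by
    filter_upwards [hm, hmin] with x hx hy
    exact le_antisymm hx hy
  have hev2 : deriv g =ᶠ[𝓝 q] deriv fun _ => g q := hev.deriv
  have : deriv (deriv g) q = deriv (deriv fun _ : ℝ => g q) q := hev2.deriv_eq
  rw [this] at hcon
  simp at hcon

lemma support_nonneg (q t : ℝ) : 0 ≤ det2 (deriv α.γ q) (α.γ t - α.γ q) := by
  obtain ⟨f, hf0, hf⟩ := exists_support α q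
  have hD : ∀ t, HasDerivAt (fun t => f (α.γ t)) (f (deriv α.γ t)) t := by
    intro t
    exact (f.hasFDerivAt (x := α.γ t)).comp_hasDerivAt t (hd α t)
  have hD' : ∀ t, HasDerivAt (fun t => f (deriv α.γ t)) (f (deriv (deriv α.γ) t)) t := by
    intro t
    exact (f.hasFDerivAt (x := deriv α.γ t)).comp_hasDerivAt t (hd' α t)
  have hmax : IsLocalMax (fun t => f (α.γ t)) q := Filter.Eventually.of_forall hf
  have e1 : f (deriv α.γ q) = 0 := by
    have := hmax.hasDerivAt_eq_zero (hD q)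
    exact this
  have ed : deriv (fun t => f (α.γ t)) = fun t => f (deriv α.γ t) := funext fun t => (hD t).deriv
  have e2 : f (deriv (deriv α.γ) q) ≤ 0 := by
    have := second_order (hD q).continuousAt (by rw [(hD q).deriv, e1]) hmax
    rw [ed, (hD' q).deriv] at this
    exact this
  have hk := α.curv q
  have key : ∀ v, det2 (deriv α.γ q) (deriv (deriv α.γ) q) * f v =
      det2 (deriv α.γ q) v * f (deriv (deriv α.γ) q) := by
    intro v
    rw [clm_eq f (deriv α.γ q) (deriv (deriv α.γ) q) v, e1]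
    ring
  have hne : f (deriv (deriv α.γ) q) ≠ 0 := by
    intro h
    apply hf0
    ext v
    have := key v
    rw [h, mul_zero] at this
    simpa [hk.ne'] using this
  have hneg : f (deriv (deriv α.γ) q) < 0 := lt_of_le_of_ne e2 hne
  have h3 := key (α.γ t - α.γ q)
  have h4 : f (α.γ t - α.γ q) ≤ 0 := by
    rw [map_sub]
    have := hf t
    linarith
  have h5 : det2 (deriv α.γ q) (deriv (deriv α.γ) q) * f (α.γ t - α.γ q) ≤ 0 :=
    mul_nonpos_of_nonneg_of_nonpos hk.le h4
  rw [h3] at h5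
  by_contra hcon
  push Not at hcon
  have := mul_pos_of_neg_of_neg hcon hneg
  linarith

lemma support_pos {q Q : ℝ} (h : q < Q) (h' : Q < q + 1) :
    0 < det2 (deriv α.γ q) (α.γ Q - α.γ q) := by
  refine lt_of_le_of_ne (support_nonneg α q Q) ?_
  intro h0
  have hD : HasDerivAt (fun s => det2 (deriv α.γ s) (α.γ Q - α.γ s))
      (det2 (deriv (deriv α.γ) q) (α.γ Q - α.γ q)) q := by
    have a1 : HasDerivAt (fun s => (deriv α.γ s).re) ((deriv (deriv α.γ) q).re) q := by
      exact (Complex.reCLM.hasFDerivAt (x := deriv α.γ q)).comp_hasDerivAt q (hd' α q)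
    have a2 : HasDerivAt (fun s => (deriv α.γ s).im) ((deriv (deriv α.γ) q).im) q := by
      exact (Complex.imCLM.hasFDerivAt (x := deriv α.γ q)).comp_hasDerivAt q (hd' α q)
    have a3 : HasDerivAt (fun s => (α.γ Q - α.γ s).re) (-(deriv α.γ q).re) q := by
      have : HasDerivAt (fun s => α.γ Q - α.γ s) (-(deriv α.γ q)) q := (hd α q).const_sub _
      exact (Complex.reCLM.hasFDerivAt (x := α.γ Q - α.γ q)).comp_hasDerivAt q this
    have a4 : HasDerivAt (fun s => (α.γ Q - α.γ s).im) (-(deriv α.γ q).im) q := by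
      have : HasDerivAt (fun s => α.γ Q - α.γ s) (-(deriv α.γ q)) q := (hd α q).const_sub _
      exact (Complex.imCLM.hasFDerivAt (x := α.γ Q - α.γ q)).comp_hasDerivAt q this
    have := (a1.mul a4).sub (a2.mul a3)
    refine this.congr_deriv ?_
    simp only [det2]
    ring
  have hmin : IsLocalMin (fun s => det2 (deriv α.γ s) (α.γ Q - α.γ s)) q := by
    apply Filter.Eventually.of_forall
    intro s
    show det2 (deriv α.γ q) (α.γ Q - α.γ q) ≤ _
    rw [← h0]
    exact support_nonneg α s Q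
  have e := hmin.hasDerivAt_eq_zero hD
  have hz := eq_zero_of_det (deriv α.γ q) (deriv (deriv α.γ) q) (α.γ Q - α.γ q)
    (α.curv q).ne' h0.symm e
  exact ne_of_lt α h h' (sub_eq_zero.1 hz)

/-! ### the chord length -/

lemma len_pos {q Q : ℝ} (h : q < Q) (h' : Q < q + 1) : 0 < len α q Q := by
  rw [len, norm_pos_iff, sub_ne_zero]
  exact ne_of_lt α h h'

lemma len_le (q Q : ℝ) (h : q ≤ Q) : len α q Q ≤ Q - q := by
  have := Convex.norm_image_sub_le_of_norm_deriv_le (f := α.γ) (s := univ) (C := 1)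
    (fun x _ => diff α x) (fun x _ => (α.speed x).le) convex_univ (mem_univ q) (mem_univ Q)
  rw [len]
  rw [Real.norm_eq_abs, abs_of_nonneg (by linarith), one_mul] at this
  exact this

lemma len_symm (q Q : ℝ) : len α q Q = len α Q q := by
  rw [len, len, norm_sub_rev]

lemma len_add_left (q Q : ℝ) : len α (q + 1) Q = len α q Q := by
  rw [len, len, α.per]

lemma len_add_right (q Q : ℝ) : len α q (Q + 1) = len α q Q := by
  rw [len, len, α.per]

lemma norm_dir {q Q : ℝ} (h : q < Q) (h' : Q < q + 1) : ‖dir α q Q‖ = 1 := by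
  have := len_pos α h h'
  rw [len] at this
  rw [dir, norm_smul, norm_inv, norm_norm, inv_mul_cancel₀ this.ne']

lemma dir_eq (q Q : ℝ) : dir α q Q = (len α q Q)⁻¹ • (α.γ Q - α.γ q) := rfl

lemma det_left_pos {q Q : ℝ} (h : q < Q) (h' : Q < q + 1) :
    0 < det2 (deriv α.γ q) (dir α q Q) := by
  rw [dir_eq, det2_smul_right]
  exact mul_pos (inv_pos.2 (len_pos α h h')) (support_pos α h h')

lemma det_right_pos {q Q : ℝ} (h : q < Q) (h' : Q < q + 1) :
    0 < det2 (dir α q Q) (deriv α.γ Q) := by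
  have h1 := support_pos α (q := Q) (Q := q + 1) h' (by linarith)
  rw [α.per] at h1
  rw [dir_eq, det2_smul_left]
  refine mul_pos (inv_pos.2 (len_pos α h h')) ?_
  have : det2 (α.γ Q - α.γ q) (deriv α.γ Q) = det2 (deriv α.γ Q) (α.γ q - α.γ Q) := by
    simp only [det2, Complex.sub_re, Complex.sub_im]; ring
  rw [this]
  exact h1

/-! ### smoothness -/

lemma ne_Tri {x : ℝ × ℝ} (hx : x ∈ Tri) : α.γ x.2 - α.γ x.1 ≠ 0 :=
  sub_ne_zero.2 (ne_of_lt α hx.1 hx.2)

lemma smooth_chord : ContDiff ℝ ∞ (fun x : ℝ × ℝ => α.γ x.2 - α.γ x.1) :=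
  (α.smooth.comp contDiff_snd).sub (α.smooth.comp contDiff_fst)

lemma smooth_len : ContDiffOn ℝ ∞ (fun x : ℝ × ℝ => len α x.1 x.2) Tri :=
  (smooth_chord α).contDiffOn.norm ℝ (fun x hx => ne_Tri α hx)

lemma smooth_dir : ContDiffOn ℝ ∞ (fun x : ℝ × ℝ => dir α x.1 x.2) Tri :=
  ((smooth_len α).inv (fun x hx => (len_pos α hx.1 hx.2).ne')).smul (smooth_chord α).contDiffOn

lemma smooth_pp : ContDiffOn ℝ ∞ (fun x : ℝ × ℝ => pp α x.1 x.2) Tri :=
  (smooth_dir α).inner ℝ ((smooth' α).comp contDiff_fst).contDiffOn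

lemma smooth_PP : ContDiffOn ℝ ∞ (fun x : ℝ × ℝ => PP α x.1 x.2) Tri :=
  (smooth_dir α).inner ℝ ((smooth' α).comp contDiff_snd).contDiffOn

/-! ### derivatives -/

lemma inner_decomp (u a b : ℂ) (hu : ‖u‖ = 1) :
    (inner ℝ a b : ℝ) = inner ℝ u a * inner ℝ u b + det2 u a * det2 u b := by
  have h1 : u.re * u.re + u.im * u.im = 1 := by
    rw [← Complex.normSq_apply, Complex.normSq_eq_norm_sq, hu]; norm_num
  rw [inner_eq, inner_eq, inner_eq, det2, det2]
  linear_combination (-(a.re * b.re) - a.im * b.im) * h1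

lemma pp_eq (q Q : ℝ) : pp α q Q = (len α q Q)⁻¹ * inner ℝ (α.γ Q - α.γ q) (deriv α.γ q) := by
  rw [pp, dir_eq, real_inner_smul_left]

lemma PP_eq (q Q : ℝ) : PP α q Q = (len α q Q)⁻¹ * inner ℝ (α.γ Q - α.γ q) (deriv α.γ Q) := by
  rw [PP, dir_eq, real_inner_smul_left]

lemma der {q Q : ℝ} (h : q < Q) (h' : Q < q + 1) :
    HasFDerivAt (fun x : ℝ × ℝ => len α x.1 x.2)
    ((-pp α q Q) • ContinuousLinearMap.fst ℝ ℝ ℝ + PP α q Q • ContinuousLinearMap.snd ℝ ℝ ℝ)
    (q, Q) := by
  have hl := len_pos α h h'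
  have c2 : HasFDerivAt (fun x : ℝ × ℝ => α.γ x.2)
      ((ContinuousLinearMap.snd ℝ ℝ ℝ).smulRight (deriv α.γ Q)) (q, Q) := by
    have := (hd α Q).hasFDerivAt.comp (q, Q) (hasFDerivAt_snd (𝕜 := ℝ) (p := ((q, Q) : ℝ × ℝ)))
    refine this.congr_fderiv ?_
    ext <;> simp
  have c1 : HasFDerivAt (fun x : ℝ × ℝ => α.γ x.1)
      ((ContinuousLinearMap.fst ℝ ℝ ℝ).smulRight (deriv α.γ q)) (q, Q) := by
    have := (hd α q).hasFDerivAt.comp (q, Q) (hasFDerivAt_fst (𝕜 := ℝ) (p := ((q, Q) : ℝ × ℝ)))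
    refine this.congr_fderiv ?_
    ext <;> simp
  have c := (c2.sub c1).norm_sq
  have hne : ‖α.γ Q - α.γ q‖ ^ 2 ≠ 0 := by
    have : 0 < ‖α.γ Q - α.γ q‖ := hl
    positivity
  have d := c.sqrt hne
  have e : (fun x : ℝ × ℝ => len α x.1 x.2) =
      fun x : ℝ × ℝ => √(‖α.γ x.2 - α.γ x.1‖ ^ 2) := by
    funext x
    rw [Real.sqrt_sq (norm_nonneg _)]
    rfl
  rw [e]
  refine d.congr_fderiv ?_
  have hs : √(‖α.γ Q - α.γ q‖ ^ 2) = len α q Q := Real.sqrt_sq (norm_nonneg _)
  apply ContinuousLinearMap.ext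
  intro v
  simp only [ContinuousLinearMap.smul_apply, ContinuousLinearMap.add_apply,
    ContinuousLinearMap.comp_apply, ContinuousLinearMap.sub_apply,
    ContinuousLinearMap.smulRight_apply, ContinuousLinearMap.coe_fst', ContinuousLinearMap.coe_snd',
    innerSL_apply_apply, smul_eq_mul, Pi.sub_apply, hs, inner_sub_right, real_inner_smul_right,
    pp_eq, PP_eq]
  field_simp
  ring

lemma der_len_right {q Q : ℝ} (h : q < Q) (h' : Q < q + 1) :
    HasDerivAt (fun Q => len α q Q) (PP α q Q) Q := by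
  have h1 : HasDerivAt (fun Q : ℝ => ((q, Q) : ℝ × ℝ)) (0, 1) Q :=
    (hasDerivAt_const Q q).prodMk (hasDerivAt_id Q)
  have h2 := (der α h h').comp_hasDerivAt Q h1
  have h3 : HasDerivAt (fun Q => len α q Q) (((-pp α q Q) • ContinuousLinearMap.fst ℝ ℝ ℝ +
    PP α q Q • ContinuousLinearMap.snd ℝ ℝ ℝ) ((0, 1) : ℝ × ℝ)) Q := h2
  refine h3.congr_deriv ?_
  simp

lemma der_len_left {q Q : ℝ} (h : q < Q) (h' : Q < q + 1) :
    HasDerivAt (fun q => len α q Q) (-pp α q Q) q := by
  have h1 : HasDerivAt (fun q : ℝ => ((q, Q) : ℝ × ℝ)) (1, 0) q :=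
    (hasDerivAt_id q).prodMk (hasDerivAt_const q Q)
  have h2 := (der α h h').comp_hasDerivAt q h1
  have h3 : HasDerivAt (fun q => len α q Q) (((-pp α q Q) • ContinuousLinearMap.fst ℝ ℝ ℝ +
    PP α q Q • ContinuousLinearMap.snd ℝ ℝ ℝ) ((1, 0) : ℝ × ℝ)) q := h2
  refine h3.congr_deriv ?_
  simp

lemma der_pp {q Q : ℝ} (h : q < Q) (h' : Q < q + 1) :
    HasDerivAt (fun Q => pp α q Q) (-kk α q Q) Q := by
  have hl := len_pos α h h'
  have e : (fun Q => pp α q Q) =
      fun Q => (len α q Q)⁻¹ * inner ℝ (α.γ Q - α.γ q) (deriv α.γ q) := funext fun Q => pp_eq α q Q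
  rw [e]
  have h1 := (der_len_right α h h').inv hl.ne'
  have h2 : HasDerivAt (fun Q => inner ℝ (α.γ Q - α.γ q) (deriv α.γ q) : ℝ → ℝ)
      (inner ℝ (deriv α.γ Q) (deriv α.γ q)) Q := by
    have := ((hd α Q).sub_const (α.γ q)).inner ℝ (hasDerivAt_const Q (deriv α.γ q))
    refine this.congr_deriv ?_
    simp
  refine (h1.mul h2).congr_deriv ?_
  have h3 := inner_decomp (dir α q Q) (deriv α.γ Q) (deriv α.γ q) (norm_dir α h h')
  have h4 : (inner ℝ (α.γ Q - α.γ q) (deriv α.γ q) : ℝ) = len α q Q * pp α q Q := by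
    rw [pp_eq]; field_simp
  rw [h3, h4, kk, ← PP, ← pp, det2_swap (deriv α.γ q) (dir α q Q), Pi.inv_apply]
  field_simp
  ring

lemma der_PP {q Q : ℝ} (h : q < Q) (h' : Q < q + 1) :
    HasDerivAt (fun q => PP α q Q) (kk α q Q) q := by
  have hl := len_pos α h h'
  have e : (fun q => PP α q Q) =
      fun q => (len α q Q)⁻¹ * inner ℝ (α.γ Q - α.γ q) (deriv α.γ Q) := funext fun q => PP_eq α q Q
  rw [e]
  have h1 := (der_len_left α h h').inv hl.ne'
  have h2 : HasDerivAt (fun q => inner ℝ (α.γ Q - α.γ q) (deriv α.γ Q) : ℝ → ℝ)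
      (-inner ℝ (deriv α.γ q) (deriv α.γ Q)) q := by
    have := ((hd α q).const_sub (α.γ Q)).inner ℝ (hasDerivAt_const q (deriv α.γ Q))
    refine this.congr_deriv ?_
    simp
  refine (h1.mul h2).congr_deriv ?_
  have h3 := inner_decomp (dir α q Q) (deriv α.γ q) (deriv α.γ Q) (norm_dir α h h')
  have h4 : (inner ℝ (α.γ Q - α.γ q) (deriv α.γ Q) : ℝ) = len α q Q * PP α q Q := by
    rw [PP_eq]; field_simp
  rw [h3, h4, kk, ← PP, ← pp, det2_swap (deriv α.γ q) (dir α q Q), Pi.inv_apply]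
  field_simp
  ring

lemma kk_pos {q Q : ℝ} (h : q < Q) (h' : Q < q + 1) : 0 < kk α q Q :=
  div_pos (mul_pos (det_left_pos α h h') (det_right_pos α h h')) (len_pos α h h')

lemma abs_pp {q Q : ℝ} (h : q < Q) (h' : Q < q + 1) : |pp α q Q| < 1 := by
  have h1 := inner_sq_add_det_sq (dir α q Q) (deriv α.γ q)
  rw [norm_dir α h h', α.speed] at h1
  have h2 := det_left_pos α h h'
  rw [det2_swap] at h2
  rw [← sq_lt_one_iff_abs_lt_one]
  rw [pp]
  nlinarith [mul_pos h2 h2]

lemma abs_PP {q Q : ℝ} (h : q < Q) (h' : Q < q + 1) : |PP α q Q| < 1 := by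
  have h1 := inner_sq_add_det_sq (dir α q Q) (deriv α.γ Q)
  rw [norm_dir α h h', α.speed] at h1
  have h2 := det_right_pos α h h'
  rw [← sq_lt_one_iff_abs_lt_one]
  rw [PP]
  nlinarith [mul_pos h2 h2]

/-! ### near the diagonal -/

lemma exists_bound : ∃ M : ℝ, 0 < M ∧ ∀ q, ‖deriv (deriv α.γ) q‖ ≤ M := by
  obtain ⟨C, hC⟩ := (isCompact_Icc (a := (0 : ℝ)) (b := 1)).exists_bound_of_continuousOn
    (smooth'' α).continuous.continuousOn
  refine ⟨max C 1, by positivity, fun q => ?_⟩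
  have hp : Function.Periodic (deriv (deriv α.γ)) 1 := per'' α
  obtain ⟨y, hy, hy'⟩ := hp.exists_mem_Ico₀ (by norm_num) q
  rw [hy']
  exact (hC y ⟨hy.1, hy.2.le⟩).trans (le_max_left _ _)

lemma lip {M : ℝ} (hM : ∀ q, ‖deriv (deriv α.γ) q‖ ≤ M) (a b : ℝ) :
    ‖deriv α.γ b - deriv α.γ a‖ ≤ M * |b - a| := by
  have := Convex.norm_image_sub_le_of_norm_deriv_le (f := deriv α.γ) (s := univ) (C := M)
    (fun x _ => diff' α x) (fun x _ => hM x) convex_univ (mem_univ a) (mem_univ b)
  simpa using this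

/-- `γ Q - γ q` is close to `(Q - q) v` if `γ'` is close to `v` -/
lemma taylor {M : ℝ} (hM : ∀ q, ‖deriv (deriv α.γ) q‖ ≤ M) {q Q t : ℝ} (h : q ≤ Q)
    (ht : t ∈ Icc q Q) :
    ‖α.γ Q - α.γ q - (Q - q) • deriv α.γ t‖ ≤ M * (Q - q) * (Q - q) := by
  have hD : ∀ x, HasDerivAt (fun x => α.γ x - x • deriv α.γ t) (deriv α.γ x - deriv α.γ t) x := by
    intro x
    have := (hd α x).sub ((hasDerivAt_id x).smul_const (deriv α.γ t))
    exact this.congr_deriv (by simp)
  have hM0 : 0 ≤ M := (norm_nonneg _).trans (hM 0)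
  have := Convex.norm_image_sub_le_of_norm_hasDerivWithin_le
    (f := fun x => α.γ x - x • deriv α.γ t) (s := Icc q Q) (C := M * (Q - q))
    (f' := fun x => deriv α.γ x - deriv α.γ t)
    (fun x _ => (hD x).hasDerivWithinAt) (fun x hx => ?_) (convex_Icc q Q)
    (left_mem_Icc.2 h) (right_mem_Icc.2 h)
  · rw [Real.norm_eq_abs, abs_of_nonneg (by linarith : (0 : ℝ) ≤ Q - q)] at this
    have e : α.γ Q - α.γ q - (Q - q) • deriv α.γ t =
        α.γ Q - Q • deriv α.γ t - (α.γ q - q • deriv α.γ t) := by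
      rw [sub_smul]
      abel
    rw [e]
    exact this
  · refine (lip α hM t x).trans ?_
    apply mul_le_mul_of_nonneg_left _ hM0
    rw [abs_le]
    constructor <;> linarith [hx.1, hx.2, ht.1, ht.2]

lemma inner_ge {M : ℝ} (hM : ∀ q, ‖deriv (deriv α.γ) q‖ ≤ M) {q Q t : ℝ} (h : q ≤ Q)
    (ht : t ∈ Icc q Q) :
    (Q - q) * (1 - M * (Q - q)) ≤ inner ℝ (α.γ Q - α.γ q) (deriv α.γ t) := by
  have h1 := taylor α hM h ht
  have h2 : (inner ℝ (α.γ Q - α.γ q) (deriv α.γ t) : ℝ) =
      inner ℝ (α.γ Q - α.γ q - (Q - q) • deriv α.γ t) (deriv α.γ t) + (Q - q) := by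
    rw [inner_sub_left (α.γ Q - α.γ q), real_inner_smul_left, real_inner_self_eq_norm_sq, α.speed]
    ring
  have h3 := abs_real_inner_le_norm (α.γ Q - α.γ q - (Q - q) • deriv α.γ t) (deriv α.γ t)
  rw [α.speed, mul_one] at h3
  have h4 := (abs_le.1 h3).1
  rw [h2]
  linarith

lemma near_left_aux {M ε : ℝ} (hM : ∀ q, ‖deriv (deriv α.γ) q‖ ≤ M) (hM0 : 0 < M)
    (hε : 0 < ε) {q Q : ℝ} (h : q < Q) (h' : Q < q + 1) (h1 : M * (Q - q) < ε)
    (h2 : M * (Q - q) < 1) :
    1 - ε < pp α q Q ∧ 1 - ε < PP α q Q := by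
  have hl := len_pos α h h'
  have hl' := len_le α q Q h.le
  have key : ∀ t ∈ Icc q Q, 1 - ε < (len α q Q)⁻¹ * inner ℝ (α.γ Q - α.γ q) (deriv α.γ t) := by
    intro t ht
    have h3 := inner_ge α hM h.le ht
    have h4 : len α q Q * (1 - M * (Q - q)) ≤ inner ℝ (α.γ Q - α.γ q) (deriv α.γ t) := by
      refine le_trans ?_ h3
      apply mul_le_mul_of_nonneg_right hl'
      linarith
    have h5 : (1 - M * (Q - q)) ≤ (len α q Q)⁻¹ * inner ℝ (α.γ Q - α.γ q) (deriv α.γ t) := by
      rw [le_inv_mul_iff₀ hl]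
      exact h4
    linarith
  rw [pp_eq, PP_eq]
  exact ⟨key q (left_mem_Icc.2 h.le), key Q (right_mem_Icc.2 h.le)⟩

lemma near_left (ε : ℝ) (hε : 0 < ε) : ∃ δ : ℝ, 0 < δ ∧ ∀ q Q, q < Q → Q < q + 1 → Q < q + δ →
    1 - ε < pp α q Q ∧ 1 - ε < PP α q Q := by
  obtain ⟨M, hM0, hM⟩ := exists_bound α
  refine ⟨min ε 1 / M, by positivity, fun q Q h h' h'' => ?_⟩
  have h1 : M * (Q - q) < min ε 1 := by
    have : Q - q < min ε 1 / M := by linarith
    rwa [lt_div_iff₀ hM0, mul_comm] at this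
  exact near_left_aux α hM hM0 hε h h' (h1.trans_le (min_le_left _ _))
    (h1.trans_le (min_le_right _ _))

lemma pp_flip (q Q : ℝ) : pp α q Q = -PP α Q (q + 1) := by
  rw [pp_eq, PP_eq, len_add_right, len_symm α Q q, α.per, per', ← neg_sub (α.γ q) (α.γ Q),
    inner_neg_left]
  ring

lemma PP_flip (q Q : ℝ) : PP α q Q = -pp α Q (q + 1) := by
  rw [pp_eq, PP_eq, len_add_right, len_symm α Q q, α.per, ← neg_sub (α.γ q) (α.γ Q),
    inner_neg_left]
  ring

lemma near_right (ε : ℝ) (hε : 0 < ε) : ∃ δ : ℝ, 0 < δ ∧ ∀ q Q, q < Q → Q < q + 1 →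
    q + 1 - δ < Q → pp α q Q < -1 + ε ∧ PP α q Q < -1 + ε := by
  obtain ⟨δ, hδ, H⟩ := near_left α ε hε
  refine ⟨δ, hδ, fun q Q h h' h'' => ?_⟩
  obtain ⟨h1, h2⟩ := H Q (q + 1) h' (by linarith) (by linarith)
  rw [pp_flip α q Q, PP_flip α q Q]
  constructor <;> linarith

lemma dir_per (q Q : ℝ) : dir α (q + 1) (Q + 1) = dir α q Q := by
  rw [dir, dir, α.per, α.per]

lemma dir_per' (q Q : ℝ) : dir α q (Q + 1) = dir α q Q := by
  rw [dir, dir, α.per]

end F

/-- Module F -/
theorem specGeo : SpecGeo := fun α =>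
  { pos := fun q Q h h' => F.len_pos α h h'
    le_left := fun q Q h => F.len_le α q Q h
    le_right := fun q Q h => by
      have := F.len_le α Q (q + 1) h
      rw [F.len_add_right, F.len_symm] at this
      exact this
    smooth_len := F.smooth_len α
    smooth_pp := F.smooth_pp α
    smooth_PP := F.smooth_PP α
    der := fun q Q h h' => F.der α h h'
    kk_pos := fun q Q h h' => F.kk_pos α h h'
    der_pp := fun q Q h h' => F.der_pp α h h'
    der_PP := fun q Q h h' => F.der_PP α h h'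
    abs_pp := fun q Q h h' => F.abs_pp α h h'
    abs_PP := fun q Q h h' => F.abs_PP α h h'
    near_left := F.near_left α
    near_right := F.near_right α
    len_per := fun q Q => by rw [F.len_add_left, F.len_add_right]
    len_per' := fun q Q => F.len_add_right α q Q
    pp_per := fun q Q => by rw [pp, pp, F.dir_per, F.per']
    PP_per := fun q Q => by rw [PP, PP, F.dir_per, F.per']
    pp_per' := fun q Q => by rw [pp, pp, F.dir_per']
    PP_per' := fun q Q => by rw [PP, PP, F.dir_per', F.per'] }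

end MP43832
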