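import Pool.Agent.Lib.MP_43832e_gt.T

set_option linter.all false

/-!
# Semi-algebraic predicates and functions; the oscillation is semi-algebraic
-/

noncomputable section

namespace MP43832.Graph

open Set MP43832

section Basic

variable {Γ Δ : Type}

/-- semi-algebraic predicates -/
def SA (p : (Γ → ℝ) → Prop) : Prop := SemiAlg {x | p x}

/-- semi-algebraic functions -/
def SF (f : (Γ → ℝ) → ℝ) : Prop := SA (fun y : Option Γ → ℝ => y none = f (fun i => y (some i)))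

/-- polynomial functions -/
def PF (f : (Γ → ℝ) → ℝ) : Prop := ∃ P : MvPolynomial Γ ℝ, ∀ x, f x = MvPolynomial.eval x P

lemma SA.congr {p q : (Γ → ℝ) → Prop} (hp : SA p) (h : ∀ x, q x ↔ p x) : SA q := by
  have : q = p := funext fun x => propext (h x)
  rw [this]; exact hp

lemma SA.not {p : (Γ → ℝ) → Prop} (hp : SA p) : SA (fun x => ¬ p x) := SemiAlg.compl hp

lemma SA.or {p q : (Γ → ℝ) → Prop} (hp : SA p) (hq : SA q) : SA (fun x => p x ∨ q x) :=
  SemiAlg.union hp hq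

lemma SA.and {p q : (Γ → ℝ) → Prop} (hp : SA p) (hq : SA q) : SA (fun x => p x ∧ q x) :=
  T.SA_inter hp hq

lemma SA.imp {p q : (Γ → ℝ) → Prop} (hp : SA p) (hq : SA q) : SA (fun x => p x → q x) :=
  (hp.not.or hq).congr (fun x => imp_iff_not_or)

lemma SA.iff {p q : (Γ → ℝ) → Prop} (hp : SA p) (hq : SA q) : SA (fun x => p x ↔ q x) :=
  ((hp.imp hq).and (hq.imp hp)).congr (fun x => iff_iff_implies_and_implies)

lemma SA_const (P : Prop) : SA (fun _ : Γ → ℝ => P) := by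
  unfold SA
  by_cases h : P
  · simp only [h, setOf_true]
    exact T.SA_univ
  · simp only [h, setOf_false]
    exact T.SA_empty

lemma SA.exF {κ : Type*} [Finite κ] {p : κ → (Γ → ℝ) → Prop} (h : ∀ i, SA (p i)) :
    SA (fun x => ∃ i, p i x) := by
  have := T.SA_iUnion (univ : Set κ) finite_univ (fun i => {x | p i x}) (fun i _ => h i)
  unfold SA
  convert this using 1
  ext x
  simp

lemma SA.allF {κ : Type*} [Finite κ] {p : κ → (Γ → ℝ) → Prop} (h : ∀ i, SA (p i)) :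
    SA (fun x => ∀ i, p i x) := by
  refine (SA.exF (fun i => (h i).not)).not.congr (fun x => ?_)
  push Not
  trivial

lemma SA_pos {f : (Γ → ℝ) → ℝ} (hf : PF f) : SA (fun x => 0 < f x) := by
  obtain ⟨P, hP⟩ := hf
  exact SA.congr (SemiAlg.pos P) (fun x => by rw [hP x])

lemma PF_coord (i : Γ) : PF (fun x : Γ → ℝ => x i) := ⟨MvPolynomial.X i, fun x => by simp⟩

lemma PF_const (c : ℝ) : PF (fun _ : Γ → ℝ => c) := ⟨MvPolynomial.C c, fun x => by simp⟩

lemma PF.add {f g : (Γ → ℝ) → ℝ} (hf : PF f) (hg : PF g) : PF (fun x => f x + g x) := by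
  obtain ⟨P, hP⟩ := hf
  obtain ⟨Q, hQ⟩ := hg
  exact ⟨P + Q, fun x => by change f x + g x = _; rw [hP, hQ, map_add]⟩

lemma PF.sub {f g : (Γ → ℝ) → ℝ} (hf : PF f) (hg : PF g) : PF (fun x => f x - g x) := by
  obtain ⟨P, hP⟩ := hf
  obtain ⟨Q, hQ⟩ := hg
  exact ⟨P - Q, fun x => by change f x - g x = _; rw [hP, hQ, map_sub]⟩

lemma PF.mul {f g : (Γ → ℝ) → ℝ} (hf : PF f) (hg : PF g) : PF (fun x => f x * g x) := by
  obtain ⟨P, hP⟩ := hf
  obtain ⟨Q, hQ⟩ := hg
  exact ⟨P * Q, fun x => by change f x * g x = _; rw [hP, hQ, map_mul]⟩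

lemma PF.comp {f : (Γ → ℝ) → ℝ} (hf : PF f) {g : (Δ → ℝ) → Γ → ℝ} (hg : ∀ i, PF (fun y => g y i)) :
    PF (fun y => f (g y)) := by
  obtain ⟨P, hP⟩ := hf
  choose G hG using hg
  refine ⟨MvPolynomial.bind₁ G P, fun y => ?_⟩
  have e : g y = fun i => MvPolynomial.eval y (G i) := funext fun i => hG i y
  change f (g y) = _
  rw [hP, e]
  exact (MvPolynomial.eval₂Hom_bind₁ (RingHom.id ℝ) y G P).symm

lemma SA.comp {p : (Γ → ℝ) → Prop} (hp : SA p) {g : (Δ → ℝ) → Γ → ℝ}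
    (hg : ∀ i, PF (fun y => g y i)) : SA (fun y => p (g y)) := by
  unfold SA at hp
  have key : ∀ s : Set (Γ → ℝ), SemiAlg s → SemiAlg {y : Δ → ℝ | g y ∈ s} := by
    intro s hs
    induction hs with
    | pos f =>
      have : PF (fun y => MvPolynomial.eval (g y) f) :=
        PF.comp (f := fun x => MvPolynomial.eval x f) ⟨f, fun _ => rfl⟩ hg
      exact SA_pos this
    | compl _ ih => exact ih.compl
    | union _ _ ih1 ih2 => exact ih1.union ih2
  exact key _ hp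

lemma SA_lt0 {f g : (Γ → ℝ) → ℝ} (hf : PF f) (hg : PF g) : SA (fun x => f x < g x) :=
  (SA_pos (hg.sub hf)).congr (fun x => by rw [sub_pos])

lemma SA_le0 {f g : (Γ → ℝ) → ℝ} (hf : PF f) (hg : PF g) : SA (fun x => f x ≤ g x) :=
  (SA_lt0 hg hf).not.congr (fun x => not_lt.symm)

lemma SA_eq0 {f g : (Γ → ℝ) → ℝ} (hf : PF f) (hg : PF g) : SA (fun x => f x = g x) :=
  ((SA_le0 hf hg).and (SA_le0 hg hf)).congr (fun x => le_antisymm_iff)

/-- weakening -/
lemma PF_some (i : Γ) : PF (fun y : Option Γ → ℝ => y (some i)) := PF_coord _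

lemma SA.weak {p : (Γ → ℝ) → Prop} (hp : SA p) :
    SA (fun y : Option Γ → ℝ => p (fun i => y (some i))) :=
  hp.comp (fun i => PF_coord _)

lemma SF.comp {f : (Γ → ℝ) → ℝ} (hf : SF f) {g : (Δ → ℝ) → Γ → ℝ}
    (hg : ∀ i, PF (fun y => g y i)) : SF (fun y => f (g y)) := by
  have h1 := SA.comp (p := fun y : Option Γ → ℝ => y none = f (fun i => y (some i))) hf
    (g := fun (y : Option Δ → ℝ) (o : Option Γ) => o.elim (y none) (fun i => g (fun j => y (some j)) i))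
    (by
      intro o
      cases o with
      | none => exact PF_coord _
      | some i => exact (hg i).comp (g := fun (y : Option Δ → ℝ) j => y (some j)) (fun j => PF_coord _))
  exact h1

lemma SF.weak {f : (Γ → ℝ) → ℝ} (hf : SF f) : SF (fun y : Option Γ → ℝ => f (fun i => y (some i))) :=
  hf.comp (fun i => PF_coord _)

lemma PF.sf {f : (Γ → ℝ) → ℝ} (hf : PF f) : SF f :=
  SA_eq0 (PF_coord _) (hf.comp (g := fun (y : Option Γ → ℝ) j => y (some j)) (fun j => PF_coord _))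

lemma SF_coord (i : Γ) : SF (fun x : Γ → ℝ => x i) := (PF_coord i).sf

lemma SF_const (c : ℝ) : SF (fun _ : Γ → ℝ => c) := (PF_const c).sf

/-- existential quantifier -/
lemma SA.ex [Finite Γ] {p : (Γ → ℝ) → ℝ → Prop}
    (h : SA (fun y : Option Γ → ℝ => p (fun i => y (some i)) (y none))) :
    SA (fun x => ∃ t, p x t) := T.main _ h

lemma SA.all [Finite Γ] {p : (Γ → ℝ) → ℝ → Prop}
    (h : SA (fun y : Option Γ → ℝ => p (fun i => y (some i)) (y none))) :
    SA (fun x => ∀ t, p x t) := by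
  refine (SA.ex (p := fun x t => ¬ p x t) h.not).not.congr (fun x => ?_)
  push Not
  trivial

/-- substitution of a semi-algebraic function -/
lemma SA.subst [Finite Γ] {p : (Γ → ℝ) → ℝ → Prop} {f : (Γ → ℝ) → ℝ} (hf : SF f)
    (h : SA (fun y : Option Γ → ℝ => p (fun i => y (some i)) (y none))) :
    SA (fun x => p x (f x)) := by
  have h1 : SA (fun x => ∃ t, t = f x ∧ p x t) :=
    SA.ex (p := fun x t => t = f x ∧ p x t) (SA.and hf h)
  refine h1.congr (fun x => ?_)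
  constructor
  · intro hx; exact ⟨_, rfl, hx⟩
  · rintro ⟨t, rfl, hx⟩; exact hx

/-- substitution of two semi-algebraic functions -/
lemma SA.subst2 [Finite Γ] {p : ℝ → ℝ → Prop} {f g : (Γ → ℝ) → ℝ} (hf : SF f) (hg : SF g)
    (h : SA (fun y : Option (Option Γ) → ℝ => p (y (some none)) (y none))) :
    SA (fun x => p (f x) (g x)) := by
  refine SA.subst (p := fun x s => p s (g x)) hf ?_
  exact SA.subst (p := fun (y : Option Γ → ℝ) s => p (y none) s) hg.weak h

lemma SA_lt [Finite Γ] {f g : (Γ → ℝ) → ℝ} (hf : SF f) (hg : SF g) : SA (fun x => f x < g x) :=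
  SA.subst2 (p := fun a b => a < b) hf hg (SA_lt0 (PF_coord _) (PF_coord _))

lemma SA_le [Finite Γ] {f g : (Γ → ℝ) → ℝ} (hf : SF f) (hg : SF g) : SA (fun x => f x ≤ g x) :=
  SA.subst2 (p := fun a b => a ≤ b) hf hg (SA_le0 (PF_coord _) (PF_coord _))

lemma SA_eq [Finite Γ] {f g : (Γ → ℝ) → ℝ} (hf : SF f) (hg : SF g) : SA (fun x => f x = g x) :=
  SA.subst2 (p := fun a b => a = b) hf hg (SA_eq0 (PF_coord _) (PF_coord _))

/-- functions with a semi-algebraic graph, of two arguments -/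
lemma SF.op2 [Finite Γ] {F : ℝ → ℝ → ℝ} (hF : ∀ {Δ : Type} [Finite Δ] (a b c : Δ),
    SA (fun y : Δ → ℝ => y c = F (y a) (y b))) {f g : (Γ → ℝ) → ℝ} (hf : SF f) (hg : SF g) :
    SF (fun x => F (f x) (g x)) := by
  unfold SF
  refine SA.subst (p := fun (y : Option Γ → ℝ) s => y none = F s (g (fun i => y (some i)))) hf.weak ?_
  exact SA.subst (p := fun (y : Option (Option Γ) → ℝ) s => y (some none) = F (y none) s)
    hg.weak.weak (hF (some none) none (some (some none)))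

lemma SF.add [Finite Γ] {f g : (Γ → ℝ) → ℝ} (hf : SF f) (hg : SF g) : SF (fun x => f x + g x) :=
  SF.op2 (F := fun a b => a + b)
    (fun a b c => SA_eq0 (PF_coord _) ((PF_coord _).add (PF_coord _))) hf hg

lemma SF.sub [Finite Γ] {f g : (Γ → ℝ) → ℝ} (hf : SF f) (hg : SF g) : SF (fun x => f x - g x) :=
  SF.op2 (F := fun a b => a - b)
    (fun a b c => SA_eq0 (PF_coord _) ((PF_coord _).sub (PF_coord _))) hf hg

lemma SF.mul [Finite Γ] {f g : (Γ → ℝ) → ℝ} (hf : SF f) (hg : SF g) : SF (fun x => f x * g x) :=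
  SF.op2 (F := fun a b => a * b)
    (fun a b c => SA_eq0 (PF_coord _) ((PF_coord _).mul (PF_coord _))) hf hg

lemma SF.div [Finite Γ] {f g : (Γ → ℝ) → ℝ} (hf : SF f) (hg : SF g) : SF (fun x => f x / g x) := by
  refine SF.op2 (F := fun a b => a / b) (fun {Δ} _ a b c => ?_) hf hg
  have h : SA (fun y : Δ → ℝ => (y b ≠ 0 ∧ y c * y b = y a) ∨ (y b = 0 ∧ y c = 0)) :=
    ((SA_eq0 (PF_coord _) (PF_const _)).not.and
      (SA_eq0 ((PF_coord _).mul (PF_coord _)) (PF_coord _))).or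
      ((SA_eq0 (PF_coord _) (PF_const _)).and (SA_eq0 (PF_coord _) (PF_const _)))
  refine h.congr (fun y => ?_)
  by_cases hb : y b = 0
  · simp [hb]
  · simp only [hb, ne_eq, not_false_eq_true, true_and, false_and, or_false]
    rw [eq_div_iff hb]

lemma SF.sqrt [Finite Γ] {f : (Γ → ℝ) → ℝ} (hf : SF f) : SF (fun x => √(f x)) := by
  refine SF.op2 (F := fun a b => √a) (fun {Δ} _ a b c => ?_) hf hf
  have h : SA (fun y : Δ → ℝ => (0 ≤ y a ∧ 0 ≤ y c ∧ y c * y c = y a) ∨ (y a < 0 ∧ y c = 0)) :=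
    ((SA_le0 (PF_const _) (PF_coord _)).and ((SA_le0 (PF_const _) (PF_coord _)).and
      (SA_eq0 ((PF_coord _).mul (PF_coord _)) (PF_coord _)))).or
      ((SA_lt0 (PF_coord _) (PF_const _)).and (SA_eq0 (PF_coord _) (PF_const _)))
  refine h.congr (fun y => ?_)
  constructor
  · intro hc
    rcases le_or_gt 0 (y a) with h1 | h1
    · left
      exact ⟨h1, by rw [hc]; exact Real.sqrt_nonneg _, by rw [hc]; exact Real.mul_self_sqrt h1⟩
    · right
      exact ⟨h1, by rw [hc]; exact Real.sqrt_eq_zero_of_nonpos h1.le⟩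
  · rintro (⟨h1, h2, h3⟩ | ⟨h1, h2⟩)
    · rw [← h3, Real.sqrt_mul_self h2]
    · rw [h2, Real.sqrt_eq_zero_of_nonpos h1.le]

lemma SF_sum [Finite Γ] {κ : Type*} (s : Finset κ) {f : κ → (Γ → ℝ) → ℝ} (h : ∀ i ∈ s, SF (f i)) :
    SF (fun x => ∑ i ∈ s, f i x) := by
  classical
  induction s using Finset.induction_on with
  | empty => simpa using SF_const 0
  | insert a s ha ih =>
    simp only [Finset.sum_insert ha]
    exact (h a (Finset.mem_insert_self _ _)).add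
      (ih (fun i hi => h i (Finset.mem_insert_of_mem hi)))

end Basic

section Poly

variable {n : ℕ} [NeZero n]

lemma side_eq (x : Coord n → ℝ) (i : Fin n) : side x i =
    √((x (some (i + 1), 0) - x (some i, 0)) * (x (some (i + 1), 0) - x (some i, 0)) +
      (x (some (i + 1), 1) - x (some i, 1)) * (x (some (i + 1), 1) - x (some i, 1))) := by
  rw [side, Complex.norm_def, Complex.normSq_apply]
  rfl

/-- a point of the side `i` -/
def onSide (x : Coord n → ℝ) (i : Fin n) (r : ℝ) : ℂ :=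
  pt x (some i) + (r / side x i) • (pt x (some (i + 1)) - pt x (some i))

lemma onSide_re (x : Coord n → ℝ) (i : Fin n) (r : ℝ) : (onSide x i r).re =
    x (some i, 0) + r / side x i * (x (some (i + 1), 0) - x (some i, 0)) := by
  simp [onSide, pt]

lemma onSide_im (x : Coord n → ℝ) (i : Fin n) (r : ℝ) : (onSide x i r).im =
    x (some i, 1) + r / side x i * (x (some (i + 1), 1) - x (some i, 1)) := by
  simp [onSide, pt]

/-- the arc length from the vertex `0` to the vertex `i` -/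
def cum (x : Coord n → ℝ) (i : Fin n) : ℝ := ∑ j ∈ Finset.univ.filter (fun j => j < i), side x j

/-- the point with distance `s` (along the boundary) from the vertex `0` is `(u, v)` -/
def PB (x : Coord n → ℝ) (s u v : ℝ) : Prop :=
  ∃ i : Fin n, ∃ r : ℝ, (0 ≤ r ∧ r ≤ side x i) ∧ s = cum x i + r ∧
    (onSide x i r).re = u ∧ (onSide x i r).im = v

/-- the point with parameter `q` is `(u, v)` -/
def PA (x : Coord n → ℝ) (q u v : ℝ) : Prop :=
  ∃ s₀ : ℝ, PB x s₀ (x (none, 0)) (x (none, 1)) ∧ ∃ s : ℝ, PB x s u v ∧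
    (s = q + s₀ ∨ s = q + s₀ - 1)

variable {Γ : Type} [Finite Γ]

lemma SF_side {x : (Γ → ℝ) → Coord n → ℝ} (hx : ∀ i, PF (fun y => x y i)) (i : Fin n) :
    SF (fun y => side (x y) i) := by
  simp only [side_eq]
  exact ((((hx _).sub (hx _)).mul ((hx _).sub (hx _))).add
    (((hx _).sub (hx _)).mul ((hx _).sub (hx _)))).sf.sqrt

lemma SF_cum {x : (Γ → ℝ) → Coord n → ℝ} (hx : ∀ i, PF (fun y => x y i)) (i : Fin n) :
    SF (fun y => cum (x y) i) :=
  SF_sum _ (fun j _ => SF_side hx j)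

lemma PF.weak {f : (Γ → ℝ) → ℝ} (hf : PF f) : PF (fun y : Option Γ → ℝ => f (fun i => y (some i))) :=
  hf.comp (g := fun (y : Option Γ → ℝ) i => y (some i)) (fun i => PF_coord _)

lemma SA_PB {x : (Γ → ℝ) → Coord n → ℝ} (hx : ∀ i, PF (fun y => x y i)) {s u v : (Γ → ℝ) → ℝ}
    (hs : PF s) (hu : PF u) (hv : PF v) : SA (fun y => PB (x y) (s y) (u y) (v y)) := by
  unfold PB
  refine SA.exF (fun i => SA.ex ?_)
  have hx' : ∀ i, PF (fun y : Option Γ → ℝ => x (fun j => y (some j)) i) := fun i => (hx i).weak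
  refine ((SA_le (SF_const _) (SF_coord _)).and (SA_le (SF_coord _) (SF_side hx' i))).and
    ((SA_eq hs.weak.sf ((SF_cum hx' i).add (SF_coord _))).and (SA.and ?_ ?_))
  · simp only [onSide_re]
    exact SA_eq ((hx' _).sf.add (((SF_coord _).div (SF_side hx' i)).mul ((hx' _).sf.sub (hx' _).sf)))
      hu.weak.sf
  · simp only [onSide_im]
    exact SA_eq ((hx' _).sf.add (((SF_coord _).div (SF_side hx' i)).mul ((hx' _).sf.sub (hx' _).sf)))
      hv.weak.sf

lemma SA_PA {x : (Γ → ℝ) → Coord n → ℝ} (hx : ∀ i, PF (fun y => x y i)) {q u v : (Γ → ℝ) → ℝ}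
    (hq : PF q) (hu : PF u) (hv : PF v) : SA (fun y => PA (x y) (q y) (u y) (v y)) := by
  unfold PA
  refine SA.ex (SA.and ?_ (SA.ex (SA.and ?_ (SA.or ?_ ?_))))
  · exact SA_PB (fun i => (hx i).weak) (PF_coord _) (hx _).weak (hx _).weak
  · exact SA_PB (fun i => (hx i).weak.weak) (PF_coord _) hu.weak.weak hv.weak.weak
  · exact SA_eq0 (PF_coord _) (hq.weak.weak.add (PF_coord _))
  · exact SA_eq0 (PF_coord _) ((hq.weak.weak.add (PF_coord _)).sub (PF_const _))

lemma mem_segment_iff (x : Coord n → ℝ) (i : Fin n) :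
    pt x none ∈ segment ℝ (pt x (some i)) (pt x (some (i + 1))) ↔
    ∃ t : ℝ, (0 ≤ t ∧ t ≤ 1) ∧
      x (none, 0) = x (some i, 0) + t * (x (some (i + 1), 0) - x (some i, 0)) ∧
      x (none, 1) = x (some i, 1) + t * (x (some (i + 1), 1) - x (some i, 1)) := by
  rw [segment_eq_image']
  simp only [mem_image, mem_Icc]
  refine exists_congr (fun t => and_congr_right (fun _ => ?_))
  rw [Complex.ext_iff]
  simp [pt, eq_comm]

lemma isMP_iff (x : Coord n → ℝ) : IsMP x ↔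
    (∀ i j : Fin n, (j ≠ i) → (j ≠ i + 1) →
      0 < (x (some (i + 1), 0) - x (some i, 0)) * (x (some j, 1) - x (some i, 1)) -
        (x (some (i + 1), 1) - x (some i, 1)) * (x (some j, 0) - x (some i, 0))) ∧
    (∑ i, side x i = 1) ∧
    ∃ i : Fin n, ∃ t : ℝ, (0 ≤ t ∧ t ≤ 1) ∧
      x (none, 0) = x (some i, 0) + t * (x (some (i + 1), 0) - x (some i, 0)) ∧
      x (none, 1) = x (some i, 1) + t * (x (some (i + 1), 1) - x (some i, 1)) := by
  constructor
  · rintro ⟨h1, h2, h3⟩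
    refine ⟨h1, h2, ?_⟩
    obtain ⟨i, hi⟩ := h3
    exact ⟨i, (mem_segment_iff x i).1 hi⟩
  · rintro ⟨h1, h2, h3⟩
    refine ⟨h1, h2, ?_⟩
    obtain ⟨i, hi⟩ := h3
    exact ⟨i, (mem_segment_iff x i).2 hi⟩

lemma SA_IsMP {x : (Γ → ℝ) → Coord n → ℝ} (hx : ∀ i, PF (fun y => x y i)) :
    SA (fun y => IsMP (x y)) := by
  simp only [isMP_iff]
  refine SA.and ?_ (SA.and ?_ ?_)
  · refine SA.allF (fun i => SA.allF (fun j => (SA_const _).imp ((SA_const _).imp ?_)))
    exact SA_lt0 (PF_const _) ((((hx _).sub (hx _)).mul ((hx _).sub (hx _))).sub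
      (((hx _).sub (hx _)).mul ((hx _).sub (hx _))))
  · exact SA_eq (SF_sum _ (fun i _ => SF_side hx i)) (SF_const _)
  · refine SA.exF (fun i => SA.ex (SA.and (SA.and ?_ ?_) (SA.and ?_ ?_)))
    · exact SA_le0 (PF_const _) (PF_coord _)
    · exact SA_le0 (PF_coord _) (PF_const _)
    · exact SA_eq0 (hx _).weak ((hx _).weak.add ((PF_coord _).mul ((hx _).weak.sub (hx _).weak)))
    · exact SA_eq0 (hx _).weak ((hx _).weak.add ((PF_coord _).mul ((hx _).weak.sub (hx _).weak)))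

end Poly

section Arc

variable {n : ℕ} [NeZero n] {x : Coord n → ℝ} {c : ℝ → ℂ}

lemma seq_cover (S : ℕ → ℝ) (s : ℝ) : ∀ n : ℕ, 0 < n → S 0 ≤ s → s ≤ S n →
    ∃ k < n, S k ≤ s ∧ s ≤ S (k + 1) := by
  intro n
  induction n with
  | zero => intro h; omega
  | succ n ih =>
    intro _ h0 h1
    by_cases h : S n ≤ s
    · exact ⟨n, Nat.lt_succ_self _, h, h1⟩
    · rcases Nat.eq_zero_or_pos n with h2 | h2
      · rw [h2] at h; exact absurd h0 h
      · obtain ⟨k, hk, h3⟩ := ih h2 h0 (not_le.1 h).le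
        exact ⟨k, by omega, h3⟩

lemma cover (hx : ∑ i, side x i = 1) {s : ℝ} (h0 : 0 ≤ s) (h1 : s ≤ 1) :
    ∃ i : Fin n, ∃ r, (0 ≤ r ∧ r ≤ side x i) ∧ s = cum x i + r := by
  set S : ℕ → ℝ := fun k => ∑ j ∈ Finset.univ.filter (fun j : Fin n => j.val < k), side x j with hS
  have hn : 0 < n := Nat.pos_of_ne_zero (NeZero.ne n)
  have e0 : S 0 = 0 := by simp [hS]
  have e1 : S n = 1 := by
    rw [hS, ← hx]
    apply Finset.sum_congr _ (fun _ _ => rfl)
    ext j; simp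
  obtain ⟨k, hk, h2, h3⟩ := seq_cover S s n hn (by rw [e0]; exact h0) (by rw [e1]; exact h1)
  have e2 : S (k + 1) = S k + side x ⟨k, hk⟩ := by
    have : Finset.univ.filter (fun j : Fin n => j.val < k + 1) =
        insert ⟨k, hk⟩ (Finset.univ.filter (fun j : Fin n => j.val < k)) := by
      ext j
      simp only [Finset.mem_filter, Finset.mem_univ, true_and, Finset.mem_insert, Fin.ext_iff]
      omega
    simp only [hS]
    rw [this, Finset.sum_insert (by simp), add_comm]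
  refine ⟨⟨k, hk⟩, s - S k, ⟨by linarith, by linarith⟩, ?_⟩
  have : cum x ⟨k, hk⟩ = S k := rfl
  rw [this]; ring

lemma cum_nonneg (x : Coord n → ℝ) (i : Fin n) : 0 ≤ cum x i :=
  Finset.sum_nonneg (fun j _ => norm_nonneg _)

lemma cum_add_le (hx : ∑ i, side x i = 1) (i : Fin n) : cum x i + side x i ≤ 1 := by
  rw [← hx, cum, add_comm, ← Finset.sum_insert (f := side x) (by simp)]
  exact Finset.sum_le_sum_of_subset_of_nonneg (Finset.subset_univ _) (fun j _ _ => norm_nonneg _)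

lemma side_pos (hn : 3 ≤ n) (hx : IsMP x) (i : Fin n) : 0 < side x i := by
  rw [side, norm_pos_iff, sub_ne_zero]
  intro h
  have hcard : ({i, i + 1} : Finset (Fin n)).card < (Finset.univ : Finset (Fin n)).card := by
    rw [Finset.card_univ, Fintype.card_fin]
    exact lt_of_le_of_lt Finset.card_le_two (by omega)
  obtain ⟨j, -, hj⟩ := Finset.exists_mem_notMem_of_card_lt_card hcard
  rw [Finset.mem_insert, Finset.mem_singleton, not_or] at hj
  have := hx.convex i j hj.1 hj.2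
  rw [h, sub_self] at this
  simp [det2] at this

lemma shift_eq (hU : SpecUniq) (hn : 3 ≤ n) (hx : IsMP x) (hc : IsArc x c) {τ : ℝ}
    (hτ : ∀ i : Fin n, ∀ r, (0 ≤ r ∧ r ≤ side x i) → c (τ + cum x i + r) = onSide x i r)
    {i : Fin n} {r : ℝ} (hr : 0 ≤ r ∧ r ≤ side x i) (h0 : onSide x i r = pt x none) (t : ℝ) :
    c (t + τ + (cum x i + r)) = c t := by
  have hc' : IsArc x (fun t => c (t + τ + (cum x i + r))) := by
    refine ⟨fun t => ?_, ?_, -(cum x i + r), fun j r' hr' => ?_⟩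
    · change c (t + 1 + τ + (cum x i + r)) = c (t + τ + (cum x i + r))
      rw [show t + 1 + τ + (cum x i + r) = t + τ + (cum x i + r) + 1 by ring, hc.per]
    · change c (0 + τ + (cum x i + r)) = _
      rw [show 0 + τ + (cum x i + r) = τ + cum x i + r by ring, hτ i r hr, h0]
    · change c (-(cum x i + r) + cum x j + r' + τ + (cum x i + r)) = _
      rw [show -(cum x i + r) + cum x j + r' + τ + (cum x i + r) = τ + cum x j + r' by ring,
        hτ j r' hr']
      rfl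
  have := hU n hn x _ _ hx hc' hc
  exact congrFun this t

lemma exists_start (hn : 3 ≤ n) (hx : IsMP x) : ∃ i : Fin n, ∃ r, (0 ≤ r ∧ r ≤ side x i) ∧
    onSide x i r = pt x none := by
  obtain ⟨i, hi⟩ := hx.marked
  rw [segment_eq_image'] at hi
  obtain ⟨t, ht, h⟩ := hi
  have hs := side_pos hn hx i
  refine ⟨i, t * side x i, ⟨mul_nonneg ht.1 hs.le, ?_⟩, ?_⟩
  · have := mul_le_mul_of_nonneg_right ht.2 hs.le
    linarith
  · rw [onSide, mul_div_assoc, div_self hs.ne', mul_one]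
    exact h

lemma PA_iff (hU : SpecUniq) (hn : 3 ≤ n) (hx : IsMP x) (hc : IsArc x c) {q u v : ℝ}
    (hq : 0 ≤ q ∧ q ≤ 1) : PA x q u v ↔ (c q).re = u ∧ (c q).im = v := by
  obtain ⟨τ, hτ'⟩ := hc.sides
  have hτ : ∀ i : Fin n, ∀ r, (0 ≤ r ∧ r ≤ side x i) → c (τ + cum x i + r) = onSide x i r :=
    fun i r hr => hτ' i r hr
  have key : ∀ i : Fin n, ∀ r, (0 ≤ r ∧ r ≤ side x i) → onSide x i r = pt x none →
      ∀ j : Fin n, ∀ r', (0 ≤ r' ∧ r' ≤ side x j) → (cum x j + r' = q + (cum x i + r) ∨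
        cum x j + r' = q + (cum x i + r) - 1) → onSide x j r' = c q := by
    intro i r hr h0 j r' hr' h
    rw [← hτ j r' hr', ← shift_eq hU hn hx hc hτ hr h0 q]
    rcases h with h | h
    · congr 1
      linarith
    · rw [← hc.per (τ + cum x j + r')]
      congr 1
      linarith
  constructor
  · rintro ⟨s₀, ⟨i, r, hr, hs₀, h1, h2⟩, s, ⟨j, r', hr', hs, h3, h4⟩, h5⟩
    have h0 : onSide x i r = pt x none := Complex.ext h1 h2
    have h6 := key i r hr h0 j r' hr' (by rw [← hs, ← hs₀]; exact h5)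
    rw [← h6]
    exact ⟨h3, h4⟩
  · rintro ⟨rfl, rfl⟩
    obtain ⟨i, r, hr, h0⟩ := exists_start hn hx
    refine ⟨cum x i + r, ⟨i, r, hr, rfl, ?_, ?_⟩, ?_⟩
    · rw [h0]; rfl
    · rw [h0]; rfl
    have b1 := cum_nonneg x i
    have b2 := cum_add_le hx.perimeter i
    by_cases hcase : q + (cum x i + r) ≤ 1
    · obtain ⟨j, r', hr', hs⟩ := cover hx.perimeter (s := q + (cum x i + r)) (by linarith [hr.1, hq.1]) hcase
      refine ⟨q + (cum x i + r), ⟨j, r', hr', hs, ?_, ?_⟩, Or.inl rfl⟩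
      · rw [key i r hr h0 j r' hr' (Or.inl hs.symm)]
      · rw [key i r hr h0 j r' hr' (Or.inl hs.symm)]
    · rw [not_le] at hcase
      obtain ⟨j, r', hr', hs⟩ := cover hx.perimeter (s := q + (cum x i + r) - 1) (by linarith)
        (by linarith [hr.2, hq.2])
      refine ⟨q + (cum x i + r) - 1, ⟨j, r', hr', hs, ?_, ?_⟩, Or.inr rfl⟩
      · rw [key i r hr h0 j r' hr' (Or.inr hs.symm)]
      · rw [key i r hr h0 j r' hr' (Or.inr hs.symm)]

lemma arc_per (hc : IsArc x c) (t : ℝ) : c (Int.fract t) = c t := by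
  have : Function.Periodic c 1 := hc.per
  have h := this.sub_zsmul_eq (x := t) ⌊t⌋
  rw [← h]
  congr 1
  rw [zsmul_one, Int.self_sub_floor]

lemma arc_bdd (hn : 3 ≤ n) (hx : IsMP x) (hc : IsArc x c) : ∃ M : ℝ, ∀ t, ‖c t‖ ≤ M := by
  obtain ⟨τ, hτ'⟩ := hc.sides
  have hτ : ∀ i : Fin n, ∀ r, (0 ≤ r ∧ r ≤ side x i) → c (τ + cum x i + r) = onSide x i r :=
    fun i r hr => hτ' i r hr
  refine ⟨∑ i, (‖pt x (some i)‖ + ‖pt x (some (i + 1)) - pt x (some i)‖), fun t => ?_⟩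
  have h1 : c t = c (τ + Int.fract (t - τ)) := by
    have : Function.Periodic c 1 := hc.per
    have h := this.sub_zsmul_eq (x := t) ⌊t - τ⌋
    rw [← h]
    congr 1
    rw [zsmul_one, ← Int.self_sub_floor]
    ring
  obtain ⟨i, r, hr, hs⟩ := cover hx.perimeter (Int.fract_nonneg (t - τ)) (Int.fract_lt_one _).le
  rw [h1, hs, ← add_assoc, hτ i r hr, onSide]
  have hs := side_pos hn hx i
  have h2 : ‖(r / side x i) • (pt x (some (i + 1)) - pt x (some i))‖ ≤
      ‖pt x (some (i + 1)) - pt x (some i)‖ := by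
    rw [norm_smul, Real.norm_of_nonneg (div_nonneg hr.1 hs.le)]
    exact mul_le_of_le_one_left (norm_nonneg _) ((div_le_one hs).2 hr.2)
  refine (norm_add_le _ _).trans ((add_le_add_right h2 _).trans ?_)
  exact Finset.single_le_sum (f := fun i => ‖pt x (some i)‖ + ‖pt x (some (i + 1)) - pt x (some i)‖)
    (fun j _ => add_nonneg (norm_nonneg _) (norm_nonneg _)) (Finset.mem_univ i)

end Arc

section Final

variable {n m : ℕ} [NeZero n] [NeZero m]

/-- `w` is a value of the difference of the chord lengths -/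
def PW (x : Coord n → ℝ) (y : Coord m → ℝ) (w : ℝ) : Prop :=
  ∃ q Q u₁ v₁ u₂ v₂ a₁ b₁ a₂ b₂ : ℝ, ((0 ≤ q ∧ q ≤ 1) ∧ (0 ≤ Q ∧ Q ≤ 1)) ∧
    (PA x q u₁ v₁ ∧ PA x Q u₂ v₂) ∧ (PA y q a₁ b₁ ∧ PA y Q a₂ b₂) ∧
    w = √((a₂ - a₁) * (a₂ - a₁) + (b₂ - b₁) * (b₂ - b₁)) -
      √((u₂ - u₁) * (u₂ - u₁) + (v₂ - v₁) * (v₂ - v₁))

lemma PW_iff (hU : SpecUniq) (hn : 3 ≤ n) (hm : 3 ≤ m) {x : Coord n → ℝ} {y : Coord m → ℝ}
    (hx : IsMP x) (hy : IsMP y) {c d : ℝ → ℂ} (hc : IsArc x c) (hd : IsArc y d) (w : ℝ) :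
    PW x y w ↔ w ∈ range (dfn c d) := by
  have hnorm : ∀ z z' : ℂ, ‖z - z'‖ = √((z.re - z'.re) * (z.re - z'.re) +
      (z.im - z'.im) * (z.im - z'.im)) := by
    intro z z'
    rw [Complex.norm_def, Complex.normSq_apply, Complex.sub_re, Complex.sub_im]
  constructor
  · rintro ⟨q, Q, u₁, v₁, u₂, v₂, a₁, b₁, a₂, b₂, ⟨hq, hQ⟩, ⟨h1, h2⟩, ⟨h3, h4⟩, hw⟩
    rw [PA_iff hU hn hx hc hq] at h1
    rw [PA_iff hU hn hx hc hQ] at h2
    rw [PA_iff hU hm hy hd hq] at h3
    rw [PA_iff hU hm hy hd hQ] at h4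
    refine ⟨(q, Q), ?_⟩
    rw [hw, ← h1.1, ← h1.2, ← h2.1, ← h2.2, ← h3.1, ← h3.2, ← h4.1, ← h4.2, dfn, hnorm, hnorm]
  · rintro ⟨⟨q, Q⟩, rfl⟩
    have hq : 0 ≤ Int.fract q ∧ Int.fract q ≤ 1 := ⟨Int.fract_nonneg _, (Int.fract_lt_one _).le⟩
    have hQ : 0 ≤ Int.fract Q ∧ Int.fract Q ≤ 1 := ⟨Int.fract_nonneg _, (Int.fract_lt_one _).le⟩
    refine ⟨Int.fract q, Int.fract Q, (c q).re, (c q).im, (c Q).re, (c Q).im, (d q).re, (d q).im,
      (d Q).re, (d Q).im, ⟨hq, hQ⟩, ⟨?_, ?_⟩, ⟨?_, ?_⟩, ?_⟩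
    · rw [PA_iff hU hn hx hc hq, arc_per hc]; exact ⟨rfl, rfl⟩
    · rw [PA_iff hU hn hx hc hQ, arc_per hc]; exact ⟨rfl, rfl⟩
    · rw [PA_iff hU hm hy hd hq, arc_per hd]; exact ⟨rfl, rfl⟩
    · rw [PA_iff hU hm hy hd hQ, arc_per hd]; exact ⟨rfl, rfl⟩
    · rw [dfn, hnorm, hnorm]

variable {Γ : Type} [Finite Γ]

lemma SA_PW {x : (Γ → ℝ) → Coord n → ℝ} {y : (Γ → ℝ) → Coord m → ℝ} {w : (Γ → ℝ) → ℝ}
    (hx : ∀ i, PF (fun z => x z i)) (hy : ∀ i, PF (fun z => y z i)) (hw : PF w) :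
    SA (fun z => PW (x z) (y z) (w z)) := by
  unfold PW
  refine SA.ex (SA.ex (SA.ex (SA.ex (SA.ex (SA.ex (SA.ex (SA.ex (SA.ex (SA.ex ?_)))))))))
  refine SA.and (SA.and (SA.and ?_ ?_) (SA.and ?_ ?_))
    (SA.and (SA.and ?_ ?_) (SA.and (SA.and ?_ ?_) ?_))
  · exact SA_le0 (PF_const _) (PF_coord _)
  · exact SA_le0 (PF_coord _) (PF_const _)
  · exact SA_le0 (PF_const _) (PF_coord _)
  · exact SA_le0 (PF_coord _) (PF_const _)
  · exact SA_PA (fun i => (hx i).weak.weak.weak.weak.weak.weak.weak.weak.weak.weak)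
      (PF_coord _) (PF_coord _) (PF_coord _)
  · exact SA_PA (fun i => (hx i).weak.weak.weak.weak.weak.weak.weak.weak.weak.weak)
      (PF_coord _) (PF_coord _) (PF_coord _)
  · exact SA_PA (fun i => (hy i).weak.weak.weak.weak.weak.weak.weak.weak.weak.weak)
      (PF_coord _) (PF_coord _) (PF_coord _)
  · exact SA_PA (fun i => (hy i).weak.weak.weak.weak.weak.weak.weak.weak.weak.weak)
      (PF_coord _) (PF_coord _) (PF_coord _)
  · refine SA_eq hw.weak.weak.weak.weak.weak.weak.weak.weak.weak.weak.sf (SF.sub ?_ ?_)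
    · exact ((((PF_coord _).sub (PF_coord _)).mul ((PF_coord _).sub (PF_coord _))).add
        (((PF_coord _).sub (PF_coord _)).mul ((PF_coord _).sub (PF_coord _)))).sf.sqrt
    · exact ((((PF_coord _).sub (PF_coord _)).mul ((PF_coord _).sub (PF_coord _))).add
        (((PF_coord _).sub (PF_coord _)).mul ((PF_coord _).sub (PF_coord _)))).sf.sqrt

/-- `z` is the oscillation -/
def PO (x : Coord n → ℝ) (y : Coord m → ℝ) (z : ℝ) : Prop :=
  ∃ S I : ℝ, ((∀ w, PW x y w → w ≤ S) ∧ (∀ S', (∀ w, PW x y w → w ≤ S') → S ≤ S')) ∧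
    ((∀ w, PW x y w → I ≤ w) ∧ (∀ I', (∀ w, PW x y w → I' ≤ w) → I' ≤ I)) ∧ z = S - I

lemma PO_iff (hU : SpecUniq) (hn : 3 ≤ n) (hm : 3 ≤ m) {x : Coord n → ℝ} {y : Coord m → ℝ}
    (hx : IsMP x) (hy : IsMP y) {c d : ℝ → ℂ} (hc : IsArc x c) (hd : IsArc y d) (z : ℝ) :
    PO x y z ↔ z = osc c d := by
  have hne : (range (dfn c d)).Nonempty := range_nonempty _
  obtain ⟨M, hM⟩ := arc_bdd hn hx hc
  obtain ⟨M', hM'⟩ := arc_bdd hm hy hd
  have h1 : BddAbove (range (dfn c d)) := by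
    refine ⟨M' + M', ?_⟩
    rintro _ ⟨t, rfl⟩
    have a1 := norm_sub_le (d t.2) (d t.1)
    have a2 := norm_nonneg (c t.2 - c t.1)
    have a3 := hM' t.2
    have a4 := hM' t.1
    rw [dfn]
    linarith
  have h2 : BddBelow (range (dfn c d)) := by
    refine ⟨-(M + M), ?_⟩
    rintro _ ⟨t, rfl⟩
    have a1 := norm_sub_le (c t.2) (c t.1)
    have a2 := norm_nonneg (d t.2 - d t.1)
    have a3 := hM t.2
    have a4 := hM t.1
    rw [dfn]
    linarith
  have hlub := isLUB_csSup hne h1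
  have hglb := isGLB_csInf hne h2
  have hW := PW_iff hU hn hm hx hy hc hd
  constructor
  · rintro ⟨S, I, ⟨hS1, hS2⟩, ⟨hI1, hI2⟩, hz⟩
    have e1 : IsLUB (range (dfn c d)) S :=
      ⟨fun w hw => hS1 w ((hW w).2 hw), fun S' h => hS2 S' (fun w hw => h ((hW w).1 hw))⟩
    have e2 : IsGLB (range (dfn c d)) I :=
      ⟨fun w hw => hI1 w ((hW w).2 hw), fun I' h => hI2 I' (fun w hw => h ((hW w).1 hw))⟩
    rw [hz, osc, e1.unique hlub, e2.unique hglb]
  · intro hz
    refine ⟨sSup (range (dfn c d)), sInf (range (dfn c d)), ⟨?_, ?_⟩, ⟨?_, ?_⟩, hz⟩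
    · exact fun w hw => hlub.1 ((hW w).1 hw)
    · exact fun S' h => hlub.2 (fun w hw => h w ((hW w).2 hw))
    · exact fun w hw => hglb.1 ((hW w).1 hw)
    · exact fun I' h => hglb.2 (fun w hw => h w ((hW w).2 hw))

lemma SA_PO {x : (Γ → ℝ) → Coord n → ℝ} {y : (Γ → ℝ) → Coord m → ℝ} {w : (Γ → ℝ) → ℝ}
    (hx : ∀ i, PF (fun z => x z i)) (hy : ∀ i, PF (fun z => y z i)) (hw : PF w) :
    SA (fun z => PO (x z) (y z) (w z)) := by
  unfold PO
  refine SA.ex (SA.ex (SA.and (SA.and ?_ ?_) (SA.and (SA.and ?_ ?_) ?_)))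
  · refine SA.all (SA.imp ?_ ?_)
    · exact SA_PW (fun i => (hx i).weak.weak.weak) (fun i => (hy i).weak.weak.weak) (PF_coord _)
    · exact SA_le0 (PF_coord _) (PF_coord _)
  · refine SA.all (SA.imp (SA.all (SA.imp ?_ ?_)) ?_)
    · exact SA_PW (fun i => (hx i).weak.weak.weak.weak) (fun i => (hy i).weak.weak.weak.weak)
        (PF_coord _)
    · exact SA_le0 (PF_coord _) (PF_coord _)
    · exact SA_le0 (PF_coord _) (PF_coord _)
  · refine SA.all (SA.imp ?_ ?_)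
    · exact SA_PW (fun i => (hx i).weak.weak.weak) (fun i => (hy i).weak.weak.weak) (PF_coord _)
    · exact SA_le0 (PF_coord _) (PF_coord _)
  · refine SA.all (SA.imp (SA.all (SA.imp ?_ ?_)) ?_)
    · exact SA_PW (fun i => (hx i).weak.weak.weak.weak) (fun i => (hy i).weak.weak.weak.weak)
        (PF_coord _)
    · exact SA_le0 (PF_coord _) (PF_coord _)
    · exact SA_le0 (PF_coord _) (PF_coord _)
  · exact SA_eq0 hw.weak.weak ((PF_coord _).sub (PF_coord _))

end Final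

end MP43832.Graph

namespace MP43832

open Graph

/-- I: the oscillation is a semi-algebraic function of the marked polygons (the arc length
parametrisation exists and is unique) -/
theorem specGraph (hU : SpecUniq) (hJ : SpecApprox) : SpecGraph := by
  intro n m _ _ hn hm
  have h : SA (fun z : (Coord n ⊕ Coord m) ⊕ Unit → ℝ =>
      IsMP (fun i => z (Sum.inl (Sum.inl i))) ∧ IsMP (fun i => z (Sum.inl (Sum.inr i))) ∧
      PO (fun i => z (Sum.inl (Sum.inl i))) (fun i => z (Sum.inl (Sum.inr i))) (z (Sum.inr ()))) :=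
    (SA_IsMP (fun i => PF_coord _)).and ((SA_IsMP (fun i => PF_coord _)).and
      (SA_PO (fun i => PF_coord _) (fun i => PF_coord _) (PF_coord _)))
  refine h.congr (fun z => ?_)
  refine and_congr_right (fun hx => and_congr_right (fun hy => ?_))
  obtain ⟨c, hc, -⟩ := hJ n hn _ hx
  obtain ⟨d, hd, -⟩ := hJ m hm _ hy
  rw [PO_iff hU hn hm hx hy hc hd]
  constructor
  · rintro ⟨c', d', hc', hd', hz⟩
    rw [hz, hU n hn _ _ _ hx hc hc', hU m hm _ _ _ hy hd hd']
  · intro hz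
    exact ⟨c, d, hc, hd, hz⟩

end MP43832
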