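import Pool.Agent.Lib.MP_43832e_gt.Spec

set_option linter.all false

noncomputable section

namespace MP43832

open Set Filter Topology

namespace Limit

lemma sSup_close {X : Type*} [Nonempty X] {f g : X → ℝ} {ε : ℝ} (hf : BddAbove (range f))
    (h : ∀ x, |g x - f x| ≤ ε) : |sSup (range g) - sSup (range f)| ≤ ε := by
  obtain ⟨B, hB⟩ := hf
  have hg : BddAbove (range g) := by
    refine ⟨B + ε, ?_⟩
    rintro _ ⟨x, rfl⟩
    have h1 := hB (mem_range_self x)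
    have h2 := (abs_le.1 (h x)).2
    linarith
  have hf : BddAbove (range f) := ⟨B, hB⟩
  rw [abs_le]
  constructor
  · have : sSup (range f) ≤ sSup (range g) + ε := by
      apply csSup_le (range_nonempty f)
      rintro _ ⟨x, rfl⟩
      have h1 := le_csSup hg (mem_range_self x)
      have h2 := (abs_le.1 (h x)).1
      linarith
    linarith
  · have : sSup (range g) ≤ sSup (range f) + ε := by
      apply csSup_le (range_nonempty g)
      rintro _ ⟨x, rfl⟩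
      have h1 := le_csSup hf (mem_range_self x)
      have h2 := (abs_le.1 (h x)).2
      linarith
    linarith

lemma sInf_close {X : Type*} [Nonempty X] {f g : X → ℝ} {ε : ℝ} (hf : BddBelow (range f))
    (h : ∀ x, |g x - f x| ≤ ε) : |sInf (range g) - sInf (range f)| ≤ ε := by
  obtain ⟨B, hB⟩ := hf
  have hg : BddBelow (range g) := by
    refine ⟨B - ε, ?_⟩
    rintro _ ⟨x, rfl⟩
    have h1 := hB (mem_range_self x)
    have h2 := (abs_le.1 (h x)).1
    linarith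
  have hf : BddBelow (range f) := ⟨B, hB⟩
  rw [abs_le]
  constructor
  · have : sInf (range f) - ε ≤ sInf (range g) := by
      apply le_csInf (range_nonempty g)
      rintro _ ⟨x, rfl⟩
      have h1 := csInf_le hf (mem_range_self x)
      have h2 := (abs_le.1 (h x)).1
      linarith
    linarith
  · have : sInf (range g) - ε ≤ sInf (range f) := by
      apply le_csInf (range_nonempty f)
      rintro _ ⟨x, rfl⟩
      have h1 := csInf_le hg (mem_range_self x)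
      have h2 := (abs_le.1 (h x)).2
      linarith
    linarith

lemma dfn_close {a b c d : ℝ → ℂ} {ε : ℝ} (h1 : ∀ t, ‖a t - c t‖ ≤ ε) (h2 : ∀ t, ‖b t - d t‖ ≤ ε)
    (x : ℝ × ℝ) : |dfn a b x - dfn c d x| ≤ 4 * ε := by
  have h3 : ∀ {u v : ℝ → ℂ}, (∀ t, ‖u t - v t‖ ≤ ε) → |‖u x.2 - u x.1‖ - ‖v x.2 - v x.1‖| ≤ 2 * ε := by
    intro u v h
    calc |‖u x.2 - u x.1‖ - ‖v x.2 - v x.1‖| ≤ ‖(u x.2 - u x.1) - (v x.2 - v x.1)‖ :=
          abs_norm_sub_norm_le _ _
      _ = ‖(u x.2 - v x.2) - (u x.1 - v x.1)‖ := by congr 1; ring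
      _ ≤ ‖u x.2 - v x.2‖ + ‖u x.1 - v x.1‖ := norm_sub_le _ _
      _ ≤ 2 * ε := by linarith [h x.2, h x.1]
  have h4 := h3 h1
  have h5 := h3 h2
  have : dfn a b x - dfn c d x = (‖b x.2 - b x.1‖ - ‖d x.2 - d x.1‖) - (‖a x.2 - a x.1‖ - ‖c x.2 - c x.1‖) := by
    unfold dfn; ring
  rw [this]
  calc _ ≤ |‖b x.2 - b x.1‖ - ‖d x.2 - d x.1‖| + |‖a x.2 - a x.1‖ - ‖c x.2 - c x.1‖| := abs_sub _ _
    _ ≤ 4 * ε := by linarith

lemma table_bdd (α : Table) : ∃ B : ℝ, ∀ t, ‖α.γ t‖ ≤ B := by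
  have hc : ContinuousOn α.γ (Icc 0 1) := α.smooth.continuous.continuousOn
  obtain ⟨B, hB⟩ := (isCompact_Icc (a := (0 : ℝ)) (b := 1)).exists_bound_of_continuousOn hc
  refine ⟨B, fun t => ?_⟩
  have hp : Function.Periodic α.γ 1 := α.per
  have h1 : α.γ (Int.fract t) = α.γ t := by
    have := hp.sub_int_mul_eq (x := t) ⌊t⌋
    rw [mul_one] at this
    exact this
  rw [← h1]
  exact hB _ ⟨Int.fract_nonneg t, (Int.fract_lt_one t).le⟩

lemma lim_bdd {α : ℕ → Table} {c : ℝ → ℂ} (h : TendstoUniformly (fun i => (α i).γ) c atTop) :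
    ∃ B : ℝ, ∀ t, ‖c t‖ ≤ B := by
  rw [Metric.tendstoUniformly_iff] at h
  obtain ⟨i, hi⟩ := (h 1 one_pos).exists
  obtain ⟨B, hB⟩ := table_bdd (α i)
  refine ⟨B + 1, fun t => ?_⟩
  have h1 := hi t
  rw [dist_eq_norm] at h1
  have h2 := hB t
  have h3 : ‖c t‖ ≤ ‖c t - (α i).γ t‖ + ‖(α i).γ t‖ := by
    calc ‖c t‖ = ‖(c t - (α i).γ t) + (α i).γ t‖ := by rw [sub_add_cancel]
      _ ≤ _ := norm_add_le _ _
  linarith

lemma dfn_bdd {c d : ℝ → ℂ} {B B' : ℝ} (hc : ∀ t, ‖c t‖ ≤ B) (hd : ∀ t, ‖d t‖ ≤ B') (x : ℝ × ℝ) :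
    |dfn c d x| ≤ 2 * B + 2 * B' := by
  have h1 : ‖c x.2 - c x.1‖ ≤ 2 * B := (norm_sub_le _ _).trans (by linarith [hc x.2, hc x.1])
  have h2 : ‖d x.2 - d x.1‖ ≤ 2 * B' := (norm_sub_le _ _).trans (by linarith [hd x.2, hd x.1])
  have h3 := norm_nonneg (c x.2 - c x.1)
  have h4 := norm_nonneg (d x.2 - d x.1)
  unfold dfn
  rw [abs_le]
  constructor <;> linarith

lemma osc_tendsto {α β : ℕ → Table} {c d : ℝ → ℂ}
    (h1 : TendstoUniformly (fun i => (α i).γ) c atTop)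
    (h2 : TendstoUniformly (fun i => (β i).γ) d atTop) :
    Tendsto (fun i => osc (α i).γ (β i).γ) atTop (𝓝 (osc c d)) := by
  obtain ⟨B, hB⟩ := lim_bdd h1
  obtain ⟨B', hB'⟩ := lim_bdd h2
  have hab : BddAbove (range (dfn c d)) := by
    refine ⟨2 * B + 2 * B', ?_⟩
    rintro _ ⟨x, rfl⟩
    exact (abs_le.1 (dfn_bdd hB hB' x)).2
  have hbe : BddBelow (range (dfn c d)) := by
    refine ⟨-(2 * B + 2 * B'), ?_⟩
    rintro _ ⟨x, rfl⟩
    exact (abs_le.1 (dfn_bdd hB hB' x)).1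
  rw [Metric.tendsto_atTop]
  intro ε hε
  rw [Metric.tendstoUniformly_iff] at h1 h2
  have h3 := (h1 (ε / 16) (by positivity)).and (h2 (ε / 16) (by positivity))
  obtain ⟨N, hN⟩ := eventually_atTop.1 h3
  refine ⟨N, fun i hi => ?_⟩
  obtain ⟨h4, h5⟩ := hN i hi
  have h6 : ∀ x, |dfn (α i).γ (β i).γ x - dfn c d x| ≤ 4 * (ε / 16) := by
    apply dfn_close
    · intro t
      have := (h4 t).le
      rwa [dist_comm, dist_eq_norm] at this
    · intro t
      have := (h5 t).le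
      rwa [dist_comm, dist_eq_norm] at this
  have h7 := sSup_close hab h6
  have h8 := sInf_close hbe h6
  rw [Real.dist_eq]
  unfold osc
  rw [abs_le] at h7 h8
  rw [abs_lt]
  constructor <;> linarith [h7.1, h7.2, h8.1, h8.2]

end Limit

theorem specLimit : SpecLimit := by
  intro n m _ _ x y c d _ _ _ _ _ _ α β h1 h2
  exact Limit.osc_tendsto h1 h2

end MP43832
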