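import Pool.Agent.Lib.MP_43832e_gt.Spec

/-!
# The saddle point lemma

`S (y, p) = ⟪p, y⟫ + b (y, p)` with `b` Lipschitz with Lipschitz gradient; discrete gradient
descent of the graph of `P` until it meets the diagonal plane.
-/

noncomputable section

namespace MP43832

namespace Saddle

open Set Filter Topology Metric

variable {E : Type*} [NormedAddCommGroup E] [InnerProductSpace ℝ E]

/-- the setting -/
structure Setup (b : E × E → ℝ) (g₁ g₂ : E × E → E) (C ℓ : ℝ) : Prop where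
  der : ∀ z v, HasDerivAt (fun t : ℝ => b (z + t • v)) (inner ℝ (g₁ z) v.1 + inner ℝ (g₂ z) v.2) 0
  bdd : ∀ z, ‖g₁ z‖ ≤ C ∧ ‖g₂ z‖ ≤ C
  lip : ∀ z z', ‖g₁ z - g₁ z'‖ ≤ ℓ * (‖z.1 - z'.1‖ + ‖z.2 - z'.2‖) ∧
      ‖g₂ z - g₂ z'‖ ≤ ℓ * (‖z.1 - z'.1‖ + ‖z.2 - z'.2‖)

variable {b : E × E → ℝ} {g₁ g₂ : E × E → E} {C ℓ : ℝ}

theorem Setup.C_nonneg (h : Setup b g₁ g₂ C ℓ) : 0 ≤ C := (norm_nonneg _).trans (h.bdd 0).1

/-- derivative along a segment -/
theorem Setup.der_at (h : Setup b g₁ g₂ C ℓ) (z v : E × E) (t : ℝ) :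
    HasDerivAt (fun t : ℝ => b (z + t • v))
      (inner ℝ (g₁ (z + t • v)) v.1 + inner ℝ (g₂ (z + t • v)) v.2) t := by
  have h0 := h.der (z + t • v) v
  have h2 : HasDerivAt (fun s : ℝ => b (z + t • v + s • v))
      (inner ℝ (g₁ (z + t • v)) v.1 + inner ℝ (g₂ (z + t • v)) v.2) (t - t) := by
    rw [sub_self]; exact h0
  have h3 := HasDerivAt.comp_sub_const t t h2
  refine h3.congr_of_eventuallyEq (Filter.Eventually.of_forall fun s => ?_)
  change b (z + s • v) = b (z + t • v + (s - t) • v)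
  congr 1
  rw [sub_smul]; abel

/-- mean value theorem -/
theorem Setup.mvt (h : Setup b g₁ g₂ C ℓ) (z v : E × E) : ∃ t ∈ Ioo (0 : ℝ) 1,
    b (z + v) - b z = inner ℝ (g₁ (z + t • v)) v.1 + inner ℝ (g₂ (z + t • v)) v.2 := by
  obtain ⟨t, ht, he⟩ := exists_hasDerivAt_eq_slope (fun t : ℝ => b (z + t • v))
    (fun t => inner ℝ (g₁ (z + t • v)) v.1 + inner ℝ (g₂ (z + t • v)) v.2) zero_lt_one
    (fun t _ => (h.der_at z v t).continuousAt.continuousWithinAt) (fun t _ => h.der_at z v t)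
  refine ⟨t, ht, ?_⟩
  rw [he]
  simp

theorem Setup.abs_sub_le (h : Setup b g₁ g₂ C ℓ) (z v : E × E) :
    |b (z + v) - b z| ≤ C * (‖v.1‖ + ‖v.2‖) := by
  obtain ⟨t, -, he⟩ := h.mvt z v
  rw [he]
  refine (abs_add_le _ _).trans ?_
  have h1 := (abs_real_inner_le_norm (g₁ (z + t • v)) v.1).trans
    (mul_le_mul_of_nonneg_right (h.bdd (z + t • v)).1 (norm_nonneg _))
  have h2 := (abs_real_inner_le_norm (g₂ (z + t • v)) v.2).trans
    (mul_le_mul_of_nonneg_right (h.bdd (z + t • v)).2 (norm_nonneg _))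
  linarith

theorem Setup.continuous_b (h : Setup b g₁ g₂ C ℓ) : Continuous b := by
  have hC := h.C_nonneg
  have hl : LipschitzWith ⟨2 * C, by positivity⟩ b := by
    refine LipschitzWith.of_dist_le_mul fun x y => ?_
    rw [Real.dist_eq]
    have h1 := h.abs_sub_le y (x - y)
    rw [add_sub_cancel] at h1
    refine h1.trans ?_
    change _ ≤ 2 * C * dist x y
    have e1 : ‖(x - y).1‖ ≤ dist x y := by
      rw [dist_eq_norm]; exact norm_fst_le _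
    have e2 : ‖(x - y).2‖ ≤ dist x y := by
      rw [dist_eq_norm]; exact norm_snd_le _
    nlinarith
  exact hl.continuous

theorem Setup.continuous_g (h : Setup b g₁ g₂ C ℓ) : Continuous g₁ ∧ Continuous g₂ := by
  have key : ∀ g : E × E → E, (∀ z z', ‖g z - g z'‖ ≤ ℓ * (‖z.1 - z'.1‖ + ‖z.2 - z'.2‖)) →
      Continuous g := by
    intro g hg
    have hl : LipschitzWith ⟨2 * |ℓ|, by positivity⟩ g := by
      refine LipschitzWith.of_dist_le_mul fun x y => ?_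
      rw [dist_eq_norm]
      refine (hg x y).trans ?_
      change _ ≤ 2 * |ℓ| * dist x y
      have e1 : ‖x.1 - y.1‖ ≤ dist x y := by
        rw [dist_eq_norm]; exact norm_fst_le (x - y)
      have e2 : ‖x.2 - y.2‖ ≤ dist x y := by
        rw [dist_eq_norm]; exact norm_snd_le (x - y)
      have e3 : ℓ * (‖x.1 - y.1‖ + ‖x.2 - y.2‖) ≤ |ℓ| * (‖x.1 - y.1‖ + ‖x.2 - y.2‖) :=
        mul_le_mul_of_nonneg_right (le_abs_self _) (by positivity)
      have e4 : |ℓ| * (‖x.1 - y.1‖ + ‖x.2 - y.2‖) ≤ |ℓ| * (2 * dist x y) :=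
        mul_le_mul_of_nonneg_left (by linarith) (abs_nonneg _)
      linarith
    exact hl.continuous
  exact ⟨key g₁ fun z z' => (h.lip z z').1, key g₂ fun z z' => (h.lip z z').2⟩

/-- the first component of the gradient -/
def gr₁ (g₁ : E × E → E) (z : E × E) : E := z.2 + g₁ z

/-- the second component of the gradient -/
def gr₂ (g₂ : E × E → E) (z : E × E) : E := z.1 + g₂ z

/-- the size of the gradient -/
def nn (g₁ g₂ : E × E → E) (z : E × E) : ℝ := ‖gr₁ g₁ z‖ + ‖gr₂ g₂ z‖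

/-- the step size -/
def st (g₁ g₂ : E × E → E) (τ : ℝ) (z : E × E) : ℝ := τ / (1 + nn g₁ g₂ z)

/-- gradient descent -/
def Psi (g₁ g₂ : E × E → E) (τ : ℝ) (z : E × E) : E × E :=
  (z.1 - st g₁ g₂ τ z • gr₁ g₁ z, z.2 - st g₁ g₂ τ z • gr₂ g₂ z)

/-- the function -/
def SS (b : E × E → ℝ) (z : E × E) : ℝ := inner ℝ z.2 z.1 + b z

omit [InnerProductSpace ℝ E] in
theorem nn_nonneg (z : E × E) : 0 ≤ nn g₁ g₂ z := by unfold nn; positivity

omit [InnerProductSpace ℝ E] in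
theorem st_nonneg {τ : ℝ} (hτ : 0 ≤ τ) (z : E × E) : 0 ≤ st g₁ g₂ τ z := by
  have := nn_nonneg (g₁ := g₁) (g₂ := g₂) z
  unfold st; positivity

omit [InnerProductSpace ℝ E] in
theorem st_le {τ : ℝ} (hτ : 0 ≤ τ) (z : E × E) : st g₁ g₂ τ z ≤ τ := by
  have := nn_nonneg (g₁ := g₁) (g₂ := g₂) z
  unfold st
  rw [div_le_iff₀ (by positivity)]
  nlinarith

theorem Setup.ell (h : Setup b g₁ g₂ C ℓ) [Nontrivial E] : 0 ≤ ℓ := by
  obtain ⟨x, hx⟩ := exists_ne (0 : E)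
  have := (norm_nonneg _).trans (h.lip (x, 0) 0).1
  simp only [Prod.fst_zero, sub_zero, Prod.snd_zero, norm_zero, add_zero] at this
  have hp : 0 < ‖x‖ := norm_pos_iff.mpr hx
  by_contra hn
  rw [not_le] at hn
  nlinarith

/-- the descent estimate -/
theorem Setup.descent (h : Setup b g₁ g₂ C ℓ) (hℓ : 0 ≤ ℓ) {τ : ℝ} (hτ : 0 ≤ τ)
    (hτ' : τ * (1 + 2 * ℓ) ≤ 1 / 4) (z : E × E) :
    SS b (Psi g₁ g₂ τ z) ≤ SS b z - st g₁ g₂ τ z * nn g₁ g₂ z ^ 2 / 4 := by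
  set s := st g₁ g₂ τ z with hs
  have hs0 : 0 ≤ s := st_nonneg hτ z
  have hs1 : s ≤ τ := st_le hτ z
  set a := gr₁ g₁ z with ha
  set d := gr₂ g₂ z with hd
  set v : E × E := (-(s • a), -(s • d)) with hv
  have hPsi : Psi g₁ g₂ τ z = z + v := by
    unfold Psi
    ext
    · simp only [hv, Prod.fst_add]; rw [sub_eq_add_neg]
    · simp only [hv, Prod.snd_add]; rw [sub_eq_add_neg]
  obtain ⟨t, ht, he⟩ := h.mvt z v
  have hn : nn g₁ g₂ z = ‖a‖ + ‖d‖ := rfl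
  have hv1 : ‖v.1‖ = s * ‖a‖ := by
    simp only [hv]; rw [norm_neg, norm_smul, Real.norm_eq_abs, abs_of_nonneg hs0]
  have hv2 : ‖v.2‖ = s * ‖d‖ := by
    simp only [hv]; rw [norm_neg, norm_smul, Real.norm_eq_abs, abs_of_nonneg hs0]
  -- the increment of S
  have hS : SS b (z + v) - SS b z = (inner ℝ a v.1 + inner ℝ d v.2) + inner ℝ v.2 v.1 +
      (inner ℝ (g₁ (z + t • v) - g₁ z) v.1 + inner ℝ (g₂ (z + t • v) - g₂ z) v.2) := by
    unfold SS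
    have e1 : inner ℝ (z + v).2 (z + v).1 = inner ℝ z.2 z.1 + inner ℝ z.2 v.1 + inner ℝ z.1 v.2 +
        inner ℝ v.2 v.1 := by
      rw [Prod.fst_add, Prod.snd_add, inner_add_left, inner_add_right, inner_add_right,
        real_inner_comm z.1 v.2]
      ring
    rw [e1, inner_sub_left, inner_sub_left]
    simp only [ha, hd, gr₁, gr₂]
    rw [inner_add_left, inner_add_left]
    linarith [he]
  have hlip := h.lip (z + t • v) z
  have hd1 : ‖(z + t • v).1 - z.1‖ ≤ s * ‖a‖ := by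
    rw [Prod.fst_add, add_sub_cancel_left, Prod.smul_fst, norm_smul, Real.norm_eq_abs,
      abs_of_pos ht.1, hv1]
    have : 0 ≤ s * ‖a‖ := by positivity
    nlinarith [ht.2]
  have hd2 : ‖(z + t • v).2 - z.2‖ ≤ s * ‖d‖ := by
    rw [Prod.snd_add, add_sub_cancel_left, Prod.smul_snd, norm_smul, Real.norm_eq_abs,
      abs_of_pos ht.1, hv2]
    have : 0 ≤ s * ‖d‖ := by positivity
    nlinarith [ht.2]
  have hg1 : ‖g₁ (z + t • v) - g₁ z‖ ≤ ℓ * (s * (‖a‖ + ‖d‖)) := by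
    refine hlip.1.trans (mul_le_mul_of_nonneg_left ?_ hℓ)
    linarith
  have hg2 : ‖g₂ (z + t • v) - g₂ z‖ ≤ ℓ * (s * (‖a‖ + ‖d‖)) := by
    refine hlip.2.trans (mul_le_mul_of_nonneg_left ?_ hℓ)
    linarith
  have i1 : inner ℝ (g₁ (z + t • v) - g₁ z) v.1 ≤ ℓ * (s * (‖a‖ + ‖d‖)) * (s * ‖a‖) := by
    refine (real_inner_le_norm _ _).trans ?_
    rw [hv1]
    exact mul_le_mul_of_nonneg_right hg1 (by positivity)
  have i2 : inner ℝ (g₂ (z + t • v) - g₂ z) v.2 ≤ ℓ * (s * (‖a‖ + ‖d‖)) * (s * ‖d‖) := by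
    refine (real_inner_le_norm _ _).trans ?_
    rw [hv2]
    exact mul_le_mul_of_nonneg_right hg2 (by positivity)
  have i3 : inner ℝ v.2 v.1 ≤ s * ‖d‖ * (s * ‖a‖) := by
    refine (real_inner_le_norm _ _).trans ?_
    rw [hv1, hv2]
  have i4 : inner ℝ a v.1 = -(s * ‖a‖ ^ 2) := by
    simp only [hv]
    rw [inner_neg_right, inner_smul_right, real_inner_self_eq_norm_sq]
  have i5 : inner ℝ d v.2 = -(s * ‖d‖ ^ 2) := by
    simp only [hv]
    rw [inner_neg_right, inner_smul_right, real_inner_self_eq_norm_sq]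
  rw [hPsi]
  have hfin : SS b (z + v) - SS b z ≤ -(s * (‖a‖ + ‖d‖) ^ 2) / 4 := by
    rw [hS, i4, i5]
    have ha0 := norm_nonneg a
    have hd0 := norm_nonneg d
    have hsτ : s * (1 + 2 * ℓ) ≤ 1 / 4 :=
      (mul_le_mul_of_nonneg_right hs1 (by positivity)).trans hτ'
    -- total positive part ≤ s² (1/4... )
    have k1 : s * ‖d‖ * (s * ‖a‖) + (ℓ * (s * (‖a‖ + ‖d‖)) * (s * ‖a‖) +
        ℓ * (s * (‖a‖ + ‖d‖)) * (s * ‖d‖)) ≤ s * (s * (1 + 2 * ℓ)) * (‖a‖ + ‖d‖) ^ 2 := by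
      have e : s * (s * (1 + 2 * ℓ)) * (‖a‖ + ‖d‖) ^ 2 - (s * ‖d‖ * (s * ‖a‖) +
          (ℓ * (s * (‖a‖ + ‖d‖)) * (s * ‖a‖) + ℓ * (s * (‖a‖ + ‖d‖)) * (s * ‖d‖))) =
          s ^ 2 * (‖a‖ ^ 2 + ‖d‖ ^ 2 + ‖a‖ * ‖d‖ + ℓ * (‖a‖ + ‖d‖) ^ 2) := by ring
      have : 0 ≤ s ^ 2 * (‖a‖ ^ 2 + ‖d‖ ^ 2 + ‖a‖ * ‖d‖ + ℓ * (‖a‖ + ‖d‖) ^ 2) := by positivity
      linarith
    have k2 : s * (s * (1 + 2 * ℓ)) * (‖a‖ + ‖d‖) ^ 2 ≤ s * (1 / 4) * (‖a‖ + ‖d‖) ^ 2 :=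
      mul_le_mul_of_nonneg_right (mul_le_mul_of_nonneg_left hsτ hs0) (by positivity)
    have k3 : s * (‖a‖ + ‖d‖) ^ 2 ≤ 2 * (s * ‖a‖ ^ 2 + s * ‖d‖ ^ 2) := by
      have : 0 ≤ s * (‖a‖ - ‖d‖) ^ 2 := by positivity
      nlinarith
    linarith
  rw [hn]
  linarith

/-- the difference `y - p` under a step -/
theorem Setup.diff_step (h : Setup b g₁ g₂ C ℓ) {τ : ℝ} (hτ : 0 ≤ τ) (z : E × E) :
    ‖((Psi g₁ g₂ τ z).1 - (Psi g₁ g₂ τ z).2) - (1 + st g₁ g₂ τ z) • (z.1 - z.2)‖ ≤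
      2 * C * st g₁ g₂ τ z := by
  set s := st g₁ g₂ τ z with hs
  have hs0 : 0 ≤ s := st_nonneg hτ z
  have e : ((Psi g₁ g₂ τ z).1 - (Psi g₁ g₂ τ z).2) - (1 + s) • (z.1 - z.2) =
      s • (g₂ z - g₁ z) := by
    unfold Psi gr₁ gr₂
    simp only [← hs]
    simp only [smul_add, smul_sub, add_smul, one_smul]
    abel
  rw [e, norm_smul, Real.norm_eq_abs, abs_of_nonneg hs0]
  have h1 := h.bdd z
  have h2 : ‖g₂ z - g₁ z‖ ≤ 2 * C := (norm_sub_le _ _).trans (by linarith)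
  nlinarith

/-- the trajectory -/
def tr (g₁ g₂ : E × E → E) (P : E → E) (τ : ℝ) (k : ℕ) (y : E) : E × E :=
  (Psi g₁ g₂ τ)^[k] (y, P y)

/-- the expansion factor -/
def lam (g₁ g₂ : E × E → E) (P : E → E) (τ : ℝ) : ℕ → E → ℝ
  | 0, _ => 1
  | k + 1, y => lam g₁ g₂ P τ k y * (1 + st g₁ g₂ τ (tr g₁ g₂ P τ k y))

theorem tr_succ (P : E → E) (τ : ℝ) (k : ℕ) (y : E) :
    tr g₁ g₂ P τ (k + 1) y = Psi g₁ g₂ τ (tr g₁ g₂ P τ k y) := by
  unfold tr; rw [Function.iterate_succ_apply']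

theorem lam_ge_one {P : E → E} {τ : ℝ} (hτ : 0 ≤ τ) (k : ℕ) (y : E) :
    1 ≤ lam g₁ g₂ P τ k y := by
  induction k with
  | zero => exact le_refl _
  | succ k ih =>
    simp only [lam]
    have := st_nonneg (g₁ := g₁) (g₂ := g₂) hτ (tr g₁ g₂ P τ k y)
    nlinarith

theorem Setup.diff_bound (h : Setup b g₁ g₂ C ℓ) {P : E → E} {τ : ℝ} (hτ : 0 ≤ τ) (k : ℕ)
    (y : E) :
    ‖(lam g₁ g₂ P τ k y)⁻¹ • ((tr g₁ g₂ P τ k y).1 - (tr g₁ g₂ P τ k y).2) - (y - P y)‖ ≤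
      2 * C * (1 - (lam g₁ g₂ P τ k y)⁻¹) := by
  induction k with
  | zero => simp [lam, tr]
  | succ k ih =>
    set l := lam g₁ g₂ P τ k y with hl
    set z := tr g₁ g₂ P τ k y with hz
    set s := st g₁ g₂ τ z with hs
    have hs0 : 0 ≤ s := st_nonneg hτ z
    have hl1 : 1 ≤ l := lam_ge_one hτ k y
    have hl0 : 0 < l := by linarith
    have hlam : lam g₁ g₂ P τ (k + 1) y = l * (1 + s) := rfl
    rw [hlam, tr_succ, ← hz]
    have hd := h.diff_step (z := z) hτ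
    rw [← hs] at hd
    generalize (Psi g₁ g₂ τ z).1 - (Psi g₁ g₂ τ z).2 = A at hd ⊢
    have e : (l * (1 + s))⁻¹ • A - (y - P y) = (l⁻¹ • (z.1 - z.2) - (y - P y)) +
        (l * (1 + s))⁻¹ • (A - (1 + s) • (z.1 - z.2)) := by
      have h9 : (l * (1 + s))⁻¹ * (1 + s) = l⁻¹ := by field_simp
      rw [smul_sub (l * (1 + s))⁻¹ A, smul_smul, h9]; abel
    rw [e]
    refine (norm_add_le _ _).trans ?_
    have h2 : ‖(l * (1 + s))⁻¹ • (A - (1 + s) • (z.1 - z.2))‖ ≤ (l * (1 + s))⁻¹ * (2 * C * s) := by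
      rw [norm_smul, Real.norm_eq_abs, abs_of_pos (by positivity)]
      exact mul_le_mul_of_nonneg_left hd (by positivity)
    have e2 : 2 * C * (1 - l⁻¹) + (l * (1 + s))⁻¹ * (2 * C * s) =
        2 * C * (1 - (l * (1 + s))⁻¹) := by
      field_simp
      ring
    linarith [ih, h2, e2]

theorem Setup.continuous_gr (h : Setup b g₁ g₂ C ℓ) :
    Continuous (gr₁ g₁) ∧ Continuous (gr₂ g₂) :=
  ⟨continuous_snd.add h.continuous_g.1, continuous_fst.add h.continuous_g.2⟩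

theorem Setup.continuous_st (h : Setup b g₁ g₂ C ℓ) (τ : ℝ) : Continuous (st g₁ g₂ τ) := by
  have h1 := h.continuous_gr
  have hn : Continuous (nn g₁ g₂) := h1.1.norm.add h1.2.norm
  refine continuous_const.div (continuous_const.add hn) fun z => ?_
  have := nn_nonneg (g₁ := g₁) (g₂ := g₂) z
  positivity

theorem Setup.continuous_Psi (h : Setup b g₁ g₂ C ℓ) (τ : ℝ) : Continuous (Psi g₁ g₂ τ) := by
  have h1 := h.continuous_gr
  have h2 := h.continuous_st τ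
  exact (continuous_fst.sub (h2.smul h1.1)).prodMk (continuous_snd.sub (h2.smul h1.2))

theorem Setup.continuous_tr (h : Setup b g₁ g₂ C ℓ) {P : E → E} (hP : Continuous P) (τ : ℝ)
    (k : ℕ) : Continuous (tr g₁ g₂ P τ k) :=
  ((h.continuous_Psi τ).iterate k).comp (continuous_id.prodMk hP)

theorem Setup.continuous_lam (h : Setup b g₁ g₂ C ℓ) {P : E → E} (hP : Continuous P) (τ : ℝ)
    (k : ℕ) : Continuous (lam g₁ g₂ P τ k) := by
  induction k with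
  | zero => exact continuous_const
  | succ k ih => exact ih.mul (continuous_const.add ((h.continuous_st τ).comp
      (h.continuous_tr hP τ k)))

/-- the total decrease -/
theorem Setup.sum_le (h : Setup b g₁ g₂ C ℓ) (hℓ : 0 ≤ ℓ) {P : E → E} {τ : ℝ} (hτ : 0 ≤ τ)
    (hτ' : τ * (1 + 2 * ℓ) ≤ 1 / 4) (y : E) (k : ℕ) :
    SS b (tr g₁ g₂ P τ k y) + ∑ i ∈ Finset.range k,
      st g₁ g₂ τ (tr g₁ g₂ P τ i y) * nn g₁ g₂ (tr g₁ g₂ P τ i y) ^ 2 / 4 ≤ SS b (y, P y) := by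
  induction k with
  | zero => simp [tr]
  | succ k ih =>
    rw [Finset.sum_range_succ, tr_succ]
    have := h.descent hℓ hτ hτ' (tr g₁ g₂ P τ k y)
    linarith

/-- almost critical points -/
theorem Setup.almost (h : Setup b g₁ g₂ C ℓ) (hℓ : 0 ≤ ℓ)
    (hB : ∀ (β : E → E), Continuous β → (∃ R : ℝ, ∀ y, ‖β y‖ ≤ R) → ∃ y, y + β y = 0)
    {P : E → E} {c R : ℝ} (hP : Continuous P) (hR : ∀ y, ‖P y‖ ≤ R)
    (hc : ∀ y, SS b (y, P y) ≤ c) {τ : ℝ} (hτ : 0 < τ) (hτ' : τ * (1 + 2 * ℓ) ≤ 1 / 4) (n : ℕ)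
    (hn : 0 < n) :
    ∃ z, SS b z ≤ c ∧ st g₁ g₂ τ z * nn g₁ g₂ z ^ 2 ≤ 4 * (c - b 0 + C ^ 2) / n := by
  have hC := h.C_nonneg
  set β : E → E := fun y => (lam g₁ g₂ P τ n y)⁻¹ •
    ((tr g₁ g₂ P τ n y).1 - (tr g₁ g₂ P τ n y).2) - y with hβ
  have hlamc := h.continuous_lam hP τ n
  have htrc := h.continuous_tr hP τ n
  have hlam0 : ∀ y, lam g₁ g₂ P τ n y ≠ 0 := fun y =>
    (lt_of_lt_of_le zero_lt_one (lam_ge_one hτ.le n y)).ne'
  have hβc : Continuous β :=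
    ((hlamc.inv₀ hlam0).smul ((continuous_fst.comp htrc).sub (continuous_snd.comp htrc))).sub
      continuous_id
  have hβb : ∀ y, ‖β y‖ ≤ R + 2 * C := by
    intro y
    have h1 := h.diff_bound (P := P) hτ.le n y
    have e : β y = ((lam g₁ g₂ P τ n y)⁻¹ • ((tr g₁ g₂ P τ n y).1 - (tr g₁ g₂ P τ n y).2) -
        (y - P y)) - P y := by simp only [hβ]; abel
    rw [e]
    refine (norm_sub_le _ _).trans ?_
    have h2 : 0 ≤ (lam g₁ g₂ P τ n y)⁻¹ :=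
      inv_nonneg.mpr (zero_le_one.trans (lam_ge_one hτ.le n y))
    have h3 := hR y
    nlinarith
  obtain ⟨y, hy⟩ := hB β hβc ⟨_, hβb⟩
  have hd : (tr g₁ g₂ P τ n y).1 = (tr g₁ g₂ P τ n y).2 := by
    simp only [hβ, add_sub_cancel] at hy
    rcases smul_eq_zero.mp hy with h1 | h1
    · exact absurd h1 (inv_ne_zero (hlam0 y))
    · exact sub_eq_zero.mp h1
  -- lower bound at the end
  have hlow : b 0 - C ^ 2 ≤ SS b (tr g₁ g₂ P τ n y) := by
    set w := (tr g₁ g₂ P τ n y) with hw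
    unfold SS
    have h1 := h.abs_sub_le 0 w
    rw [zero_add] at h1
    rw [← hd] at h1 ⊢
    rw [real_inner_self_eq_norm_sq]
    have h2 := (abs_le.mp h1).1
    nlinarith [sq_nonneg (‖w.1‖ - C)]
  have hsum := h.sum_le hℓ (P := P) hτ.le hτ' y n
  have hcy := hc y
  have hsum' : ∑ i ∈ Finset.range n,
      st g₁ g₂ τ (tr g₁ g₂ P τ i y) * nn g₁ g₂ (tr g₁ g₂ P τ i y) ^ 2 / 4 ≤ c - b 0 + C ^ 2 := by
    linarith
  obtain ⟨i, hi, hle⟩ : ∃ i ∈ Finset.range n,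
      st g₁ g₂ τ (tr g₁ g₂ P τ i y) * nn g₁ g₂ (tr g₁ g₂ P τ i y) ^ 2 / 4 ≤
        (c - b 0 + C ^ 2) / n := by
    by_contra hcon
    push Not at hcon
    have hlt : ∑ i ∈ Finset.range n, (c - b 0 + C ^ 2) / n < ∑ i ∈ Finset.range n,
        st g₁ g₂ τ (tr g₁ g₂ P τ i y) * nn g₁ g₂ (tr g₁ g₂ P τ i y) ^ 2 / 4 :=
      Finset.sum_lt_sum_of_nonempty ⟨0, Finset.mem_range.mpr hn⟩ hcon
    rw [Finset.sum_const, Finset.card_range, nsmul_eq_mul] at hlt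
    have hn' : (n : ℝ) ≠ 0 := by exact_mod_cast hn.ne'
    rw [mul_div_cancel₀ _ hn'] at hlt
    linarith
  refine ⟨tr g₁ g₂ P τ i y, ?_, ?_⟩
  · have := h.sum_le hℓ (P := P) hτ.le hτ' y i
    have hnn : 0 ≤ ∑ j ∈ Finset.range i,
        st g₁ g₂ τ (tr g₁ g₂ P τ j y) * nn g₁ g₂ (tr g₁ g₂ P τ j y) ^ 2 / 4 :=
      Finset.sum_nonneg fun j _ => by
        have := st_nonneg (g₁ := g₁) (g₂ := g₂) hτ.le (tr g₁ g₂ P τ j y)
        positivity
    linarith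
  · have e : 4 * (c - b 0 + C ^ 2) / n = 4 * ((c - b 0 + C ^ 2) / n) := by ring
    rw [e]; linarith

theorem Setup.exists_crit [FiniteDimensional ℝ E] (h : Setup b g₁ g₂ C ℓ) (hℓ : 0 ≤ ℓ)
    (hB : ∀ (β : E → E), Continuous β → (∃ R : ℝ, ∀ y, ‖β y‖ ≤ R) → ∃ y, y + β y = 0)
    {P : E → E} {c R : ℝ} (hP : Continuous P) (hR : ∀ y, ‖P y‖ ≤ R)
    (hc : ∀ y, SS b (y, P y) ≤ c) :
    ∃ z : E × E, z.2 + g₁ z = 0 ∧ z.1 + g₂ z = 0 ∧ SS b z ≤ c := by
  have hC := h.C_nonneg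
  set τ : ℝ := 1 / (4 * (1 + 2 * ℓ)) with hτd
  have hτ : 0 < τ := by positivity
  have hτ' : τ * (1 + 2 * ℓ) ≤ 1 / 4 := by
    rw [hτd]
    apply le_of_eq
    field_simp
  set K : ℝ := 4 * (c - b 0 + C ^ 2) with hK
  have hex : ∀ n : ℕ, ∃ z, SS b z ≤ c ∧ st g₁ g₂ τ z * nn g₁ g₂ z ^ 2 ≤ K / (n + 1 : ℕ) :=
    fun n => h.almost hℓ hB hP hR hc hτ hτ' (n + 1) n.succ_pos
  choose w hw1 hw2 using hex
  have hK0 : 0 ≤ K := by
    have h1 := hw2 0
    have h2 : 0 ≤ st g₁ g₂ τ (w 0) * nn g₁ g₂ (w 0) ^ 2 := by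
      have := st_nonneg (g₁ := g₁) (g₂ := g₂) hτ.le (w 0)
      positivity
    simpa using h2.trans h1
  -- the gradients tend to 0
  have hquad : ∀ n, τ * nn g₁ g₂ (w n) ^ 2 ≤ K / (n + 1 : ℕ) * (1 + nn g₁ g₂ (w n)) := by
    intro n
    have h1 := hw2 n
    have h2 := nn_nonneg (g₁ := g₁) (g₂ := g₂) (w n)
    unfold st at h1
    rw [div_mul_eq_mul_div, div_le_iff₀ (by positivity)] at h1
    exact h1
  have hbd : ∀ n, nn g₁ g₂ (w n) ≤ K / τ + 1 := by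
    intro n
    have h1 := hquad n
    have h2 := nn_nonneg (g₁ := g₁) (g₂ := g₂) (w n)
    have h3 : K / (n + 1 : ℕ) ≤ K := by
      rw [div_le_iff₀ (by positivity)]
      have : (1 : ℝ) ≤ ((n + 1 : ℕ) : ℝ) := by
        push_cast; linarith [(Nat.cast_nonneg n : (0 : ℝ) ≤ n)]
      nlinarith
    set x := nn g₁ g₂ (w n) with hx
    have h4 : τ * x ^ 2 ≤ K * (1 + x) :=
      h1.trans (mul_le_mul_of_nonneg_right h3 (by positivity))
    by_contra hcon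
    rw [not_le] at hcon
    have h5 : K < τ * (x - 1) := by
      have : K / τ < x - 1 := by linarith
      rwa [div_lt_iff₀ hτ, mul_comm] at this
    have h6 : K * (1 + x) ≤ τ * (x - 1) * (1 + x) :=
      mul_le_mul_of_nonneg_right h5.le (by positivity)
    nlinarith
  have htend : Tendsto (fun n => nn g₁ g₂ (w n)) atTop (𝓝 0) := by
    have hsq : Tendsto (fun n => nn g₁ g₂ (w n) ^ 2) atTop (𝓝 0) := by
      have hlim : Tendsto (fun n : ℕ => (K * (1 + (K / τ + 1)) / τ) / (n + 1 : ℕ)) atTop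
          (𝓝 0) :=
        (tendsto_const_div_atTop_nhds_zero_nat _).comp (tendsto_add_atTop_nat 1)
      refine squeeze_zero (fun n => sq_nonneg _) (fun n => ?_) hlim
      have h1 := hquad n
      have h2 := hbd n
      have h3 : K / (n + 1 : ℕ) * (1 + nn g₁ g₂ (w n)) ≤ K / (n + 1 : ℕ) * (1 + (K / τ + 1)) :=
        mul_le_mul_of_nonneg_left (by linarith) (by positivity)
      have h4 : τ * nn g₁ g₂ (w n) ^ 2 ≤ K / (n + 1 : ℕ) * (1 + (K / τ + 1)) := h1.trans h3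
      have h5 : nn g₁ g₂ (w n) ^ 2 ≤ K / (n + 1 : ℕ) * (1 + (K / τ + 1)) / τ := by
        rw [le_div_iff₀ hτ]; linarith
      refine h5.trans (le_of_eq ?_)
      ring
    have := hsq.sqrt
    rw [Real.sqrt_zero] at this
    refine this.congr fun n => ?_
    rw [Real.sqrt_sq (nn_nonneg _)]
  -- compactness
  have hmem : ∀ n, w n ∈ closedBall (0 : E × E) (K / τ + 1 + C) := by
    intro n
    rw [mem_closedBall_zero_iff, Prod.norm_def, max_le_iff]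
    have h1 := hbd n
    unfold nn at h1
    have h2 := norm_nonneg (gr₁ g₁ (w n))
    have h3 := norm_nonneg (gr₂ g₂ (w n))
    have h4 := h.bdd (w n)
    constructor
    · have e : (w n).1 = gr₂ g₂ (w n) - g₂ (w n) := by unfold gr₂; abel
      rw [e]
      refine (norm_sub_le _ _).trans ?_
      linarith
    · have e : (w n).2 = gr₁ g₁ (w n) - g₁ (w n) := by unfold gr₁; abel
      rw [e]
      refine (norm_sub_le _ _).trans ?_
      linarith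
  have : ProperSpace (E × E) := FiniteDimensional.proper ℝ (E × E)
  obtain ⟨z, -, φ, hφ, hz⟩ := (isCompact_closedBall (0 : E × E) (K / τ + 1 + C)).tendsto_subseq
    hmem
  have hgr := h.continuous_gr
  have hnc : Continuous (nn g₁ g₂) := hgr.1.norm.add hgr.2.norm
  have hnz : nn g₁ g₂ z = 0 := by
    have h1 := (hnc.tendsto z).comp hz
    have h2 := htend.comp hφ.tendsto_atTop
    exact tendsto_nhds_unique h1 h2
  have hSc : Continuous (SS b) := by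
    unfold SS
    exact (continuous_snd.inner continuous_fst).add h.continuous_b
  have hSz : SS b z ≤ c :=
    le_of_tendsto ((hSc.tendsto z).comp hz) (Filter.Eventually.of_forall fun n => hw1 (φ n))
  unfold nn at hnz
  have h2 := norm_nonneg (gr₁ g₁ z)
  have h3 := norm_nonneg (gr₂ g₂ z)
  exact ⟨z, norm_eq_zero.mp (by linarith : ‖gr₁ g₁ z‖ = 0),
    norm_eq_zero.mp (by linarith : ‖gr₂ g₂ z‖ = 0), hSz⟩

end Saddle

/-- B -/
theorem specSaddle (hB : SpecBrouwer) : SpecSaddle := by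
  intro N b g₁ g₂ C ℓ hder hbdd hlip P c R hP hR hc
  have h : Saddle.Setup b g₁ g₂ C (max ℓ 0) := by
    refine ⟨hder, hbdd, fun z z' => ?_⟩
    have hm : ℓ * (‖z.1 - z'.1‖ + ‖z.2 - z'.2‖) ≤ max ℓ 0 * (‖z.1 - z'.1‖ + ‖z.2 - z'.2‖) :=
      mul_le_mul_of_nonneg_right (le_max_left _ _) (by positivity)
    exact ⟨(hlip z z').1.trans hm, (hlip z z').2.trans hm⟩
  obtain ⟨z, h1, h2, h3⟩ := h.exists_crit (le_max_right _ _) (hB N) hP hR hc
  exact ⟨z, h1, h2, h3⟩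

end MP43832
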