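import Pool.Agent.Lib.MP_43832e_gt.Spec

set_option linter.all false

/-!
# Hofer distance between billiard ball maps: the upper bound

The functions `(1 - s) L_α + s L_β` generate a Hamiltonian path from the billiard ball map of `α`
to the billiard ball map of `β`; its Hamiltonian is the difference of the chord lengths.
-/

noncomputable section

namespace MP43832

namespace Upper

open Set Filter Topology MeasureTheory
open scoped ContDiff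

/-! ## Convex combinations -/

lemma comb_lt {s a b c : ℝ} (hs : s ∈ Icc (0 : ℝ) 1) (ha : a < c) (hb : b < c) :
    (1 - s) * a + s * b < c := by
  obtain ⟨h0, h1⟩ := hs
  rcases h0.eq_or_lt with h | h
  · subst h; simpa using ha
  · have h2 : 0 < s * (c - b) := mul_pos h (sub_pos.2 hb)
    have h3 : 0 ≤ (1 - s) * (c - a) := mul_nonneg (sub_nonneg.2 h1) (sub_nonneg.2 ha.le)
    nlinarith

lemma lt_comb {s a b c : ℝ} (hs : s ∈ Icc (0 : ℝ) 1) (ha : c < a) (hb : c < b) :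
    c < (1 - s) * a + s * b := by
  obtain ⟨h0, h1⟩ := hs
  rcases h0.eq_or_lt with h | h
  · subst h; simpa using ha
  · have h2 : 0 < s * (b - c) := mul_pos h (sub_pos.2 hb)
    have h3 : 0 ≤ (1 - s) * (a - c) := mul_nonneg (sub_nonneg.2 h1) (sub_nonneg.2 ha.le)
    nlinarith

lemma comb_le {s a b c : ℝ} (hs : s ∈ Icc (0 : ℝ) 1) (ha : a ≤ c) (hb : b ≤ c) :
    (1 - s) * a + s * b ≤ c := by
  obtain ⟨h0, h1⟩ := hs
  have h2 : 0 ≤ s * (c - b) := mul_nonneg h0 (sub_nonneg.2 hb)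
  have h3 : 0 ≤ (1 - s) * (c - a) := mul_nonneg (sub_nonneg.2 h1) (sub_nonneg.2 ha)
  nlinarith

lemma le_comb {s a b c : ℝ} (hs : s ∈ Icc (0 : ℝ) 1) (ha : c ≤ a) (hb : c ≤ b) :
    c ≤ (1 - s) * a + s * b := by
  obtain ⟨h0, h1⟩ := hs
  have h2 : 0 ≤ s * (b - c) := mul_nonneg h0 (sub_nonneg.2 hb)
  have h3 : 0 ≤ (1 - s) * (a - c) := mul_nonneg (sub_nonneg.2 h1) (sub_nonneg.2 ha)
  nlinarith

/-! ## An implicit function theorem with parameter in a closed interval -/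

lemma smooth_implicit (f : ℝ → ℝ → ℝ → ℝ) (U : Set (ℝ × ℝ)) (hU : IsOpen U)
    (hf : ContDiffOn ℝ ∞ (fun x : ℝ × (ℝ × ℝ) => f x.1 x.2.1 x.2.2) (univ ×ˢ U))
    (f' : ℝ → ℝ → ℝ → ℝ)
    (hder : ∀ s ∈ Icc (0 : ℝ) 1, ∀ a b, (a, b) ∈ U →
      HasDerivAt (fun b => f s a b) (f' s a b) b ∧ f' s a b ≠ 0)
    (hinj : ∀ s ∈ Icc (0 : ℝ) 1, ∀ a b b', (a, b) ∈ U → (a, b') ∈ U → f s a b = f s a b' → b = b')
    (g : ℝ → ℝ × ℝ → ℝ)
    (hg : ∀ s ∈ Icc (0 : ℝ) 1, ∀ z ∈ Strip, (z.1, g s z) ∈ U ∧ f s z.1 (g s z) = z.2) :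
    ContDiffOn ℝ ∞ (fun x : ℝ × (ℝ × ℝ) => g x.1 x.2) (Icc 0 1 ×ˢ Strip) := by
  rintro ⟨s₀, a₀, c₀⟩ ⟨hs₀, hz₀⟩
  obtain ⟨hbU, hbc⟩ := hg s₀ hs₀ (a₀, c₀) hz₀
  set b₀ := g s₀ (a₀, c₀) with hb₀
  simp only at hbU hbc
  set x₀ : ℝ × (ℝ × ℝ) := (s₀, (a₀, b₀)) with hx₀
  set F : ℝ × (ℝ × ℝ) → ℝ × (ℝ × ℝ) := fun x => (x.1, (x.2.1, f x.1 x.2.1 x.2.2)) with hF
  have hopen : IsOpen ((univ : Set ℝ) ×ˢ U) := isOpen_univ.prod hU
  have hmem : x₀ ∈ (univ : Set ℝ) ×ˢ U := ⟨trivial, hbU⟩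
  have hfx : ContDiffAt ℝ ∞ (fun x : ℝ × (ℝ × ℝ) => f x.1 x.2.1 x.2.2) x₀ :=
    hf.contDiffAt (hopen.mem_nhds hmem)
  have hFx : ContDiffAt ℝ ∞ F x₀ :=
    contDiffAt_fst.prodMk ((contDiffAt_fst.comp x₀ contDiffAt_snd).prodMk hfx)
  have hdf : DifferentiableAt ℝ (fun x : ℝ × (ℝ × ℝ) => f x.1 x.2.1 x.2.2) x₀ :=
    hfx.differentiableAt (by simp)
  set D := fderiv ℝ (fun x : ℝ × (ℝ × ℝ) => f x.1 x.2.1 x.2.2) x₀ with hD
  have hDb : D (0, (0, 1)) = f' s₀ a₀ b₀ := by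
    have h1 : HasDerivAt (fun b : ℝ => ((s₀, (a₀, b)) : ℝ × (ℝ × ℝ))) (0, (0, 1)) b₀ :=
      (hasDerivAt_const _ _).prodMk ((hasDerivAt_const _ _).prodMk (hasDerivAt_id _))
    have h2 : HasDerivAt (fun b : ℝ => f s₀ a₀ b) (D (0, (0, 1))) b₀ :=
      HasFDerivAt.comp_hasDerivAt (f := fun b : ℝ => ((s₀, (a₀, b)) : ℝ × (ℝ × ℝ))) b₀
        (l := fun x : ℝ × (ℝ × ℝ) => f x.1 x.2.1 x.2.2) hdf.hasFDerivAt h1
    exact h2.unique (hder s₀ hs₀ a₀ b₀ hbU).1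
  set F' : ℝ × (ℝ × ℝ) →L[ℝ] ℝ × (ℝ × ℝ) :=
    (ContinuousLinearMap.fst ℝ ℝ (ℝ × ℝ)).prod
      (((ContinuousLinearMap.fst ℝ ℝ ℝ).comp (ContinuousLinearMap.snd ℝ ℝ (ℝ × ℝ))).prod D) with hF'
  have hFF' : HasFDerivAt F F' x₀ :=
    hasFDerivAt_fst.prodMk ((hasFDerivAt_fst.comp x₀ hasFDerivAt_snd).prodMk hdf.hasFDerivAt)
  have hinjF : Function.Injective (F' : ℝ × (ℝ × ℝ) →ₗ[ℝ] ℝ × (ℝ × ℝ)) := by
    rw [← LinearMap.ker_eq_bot, LinearMap.ker_eq_bot']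
    rintro ⟨u, v, w⟩ h
    have h1 : u = 0 := congrArg Prod.fst h
    have h2 : v = 0 := congrArg (fun x : ℝ × (ℝ × ℝ) => x.2.1) h
    have h3 : D (u, (v, w)) = 0 := congrArg (fun x : ℝ × (ℝ × ℝ) => x.2.2) h
    subst h1 h2
    have h4 : ((0 : ℝ), ((0 : ℝ), w)) = w • ((0 : ℝ), ((0 : ℝ), (1 : ℝ))) := by
      simp
    rw [h4, map_smul, hDb, smul_eq_mul] at h3
    rcases mul_eq_zero.1 h3 with h5 | h5
    · simp [h5]
    · exact absurd h5 (hder s₀ hs₀ a₀ b₀ hbU).2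
  set e : (ℝ × (ℝ × ℝ)) ≃L[ℝ] (ℝ × (ℝ × ℝ)) :=
    (LinearEquiv.ofInjectiveEndo _ hinjF).toContinuousLinearEquiv with he
  have hee : (e : ℝ × (ℝ × ℝ) →L[ℝ] ℝ × (ℝ × ℝ)) = F' := by
    ext <;> rfl
  have hFe : HasFDerivAt F (e : ℝ × (ℝ × ℝ) →L[ℝ] ℝ × (ℝ × ℝ)) x₀ := by rw [hee]; exact hFF'
  have hn : (∞ : WithTop ℕ∞) ≠ 0 := by simp
  set G := hFx.localInverse hFe hn with hG
  have hGs : ContDiffAt ℝ ∞ G (F x₀) := hFx.to_localInverse hFe hn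
  have hFx₀ : F x₀ = (s₀, (a₀, c₀)) := by simp [hF, hx₀, hbc]
  have hGx : G (F x₀) = x₀ := (hFx.hasStrictFDerivAt' hFe hn).localInverse_apply_image
  have hR : ∀ᶠ y in 𝓝 (F x₀), F (G y) = y :=
    (hFx.hasStrictFDerivAt' hFe hn).eventually_right_inverse
  have hGU : ∀ᶠ y in 𝓝 (F x₀), G y ∈ (univ : Set ℝ) ×ˢ U := by
    have : Tendsto G (𝓝 (F x₀)) (𝓝 x₀) := by
      have := hGs.continuousAt
      rw [ContinuousAt, hGx] at this
      exact this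
    exact this (hopen.mem_nhds hmem)
  rw [hFx₀] at hR hGU hGs
  have h3 : ContDiffWithinAt ℝ ∞ (fun y => (G y).2.2) (Icc 0 1 ×ˢ Strip) (s₀, (a₀, c₀)) :=
    ((contDiffAt_snd.comp _ (contDiffAt_snd.comp _ hGs))).contDiffWithinAt
  have hk : ∀ y ∈ Icc (0 : ℝ) 1 ×ˢ Strip, F (G y) = y → G y ∈ (univ : Set ℝ) ×ˢ U →
      g y.1 y.2 = (G y).2.2 := by
    rintro ⟨s, a, c⟩ ⟨hs, hz⟩ h1 h2
    obtain ⟨h4, h5⟩ := hg s hs (a, c) hz
    have e1 : (G (s, (a, c))).1 = s := congrArg Prod.fst h1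
    have e2 : (G (s, (a, c))).2.1 = a := congrArg (fun x : ℝ × (ℝ × ℝ) => x.2.1) h1
    have e3 : f (G (s, (a, c))).1 (G (s, (a, c))).2.1 (G (s, (a, c))).2.2 = c :=
      congrArg (fun x : ℝ × (ℝ × ℝ) => x.2.2) h1
    have h6 : ((G (s, (a, c))).2.1, (G (s, (a, c))).2.2) ∈ U := h2.2
    rw [e2] at h6
    rw [e1, e2] at e3
    exact hinj s hs a _ _ h4 h6 (h5.trans e3.symm)
  refine h3.congr_of_eventuallyEq ?_ ?_
  · filter_upwards [self_mem_nhdsWithin, mem_nhdsWithin_of_mem_nhds hR,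
      mem_nhdsWithin_of_mem_nhds hGU] with y hy h1 h2
    exact hk y hy h1 h2
  · exact hk _ ⟨hs₀, hz₀⟩ hR.self_of_nhds hGU.self_of_nhds

/-! ## The derivatives of the generating function -/

/-- `- ∂_q ((1 - s) L_α + s L_β)` -/
def pS (α β : Table) (s q Q : ℝ) : ℝ := (1 - s) * pp α q Q + s * pp β q Q
/-- `∂_Q ((1 - s) L_α + s L_β)` -/
def PS (α β : Table) (s q Q : ℝ) : ℝ := (1 - s) * PP α q Q + s * PP β q Q
/-- the mixed derivative -/
def kS (α β : Table) (s q Q : ℝ) : ℝ := (1 - s) * kk α q Q + s * kk β q Q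

lemma isOpen_Tri : IsOpen Tri :=
  (isOpen_lt continuous_fst continuous_snd).inter
    (isOpen_lt continuous_snd (continuous_fst.add continuous_const))

lemma isOpen_Strip : IsOpen Strip :=
  (isOpen_lt continuous_const continuous_snd).inter (isOpen_lt continuous_snd continuous_const)

section
variable {α β : Table} (hα : Geo α) (hβ : Geo β)
include hα hβ

lemma kS_pos {s q Q : ℝ} (hs : s ∈ Icc (0 : ℝ) 1) (h : (q, Q) ∈ Tri) : 0 < kS α β s q Q :=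
  lt_comb hs (hα.kk_pos q Q h.1 h.2) (hβ.kk_pos q Q h.1 h.2)

lemma der_pS {s q Q : ℝ} (h : (q, Q) ∈ Tri) :
    HasDerivAt (fun Q => pS α β s q Q) (-kS α β s q Q) Q := by
  have h1 := ((hα.der_pp q Q h.1 h.2).const_mul (1 - s)).add ((hβ.der_pp q Q h.1 h.2).const_mul s)
  refine h1.congr_deriv ?_
  unfold kS; ring

lemma der_PS {s q Q : ℝ} (h : (q, Q) ∈ Tri) :
    HasDerivAt (fun q => PS α β s q Q) (kS α β s q Q) q :=
  ((hα.der_PP q Q h.1 h.2).const_mul (1 - s)).add ((hβ.der_PP q Q h.1 h.2).const_mul s)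

lemma pS_anti {s : ℝ} (hs : s ∈ Icc (0 : ℝ) 1) (q : ℝ) :
    StrictAntiOn (fun Q => pS α β s q Q) (Ioo q (q + 1)) := by
  refine strictAntiOn_of_deriv_neg (convex_Ioo _ _) ?_ ?_
  · intro Q hQ
    exact (der_pS hα hβ (s := s) (show (q, Q) ∈ Tri from hQ)).continuousAt.continuousWithinAt
  · intro Q hQ
    rw [interior_Ioo] at hQ
    rw [(der_pS hα hβ (s := s) (show (q, Q) ∈ Tri from hQ)).deriv]
    have := kS_pos hα hβ hs (show (q, Q) ∈ Tri from hQ)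
    linarith

lemma PS_mono {s : ℝ} (hs : s ∈ Icc (0 : ℝ) 1) (Q : ℝ) :
    StrictMonoOn (fun q => PS α β s q Q) (Ioo (Q - 1) Q) := by
  refine strictMonoOn_of_deriv_pos (convex_Ioo _ _) ?_ ?_
  · intro q hq
    have h : (q, Q) ∈ Tri := ⟨hq.2, by have := hq.1; show Q < q + 1; linarith⟩
    exact (der_PS hα hβ (s := s) h).continuousAt.continuousWithinAt
  · intro q hq
    rw [interior_Ioo] at hq
    have h : (q, Q) ∈ Tri := ⟨hq.2, by have := hq.1; show Q < q + 1; linarith⟩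
    rw [(der_PS hα hβ (s := s) h).deriv]
    exact kS_pos hα hβ hs h

lemma exists_Q {s : ℝ} (hs : s ∈ Icc (0 : ℝ) 1) {z : ℝ × ℝ} (hz : z ∈ Strip) :
    ∃ Q, (z.1, Q) ∈ Tri ∧ pS α β s z.1 Q = z.2 := by
  obtain ⟨q, p⟩ := z
  obtain ⟨h1, h2⟩ := hz
  simp only at h1 h2 ⊢
  obtain ⟨δ₁, d1, k1⟩ := hα.near_left (1 - p) (by linarith)
  obtain ⟨δ₂, d2, k2⟩ := hβ.near_left (1 - p) (by linarith)
  obtain ⟨δ₃, d3, k3⟩ := hα.near_right (1 + p) (by linarith)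
  obtain ⟨δ₄, d4, k4⟩ := hβ.near_right (1 + p) (by linarith)
  obtain ⟨η, e0, e1⟩ := exists_between (lt_min (lt_min d1 d2) (lt_min (lt_min d3 d4) one_pos))
  simp only [lt_min_iff] at e1
  obtain ⟨⟨e1, e2⟩, ⟨e3, e4⟩, e5⟩ := e1
  have m1 : q + η ∈ Ioo q (q + 1) := ⟨by linarith, by linarith⟩
  have m2 : q + 1 - η ∈ Ioo q (q + 1) := ⟨by linarith, by linarith⟩
  have v1 : p < pS α β s q (q + η) := by
    refine lt_comb hs ?_ ?_
    · have := (k1 q (q + η) m1.1 m1.2 (by linarith)).1; linarith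
    · have := (k2 q (q + η) m1.1 m1.2 (by linarith)).1; linarith
  have v2 : pS α β s q (q + 1 - η) < p := by
    refine comb_lt hs ?_ ?_
    · have := (k3 q (q + 1 - η) m2.1 m2.2 (by linarith)).1; linarith
    · have := (k4 q (q + 1 - η) m2.1 m2.2 (by linarith)).1; linarith
  have hc : ContinuousOn (fun Q => pS α β s q Q) (Ioo q (q + 1)) := fun Q hQ =>
    (der_pS hα hβ (s := s) (show (q, Q) ∈ Tri from hQ)).continuousAt.continuousWithinAt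
  obtain ⟨Q, hQ, hQ'⟩ := isPreconnected_Ioo.intermediate_value m2 m1 hc ⟨v2.le, v1.le⟩
  exact ⟨Q, hQ, hQ'⟩

lemma exists_q {s : ℝ} (hs : s ∈ Icc (0 : ℝ) 1) {z : ℝ × ℝ} (hz : z ∈ Strip) :
    ∃ q, (q, z.1) ∈ Tri ∧ PS α β s q z.1 = z.2 := by
  obtain ⟨Q, P⟩ := z
  obtain ⟨h1, h2⟩ := hz
  simp only at h1 h2 ⊢
  obtain ⟨δ₁, d1, k1⟩ := hα.near_left (1 - P) (by linarith)
  obtain ⟨δ₂, d2, k2⟩ := hβ.near_left (1 - P) (by linarith)
  obtain ⟨δ₃, d3, k3⟩ := hα.near_right (1 + P) (by linarith)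
  obtain ⟨δ₄, d4, k4⟩ := hβ.near_right (1 + P) (by linarith)
  obtain ⟨η, e0, e1⟩ := exists_between (lt_min (lt_min d1 d2) (lt_min (lt_min d3 d4) one_pos))
  simp only [lt_min_iff] at e1
  obtain ⟨⟨e1, e2⟩, ⟨e3, e4⟩, e5⟩ := e1
  have m1 : Q - η ∈ Ioo (Q - 1) Q := ⟨by linarith, by linarith⟩
  have m2 : Q - 1 + η ∈ Ioo (Q - 1) Q := ⟨by linarith, by linarith⟩
  have v1 : P < PS α β s (Q - η) Q := by
    refine lt_comb hs ?_ ?_
    · have := (k1 (Q - η) Q m1.2 (by linarith [m1.1]) (by linarith)).2; linarith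
    · have := (k2 (Q - η) Q m1.2 (by linarith [m1.1]) (by linarith)).2; linarith
  have v2 : PS α β s (Q - 1 + η) Q < P := by
    refine comb_lt hs ?_ ?_
    · have := (k3 (Q - 1 + η) Q m2.2 (by linarith [m2.1]) (by linarith)).2; linarith
    · have := (k4 (Q - 1 + η) Q m2.2 (by linarith [m2.1]) (by linarith)).2; linarith
  have ht : ∀ q ∈ Ioo (Q - 1) Q, (q, Q) ∈ Tri := fun q hq =>
    ⟨hq.2, by have := hq.1; show Q < q + 1; linarith⟩
  have hc : ContinuousOn (fun q => PS α β s q Q) (Ioo (Q - 1) Q) := fun q hq =>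
    (der_PS hα hβ (s := s) (ht q hq)).continuousAt.continuousWithinAt
  obtain ⟨q, hq, hq'⟩ := isPreconnected_Ioo.intermediate_value m2 m1 hc ⟨v2.le, v1.le⟩
  exact ⟨q, ht q hq, hq'⟩

end

/-- the first coordinate of the image of `z` -/
def Qf (α β : Table) (s : ℝ) (z : ℝ × ℝ) : ℝ :=
  Classical.epsilon (fun Q => (z.1, Q) ∈ Tri ∧ pS α β s z.1 Q = z.2)

/-- the first coordinate of the preimage of `z` -/
def qf (α β : Table) (s : ℝ) (z : ℝ × ℝ) : ℝ :=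
  Classical.epsilon (fun q => (q, z.1) ∈ Tri ∧ PS α β s q z.1 = z.2)

/-- the path of symplectomorphisms -/
def Phi (α β : Table) (s : ℝ) (z : ℝ × ℝ) : ℝ × ℝ :=
  (Qf α β s z, PS α β s z.1 (Qf α β s z))

/-- the Hamiltonians -/
def Ham (α β : Table) (s : ℝ) (z : ℝ × ℝ) : ℝ :=
  len α (qf α β s z) z.1 - len β (qf α β s z) z.1

section
variable {α β : Table} (hα : Geo α) (hβ : Geo β)
include hα hβ

lemma Qf_spec {s : ℝ} (hs : s ∈ Icc (0 : ℝ) 1) {z : ℝ × ℝ} (hz : z ∈ Strip) :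
    (z.1, Qf α β s z) ∈ Tri ∧ pS α β s z.1 (Qf α β s z) = z.2 :=
  Classical.epsilon_spec (exists_Q hα hβ hs hz)

lemma qf_spec {s : ℝ} (hs : s ∈ Icc (0 : ℝ) 1) {z : ℝ × ℝ} (hz : z ∈ Strip) :
    (qf α β s z, z.1) ∈ Tri ∧ PS α β s (qf α β s z) z.1 = z.2 :=
  Classical.epsilon_spec (exists_q hα hβ hs hz)

lemma Q_uniq {s : ℝ} (hs : s ∈ Icc (0 : ℝ) 1) {q Q Q' : ℝ} (h : (q, Q) ∈ Tri)
    (h' : (q, Q') ∈ Tri) (he : pS α β s q Q = pS α β s q Q') : Q = Q' :=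
  (pS_anti hα hβ hs q).injOn h h' he

lemma q_uniq {s : ℝ} (hs : s ∈ Icc (0 : ℝ) 1) {q q' Q : ℝ} (h : (q, Q) ∈ Tri)
    (h' : (q', Q) ∈ Tri) (he : PS α β s q Q = PS α β s q' Q) : q = q' :=
  (PS_mono hα hβ hs Q).injOn ⟨by have := h.2; simp only at this; linarith, h.1⟩
    ⟨by have := h'.2; simp only at this; linarith, h'.1⟩ he

lemma smooth_pS : ContDiffOn ℝ ∞ (fun x : ℝ × (ℝ × ℝ) => pS α β x.1 x.2.1 x.2.2) (univ ×ˢ Tri) := by
  have h1 : ContDiffOn ℝ ∞ (fun x : ℝ × (ℝ × ℝ) => pp α x.2.1 x.2.2) (univ ×ˢ Tri) :=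
    hα.smooth_pp.comp contDiff_snd.contDiffOn (fun x hx => hx.2)
  have h2 : ContDiffOn ℝ ∞ (fun x : ℝ × (ℝ × ℝ) => pp β x.2.1 x.2.2) (univ ×ˢ Tri) :=
    hβ.smooth_pp.comp contDiff_snd.contDiffOn (fun x hx => hx.2)
  exact ((contDiffOn_const.sub contDiff_fst.contDiffOn).mul h1).add
    (contDiff_fst.contDiffOn.mul h2)

lemma smooth_PS : ContDiffOn ℝ ∞ (fun x : ℝ × (ℝ × ℝ) => PS α β x.1 x.2.1 x.2.2) (univ ×ˢ Tri) := by
  have h1 : ContDiffOn ℝ ∞ (fun x : ℝ × (ℝ × ℝ) => PP α x.2.1 x.2.2) (univ ×ˢ Tri) :=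
    hα.smooth_PP.comp contDiff_snd.contDiffOn (fun x hx => hx.2)
  have h2 : ContDiffOn ℝ ∞ (fun x : ℝ × (ℝ × ℝ) => PP β x.2.1 x.2.2) (univ ×ˢ Tri) :=
    hβ.smooth_PP.comp contDiff_snd.contDiffOn (fun x hx => hx.2)
  exact ((contDiffOn_const.sub contDiff_fst.contDiffOn).mul h1).add
    (contDiff_fst.contDiffOn.mul h2)

lemma smooth_Qf : ContDiffOn ℝ ∞ (fun x : ℝ × (ℝ × ℝ) => Qf α β x.1 x.2) (Icc 0 1 ×ˢ Strip) := by
  refine smooth_implicit (fun s q Q => pS α β s q Q) Tri isOpen_Tri (smooth_pS hα hβ)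
    (fun s q Q => -kS α β s q Q) ?_ ?_ (Qf α β) ?_
  · intro s hs q Q h
    exact ⟨der_pS hα hβ h, (neg_neg_iff_pos.2 (kS_pos hα hβ hs h)).ne⟩
  · intro s hs q Q Q' h h' he
    exact Q_uniq hα hβ hs h h' he
  · intro s hs z hz
    exact Qf_spec hα hβ hs hz


lemma smooth_qf : ContDiffOn ℝ ∞ (fun x : ℝ × (ℝ × ℝ) => qf α β x.1 x.2) (Icc 0 1 ×ˢ Strip) := by
  have hU : IsOpen {x : ℝ × ℝ | (x.2, x.1) ∈ Tri} := isOpen_Tri.preimage continuous_swap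
  have hs : ContDiffOn ℝ ∞ (fun x : ℝ × (ℝ × ℝ) => PS α β x.1 x.2.2 x.2.1)
      (univ ×ˢ {x : ℝ × ℝ | (x.2, x.1) ∈ Tri}) := by
    have h1 : ContDiff ℝ ∞ (fun x : ℝ × (ℝ × ℝ) => (x.1, (x.2.2, x.2.1))) :=
      contDiff_fst.prodMk ((contDiff_snd.comp contDiff_snd).prodMk
        (contDiff_fst.comp contDiff_snd))
    exact (smooth_PS hα hβ).comp h1.contDiffOn (fun x hx => ⟨trivial, hx.2⟩)
  refine smooth_implicit (fun s Q q => PS α β s q Q) _ hU hs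
    (fun s Q q => kS α β s q Q) ?_ ?_ (qf α β) ?_
  · intro s hs Q q h
    exact ⟨der_PS hα hβ h, (kS_pos hα hβ hs h).ne'⟩
  · intro s hs Q q q' h h' he
    exact q_uniq hα hβ hs h h' he
  · intro s hs z hz
    exact qf_spec hα hβ hs hz

lemma maps_Qf : MapsTo (fun x : ℝ × (ℝ × ℝ) => (x.1, (x.2.1, Qf α β x.1 x.2)))
    (Icc 0 1 ×ˢ Strip) (univ ×ˢ Tri) := fun x hx =>
  ⟨trivial, (Qf_spec hα hβ hx.1 hx.2).1⟩

lemma smooth_Phi : ContDiffOn ℝ ∞ (fun x : ℝ × (ℝ × ℝ) => Phi α β x.1 x.2) (Icc 0 1 ×ˢ Strip) := by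
  have h1 := smooth_Qf hα hβ
  have h2 : ContDiffOn ℝ ∞ (fun x : ℝ × (ℝ × ℝ) => (x.1, (x.2.1, Qf α β x.1 x.2)))
      (Icc 0 1 ×ˢ Strip) :=
    contDiffOn_fst.prodMk ((contDiff_fst.comp contDiff_snd).contDiffOn.prodMk h1)
  exact h1.prodMk ((smooth_PS hα hβ).comp h2 (maps_Qf hα hβ))

lemma smooth_Ham : ContDiffOn ℝ ∞ (fun x : ℝ × (ℝ × ℝ) => Ham α β x.1 x.2) (Icc 0 1 ×ˢ Strip) := by
  have h1 := smooth_qf hα hβ
  have h2 : ContDiffOn ℝ ∞ (fun x : ℝ × (ℝ × ℝ) => (qf α β x.1 x.2, x.2.1))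
      (Icc 0 1 ×ˢ Strip) :=
    h1.prodMk (contDiff_fst.comp contDiff_snd).contDiffOn
  have h3 : MapsTo (fun x : ℝ × (ℝ × ℝ) => (qf α β x.1 x.2, x.2.1)) (Icc 0 1 ×ˢ Strip) Tri :=
    fun x hx => (qf_spec hα hβ hx.1 hx.2).1
  exact (hα.smooth_len.comp h2 h3).sub (hβ.smooth_len.comp h2 h3)

lemma tri_add {q Q : ℝ} (h : (q, Q) ∈ Tri) : (q + 1, Q + 1) ∈ Tri := by
  obtain ⟨h1, h2⟩ := h
  simp only at h1 h2
  exact ⟨by show q + 1 < Q + 1; linarith, by show Q + 1 < q + 1 + 1; linarith⟩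

lemma pS_strip {s q Q : ℝ} (hs : s ∈ Icc (0 : ℝ) 1) (h : (q, Q) ∈ Tri) :
    -1 < pS α β s q Q ∧ pS α β s q Q < 1 := by
  have h1 := abs_lt.1 (hα.abs_pp q Q h.1 h.2)
  have h2 := abs_lt.1 (hβ.abs_pp q Q h.1 h.2)
  exact ⟨lt_comb hs h1.1 h2.1, comb_lt hs h1.2 h2.2⟩

lemma PS_strip {s q Q : ℝ} (hs : s ∈ Icc (0 : ℝ) 1) (h : (q, Q) ∈ Tri) :
    -1 < PS α β s q Q ∧ PS α β s q Q < 1 := by
  have h1 := abs_lt.1 (hα.abs_PP q Q h.1 h.2)
  have h2 := abs_lt.1 (hβ.abs_PP q Q h.1 h.2)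
  exact ⟨lt_comb hs h1.1 h2.1, comb_lt hs h1.2 h2.2⟩

/-- `Φ_s (q, p_s(q, Q)) = (Q, P_s(q, Q))` -/
lemma Phi_eq {s q Q : ℝ} (hs : s ∈ Icc (0 : ℝ) 1) (h : (q, Q) ∈ Tri) :
    Phi α β s (q, pS α β s q Q) = (Q, PS α β s q Q) := by
  have hz : (q, pS α β s q Q) ∈ Strip := pS_strip hα hβ hs h
  obtain ⟨h1, h2⟩ := Qf_spec hα hβ hs hz
  have h3 : Qf α β s (q, pS α β s q Q) = Q := Q_uniq hα hβ hs h1 h h2
  unfold Phi
  rw [h3]

lemma Ham_eq {s q Q : ℝ} (hs : s ∈ Icc (0 : ℝ) 1) (h : (q, Q) ∈ Tri) :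
    Ham α β s (Q, PS α β s q Q) = len α q Q - len β q Q := by
  have hz : (Q, PS α β s q Q) ∈ Strip := PS_strip hα hβ hs h
  obtain ⟨h1, h2⟩ := qf_spec hα hβ hs hz
  have h3 : qf α β s (Q, PS α β s q Q) = q := q_uniq hα hβ hs h1 h h2
  unfold Ham
  rw [h3]

lemma exists_p {s : ℝ} (hs : s ∈ Icc (0 : ℝ) 1) {z : ℝ × ℝ} (hz : z ∈ Strip) :
    ∃ q Q, (q, Q) ∈ Tri ∧ z = (q, pS α β s q Q) :=
  ⟨z.1, Qf α β s z, (Qf_spec hα hβ hs hz).1, Prod.ext rfl (Qf_spec hα hβ hs hz).2.symm⟩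

lemma exists_P {s : ℝ} (hs : s ∈ Icc (0 : ℝ) 1) {z : ℝ × ℝ} (hz : z ∈ Strip) :
    ∃ q Q, (q, Q) ∈ Tri ∧ z = (Q, PS α β s q Q) :=
  ⟨qf α β s z, z.1, (qf_spec hα hβ hs hz).1, Prod.ext rfl (qf_spec hα hβ hs hz).2.symm⟩

lemma per_Phi {s : ℝ} (hs : s ∈ Icc (0 : ℝ) 1) {z : ℝ × ℝ} (hz : z ∈ Strip) :
    Phi α β s (z.1 + 1, z.2) = ((Phi α β s z).1 + 1, (Phi α β s z).2) := by
  obtain ⟨q, Q, h, rfl⟩ := exists_p hα hβ hs hz
  have h1 : pS α β s q Q = pS α β s (q + 1) (Q + 1) := by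
    unfold pS; rw [hα.pp_per, hβ.pp_per]
  have h2 : PS α β s q Q = PS α β s (q + 1) (Q + 1) := by
    unfold PS; rw [hα.PP_per, hβ.PP_per]
  rw [Phi_eq hα hβ hs h]
  show Phi α β s (q + 1, pS α β s q Q) = (Q + 1, PS α β s q Q)
  rw [h1, Phi_eq hα hβ hs (tri_add hα hβ h), h2]

lemma per_Ham {s : ℝ} (hs : s ∈ Icc (0 : ℝ) 1) {z : ℝ × ℝ} (hz : z ∈ Strip) :
    Ham α β s (z.1 + 1, z.2) = Ham α β s z := by
  obtain ⟨q, Q, h, rfl⟩ := exists_P hα hβ hs hz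
  have h2 : PS α β s q Q = PS α β s (q + 1) (Q + 1) := by
    unfold PS; rw [hα.PP_per, hβ.PP_per]
  rw [Ham_eq hα hβ hs h]
  show Ham α β s (Q + 1, PS α β s q Q) = _
  rw [h2, Ham_eq hα hβ hs (tri_add hα hβ h), hα.len_per, hβ.len_per]

lemma bij_Phi {s : ℝ} (hs : s ∈ Icc (0 : ℝ) 1) : BijOn (Phi α β s) Strip Strip := by
  refine ⟨?_, ?_, ?_⟩
  · intro z hz
    obtain ⟨q, Q, h, rfl⟩ := exists_p hα hβ hs hz
    rw [Phi_eq hα hβ hs h]
    exact PS_strip hα hβ hs h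
  · intro z hz w hw he
    obtain ⟨q, Q, h, rfl⟩ := exists_p hα hβ hs hz
    obtain ⟨q', Q', h', rfl⟩ := exists_p hα hβ hs hw
    rw [Phi_eq hα hβ hs h, Phi_eq hα hβ hs h'] at he
    have h1 : Q = Q' := congrArg Prod.fst he
    have h2 : PS α β s q Q = PS α β s q' Q' := congrArg Prod.snd he
    subst h1
    have h3 := q_uniq hα hβ hs h h' h2
    subst h3
    rfl
  · intro z hz
    obtain ⟨q, Q, h, rfl⟩ := exists_P hα hβ hs hz
    exact ⟨(q, pS α β s q Q), pS_strip hα hβ hs h, Phi_eq hα hβ hs h⟩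

lemma Phi_contDiffOn {s : ℝ} (hs : s ∈ Icc (0 : ℝ) 1) : ContDiffOn ℝ ∞ (Phi α β s) Strip := by
  have h1 : ContDiffOn ℝ ∞ (fun z : ℝ × ℝ => (s, z)) Strip :=
    (contDiff_const.prodMk contDiff_id).contDiffOn
  exact (smooth_Phi hα hβ).comp h1 (fun z hz => ⟨hs, hz⟩)

lemma Ham_contDiffOn {s : ℝ} (hs : s ∈ Icc (0 : ℝ) 1) : ContDiffOn ℝ ∞ (Ham α β s) Strip := by
  have h1 : ContDiffOn ℝ ∞ (fun z : ℝ × ℝ => (s, z)) Strip :=
    (contDiff_const.prodMk contDiff_id).contDiffOn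
  exact (smooth_Ham hα hβ).comp h1 (fun z hz => ⟨hs, hz⟩)

omit hα hβ in
lemma hasDerivAt_right (f : ℝ × ℝ → ℝ) (q Q : ℝ) (hf : DifferentiableAt ℝ f (q, Q)) :
    HasDerivAt (fun Q => f (q, Q)) (fderiv ℝ f (q, Q) (0, 1)) Q := by
  have h1 : HasDerivAt (fun Q : ℝ => ((q, Q) : ℝ × ℝ)) (0, 1) Q :=
    (hasDerivAt_const _ _).prodMk (hasDerivAt_id _)
  exact HasFDerivAt.comp_hasDerivAt (f := fun Q : ℝ => ((q, Q) : ℝ × ℝ)) Q (l := f)
    hf.hasFDerivAt h1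

omit hα hβ in
lemma hasDerivAt_left (f : ℝ × ℝ → ℝ) (q Q : ℝ) (hf : DifferentiableAt ℝ f (q, Q)) :
    HasDerivAt (fun q => f (q, Q)) (fderiv ℝ f (q, Q) (1, 0)) q := by
  have h1 : HasDerivAt (fun q : ℝ => ((q, Q) : ℝ × ℝ)) (1, 0) q :=
    (hasDerivAt_id _).prodMk (hasDerivAt_const _ _)
  exact HasFDerivAt.comp_hasDerivAt (f := fun q : ℝ => ((q, Q) : ℝ × ℝ)) q (l := f)
    hf.hasFDerivAt h1

lemma diff_pS (s : ℝ) {q Q : ℝ} (h : (q, Q) ∈ Tri) :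
    DifferentiableAt ℝ (fun x : ℝ × ℝ => pS α β s x.1 x.2) (q, Q) := by
  have h1 := (hα.smooth_pp.contDiffAt (isOpen_Tri.mem_nhds h)).differentiableAt
    (show (∞ : WithTop ℕ∞) ≠ 0 by simp)
  have h2 := (hβ.smooth_pp.contDiffAt (isOpen_Tri.mem_nhds h)).differentiableAt
    (show (∞ : WithTop ℕ∞) ≠ 0 by simp)
  exact (h1.const_mul (1 - s)).add (h2.const_mul s)

lemma diff_PS (s : ℝ) {q Q : ℝ} (h : (q, Q) ∈ Tri) :
    DifferentiableAt ℝ (fun x : ℝ × ℝ => PS α β s x.1 x.2) (q, Q) := by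
  have h1 := (hα.smooth_PP.contDiffAt (isOpen_Tri.mem_nhds h)).differentiableAt
    (show (∞ : WithTop ℕ∞) ≠ 0 by simp)
  have h2 := (hβ.smooth_PP.contDiffAt (isOpen_Tri.mem_nhds h)).differentiableAt
    (show (∞ : WithTop ℕ∞) ≠ 0 by simp)
  exact (h1.const_mul (1 - s)).add (h2.const_mul s)

omit hα hβ in
lemma det_eq (M : ℝ × ℝ →L[ℝ] ℝ × ℝ) :
    M.det = (M (1, 0)).1 * (M (0, 1)).2 - (M (0, 1)).1 * (M (1, 0)).2 := by
  have h := LinearMap.det_toMatrix (Module.Basis.finTwoProd ℝ) (M : ℝ × ℝ →ₗ[ℝ] ℝ × ℝ)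
  rw [Matrix.det_fin_two] at h
  simp only [LinearMap.toMatrix_apply, Module.Basis.finTwoProd_zero, Module.Basis.finTwoProd_one,
    Module.Basis.coe_finTwoProd_repr, ContinuousLinearMap.coe_coe] at h
  rw [ContinuousLinearMap.det, ← h]
  simp

/-- `Φ_s` preserves the area form -/
lemma symp_Phi {s : ℝ} (hs : s ∈ Icc (0 : ℝ) 1) {z : ℝ × ℝ} (hz : z ∈ Strip) :
    (fderiv ℝ (Phi α β s) z).det = 1 := by
  obtain ⟨q, Q, h, rfl⟩ := exists_p hα hβ hs hz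
  set p' := fderiv ℝ (fun x : ℝ × ℝ => pS α β s x.1 x.2) (q, Q) with hp'
  set P' := fderiv ℝ (fun x : ℝ × ℝ => PS α β s x.1 x.2) (q, Q) with hP'
  have hp := (diff_pS hα hβ s h).hasFDerivAt
  have hP := (diff_PS hα hβ s h).hasFDerivAt
  have k1 : p' (0, 1) = -kS α β s q Q :=
    (hasDerivAt_right _ q Q (diff_pS hα hβ s h)).unique (der_pS hα hβ h)
  have k2 : P' (1, 0) = kS α β s q Q :=
    (hasDerivAt_left _ q Q (diff_PS hα hβ s h)).unique (der_PS hα hβ h)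
  have hB : HasFDerivAt (fun x : ℝ × ℝ => (x.1, pS α β s x.1 x.2))
      ((ContinuousLinearMap.fst ℝ ℝ ℝ).prod p') (q, Q) := hasFDerivAt_fst.prodMk hp
  have hA : HasFDerivAt (fun x : ℝ × ℝ => (x.2, PS α β s x.1 x.2))
      ((ContinuousLinearMap.snd ℝ ℝ ℝ).prod P') (q, Q) := hasFDerivAt_snd.prodMk hP
  have hz' : (q, pS α β s q Q) ∈ Strip := pS_strip hα hβ hs h
  have hΦ : HasFDerivAt (Phi α β s) (fderiv ℝ (Phi α β s) (q, pS α β s q Q))
      (q, pS α β s q Q) :=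
    (((Phi_contDiffOn hα hβ hs).contDiffAt (isOpen_Strip.mem_nhds hz')).differentiableAt
      (by simp)).hasFDerivAt
  set M := fderiv ℝ (Phi α β s) (q, pS α β s q Q) with hM
  have hc : HasFDerivAt (fun x : ℝ × ℝ => Phi α β s (x.1, pS α β s x.1 x.2))
      (M.comp ((ContinuousLinearMap.fst ℝ ℝ ℝ).prod p')) (q, Q) :=
    HasFDerivAt.comp (g := Phi α β s) (f := fun x : ℝ × ℝ => (x.1, pS α β s x.1 x.2)) (q, Q) hΦ hB
  have hc' : HasFDerivAt (fun x : ℝ × ℝ => Phi α β s (x.1, pS α β s x.1 x.2))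
      ((ContinuousLinearMap.snd ℝ ℝ ℝ).prod P') (q, Q) := by
    refine hA.congr_of_eventuallyEq ?_
    filter_upwards [isOpen_Tri.mem_nhds h] with x hx
    exact Phi_eq hα hβ hs hx
  have he := hc.unique hc'
  have e1 : M (1, p' (1, 0)) = (0, kS α β s q Q) := by
    have := congrArg (fun L : ℝ × ℝ →L[ℝ] ℝ × ℝ => L (1, 0)) he
    simpa [k2] using this
  have e2 : M (0, -kS α β s q Q) = (1, P' (0, 1)) := by
    have := congrArg (fun L : ℝ × ℝ →L[ℝ] ℝ × ℝ => L (0, 1)) he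
    simpa [k1] using this
  have hk := kS_pos hα hβ hs h
  rw [det_eq]
  have d1 : ((1 : ℝ), p' (1, 0)) = (1, 0) + p' (1, 0) • ((0 : ℝ), (1 : ℝ)) := by simp
  have d2 : ((0 : ℝ), -kS α β s q Q) = (-kS α β s q Q) • ((0 : ℝ), (1 : ℝ)) := by simp
  rw [d1, map_add, map_smul] at e1
  rw [d2, map_smul] at e2
  have f1 := congrArg Prod.fst e1
  have f2 := congrArg Prod.snd e1
  have f3 := congrArg Prod.fst e2
  have f4 := congrArg Prod.snd e2
  simp only [Prod.fst_add, Prod.snd_add, Prod.smul_fst, Prod.smul_snd, smul_eq_mul] at f1 f2 f3 f4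
  have hk' := hk.ne'
  have g1 : (M (0, 1)).1 = -(kS α β s q Q)⁻¹ := by
    field_simp
    linarith
  have g2 : (M (1, 0)).1 = -p' (1, 0) * (M (0, 1)).1 := by linarith
  have g3 : (M (1, 0)).2 = kS α β s q Q - p' (1, 0) * (M (0, 1)).2 := by linarith
  rw [g2, g3, g1]
  field_simp
  ring


/-- the path is the flow of the Hamiltonians -/
lemma flow_Phi {s : ℝ} (hs : s ∈ Icc (0 : ℝ) 1) {z : ℝ × ℝ} (hz : z ∈ Strip) :
    HasDerivWithinAt (fun t => Phi α β t z) (XH (Ham α β s) (Phi α β s z)) (Icc 0 1) s := by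
  -- the derivative of `Q`
  have hQd : DifferentiableWithinAt ℝ (fun t => Qf α β t z) (Icc 0 1) s := by
    have h1 : ContDiffOn ℝ ∞ (fun t : ℝ => (t, z)) (Icc 0 1) :=
      (contDiff_id.prodMk contDiff_const).contDiffOn
    have h2 : ContDiffOn ℝ ∞ (fun t : ℝ => Qf α β t z) (Icc 0 1) :=
      (smooth_Qf hα hβ).comp h1 (fun t ht => ⟨ht, hz⟩)
    exact (h2.differentiableOn (by simp)) s hs
  obtain ⟨hT, hp⟩ := Qf_spec hα hβ hs hz
  set q := z.1 with hq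
  set Q := Qf α β s z with hQ
  set Q' := derivWithin (fun t => Qf α β t z) (Icc 0 1) s with hQ'
  have hQd' : HasDerivWithinAt (fun t => Qf α β t z) Q' (Icc 0 1) s := hQd.hasDerivWithinAt
  have hu : UniqueDiffWithinAt ℝ (Icc (0 : ℝ) 1) s := uniqueDiffOn_Icc zero_lt_one s hs
  have hid : HasDerivWithinAt (fun t : ℝ => t) 1 (Icc 0 1) s := hasDerivWithinAt_id _ _
  have hid' : HasDerivWithinAt (fun t : ℝ => 1 - t) (-1) (Icc 0 1) s := by
    simpa using hid.const_sub 1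
  -- the equation for `Q'`
  have e1 : HasDerivWithinAt (fun t => pp α q (Qf α β t z)) (-kk α q Q * Q') (Icc 0 1) s :=
    HasDerivAt.comp_hasDerivWithinAt s (h₂ := fun Q => pp α q Q) (h := fun t => Qf α β t z)
      (hα.der_pp q Q hT.1 hT.2) hQd'
  have e2 : HasDerivWithinAt (fun t => pp β q (Qf α β t z)) (-kk β q Q * Q') (Icc 0 1) s :=
    HasDerivAt.comp_hasDerivWithinAt s (h₂ := fun Q => pp β q Q) (h := fun t => Qf α β t z)
      (hβ.der_pp q Q hT.1 hT.2) hQd'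
  have e3 : HasDerivWithinAt (fun t => pS α β t q (Qf α β t z))
      ((-1) * pp α q Q + (1 - s) * (-kk α q Q * Q') + (1 * pp β q Q + s * (-kk β q Q * Q')))
      (Icc 0 1) s := (hid'.mul e1).add (hid.mul e2)
  have e4 : HasDerivWithinAt (fun t => pS α β t q (Qf α β t z)) 0 (Icc 0 1) s := by
    refine (hasDerivWithinAt_const s (Icc (0 : ℝ) 1) z.2).congr ?_ ?_
    · intro t ht
      exact (Qf_spec hα hβ ht hz).2
    · exact hp
  have e5 := hu.eq_deriv _ e3 e4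
  have hQeq : kS α β s q Q * Q' = pp β q Q - pp α q Q := by
    unfold kS; linarith
  -- the derivative of `P`
  set P' := fderiv ℝ (fun x : ℝ × ℝ => PS α β s x.1 x.2) (q, Q) with hP'
  set ra := fderiv ℝ (fun x : ℝ × ℝ => PP α x.1 x.2) (q, Q) (0, 1) with hra
  set rb := fderiv ℝ (fun x : ℝ × ℝ => PP β x.1 x.2) (q, Q) (0, 1) with hrb
  have hda := (hα.smooth_PP.contDiffAt (isOpen_Tri.mem_nhds hT)).differentiableAt
    (show (∞ : WithTop ℕ∞) ≠ 0 by simp)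
  have hdb := (hβ.smooth_PP.contDiffAt (isOpen_Tri.mem_nhds hT)).differentiableAt
    (show (∞ : WithTop ℕ∞) ≠ 0 by simp)
  have hdab := (hasDerivAt_right (fun x : ℝ × ℝ => PP α x.1 x.2) q Q hda)
  have hdbb := (hasDerivAt_right (fun x : ℝ × ℝ => PP β x.1 x.2) q Q hdb)
  have hr : P' (0, 1) = (1 - s) * ra + s * rb :=
    (hasDerivAt_right _ q Q (diff_PS hα hβ s hT)).unique
      ((hdab.const_mul (1 - s)).add (hdbb.const_mul s))
  have g1 : HasDerivWithinAt (fun t => PP α q (Qf α β t z)) (ra * Q') (Icc 0 1) s :=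
    HasDerivAt.comp_hasDerivWithinAt s (h₂ := fun Q => PP α q Q) (h := fun t => Qf α β t z)
      hdab hQd'
  have g2 : HasDerivWithinAt (fun t => PP β q (Qf α β t z)) (rb * Q') (Icc 0 1) s :=
    HasDerivAt.comp_hasDerivWithinAt s (h₂ := fun Q => PP β q Q) (h := fun t => Qf α β t z)
      hdbb hQd'
  have g3 : HasDerivWithinAt (fun t => PS α β t q (Qf α β t z))
      ((-1) * PP α q Q + (1 - s) * (ra * Q') + (1 * PP β q Q + s * (rb * Q')))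
      (Icc 0 1) s := (hid'.mul g1).add (hid.mul g2)
  have g4 : HasDerivWithinAt (fun t => Phi α β t z)
      (Q', (-1) * PP α q Q + (1 - s) * (ra * Q') + (1 * PP β q Q + s * (rb * Q')))
      (Icc 0 1) s := hQd'.prodMk g3
  -- the derivative of the Hamiltonian
  have hw : Phi α β s z = (Q, PS α β s q Q) := rfl
  have hwS : (Q, PS α β s q Q) ∈ Strip := PS_strip hα hβ hs hT
  have k2 : P' (1, 0) = kS α β s q Q :=
    (hasDerivAt_left _ q Q (diff_PS hα hβ s hT)).unique (der_PS hα hβ hT)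
  have hA : HasFDerivAt (fun x : ℝ × ℝ => (x.2, PS α β s x.1 x.2))
      ((ContinuousLinearMap.snd ℝ ℝ ℝ).prod P') (q, Q) :=
    hasFDerivAt_snd.prodMk (diff_PS hα hβ s hT).hasFDerivAt
  have hH : HasFDerivAt (Ham α β s) (fderiv ℝ (Ham α β s) (Q, PS α β s q Q))
      (Q, PS α β s q Q) :=
    (((Ham_contDiffOn hα hβ hs).contDiffAt (isOpen_Strip.mem_nhds hwS)).differentiableAt
      (by simp)).hasFDerivAt
  set M := fderiv ℝ (Ham α β s) (Q, PS α β s q Q) with hM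
  have hc : HasFDerivAt (fun x : ℝ × ℝ => Ham α β s (x.2, PS α β s x.1 x.2))
      (M.comp ((ContinuousLinearMap.snd ℝ ℝ ℝ).prod P')) (q, Q) :=
    HasFDerivAt.comp (g := Ham α β s) (f := fun x : ℝ × ℝ => (x.2, PS α β s x.1 x.2)) (q, Q) hH hA
  have hc' : HasFDerivAt (fun x : ℝ × ℝ => Ham α β s (x.2, PS α β s x.1 x.2))
      (((-pp α q Q) • ContinuousLinearMap.fst ℝ ℝ ℝ + PP α q Q • ContinuousLinearMap.snd ℝ ℝ ℝ) -
        ((-pp β q Q) • ContinuousLinearMap.fst ℝ ℝ ℝ + PP β q Q • ContinuousLinearMap.snd ℝ ℝ ℝ))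
      (q, Q) := by
    refine ((hα.der q Q hT.1 hT.2).sub (hβ.der q Q hT.1 hT.2)).congr_of_eventuallyEq ?_
    filter_upwards [isOpen_Tri.mem_nhds hT] with x hx
    exact Ham_eq hα hβ hs hx
  have he := hc.unique hc'
  have i1 : M (0, kS α β s q Q) = pp β q Q - pp α q Q := by
    have := congrArg (fun L : ℝ × ℝ →L[ℝ] ℝ => L (1, 0)) he
    simp only [ContinuousLinearMap.comp_apply, ContinuousLinearMap.prod_apply,
      ContinuousLinearMap.coe_snd', k2, ContinuousLinearMap.sub_apply,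
      ContinuousLinearMap.add_apply, ContinuousLinearMap.smul_apply, ContinuousLinearMap.coe_fst',
      smul_eq_mul] at this
    linarith
  have i2 : M (1, P' (0, 1)) = PP α q Q - PP β q Q := by
    have := congrArg (fun L : ℝ × ℝ →L[ℝ] ℝ => L (0, 1)) he
    simp only [ContinuousLinearMap.comp_apply, ContinuousLinearMap.prod_apply,
      ContinuousLinearMap.coe_snd', ContinuousLinearMap.sub_apply,
      ContinuousLinearMap.add_apply, ContinuousLinearMap.smul_apply, ContinuousLinearMap.coe_fst',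
      smul_eq_mul] at this
    linarith
  have d1 : ((0 : ℝ), kS α β s q Q) = (kS α β s q Q) • ((0 : ℝ), (1 : ℝ)) := by simp
  have d2 : ((1 : ℝ), P' (0, 1)) = (1, 0) + P' (0, 1) • ((0 : ℝ), (1 : ℝ)) := by simp
  rw [d1, map_smul, smul_eq_mul] at i1
  rw [d2, map_add, map_smul, smul_eq_mul] at i2
  have hk := (kS_pos hα hβ hs hT).ne'
  have j1 : M (0, 1) = Q' := by
    apply mul_left_cancel₀ hk
    rw [i1, hQeq]
  rw [hw]
  refine g4.congr_deriv ?_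
  show _ = (M (0, 1), -M (1, 0))
  refine Prod.ext j1.symm ?_
  show _ = -M (1, 0)
  rw [j1, hr] at i2
  linarith

/-! ## The boundary -/

omit hα hβ in
lemma exists_bound {φ : ℝ → ℝ} (hφ : Continuous φ) (hper : ∀ t, φ (t + 1) = φ t) {c : ℝ}
    (hc : ∀ t, φ t < c) : ∃ m < c, ∀ t, φ t ≤ m := by
  obtain ⟨t₀, -, ht₀⟩ := (isCompact_Icc (a := (0 : ℝ)) (b := 1)).exists_isMaxOn
    ⟨0, by simp⟩ hφ.continuousOn
  refine ⟨φ t₀, hc t₀, fun t => ?_⟩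
  have h1 : φ t = φ (Int.fract t) := by
    have hp : Function.Periodic φ 1 := hper
    have := hp.sub_zsmul_eq (⌊t⌋) (x := t)
    rw [← this, zsmul_eq_mul, mul_one, Int.self_sub_floor]
  rw [h1]
  exact ht₀ ⟨Int.fract_nonneg t, (Int.fract_lt_one t).le⟩

omit hβ in
lemma cont_shift {f : ℝ → ℝ → ℝ} (hf : ContinuousOn (fun x : ℝ × ℝ => f x.1 x.2) Tri) {a b : ℝ}
    (hab : a < b) (hab' : b < a + 1) : Continuous (fun t => f (t + a) (t + b)) := by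
  have h1 : Continuous (fun t : ℝ => ((t + a, t + b) : ℝ × ℝ)) := by fun_prop
  exact hf.comp_continuous h1 (fun t =>
    ⟨by show t + a < t + b; linarith, by show t + b < t + a + 1; linarith⟩)

omit hβ in
/-- away from the diagonal `pp` and `PP` are bounded away from `1` -/
lemma away_left {δ : ℝ} (hδ : 0 < δ) (hδ1 : δ < 1) : ∃ m < (1 : ℝ), ∀ q Q, (q, Q) ∈ Tri →
    q + δ ≤ Q → pp α q Q ≤ m ∧ PP α q Q ≤ m := by
  obtain ⟨m₁, hm₁, h1⟩ := exists_bound (φ := fun t => pp α (t + 0) (t + δ)) (c := 1)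
    (cont_shift hα hα.smooth_pp.continuousOn hδ (by linarith))
    (fun t => by
      have := hα.pp_per (t + 0) (t + δ)
      rw [← this]; congr 1 <;> ring)
    (fun t => (abs_lt.1 (hα.abs_pp (t + 0) (t + δ) (by linarith) (by linarith))).2)
  obtain ⟨m₂, hm₂, h2⟩ := exists_bound (φ := fun t => PP α (t + -δ) (t + 0)) (c := 1)
    (cont_shift hα hα.smooth_PP.continuousOn (by linarith) (by linarith))
    (fun t => by
      have := hα.PP_per (t + -δ) (t + 0)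
      rw [← this]; congr 1 <;> ring)
    (fun t => (abs_lt.1 (hα.abs_PP (t + -δ) (t + 0) (by linarith) (by linarith))).2)
  refine ⟨max m₁ m₂, max_lt hm₁ hm₂, fun q Q h hQ => ⟨?_, ?_⟩⟩
  · have e := (pS_anti hα hα (s := 0) ⟨le_refl _, zero_le_one⟩ q).antitoneOn
      (show q + δ ∈ Ioo q (q + 1) from ⟨by linarith, by linarith⟩) (show Q ∈ Ioo q (q + 1) from h) hQ
    simp only [pS, sub_zero, one_mul, zero_mul, add_zero] at e
    have := h1 q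
    simp only [add_zero] at this
    exact (e.trans this).trans (le_max_left _ _)
  · have hq : q ∈ Ioo (Q - 1) Q := ⟨by have := h.2; simp only at this; linarith, h.1⟩
    have e := (PS_mono hα hα (s := 0) ⟨le_refl _, zero_le_one⟩ Q).monotoneOn hq
      (show Q - δ ∈ Ioo (Q - 1) Q from ⟨by linarith, by linarith⟩) (by linarith)
    simp only [PS, sub_zero, one_mul, zero_mul, add_zero] at e
    have := h2 Q
    simp only [add_zero, ← sub_eq_add_neg] at this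
    exact (e.trans this).trans (le_max_right _ _)

omit hβ in
/-- away from the other boundary component `pp` and `PP` are bounded away from `-1` -/
lemma away_right {δ : ℝ} (hδ : 0 < δ) (hδ1 : δ < 1) : ∃ m > (-1 : ℝ), ∀ q Q, (q, Q) ∈ Tri →
    Q ≤ q + 1 - δ → m ≤ pp α q Q ∧ m ≤ PP α q Q := by
  obtain ⟨m₁, hm₁, h1⟩ := exists_bound (φ := fun t => -pp α (t + 0) (t + (1 - δ))) (c := 1)
    (cont_shift hα hα.smooth_pp.continuousOn (by linarith) (by linarith)).neg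
    (fun t => by
      have := hα.pp_per (t + 0) (t + (1 - δ))
      show -pp α (t + 1 + 0) (t + 1 + (1 - δ)) = -pp α (t + 0) (t + (1 - δ))
      rw [← this]; congr 2 <;> ring)
    (fun t => by
      have := (abs_lt.1 (hα.abs_pp (t + 0) (t + (1 - δ)) (by linarith) (by linarith))).1
      linarith)
  obtain ⟨m₂, hm₂, h2⟩ := exists_bound (φ := fun t => -PP α (t + (δ - 1)) (t + 0)) (c := 1)
    (cont_shift hα hα.smooth_PP.continuousOn (by linarith) (by linarith)).neg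
    (fun t => by
      have := hα.PP_per (t + (δ - 1)) (t + 0)
      show -PP α (t + 1 + (δ - 1)) (t + 1 + 0) = -PP α (t + (δ - 1)) (t + 0)
      rw [← this]; congr 2 <;> ring)
    (fun t => by
      have := (abs_lt.1 (hα.abs_PP (t + (δ - 1)) (t + 0) (by linarith) (by linarith))).1
      linarith)
  refine ⟨-max m₁ m₂, by have := max_lt hm₁ hm₂; show -1 < _; linarith, fun q Q h hQ => ⟨?_, ?_⟩⟩
  · have e := (pS_anti hα hα (s := 0) ⟨le_refl _, zero_le_one⟩ q).antitoneOn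
      (show Q ∈ Ioo q (q + 1) from h)
      (show q + (1 - δ) ∈ Ioo q (q + 1) from ⟨by linarith, by linarith⟩) (by linarith)
    simp only [pS, sub_zero, one_mul, zero_mul, add_zero] at e
    have := h1 q
    simp only [add_zero] at this
    have h3 := le_max_left m₁ m₂
    linarith
  · have hq : q ∈ Ioo (Q - 1) Q := ⟨by have := h.2; simp only at this; linarith, h.1⟩
    have e := (PS_mono hα hα (s := 0) ⟨le_refl _, zero_le_one⟩ Q).monotoneOn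
      (show Q + (δ - 1) ∈ Ioo (Q - 1) Q from ⟨by linarith, by linarith⟩) hq (by linarith)
    simp only [PS, sub_zero, one_mul, zero_mul, add_zero] at e
    have := h2 Q
    simp only [add_zero] at this
    have h3 := le_max_right m₁ m₂
    linarith


/-- if `p_s` is near `1` then `Q` is near `q`; same for `P_s` -/
lemma close_left {δ : ℝ} (hδ : 0 < δ) : ∃ η > (0 : ℝ), ∀ s ∈ Icc (0 : ℝ) 1, ∀ q Q, (q, Q) ∈ Tri →
    (1 - η < pS α β s q Q ∨ 1 - η < PS α β s q Q) → Q < q + δ := by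
  obtain ⟨δ', h0, h1⟩ := exists_between (lt_min hδ one_pos)
  rw [lt_min_iff] at h1
  obtain ⟨m₁, hm₁, k1⟩ := away_left hα h0 h1.2
  obtain ⟨m₂, hm₂, k2⟩ := away_left hβ h0 h1.2
  refine ⟨1 - max m₁ m₂, sub_pos.2 (max_lt hm₁ hm₂), fun s hs q Q h hp => ?_⟩
  by_contra hcon
  push Not at hcon
  have e1 := k1 q Q h (by linarith [h1.1])
  have e2 := k2 q Q h (by linarith [h1.1])
  have f1 : pS α β s q Q ≤ max m₁ m₂ :=
    comb_le hs (e1.1.trans (le_max_left _ _)) (e2.1.trans (le_max_right _ _))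
  have f2 : PS α β s q Q ≤ max m₁ m₂ :=
    comb_le hs (e1.2.trans (le_max_left _ _)) (e2.2.trans (le_max_right _ _))
  rcases hp with hp | hp <;> linarith

/-- if `p_s` is near `-1` then `Q` is near `q + 1`; same for `P_s` -/
lemma close_right {δ : ℝ} (hδ : 0 < δ) : ∃ η > (0 : ℝ), ∀ s ∈ Icc (0 : ℝ) 1, ∀ q Q, (q, Q) ∈ Tri →
    (pS α β s q Q < -1 + η ∨ PS α β s q Q < -1 + η) → q + 1 - δ < Q := by
  obtain ⟨δ', h0, h1⟩ := exists_between (lt_min hδ one_pos)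
  rw [lt_min_iff] at h1
  obtain ⟨m₁, hm₁, k1⟩ := away_right hα h0 h1.2
  obtain ⟨m₂, hm₂, k2⟩ := away_right hβ h0 h1.2
  refine ⟨1 + min m₁ m₂, by have := lt_min hm₁ hm₂; show 0 < 1 + min m₁ m₂; linarith,
    fun s hs q Q h hp => ?_⟩
  by_contra hcon
  push Not at hcon
  have e1 := k1 q Q h (by linarith [h1.1])
  have e2 := k2 q Q h (by linarith [h1.1])
  have f1 : min m₁ m₂ ≤ pS α β s q Q :=
    le_comb hs ((min_le_left _ _).trans e1.1) ((min_le_right _ _).trans e2.1)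
  have f2 : min m₁ m₂ ≤ PS α β s q Q :=
    le_comb hs ((min_le_left _ _).trans e1.2) ((min_le_right _ _).trans e2.2)
  rcases hp with hp | hp <;> linarith

lemma PS_left {ε : ℝ} (hε : 0 < ε) : ∃ δ > (0 : ℝ), ∀ s ∈ Icc (0 : ℝ) 1, ∀ q Q, (q, Q) ∈ Tri →
    Q < q + δ → 1 - ε < PS α β s q Q := by
  obtain ⟨δ₁, d1, k1⟩ := hα.near_left ε hε
  obtain ⟨δ₂, d2, k2⟩ := hβ.near_left ε hε
  refine ⟨min δ₁ δ₂, lt_min d1 d2, fun s hs q Q h hQ => ?_⟩
  exact lt_comb hs (k1 q Q h.1 h.2 (by linarith [min_le_left δ₁ δ₂])).2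
    (k2 q Q h.1 h.2 (by linarith [min_le_right δ₁ δ₂])).2

lemma PS_right {ε : ℝ} (hε : 0 < ε) : ∃ δ > (0 : ℝ), ∀ s ∈ Icc (0 : ℝ) 1, ∀ q Q, (q, Q) ∈ Tri →
    q + 1 - δ < Q → PS α β s q Q < -1 + ε := by
  obtain ⟨δ₁, d1, k1⟩ := hα.near_right ε hε
  obtain ⟨δ₂, d2, k2⟩ := hβ.near_right ε hε
  refine ⟨min δ₁ δ₂, lt_min d1 d2, fun s hs q Q h hQ => ?_⟩
  exact comb_lt hs (k1 q Q h.1 h.2 (by linarith [min_le_left δ₁ δ₂])).2
    (k2 q Q h.1 h.2 (by linarith [min_le_right δ₁ δ₂])).2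

lemma bdry_Phi {s : ℝ} (hs : s ∈ Icc (0 : ℝ) 1) (z : ℝ × ℝ) (hz : z.2 = 1 ∨ z.2 = -1) :
    ∃ k : ℤ, Tendsto (fun x : ℝ × (ℝ × ℝ) => Phi α β x.1 x.2) (𝓝[Icc 0 1 ×ˢ Strip] (s, z))
      (𝓝 (z.1 + k, z.2)) := by
  obtain ⟨a, b⟩ := z
  simp only at hz ⊢
  have hmem : ∀ᶠ x : ℝ × (ℝ × ℝ) in 𝓝[Icc 0 1 ×ˢ Strip] (s, (a, b)), x ∈ Icc (0 : ℝ) 1 ×ˢ Strip :=
    self_mem_nhdsWithin
  have hq : Tendsto (fun x : ℝ × (ℝ × ℝ) => x.2.1) (𝓝[Icc 0 1 ×ˢ Strip] (s, (a, b))) (𝓝 a) :=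
    tendsto_nhdsWithin_of_tendsto_nhds
      ((continuous_fst.comp continuous_snd).tendsto (s, (a, b)))
  have hp : Tendsto (fun x : ℝ × (ℝ × ℝ) => x.2.2) (𝓝[Icc 0 1 ×ˢ Strip] (s, (a, b))) (𝓝 b) :=
    tendsto_nhdsWithin_of_tendsto_nhds
      ((continuous_snd.comp continuous_snd).tendsto (s, (a, b)))
  rcases hz with rfl | rfl
  · refine ⟨0, ?_⟩
    have key : ∀ δ : ℝ, 0 < δ → ∀ᶠ x : ℝ × (ℝ × ℝ) in 𝓝[Icc 0 1 ×ˢ Strip] (s, (a, 1)),
        Qf α β x.1 x.2 < x.2.1 + δ := by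
      intro δ hδ
      obtain ⟨η, hη, k⟩ := close_left hα hβ hδ
      filter_upwards [hmem, hp.eventually (lt_mem_nhds (show (1 : ℝ) - η < 1 by linarith))]
        with x hx hx'
      obtain ⟨h1, h2⟩ := Qf_spec hα hβ hx.1 hx.2
      exact k x.1 hx.1 _ _ h1 (Or.inl (by rw [h2]; exact hx'))
    have h1 : Tendsto (fun x : ℝ × (ℝ × ℝ) => Qf α β x.1 x.2 - x.2.1)
        (𝓝[Icc 0 1 ×ˢ Strip] (s, (a, 1))) (𝓝 0) := by
      rw [Metric.tendsto_nhds]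
      intro δ hδ
      filter_upwards [hmem, key δ hδ] with x hx hx'
      have h1 := (Qf_spec hα hβ hx.1 hx.2).1.1
      simp only at h1
      rw [Real.dist_eq, sub_zero, abs_lt]
      constructor <;> linarith
    have h2 : Tendsto (fun x : ℝ × (ℝ × ℝ) => Qf α β x.1 x.2)
        (𝓝[Icc 0 1 ×ˢ Strip] (s, (a, 1))) (𝓝 (a + ((0 : ℤ) : ℝ))) := by
      have := h1.add hq
      simpa using this
    refine h2.prodMk_nhds ?_
    rw [Metric.tendsto_nhds]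
    intro ε hε
    obtain ⟨δ, hδ, k⟩ := PS_left hα hβ hε
    filter_upwards [hmem, key δ hδ] with x hx hx'
    have h1 := (Qf_spec hα hβ hx.1 hx.2).1
    have h3 := k x.1 hx.1 _ _ h1 hx'
    have h4 := (PS_strip hα hβ hx.1 h1).2
    rw [Real.dist_eq, abs_lt]
    constructor <;> linarith
  · refine ⟨1, ?_⟩
    have key : ∀ δ : ℝ, 0 < δ → ∀ᶠ x : ℝ × (ℝ × ℝ) in 𝓝[Icc 0 1 ×ˢ Strip] (s, (a, -1)),
        x.2.1 + 1 - δ < Qf α β x.1 x.2 := by
      intro δ hδ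
      obtain ⟨η, hη, k⟩ := close_right hα hβ hδ
      filter_upwards [hmem, hp.eventually (gt_mem_nhds (show (-1 : ℝ) < -1 + η by linarith))]
        with x hx hx'
      obtain ⟨h1, h2⟩ := Qf_spec hα hβ hx.1 hx.2
      exact k x.1 hx.1 _ _ h1 (Or.inl (by rw [h2]; exact hx'))
    have h1 : Tendsto (fun x : ℝ × (ℝ × ℝ) => Qf α β x.1 x.2 - x.2.1)
        (𝓝[Icc 0 1 ×ˢ Strip] (s, (a, -1))) (𝓝 1) := by
      rw [Metric.tendsto_nhds]
      intro δ hδ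
      filter_upwards [hmem, key δ hδ] with x hx hx'
      have h1 := (Qf_spec hα hβ hx.1 hx.2).1.2
      simp only at h1
      rw [Real.dist_eq, abs_lt]
      constructor <;> linarith
    have h2 : Tendsto (fun x : ℝ × (ℝ × ℝ) => Qf α β x.1 x.2)
        (𝓝[Icc 0 1 ×ˢ Strip] (s, (a, -1))) (𝓝 (a + ((1 : ℤ) : ℝ))) := by
      have := h1.add hq
      rw [add_comm] at this
      simpa using this
    refine h2.prodMk_nhds ?_
    rw [Metric.tendsto_nhds]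
    intro ε hε
    obtain ⟨δ, hδ, k⟩ := PS_right hα hβ hε
    filter_upwards [hmem, key δ hδ] with x hx hx'
    have h1 := (Qf_spec hα hβ hx.1 hx.2).1
    have h3 := k x.1 hx.1 _ _ h1 hx'
    have h4 := (PS_strip hα hβ hx.1 h1).1
    rw [Real.dist_eq, abs_lt]
    constructor <;> linarith

omit hα hβ in
lemma len_nonneg (α : Table) (q Q : ℝ) : 0 ≤ len α q Q := norm_nonneg _

lemma bdry_Ham_joint {s : ℝ} (hs : s ∈ Icc (0 : ℝ) 1) (z : ℝ × ℝ) (hz : z.2 = 1 ∨ z.2 = -1) :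
    Tendsto (fun x : ℝ × (ℝ × ℝ) => Ham α β x.1 x.2) (𝓝[Icc 0 1 ×ˢ Strip] (s, z)) (𝓝 0) := by
  obtain ⟨a, b⟩ := z
  simp only at hz ⊢
  have hmem : ∀ᶠ x : ℝ × (ℝ × ℝ) in 𝓝[Icc 0 1 ×ˢ Strip] (s, (a, b)), x ∈ Icc (0 : ℝ) 1 ×ˢ Strip :=
    self_mem_nhdsWithin
  have hp : Tendsto (fun x : ℝ × (ℝ × ℝ) => x.2.2) (𝓝[Icc 0 1 ×ˢ Strip] (s, (a, b))) (𝓝 b) :=
    tendsto_nhdsWithin_of_tendsto_nhds
      ((continuous_snd.comp continuous_snd).tendsto (s, (a, b)))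
  rw [Metric.tendsto_nhds]
  intro ε hε
  rcases hz with rfl | rfl
  · obtain ⟨η, hη, k⟩ := close_left hα hβ hε
    filter_upwards [hmem, hp.eventually (lt_mem_nhds (show (1 : ℝ) - η < 1 by linarith))]
      with y hy hx'
    obtain ⟨t, x⟩ := y
    obtain ⟨ht, hx⟩ := hy
    simp only at ht hx hx' ⊢
    obtain ⟨q, Q, h, rfl⟩ := exists_P hα hβ ht hx
    rw [Ham_eq hα hβ ht h, Real.dist_eq, sub_zero, abs_lt]
    have h1 := k t ht q Q h (Or.inr hx')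
    have h2 := hα.le_left q Q h.1.le
    have h3 := hβ.le_left q Q h.1.le
    have h4 := len_nonneg α q Q
    have h5 := len_nonneg β q Q
    constructor <;> linarith
  · obtain ⟨η, hη, k⟩ := close_right hα hβ hε
    filter_upwards [hmem, hp.eventually (gt_mem_nhds (show (-1 : ℝ) < -1 + η by linarith))]
      with y hy hx'
    obtain ⟨t, x⟩ := y
    obtain ⟨ht, hx⟩ := hy
    simp only at ht hx hx' ⊢
    obtain ⟨q, Q, h, rfl⟩ := exists_P hα hβ ht hx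
    rw [Ham_eq hα hβ ht h, Real.dist_eq, sub_zero, abs_lt]
    have h1 := k t ht q Q h (Or.inr hx')
    have h2 := hα.le_right q Q h.2.le
    have h3 := hβ.le_right q Q h.2.le
    have h4 := len_nonneg α q Q
    have h5 := len_nonneg β q Q
    constructor <;> linarith

omit hα hβ in
lemma tendsto_slice {s : ℝ} (hs : s ∈ Icc (0 : ℝ) 1) (z : ℝ × ℝ) :
    Tendsto (fun w : ℝ × ℝ => (s, w)) (𝓝[Strip] z) (𝓝[Icc 0 1 ×ˢ Strip] (s, z)) := by
  refine tendsto_nhdsWithin_iff.2 ⟨?_, ?_⟩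
  · exact (Continuous.tendsto (by fun_prop) _).mono_left nhdsWithin_le_nhds
  · filter_upwards [self_mem_nhdsWithin] with w hw using ⟨hs, hw⟩

lemma bdry_Ham {s : ℝ} (hs : s ∈ Icc (0 : ℝ) 1) (z : ℝ × ℝ) (hz : z.2 = 1 ∨ z.2 = -1) :
    Tendsto (Ham α β s) (𝓝[Strip] z) (𝓝 0) :=
  (bdry_Ham_joint hα hβ hs z hz).comp (tendsto_slice hs z)

/-! ## The length -/

omit hβ in
lemma len_le_one (q Q : ℝ) : len α q Q ≤ 1 := by
  have hp : Function.Periodic (fun Q => len α q Q) 1 := fun Q => hα.len_per' q Q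
  have h1 : len α q Q = len α q (Q - ⌊Q - q⌋) := by
    have := hp.sub_zsmul_eq (⌊Q - q⌋) (x := Q)
    rw [zsmul_eq_mul, mul_one] at this
    exact this.symm
  rw [h1]
  have h2 := Int.floor_le (Q - q)
  have h3 := Int.lt_floor_add_one (Q - q)
  have h4 := hα.le_left q (Q - ⌊Q - q⌋) (by linarith)
  linarith

lemma abs_dfn_le (x : ℝ × ℝ) : |dfn α.γ β.γ x| ≤ 1 := by
  have h1 := len_le_one hα x.1 x.2
  have h2 := len_le_one hβ x.1 x.2
  have h3 := len_nonneg α x.1 x.2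
  have h4 := len_nonneg β x.1 x.2
  have h5 : dfn α.γ β.γ x = len β x.1 x.2 - len α x.1 x.2 := rfl
  rw [h5, abs_le]
  constructor <;> linarith

lemma osc_Ham_le {s : ℝ} (hs : s ∈ Icc (0 : ℝ) 1) :
    sSup (Ham α β s '' Strip) - sInf (Ham α β s '' Strip) ≤ osc α.γ β.γ := by
  have hA : BddAbove (range (dfn α.γ β.γ)) := ⟨1, by
    rintro _ ⟨x, rfl⟩; exact (abs_le.1 (abs_dfn_le hα hβ x)).2⟩
  have hB : BddBelow (range (dfn α.γ β.γ)) := ⟨-1, by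
    rintro _ ⟨x, rfl⟩; exact (abs_le.1 (abs_dfn_le hα hβ x)).1⟩
  have hne : (Ham α β s '' Strip).Nonempty := by
    refine Set.Nonempty.image _ ⟨(0, 0), ?_, ?_⟩ <;> norm_num
  have hv : ∀ y ∈ Ham α β s '' Strip, ∃ x, y = -dfn α.γ β.γ x := by
    rintro _ ⟨z, hz, rfl⟩
    obtain ⟨q, Q, h, rfl⟩ := exists_P hα hβ hs hz
    refine ⟨(q, Q), ?_⟩
    rw [Ham_eq hα hβ hs h]
    unfold dfn len
    ring
  have h1 : sSup (Ham α β s '' Strip) ≤ -sInf (range (dfn α.γ β.γ)) := by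
    refine csSup_le hne fun y hy => ?_
    obtain ⟨x, rfl⟩ := hv y hy
    exact neg_le_neg (csInf_le hB ⟨x, rfl⟩)
  have h2 : -sSup (range (dfn α.γ β.γ)) ≤ sInf (Ham α β s '' Strip) := by
    refine le_csInf hne fun y hy => ?_
    obtain ⟨x, rfl⟩ := hv y hy
    exact neg_le_neg (le_csSup hA ⟨x, rfl⟩)
  unfold osc
  linarith

omit hα hβ in
lemma bil_of {γ : Table} {q Q p P : ℝ} (h : (q, Q) ∈ Tri) (hp : p = pp γ q Q)
    (hP : P = PP γ q Q) : Bil γ (q, p) (Q, P) := by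
  refine ⟨fun k hk => ?_, hp, hP⟩
  obtain ⟨h1, h2⟩ := h
  simp only at h1 h2 hk
  have h3 : (0 : ℝ) < k := by rw [← hk]; linarith
  have h4 : (k : ℝ) < 1 := by rw [← hk]; linarith
  have h5 : 0 < k := by exact_mod_cast h3
  have h6 : k < 1 := by exact_mod_cast h4
  omega

/-- the Hamiltonian path generated by `(1 - s) L_α + s L_β` -/
def path : HamPath α β where
  Φ := Phi α β
  H := Ham α β
  smoothΦ := smooth_Phi hα hβ
  smoothH := smooth_Ham hα hβ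
  perΦ := fun s hs z hz => per_Phi hα hβ hs hz
  perH := fun s hs z hz => per_Ham hα hβ hs hz
  bij := fun s hs => bij_Phi hα hβ hs
  symp := fun s hs z hz => symp_Phi hα hβ hs hz
  flow := fun s hs z hz => flow_Phi hα hβ hs hz
  bdryΦ := fun s hs z hz => by
    obtain ⟨k, hk⟩ := bdry_Phi hα hβ hs z hz
    exact ⟨k, hk.comp (tendsto_slice hs z)⟩
  bdryH := fun s hs z hz => bdry_Ham hα hβ hs z hz
  start := fun z hz => by
    obtain ⟨h1, h2⟩ := Qf_spec hα hβ (s := 0) ⟨le_refl _, zero_le_one⟩ hz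
    refine bil_of h1 ?_ ?_
    · rw [← h2]; simp [pS]
    · simp [PS]
  finish := fun z hz => by
    obtain ⟨h1, h2⟩ := Qf_spec hα hβ (s := 1) ⟨zero_le_one, le_refl _⟩ hz
    refine bil_of h1 ?_ ?_
    · rw [← h2]; simp [pS]
    · simp [PS]

lemma path_cont : (path hα hβ).Cont := fun s hs z hz =>
  ⟨bdry_Phi hα hβ hs z hz, bdry_Ham_joint hα hβ hs z hz⟩

lemma length_path : (path hα hβ).length ≤ ENNReal.ofReal (osc α.γ β.γ) := by
  unfold HamPath.length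
  calc ∫⁻ s in Icc (0 : ℝ) 1, ENNReal.ofReal
        (sSup ((path hα hβ).H s '' Strip) - sInf ((path hα hβ).H s '' Strip))
      ≤ ∫⁻ s in Icc (0 : ℝ) 1, ENNReal.ofReal (osc α.γ β.γ) := by
        refine setLIntegral_mono' measurableSet_Icc fun s hs => ?_
        exact ENNReal.ofReal_le_ofReal (osc_Ham_le hα hβ hs)
    _ = ENNReal.ofReal (osc α.γ β.γ) := by
        rw [setLIntegral_const, Real.volume_Icc]
        simp

end

end Upper

/-- G: the upper bound -/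
theorem specUpper (hGeo : SpecGeo) : SpecUpper := fun α β =>
  ⟨Upper.path (hGeo α) (hGeo β), Upper.path_cont (hGeo α) (hGeo β),
    Upper.length_path (hGeo α) (hGeo β)⟩

end MP43832
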