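import Pool.Agent.Lib.MP_43832e_gt.Low.Fin
import Pool.Agent.Lib.MP_43832e_gt.Upper
import Pool.Agent.Lib.MP_43832e_gt.Core
import Pool.Agent.Lib.MP_43832e_gt.Discrete
import Pool.Agent.Lib.MP_43832e_gt.Saddle
import Pool.Agent.Lib.MP_43832e_gt.Brouwer
import Pool.Agent.Lib.MP_43832e_gt.Geo
import Pool.Agent.Lib.MP_43832e_gt.Graph
import Pool.Agent.Lib.MP_43832e_gt.Uniq
import Pool.Agent.Lib.MP_43832e_gt.Limit
import Pool.Agent.Lib.MP_43832e_gt.Approx

set_option linter.all false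

/-!
# The Hofer distance between polygonal billiards: assembly
-/

noncomputable section

namespace MP43832

open Set Filter Topology MeasureTheory

theorem coreT : SpecCore := specCore (specDiscrete (specSaddle specBrouwer))

/-- the Hofer distance of two tables -/
theorem dH_eq (α β : Table) : dH α β = ENNReal.ofReal (osc α.γ β.γ) ∧
    ∃ P : HamPath α β, P.Cont ∧ P.length = dH α β := by
  obtain ⟨P, hP, hP2⟩ := specUpper specGeo α β
  have h1 : ENNReal.ofReal (osc α.γ β.γ) ≤ dH α β :=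
    le_iInf fun P => specLower coreT specGeo α β P
  have h2 : dH α β ≤ P.length := iInf_le _ P
  have h3 : dH α β = ENNReal.ofReal (osc α.γ β.γ) := le_antisymm (h2.trans hP2) h1
  exact ⟨h3, P, hP, le_antisymm (hP2.trans h1) h2⟩

theorem osc_nonneg (α β : Table) : 0 ≤ osc α.γ β.γ := by
  have hb := Upper.abs_dfn_le (specGeo α) (specGeo β)
  have h0 : dfn α.γ β.γ (0, 0) = 0 := by simp [dfn]
  have h1 : dfn α.γ β.γ (0, 0) ≤ sSup (range (dfn α.γ β.γ)) :=
    le_csSup ⟨1, by rintro _ ⟨x, rfl⟩; exact (abs_le.1 (hb x)).2⟩ (mem_range_self _)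
  have h2 : sInf (range (dfn α.γ β.γ)) ≤ dfn α.γ β.γ (0, 0) :=
    csInf_le ⟨-1, by rintro _ ⟨x, rfl⟩; exact (abs_le.1 (hb x)).1⟩ (mem_range_self _)
  unfold osc
  linarith

/-- the statement -/
def Main : Prop :=
    (∀ α β : Table, dH α β = ENNReal.ofReal (osc α.γ β.γ) ∧
      ∃ P : HamPath α β, P.Cont ∧ P.length = dH α β) ∧
    ∀ (n m : ℕ) [NeZero n] [NeZero m], 3 ≤ n → 3 ≤ m →
      ∃ ρ : (Coord n → ℝ) → (Coord m → ℝ) → ℝ,
        (∀ x y, IsMP x → IsMP y →
          (∃ (c d : ℝ → ℂ) (α β : ℕ → Table), IsArc x c ∧ IsArc y d ∧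
            TendstoUniformly (fun i => (α i).γ) c atTop ∧
            TendstoUniformly (fun i => (β i).γ) d atTop) ∧
          ∀ (c d : ℝ → ℂ) (α β : ℕ → Table), IsArc x c → IsArc y d →
            TendstoUniformly (fun i => (α i).γ) c atTop →
            TendstoUniformly (fun i => (β i).γ) d atTop →
            0 ≤ ρ x y ∧ ρ x y = osc c d ∧
            Tendsto (fun i => dH (α i) (β i)) atTop (𝓝 (ENNReal.ofReal (ρ x y)))) ∧
        SemiAlg {z : (Coord n ⊕ Coord m) ⊕ Unit → ℝ |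
          IsMP (fun i => z (Sum.inl (Sum.inl i))) ∧ IsMP (fun i => z (Sum.inl (Sum.inr i))) ∧
          z (Sum.inr ()) = ρ (fun i => z (Sum.inl (Sum.inl i))) (fun i => z (Sum.inl (Sum.inr i)))}

theorem main : Main := by
  have hJ : SpecApprox := specApprox
  refine ⟨dH_eq, ?_⟩
  intro n m _ _ hn hm
  classical
  have hex : ∀ (x : Coord n → ℝ) (y : Coord m → ℝ), IsMP x → IsMP y → ∃ r : ℝ,
      ∃ c d : ℝ → ℂ, IsArc x c ∧ IsArc y d ∧ r = osc c d := by
    intro x y hx hy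
    obtain ⟨c, hc, -⟩ := hJ n hn x hx
    obtain ⟨d, hd, -⟩ := hJ m hm y hy
    exact ⟨osc c d, c, d, hc, hd, rfl⟩
  set ρ : (Coord n → ℝ) → (Coord m → ℝ) → ℝ := fun x y =>
    if h : IsMP x ∧ IsMP y then (hex x y h.1 h.2).choose else 0 with hρ
  have hρ2 : ∀ (x : Coord n → ℝ) (y : Coord m → ℝ), IsMP x → IsMP y →
      ∀ c d : ℝ → ℂ, IsArc x c → IsArc y d → ρ x y = osc c d := by
    intro x y hx hy c d hc hd
    have h1 : ρ x y = (hex x y hx hy).choose := by
      simp only [hρ]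
      rw [dif_pos ⟨hx, hy⟩]
    obtain ⟨c', d', hc', hd', e⟩ := (hex x y hx hy).choose_spec
    rw [h1, e, specUniq n hn x c c' hx hc hc', specUniq m hm y d d' hy hd hd']
  refine ⟨ρ, ?_, ?_⟩
  · intro x y hx hy
    refine ⟨?_, ?_⟩
    · obtain ⟨c, hc, α, hα⟩ := hJ n hn x hx
      obtain ⟨d, hd, β, hβ⟩ := hJ m hm y hy
      exact ⟨c, d, α, β, hc, hd, hα, hβ⟩
    · intro c d α β hc hd hα hβ
      have e := hρ2 x y hx hy c d hc hd
      have hlim := specLimit n m x y c d hn hm hx hy hc hd α β hα hβ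
      have h0 : 0 ≤ osc c d := ge_of_tendsto' hlim (fun i => osc_nonneg _ _)
      refine ⟨by rw [e]; exact h0, e, ?_⟩
      rw [e]
      have := (ENNReal.continuous_ofReal.tendsto (osc c d)).comp hlim
      refine this.congr fun i => ?_
      exact (dH_eq (α i) (β i)).1.symm
  · have hg := specGraph specUniq hJ n m hn hm
    have hset : {z : (Coord n ⊕ Coord m) ⊕ Unit → ℝ |
          IsMP (fun i => z (Sum.inl (Sum.inl i))) ∧ IsMP (fun i => z (Sum.inl (Sum.inr i))) ∧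
          z (Sum.inr ()) = ρ (fun i => z (Sum.inl (Sum.inl i))) (fun i => z (Sum.inl (Sum.inr i)))} =
        {z : (Coord n ⊕ Coord m) ⊕ Unit → ℝ |
          IsMP (fun i => z (Sum.inl (Sum.inl i))) ∧ IsMP (fun i => z (Sum.inl (Sum.inr i))) ∧
          ∃ c d : ℝ → ℂ, IsArc (fun i => z (Sum.inl (Sum.inl i))) c ∧
            IsArc (fun i => z (Sum.inl (Sum.inr i))) d ∧ z (Sum.inr ()) = osc c d} := by
      ext z
      simp only [mem_setOf_eq]
      constructor
      · rintro ⟨hx, hy, hz⟩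
        obtain ⟨c, hc, -⟩ := hJ n hn _ hx
        obtain ⟨d, hd, -⟩ := hJ m hm _ hy
        exact ⟨hx, hy, c, d, hc, hd, by rw [hz, hρ2 _ _ hx hy c d hc hd]⟩
      · rintro ⟨hx, hy, c, d, hc, hd, hz⟩
        exact ⟨hx, hy, by rw [hz, hρ2 _ _ hx hy c d hc hd]⟩
    rw [hset]
    exact hg

end MP43832
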