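import Pool.Agent.Lib.MP_43832e_gt.MkTable

set_option linter.all false

/-!
# Statements of the parts of module J (`SpecApprox`)
-/

noncomputable section

namespace MP43832

open Set Filter Topology MeasureTheory
open scoped ContDiff

/-- JA: the directions of the sides of a marked polygon turn once around -/
def SpecAngles : Prop :=
  ∀ (n : ℕ) [NeZero n], 3 ≤ n → ∀ x : Coord n → ℝ, IsMP x →
    ∃ (w : ℂ) (β : Fin n → ℝ), ‖w‖ = 1 ∧ (∀ i, 0 < β i ∧ β i < 2 * Real.pi) ∧ StrictMono β ∧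
      ∀ i, pt x (some (i + 1)) - pt x (some i) =
        (side x i : ℂ) * (w * Complex.exp (β i * Complex.I))

/-- JB: a table with a given radius of curvature -/
def SpecRho : Prop :=
  ∀ ρ : ℝ → ℝ, ContDiff ℝ ∞ ρ → (∀ u, 0 < ρ u) → (∀ u, ρ (u + 2 * Real.pi) = ρ u) →
    ∫ u in (0 : ℝ)..(2 * Real.pi), ρ u = 1 →
    ∫ u in (0 : ℝ)..(2 * Real.pi), (ρ u : ℂ) * Complex.exp (u * Complex.I) = 0 →
    ∃ D : MkTable.Dat, ∀ s, ∫ u in (0 : ℝ)..(D.θ s), ρ u = s

/-- JC: tables approximating a polygon whose `i`-th side has length `ℓ i` and direction `β i` -/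
def SpecFamily : Prop :=
  ∀ (n : ℕ) [NeZero n] (β ℓ : Fin n → ℝ), StrictMono β → (∀ i, 0 < β i ∧ β i < 2 * Real.pi) →
    (∀ i, 0 < ℓ i) → ∑ i, ℓ i = 1 →
    ∑ i, (ℓ i : ℂ) * Complex.exp (β i * Complex.I) = 0 →
    ∃ D : ℕ → MkTable.Dat, ∀ (i : Fin n) (s : ℝ),
      ∑ j ∈ Finset.univ.filter (fun j => j < i), ℓ j < s →
      s < ∑ j ∈ Finset.univ.filter (fun j => j < i), ℓ j + ℓ i →
      Tendsto (fun m => (D m).θ s) atTop (𝓝 (β i))

/-- JD: -/
def SpecAssemble : Prop := SpecAngles → SpecFamily → SpecApprox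

end MP43832
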