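import Pool.Agent.Lib.MP_43832e_gt.Spec

set_option linter.all false

noncomputable section

namespace MP43832

open Set Filter Topology MeasureTheory
open scoped ContDiff

namespace MkTable

lemma det2_eq (a b : ℂ) : det2 a b = (starRingEnd ℂ a * b).im := by
  simp [det2, Complex.mul_im]
  ring

lemma abs_det2_le (a b : ℂ) : |det2 a b| ≤ ‖a‖ * ‖b‖ := by
  rw [det2_eq]
  calc _ ≤ ‖starRingEnd ℂ a * b‖ := Complex.abs_im_le_norm _
    _ = _ := by rw [norm_mul, RCLike.norm_conj]

lemma det2_self (a : ℂ) : det2 a a = 0 := by simp [det2]; ring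

lemma det2_add (a b c : ℂ) : det2 a (b + c) = det2 a b + det2 a c := by simp [det2]; ring

lemma det2_sub (a b c : ℂ) : det2 a (b - c) = det2 a b - det2 a c := by simp [det2]; ring

lemma hasDerivAt_det2 {f g : ℝ → ℂ} {f' g' : ℂ} {t : ℝ} (hf : HasDerivAt f f' t)
    (hg : HasDerivAt g g' t) :
    HasDerivAt (fun t => det2 (f t) (g t)) (det2 f' (g t) + det2 (f t) g') t := by
  have key : ∀ {h : ℝ → ℂ} {h' : ℂ}, HasDerivAt h h' t →
      HasDerivAt (fun t => (h t).re) h'.re t ∧ HasDerivAt (fun t => (h t).im) h'.im t := by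
    intro h h' hh
    exact ⟨Complex.reCLM.hasFDerivAt.comp_hasDerivAt t hh, Complex.imCLM.hasFDerivAt.comp_hasDerivAt t hh⟩
  obtain ⟨hfr, hfi⟩ := key hf
  obtain ⟨hgr, hgi⟩ := key hg
  have := (hfr.mul hgi).sub (hfi.mul hgr)
  have e : det2 f' (g t) + det2 (f t) g' =
      (f'.re * (g t).im + (f t).re * g'.im) - (f'.im * (g t).re + (f t).im * g'.re) := by
    unfold det2
    ring
  rw [e]
  exact this

lemma continuous_det2 {X : Type*} [TopologicalSpace X] {f g : X → ℂ} (hf : Continuous f)
    (hg : Continuous g) : Continuous (fun x => det2 (f x) (g x)) := by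
  unfold det2
  fun_prop

/-- the data of a curve -/
structure Dat where
  θ : ℝ → ℝ
  θ' : ℝ → ℝ
  smooth : ContDiff ℝ ∞ θ
  der : ∀ s, HasDerivAt θ (θ' s) s
  pos : ∀ s, 0 < θ' s
  per : ∀ s, θ (s + 1) = θ s + 2 * Real.pi
  surj : Function.Surjective θ
  close : ∫ u in (0 : ℝ)..1, Complex.exp (θ u * Complex.I) = 0
  p : ℂ

namespace Dat

variable (D : Dat)

/-- the tangent -/
def T (u : ℝ) : ℂ := Complex.exp (D.θ u * Complex.I)

/-- the curve -/
def γ (t : ℝ) : ℂ := D.p + ∫ u in (0 : ℝ)..t, D.T u

lemma T_norm (u : ℝ) : ‖D.T u‖ = 1 := by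
  unfold T
  rw [Complex.norm_exp_ofReal_mul_I]

lemma T_smooth : ContDiff ℝ ∞ D.T := by
  unfold T
  exact Complex.contDiff_exp.comp ((Complex.ofRealCLM.contDiff.comp D.smooth).mul contDiff_const)

lemma T_cont : Continuous D.T := D.T_smooth.continuous

lemma T_der (u : ℝ) : HasDerivAt D.T (D.θ' u * Complex.I * D.T u) u := by
  unfold T
  have h1 : HasDerivAt (fun u : ℝ => (D.θ u : ℂ) * Complex.I) (D.θ' u * Complex.I) u :=
    (D.der u).ofReal_comp.mul_const _
  have := h1.cexp
  convert this using 1
  ring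

lemma T_per (u : ℝ) : D.T (u + 1) = D.T u := by
  unfold T
  rw [D.per]
  push_cast
  rw [add_mul, Complex.exp_add, Complex.exp_two_pi_mul_I, mul_one]

lemma γ_der (t : ℝ) : HasDerivAt D.γ (D.T t) t := by
  unfold γ
  have := (intervalIntegral.integral_hasDerivAt_right (D.T_cont.intervalIntegrable 0 t)
    (D.T_cont.stronglyMeasurableAtFilter _ _) D.T_cont.continuousAt)
  exact this.const_add _

lemma deriv_γ : deriv D.γ = D.T := by
  funext t
  exact (D.γ_der t).deriv

lemma γ_smooth : ContDiff ℝ ∞ D.γ := by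
  rw [contDiff_infty_iff_deriv]
  refine ⟨fun t => (D.γ_der t).differentiableAt, ?_⟩
  rw [D.deriv_γ]
  exact D.T_smooth

lemma γ_cont : Continuous D.γ := D.γ_smooth.continuous

lemma γ_per (t : ℝ) : D.γ (t + 1) = D.γ t := by
  unfold γ
  have hp : Function.Periodic D.T 1 := D.T_per
  rw [← intervalIntegral.integral_add_adjacent_intervals (D.T_cont.intervalIntegrable 0 t)
    (D.T_cont.intervalIntegrable t (t + 1))]
  have h1 := hp.intervalIntegral_add_eq t 0
  rw [zero_add] at h1
  rw [h1]
  have h2 : ∫ x in (0 : ℝ)..1, D.T x = 0 := D.close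
  rw [h2, add_zero]

lemma strictMono : StrictMono D.θ := by
  apply strictMono_of_deriv_pos
  intro x
  rw [(D.der x).deriv]
  exact D.pos x

lemma det2_T (t u : ℝ) : det2 (D.T t) (D.T u) = Real.sin (D.θ u - D.θ t) := by
  unfold T det2
  rw [Complex.exp_ofReal_mul_I_re, Complex.exp_ofReal_mul_I_im, Complex.exp_ofReal_mul_I_re,
    Complex.exp_ofReal_mul_I_im, Real.sin_sub]
  ring

lemma det2_IT (t : ℝ) (w : ℂ) : det2 (Complex.I * D.T t) w = -(starRingEnd ℂ (D.T t) * w).re := by
  rw [det2_eq]
  simp
  ring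

/-- strict support property -/
lemma support {t s : ℝ} (h1 : t < s) (h2 : s < t + 1) : 0 < det2 (D.T t) (D.γ s - D.γ t) := by
  set f : ℝ → ℝ := fun s => det2 (D.T t) (D.γ s - D.γ t) with hf
  have hder : ∀ s, HasDerivAt f (Real.sin (D.θ s - D.θ t)) s := by
    intro s
    have := hasDerivAt_det2 (hasDerivAt_const s (D.T t)) ((D.γ_der s).sub_const (D.γ t))
    convert this using 1
    rw [D.det2_T]
    simp [det2]
  have hcont : Continuous f := continuous_det2 continuous_const (D.γ_cont.sub continuous_const)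
  have ht : f t = 0 := by simp [hf, det2]
  have ht1 : f (t + 1) = 0 := by simp [hf, D.γ_per, det2]
  obtain ⟨m, hm⟩ := D.surj (D.θ t + Real.pi)
  have hpi := Real.pi_pos
  have hmt : t < m := by
    rw [← D.strictMono.lt_iff_lt, hm]; linarith
  have hmt1 : m < t + 1 := by
    rw [← D.strictMono.lt_iff_lt, hm, D.per]; linarith
  have hmono : StrictMonoOn f (Icc t m) := by
    apply strictMonoOn_of_deriv_pos (convex_Icc t m) hcont.continuousOn
    intro x hx
    rw [interior_Icc] at hx
    rw [(hder x).deriv]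
    apply Real.sin_pos_of_pos_of_lt_pi
    · have := D.strictMono hx.1; linarith
    · have := D.strictMono hx.2; linarith
  have hanti : StrictAntiOn f (Icc m (t + 1)) := by
    apply strictAntiOn_of_deriv_neg (convex_Icc m (t + 1)) hcont.continuousOn
    intro x hx
    rw [interior_Icc] at hx
    rw [(hder x).deriv]
    have h3 := D.strictMono hx.1
    have h4 := D.strictMono hx.2
    rw [D.per] at h4
    have : Real.sin (D.θ x - D.θ t) = -Real.sin (2 * Real.pi - (D.θ x - D.θ t)) := by
      rw [Real.sin_two_pi_sub, neg_neg]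
    rw [this, neg_lt_zero]
    apply Real.sin_pos_of_pos_of_lt_pi <;> linarith
  rcases le_or_gt s m with h | h
  · have := hmono (left_mem_Icc.2 hmt.le) ⟨h1.le, h⟩ h1
    rw [ht] at this
    exact this
  · have := hanti ⟨h.le, h2.le⟩ (right_mem_Icc.2 hmt1.le) h2
    rw [ht1] at this
    exact this

lemma γ_int (t : ℝ) (k : ℤ) : D.γ (t + k) = D.γ t := by
  have hp : Function.Periodic D.γ 1 := D.γ_per
  have := hp.int_mul k t
  simpa using this

lemma T_int (t : ℝ) (k : ℤ) : D.T (t + k) = D.T t := by
  have hp : Function.Periodic D.T 1 := D.T_per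
  have := hp.int_mul k t
  simpa using this

lemma support_nonneg (t s : ℝ) : 0 ≤ det2 (D.T t) (D.γ s - D.γ t) := by
  -- move s to [t, t+1)
  have h1 : D.γ s = D.γ (t + Int.fract (s - t)) := by
    have := D.γ_int (t + Int.fract (s - t)) ⌊s - t⌋
    rw [← this]
    congr 1
    have := Int.fract_add_floor (s - t)
    linarith
  rw [h1]
  rcases (Int.fract_nonneg (s - t)).eq_or_lt with h | h
  · rw [← h]; simp [det2]
  · exact (D.support (by linarith) (by linarith [Int.fract_lt_one (s - t)])).le

/-- the convex body -/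
def body : Set ℂ := {z | ∀ t, 0 ≤ det2 (D.T t) (z - D.γ t)}

lemma body_closed : IsClosed D.body := by
  unfold body
  rw [setOf_forall]
  apply isClosed_iInter
  intro t
  exact isClosed_le continuous_const (continuous_det2 continuous_const (continuous_id.sub continuous_const))

lemma body_convex : Convex ℝ D.body := by
  intro x hx y hy a b ha hb hab t
  have h1 := hx t
  have h2 := hy t
  have h3 : det2 (D.T t) (a • x + b • y - D.γ t) =
      a * det2 (D.T t) (x - D.γ t) + b * det2 (D.T t) (y - D.γ t) := by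
    have hb' : b = 1 - a := by linarith
    subst hb'
    simp [det2]
    ring
  rw [h3]
  have := mul_nonneg ha h1
  have := mul_nonneg hb h2
  linarith

lemma γ_bdd : ∃ B : ℝ, ∀ t, ‖D.γ t‖ ≤ B := by
  obtain ⟨B, hB⟩ := (isCompact_Icc (a := (0 : ℝ)) (b := 1)).exists_bound_of_continuousOn
    D.γ_cont.continuousOn
  refine ⟨B, fun t => ?_⟩
  have h1 : D.γ (Int.fract t) = D.γ t := by
    have := D.γ_int (Int.fract t) ⌊t⌋
    rw [Int.fract_add_floor] at this
    exact this.symm
  rw [← h1]
  exact hB _ ⟨Int.fract_nonneg t, (Int.fract_lt_one t).le⟩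

lemma body_bdd : Bornology.IsBounded D.body := by
  obtain ⟨B, hB⟩ := D.γ_bdd
  rw [isBounded_iff_forall_norm_le]
  refine ⟨B, fun z hz => ?_⟩
  obtain ⟨t, ht⟩ := D.surj (Complex.arg (Complex.I * z))
  have h1 := hz t
  have h2 : (‖z‖ : ℂ) * D.T t = Complex.I * z := by
    have := Complex.norm_mul_exp_arg_mul_I (Complex.I * z)
    rw [norm_mul, Complex.norm_I, one_mul] at this
    unfold T
    rw [ht]
    exact this
  have h3 : det2 (D.T t) z = -‖z‖ := by
    by_cases hz0 : z = 0
    · subst hz0; simp [det2]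
    have hz0' : 0 < ‖z‖ := norm_pos_iff.2 hz0
    have h4 : ‖z‖ * det2 (D.T t) z = -‖z‖ * ‖z‖ := by
      have : ‖z‖ * det2 (D.T t) z = det2 ((‖z‖ : ℂ) * D.T t) z := by
        simp [det2]; ring
      rw [this, h2]
      have h5 : ‖z‖ * ‖z‖ = z.re * z.re + z.im * z.im := by
        have := Complex.normSq_eq_norm_sq z
        rw [Complex.normSq_apply] at this
        nlinarith
      rw [neg_mul, h5]
      simp [det2]
      ring
    have := mul_left_cancel₀ hz0'.ne' (h4.trans (by ring : -‖z‖ * ‖z‖ = ‖z‖ * (-‖z‖)))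
    exact this
  rw [det2_sub, h3] at h1
  have h6 := abs_det2_le (D.T t) (D.γ t)
  rw [D.T_norm, one_mul] at h6
  have h7 := (abs_le.1 h6).1
  have h8 := hB t
  linarith

lemma body_compact : IsCompact D.body := Metric.isCompact_of_isClosed_isBounded D.body_closed D.body_bdd

lemma γ_mem (s : ℝ) : D.γ s ∈ D.body := fun t => D.support_nonneg t s

lemma det2_T_IT (s : ℝ) (δ : ℝ) : det2 (D.T s) (-(δ : ℂ) * (Complex.I * D.T s)) = -δ := by
  have h1 := D.T_norm s
  have h2 : (D.T s).re * (D.T s).re + (D.T s).im * (D.T s).im = 1 := by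
    have := Complex.normSq_eq_norm_sq (D.T s)
    rw [Complex.normSq_apply, h1] at this
    simpa using this
  simp [det2]
  linear_combination (-δ) * h2

lemma boundary : frontier D.body = range D.γ := by
  rw [D.body_closed.frontier_eq]
  ext z
  constructor
  · rintro ⟨hz, hzi⟩
    -- some tangent line passes through z
    have hex : ∃ t, det2 (D.T t) (z - D.γ t) = 0 := by
      by_contra hcon
      push Not at hcon
      apply hzi
      set g : ℝ → ℝ := fun t => det2 (D.T t) (z - D.γ t) with hg
      have hgc : Continuous g := continuous_det2 D.T_cont (continuous_const.sub D.γ_cont)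
      obtain ⟨t0, ht0, hmin⟩ := (isCompact_Icc (a := (0 : ℝ)) (b := 1)).exists_isMinOn
        ⟨0, by simp⟩ hgc.continuousOn
      have hm : 0 < g t0 := lt_of_le_of_ne (hz t0) (hcon t0).symm
      rw [mem_interior_iff_mem_nhds, Metric.mem_nhds_iff]
      refine ⟨g t0, hm, ?_⟩
      intro w hw t
      rw [Metric.mem_ball, dist_eq_norm] at hw
      have h1 : g t0 ≤ g t := by
        have h2 : g t = g (Int.fract t) := by
          have e1 := D.γ_int (Int.fract t) ⌊t⌋
          have e2 := D.T_int (Int.fract t) ⌊t⌋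
          rw [Int.fract_add_floor] at e1 e2
          simp only [hg, e1, e2]
        rw [h2]
        exact hmin ⟨Int.fract_nonneg t, (Int.fract_lt_one t).le⟩
      have h3 : det2 (D.T t) (w - D.γ t) = g t + det2 (D.T t) (w - z) := by
        simp only [hg]
        rw [← det2_add]
        congr 1
        ring
      rw [h3]
      have h4 := abs_det2_le (D.T t) (w - z)
      rw [D.T_norm, one_mul] at h4
      have h5 := (abs_le.1 h4).1
      linarith
    obtain ⟨t, ht⟩ := hex
    refine ⟨t, ?_⟩
    have hder := hasDerivAt_det2 (D.T_der t) ((D.γ_der t).const_sub z)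
    have hmin : IsLocalMin (fun t => det2 (D.T t) (z - D.γ t)) t := by
      apply Filter.Eventually.of_forall
      intro s
      show det2 (D.T t) (z - D.γ t) ≤ det2 (D.T s) (z - D.γ s)
      rw [ht]
      exact hz s
    have h0 := hmin.hasDerivAt_eq_zero hder
    have h1 : det2 (D.T t) (-D.T t) = 0 := by simp [det2]; ring
    rw [h1, add_zero] at h0
    have h2 : det2 ((D.θ' t : ℂ) * Complex.I * D.T t) (z - D.γ t) =
        D.θ' t * det2 (Complex.I * D.T t) (z - D.γ t) := by
      simp [det2]; ring
    rw [h2] at h0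
    have h3 := (mul_eq_zero.1 h0).resolve_left (D.pos t).ne'
    rw [D.det2_IT, neg_eq_zero] at h3
    rw [det2_eq] at ht
    have h4 : starRingEnd ℂ (D.T t) * (z - D.γ t) = 0 := Complex.ext h3 ht
    have h5 : starRingEnd ℂ (D.T t) ≠ 0 := by
      intro h
      have := D.T_norm t
      rw [← RCLike.norm_conj, h, norm_zero] at this
      exact zero_ne_one this
    have h6 := (mul_eq_zero.1 h4).resolve_left h5
    exact (sub_eq_zero.1 h6).symm
  · rintro ⟨s, rfl⟩
    refine ⟨D.γ_mem s, ?_⟩
    intro hin
    rw [mem_interior_iff_mem_nhds, Metric.mem_nhds_iff] at hin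
    obtain ⟨ε, hε, hball⟩ := hin
    have h1 : D.γ s + -((ε / 2 : ℝ) : ℂ) * (Complex.I * D.T s) ∈ Metric.ball (D.γ s) ε := by
      rw [Metric.mem_ball, dist_eq_norm, add_sub_cancel_left, norm_mul, norm_neg, norm_mul,
        D.T_norm, Complex.norm_I, Complex.norm_real, Real.norm_eq_abs, abs_of_pos (by positivity)]
      linarith
    have h2 := hball h1 s
    rw [add_sub_cancel_left, D.det2_T_IT] at h2
    linarith

/-- the table -/
def table : Table where
  γ := D.γ
  smooth := D.γ_smooth
  per := D.γ_per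
  speed := fun q => by rw [D.deriv_γ]; exact D.T_norm q
  inj := by
    intro s hs t ht h
    by_contra hne
    rcases lt_or_gt_of_ne hne with hlt | hlt
    · have := D.support hlt (by linarith [hs.1, ht.2])
      rw [h, sub_self] at this
      simp [det2] at this
    · have := D.support hlt (by linarith [ht.1, hs.2])
      rw [h, sub_self] at this
      simp [det2] at this
  curv := fun q => by
    rw [D.deriv_γ, (D.T_der q).deriv]
    have h1 := D.T_norm q
    have h2 : (D.T q).re * (D.T q).re + (D.T q).im * (D.T q).im = 1 := by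
      have := Complex.normSq_eq_norm_sq (D.T q)
      rw [Complex.normSq_apply, h1] at this
      simpa using this
    have h3 : det2 (D.T q) (D.θ' q * Complex.I * D.T q) = D.θ' q := by
      simp [det2]
      linear_combination (D.θ' q) * h2
    rw [h3]
    exact D.pos q
  body := D.body
  convex := D.body_convex
  compact := D.body_compact
  boundary := D.boundary

end Dat

end MkTable

end MP43832
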