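import Pool.Agent.Lib.MP_43832e_gt.JSpec

set_option linter.all false

noncomputable section

namespace MP43832

open Set Filter Topology MeasureTheory
open scoped ContDiff

namespace RhoJB

lemma F_der {ρ : ℝ → ℝ} (hc : Continuous ρ) (y : ℝ) :
    HasDerivAt (fun y => ∫ u in (0 : ℝ)..y, ρ u) (ρ y) y :=
  intervalIntegral.integral_hasDerivAt_right (hc.intervalIntegrable 0 y)
    (hc.stronglyMeasurableAtFilter _ _) hc.continuousAt

end RhoJB

open RhoJB in
theorem specRho : SpecRho := by
  intro ρ hρ hpos hper hint hclose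
  have hc : Continuous ρ := hρ.continuous
  set F : ℝ → ℝ := fun y => ∫ u in (0 : ℝ)..y, ρ u with hF
  have hFd : ∀ y, HasDerivAt F (ρ y) y := F_der hc
  have hFs : ContDiff ℝ ∞ F := by
    rw [contDiff_infty_iff_deriv]
    refine ⟨fun t => (hFd t).differentiableAt, ?_⟩
    have : deriv F = ρ := by funext y; exact (hFd y).deriv
    rw [this]
    exact hρ
  have hmono : StrictMono F := by
    apply strictMono_of_deriv_pos
    intro y
    rw [(hFd y).deriv]
    exact hpos y
  have hFper : ∀ y, F (y + 2 * Real.pi) = F y + 1 := by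
    intro y
    simp only [hF]
    rw [← intervalIntegral.integral_add_adjacent_intervals (hc.intervalIntegrable 0 y)
      (hc.intervalIntegrable y (y + 2 * Real.pi))]
    have hp : Function.Periodic ρ (2 * Real.pi) := hper
    have h1 := hp.intervalIntegral_add_eq y 0
    rw [zero_add] at h1
    rw [h1, hint]
  have hF0 : F 0 = 0 := by simp [hF]
  have hFnat : ∀ k : ℕ, F (k * (2 * Real.pi)) = k := by
    intro k
    induction k with
    | zero => simp [hF0]
    | succ k ih =>
      push_cast
      rw [add_mul, one_mul, hFper, ih]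
  have hFnat' : ∀ k : ℕ, F (-(k * (2 * Real.pi))) = -k := by
    intro k
    induction k with
    | zero => simp [hF0]
    | succ k ih =>
      have := hFper (-(((k + 1 : ℕ) : ℝ) * (2 * Real.pi)))
      have e : -(((k + 1 : ℕ) : ℝ) * (2 * Real.pi)) + 2 * Real.pi = -(k * (2 * Real.pi)) := by
        push_cast; ring
      rw [e, ih] at this
      push_cast at this ⊢
      linarith
  have hsurj : Function.Surjective F := by
    apply hFs.continuous.surjective
    · apply hmono.monotone.tendsto_atTop_atTop
      intro b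
      refine ⟨⌈b⌉₊ * (2 * Real.pi), ?_⟩
      rw [hFnat]
      exact Nat.le_ceil b
    · apply hmono.monotone.tendsto_atBot_atBot
      intro b
      refine ⟨-(⌈-b⌉₊ * (2 * Real.pi)), ?_⟩
      rw [hFnat']
      have := Nat.le_ceil (-b)
      linarith
  set E : ℝ ≃o ℝ := StrictMono.orderIsoOfSurjective F hmono hsurj with hE
  set H : ℝ ≃ₜ ℝ := E.toHomeomorph with hH
  have hEF : ∀ y, H y = F y := fun y => rfl
  set θ : ℝ → ℝ := ⇑H.symm with hθ
  have hFθ : ∀ s, F (θ s) = s := fun s => H.apply_symm_apply s
  have hθF : ∀ y, θ (F y) = y := fun y => H.symm_apply_apply y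
  have hθs : ContDiff ℝ ∞ θ :=
    Homeomorph.contDiff_symm_deriv H (f' := ρ) (fun y => (hpos y).ne') hFd hFs
  have hθper : ∀ s, θ (s + 1) = θ s + 2 * Real.pi := by
    intro s
    apply hmono.injective
    rw [hFθ, hFper, hFθ]
  have hclose' : ∫ u in (0 : ℝ)..1, Complex.exp (θ u * Complex.I) = 0 := by
    have h1 := intervalIntegral.integral_comp_smul_deriv (a := 0) (b := 2 * Real.pi) (f := F)
      (f' := ρ) (g := fun u => Complex.exp (θ u * Complex.I)) (fun x _ => hFd x) hc.continuousOn
      (by
        have := hθs.continuous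
        fun_prop)
    have h2 : F (2 * Real.pi) = 1 := by
      have := hFper 0
      rw [zero_add, hF0, zero_add] at this
      exact this
    rw [hF0, h2] at h1
    rw [← h1, ← hclose]
    apply intervalIntegral.integral_congr
    intro y _
    simp only [Function.comp, hθF]
    rw [Complex.real_smul]
  refine ⟨⟨θ, fun s => (ρ (θ s))⁻¹, hθs, ?_, fun s => inv_pos.2 (hpos _), hθper, ?_, hclose', 0⟩, ?_⟩
  · intro s
    exact HasDerivAt.of_local_left_inverse hθs.continuous.continuousAt (hFd (θ s)) (hpos _).ne'
      (Eventually.of_forall hFθ)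
  · intro y
    exact ⟨F y, hθF y⟩
  · exact hFθ

end MP43832
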