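import Pool.Agent.Lib.MP_43832e_gt.Defs

set_option linter.all false

/-!
# Hofer distance between billiard ball maps: statements of the modules
-/

noncomputable section

namespace MP43832

open Set Filter Topology MeasureTheory
open scoped ContDiff

/-! ## The variational part -/

/-- A: a bounded continuous perturbation of the identity of `ℝ^N` has a zero (Brouwer) -/
def SpecBrouwer : Prop :=
  ∀ (N : ℕ) (β : EuclideanSpace ℝ (Fin N) → EuclideanSpace ℝ (Fin N)), Continuous β →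
    (∃ R : ℝ, ∀ y, ‖β y‖ ≤ R) → ∃ y, y + β y = 0

/-- B: the saddle point lemma. `S (y, p) = ⟪p, y⟫ + b (y, p)` -/
def SpecSaddle : Prop :=
  ∀ (N : ℕ) (b : EuclideanSpace ℝ (Fin N) × EuclideanSpace ℝ (Fin N) → ℝ)
    (g₁ g₂ : EuclideanSpace ℝ (Fin N) × EuclideanSpace ℝ (Fin N) → EuclideanSpace ℝ (Fin N))
    (C ℓ : ℝ),
    (∀ z v, HasDerivAt (fun t : ℝ => b (z + t • v)) (inner ℝ (g₁ z) v.1 + inner ℝ (g₂ z) v.2) 0) →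
    (∀ z, ‖g₁ z‖ ≤ C ∧ ‖g₂ z‖ ≤ C) →
    (∀ z z', ‖g₁ z - g₁ z'‖ ≤ ℓ * (‖z.1 - z'.1‖ + ‖z.2 - z'.2‖) ∧
      ‖g₂ z - g₂ z'‖ ≤ ℓ * (‖z.1 - z'.1‖ + ‖z.2 - z'.2‖)) →
    ∀ (P : EuclideanSpace ℝ (Fin N) → EuclideanSpace ℝ (Fin N)) (c R : ℝ), Continuous P →
      (∀ y, ‖P y‖ ≤ R) → (∀ y, inner ℝ (P y) y + b (y, P y) ≤ c) →
      ∃ z, z.2 + g₁ z = 0 ∧ z.1 + g₂ z = 0 ∧ inner ℝ z.2 z.1 + b z ≤ c

/-- a function on the plane with gradient `(hq, hp)`, bounded by `C` and `ℓ`-Lipschitz -/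
structure Nice (h hq hp : ℝ × ℝ → ℝ) (C ℓ : ℝ) : Prop where
  der : ∀ z, HasFDerivAt h (hq z • ContinuousLinearMap.fst ℝ ℝ ℝ +
    hp z • ContinuousLinearMap.snd ℝ ℝ ℝ) z
  bdd : ∀ z, |hq z| ≤ C ∧ |hp z| ≤ C
  lip : ∀ z z', |hq z - hq z'| ≤ ℓ * (|z.1 - z'.1| + |z.2 - z'.2|) ∧
    |hp z - hp z'| ≤ ℓ * (|z.1 - z'.1| + |z.2 - z'.2|)

/-- C: discrete trajectories (symplectic Euler scheme) from the graph of `f'` to the fibre over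
`Q₀`, with a bound of the action -/
def SpecDiscrete : Prop :=
  ∀ (N : ℕ) (h hq hp : ℕ → ℝ × ℝ → ℝ) (C ℓ : ℝ), (∀ j, Nice (h j) (hq j) (hp j) C ℓ) →
    ∀ (f f' : ℝ → ℝ), (∀ x, HasDerivAt f (f' x) x) → (∀ x, |f' x| ≤ C) →
    (∀ x y, |f' x - f' y| ≤ ℓ * |x - y|) → ∀ (Q₀ : ℝ) (m : ℕ → ℝ), (∀ j z, -h j z ≤ m j) →
    ∃ x p : ℕ → ℝ, x N = Q₀ ∧ p 0 = f' (x 0) ∧
      (∀ j < N, x (j + 1) = x j + hp j (x j, p (j + 1)) ∧
        p (j + 1) = p j - hq j (x j, p (j + 1))) ∧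
      f (x 0) + ∑ j ∈ Finset.range N, (p (j + 1) * (x (j + 1) - x j) - h j (x j, p (j + 1))) ≤
        f Q₀ + ∑ j ∈ Finset.range N, m j

/-- D (CORE): trajectories from the graph of `f'` to (almost) the fibre over `Q₀`, with a bound
of the action.  `Z s x` is the trajectory starting at `(x, f' x)`. -/
def SpecCore : Prop :=
  ∀ (H Hq Hp : ℝ → ℝ × ℝ → ℝ) (C ℓ : ℝ), (∀ s ∈ Icc (0 : ℝ) 1, Nice (H s) (Hq s) (Hp s) C ℓ) →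
    ContinuousOn (fun x : ℝ × (ℝ × ℝ) => H x.1 x.2) (Icc 0 1 ×ˢ univ) →
    ContinuousOn (fun x : ℝ × (ℝ × ℝ) => Hq x.1 x.2) (Icc 0 1 ×ˢ univ) →
    ContinuousOn (fun x : ℝ × (ℝ × ℝ) => Hp x.1 x.2) (Icc 0 1 ×ˢ univ) →
    ∀ (f f' : ℝ → ℝ), (∀ x, HasDerivAt f (f' x) x) → (∀ x, |f' x| ≤ C) →
    (∀ x y, |f' x - f' y| ≤ ℓ * |x - y|) →
    ∀ (Q₀ : ℝ) (M : ℝ → ℝ), ContinuousOn M (Icc 0 1) → (∀ s ∈ Icc (0 : ℝ) 1, ∀ z, -H s z ≤ M s) →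
    ∀ Z : ℝ → ℝ → ℝ × ℝ, (∀ x, Z 0 x = (x, f' x)) →
      (∀ s ∈ Icc (0 : ℝ) 1, ∀ x, HasDerivWithinAt (fun t => Z t x)
        (Hp s (Z s x), -Hq s (Z s x)) (Icc 0 1) s) →
      ∀ ε : ℝ, 0 < ε → ∃ x : ℝ, |(Z 1 x).1 - Q₀| ≤ ε ∧
        f x + (∫ s in (0 : ℝ)..1, ((Z s x).2 * Hp s (Z s x) - H s (Z s x))) ≤
          f Q₀ + (∫ s in (0 : ℝ)..1, M s) + ε

/-! ## Geometry of a table -/

/-- the pairs `(q, Q)` with `q < Q < q + 1` -/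
def Tri : Set (ℝ × ℝ) := {x | x.1 < x.2 ∧ x.2 < x.1 + 1}

/-- the mixed second derivative of the chord length -/
def kk (α : Table) (q Q : ℝ) : ℝ :=
  det2 (deriv α.γ q) (dir α q Q) * det2 (dir α q Q) (deriv α.γ Q) / len α q Q

/-- the properties of the chord length -/
structure Geo (α : Table) : Prop where
  pos : ∀ q Q, q < Q → Q < q + 1 → 0 < len α q Q
  le_left : ∀ q Q, q ≤ Q → len α q Q ≤ Q - q
  le_right : ∀ q Q, Q ≤ q + 1 → len α q Q ≤ q + 1 - Q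
  smooth_len : ContDiffOn ℝ ∞ (fun x : ℝ × ℝ => len α x.1 x.2) Tri
  smooth_pp : ContDiffOn ℝ ∞ (fun x : ℝ × ℝ => pp α x.1 x.2) Tri
  smooth_PP : ContDiffOn ℝ ∞ (fun x : ℝ × ℝ => PP α x.1 x.2) Tri
  der : ∀ q Q, q < Q → Q < q + 1 → HasFDerivAt (fun x : ℝ × ℝ => len α x.1 x.2)
    ((-pp α q Q) • ContinuousLinearMap.fst ℝ ℝ ℝ + PP α q Q • ContinuousLinearMap.snd ℝ ℝ ℝ) (q, Q)
  kk_pos : ∀ q Q, q < Q → Q < q + 1 → 0 < kk α q Q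
  der_pp : ∀ q Q, q < Q → Q < q + 1 → HasDerivAt (fun Q => pp α q Q) (-kk α q Q) Q
  der_PP : ∀ q Q, q < Q → Q < q + 1 → HasDerivAt (fun q => PP α q Q) (kk α q Q) q
  abs_pp : ∀ q Q, q < Q → Q < q + 1 → |pp α q Q| < 1
  abs_PP : ∀ q Q, q < Q → Q < q + 1 → |PP α q Q| < 1
  near_left : ∀ ε : ℝ, 0 < ε → ∃ δ : ℝ, 0 < δ ∧ ∀ q Q, q < Q → Q < q + 1 → Q < q + δ →
    1 - ε < pp α q Q ∧ 1 - ε < PP α q Q
  near_right : ∀ ε : ℝ, 0 < ε → ∃ δ : ℝ, 0 < δ ∧ ∀ q Q, q < Q → Q < q + 1 → q + 1 - δ < Q →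
    pp α q Q < -1 + ε ∧ PP α q Q < -1 + ε
  len_per : ∀ q Q, len α (q + 1) (Q + 1) = len α q Q
  len_per' : ∀ q Q, len α q (Q + 1) = len α q Q
  pp_per : ∀ q Q, pp α (q + 1) (Q + 1) = pp α q Q
  PP_per : ∀ q Q, PP α (q + 1) (Q + 1) = PP α q Q
  pp_per' : ∀ q Q, pp α q (Q + 1) = pp α q Q
  PP_per' : ∀ q Q, PP α q (Q + 1) = PP α q Q

/-- F -/
def SpecGeo : Prop := ∀ α : Table, Geo α

/-! ## The two bounds -/

/-- G: the upper bound -/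
def SpecUpper : Prop :=
  ∀ α β : Table, ∃ P : HamPath α β, P.Cont ∧ P.length ≤ ENNReal.ofReal (osc α.γ β.γ)

/-- E: the lower bound -/
def SpecLower : Prop :=
  ∀ (α β : Table) (P : HamPath α β), ENNReal.ofReal (osc α.γ β.γ) ≤ P.length

/-! ## Semi-algebraic sets -/

/-- T: the theorem of Tarski and Seidenberg -/
def SpecTS : Prop :=
  ∀ (ι : Type) [Fintype ι] (s : Set (Option ι → ℝ)), SemiAlg s →
    SemiAlg {x : ι → ℝ | ∃ t : ℝ, (fun o : Option ι => o.elim t x) ∈ s}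

/-! ## Marked polygons -/

/-- J: marked polygons are limits of marked tables -/
def SpecApprox : Prop :=
  ∀ (n : ℕ) [NeZero n], 3 ≤ n → ∀ x : Coord n → ℝ, IsMP x → ∃ c : ℝ → ℂ, IsArc x c ∧
    ∃ α : ℕ → Table, TendstoUniformly (fun i => (α i).γ) c atTop

/-- U: the arc length parametrisation is unique -/
def SpecUniq : Prop :=
  ∀ (n : ℕ) [NeZero n], 3 ≤ n → ∀ (x : Coord n → ℝ) (c c' : ℝ → ℂ), IsMP x → IsArc x c →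
    IsArc x c' → c = c'

/-- H: the oscillation is continuous -/
def SpecLimit : Prop :=
  ∀ (n m : ℕ) [NeZero n] [NeZero m] (x : Coord n → ℝ) (y : Coord m → ℝ) (c d : ℝ → ℂ),
    3 ≤ n → 3 ≤ m → IsMP x → IsMP y → IsArc x c → IsArc y d → ∀ α β : ℕ → Table,
    TendstoUniformly (fun i => (α i).γ) c atTop → TendstoUniformly (fun i => (β i).γ) d atTop →
    Tendsto (fun i => osc (α i).γ (β i).γ) atTop (𝓝 (osc c d))

/-- I: the oscillation is a semi-algebraic function of the marked polygons -/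
def SpecGraph : Prop :=
  ∀ (n m : ℕ) [NeZero n] [NeZero m], 3 ≤ n → 3 ≤ m →
    SemiAlg {z : (Coord n ⊕ Coord m) ⊕ Unit → ℝ |
      IsMP (fun i => z (Sum.inl (Sum.inl i))) ∧ IsMP (fun i => z (Sum.inl (Sum.inr i))) ∧
      ∃ c d : ℝ → ℂ, IsArc (fun i => z (Sum.inl (Sum.inl i))) c ∧
        IsArc (fun i => z (Sum.inl (Sum.inr i))) d ∧ z (Sum.inr ()) = osc c d}

end MP43832
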