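import Pool.Agent.Lib.MP_43832e_gt.Spec

set_option linter.all false

noncomputable section

namespace MP43832.T

open Set Filter Topology Polynomial

/-! ### Moving one point -/

/-- the piecewise linear map moving `u` to `v` -/
def bumpFn (c u v d t : ℝ) : ℝ :=
  if t ≤ c then t else if t ≤ u then c + (v - c) / (u - c) * (t - c)
    else if t ≤ d then d - (d - v) / (d - u) * (d - t) else t

lemma bump {c u v d : ℝ} (hcu : c < u) (hud : u < d) (hcv : c < v) (hvd : v < d) :
    ∃ g : ℝ ≃o ℝ, g u = v ∧ ∀ t, (t ≤ c ∨ d ≤ t) → g t = t := by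
  have e1 : 0 < (v - c) / (u - c) := div_pos (by linarith) (by linarith)
  have e2 : 0 < (d - v) / (d - u) := div_pos (by linarith) (by linarith)
  have e3 : (v - c) / (u - c) * (u - c) = v - c := div_mul_cancel₀ _ (by linarith)
  have e4 : (d - v) / (d - u) * (d - u) = d - v := div_mul_cancel₀ _ (by linarith)
  have hmono : StrictMono (bumpFn c u v d) := by
    intro s t hst
    unfold bumpFn
    split_ifs <;> nlinarith
  have hsurj : Function.Surjective (bumpFn c u v d) := by
    intro y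
    by_cases h1 : y ≤ c
    · exact ⟨y, by rw [bumpFn, if_pos h1]⟩
    by_cases h2 : y ≤ v
    · refine ⟨c + (y - c) / ((v - c) / (u - c)), ?_⟩
      have h3 : 0 < (y - c) / ((v - c) / (u - c)) := div_pos (by linarith) e1
      have h4 : (v - c) / (u - c) * ((y - c) / ((v - c) / (u - c))) = y - c :=
        mul_div_cancel₀ _ e1.ne'
      have h5 : (y - c) / ((v - c) / (u - c)) ≤ u - c := by
        rw [div_le_iff₀ e1]
        linarith
      rw [bumpFn, if_neg (by linarith), if_pos (by linarith)]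
      rw [add_sub_cancel_left, h4]
      ring
    by_cases h3 : y ≤ d
    · refine ⟨d - (d - y) / ((d - v) / (d - u)), ?_⟩
      have h4 : 0 ≤ (d - y) / ((d - v) / (d - u)) := div_nonneg (by linarith) e2.le
      have h5 : (d - v) / (d - u) * ((d - y) / ((d - v) / (d - u))) = d - y :=
        mul_div_cancel₀ _ e2.ne'
      have h6 : (d - y) / ((d - v) / (d - u)) < d - u := by
        rw [div_lt_iff₀ e2]
        linarith
      rw [bumpFn, if_neg (by linarith), if_neg (by linarith), if_pos (by linarith)]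
      rw [sub_sub_cancel, h5]
      ring
    · exact ⟨y, by rw [bumpFn, if_neg (by linarith), if_neg (by linarith), if_neg h3]⟩
  refine ⟨hmono.orderIsoOfSurjective _ hsurj, ?_, ?_⟩
  · rw [StrictMono.coe_orderIsoOfSurjective, bumpFn, if_neg (by linarith), if_pos le_rfl, e3]
    ring
  · intro t ht
    rw [StrictMono.coe_orderIsoOfSurjective, bumpFn]
    rcases ht with ht | ht
    · rw [if_pos ht]
    · rw [if_neg (by linarith), if_neg (by linarith)]
      split_ifs with h
      · have : t = d := le_antisymm h ht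
        rw [this]; ring
      · rfl

/-! ### Order isomorphisms and signs of one function -/

/-- neighbours in a finite set -/
lemma neighbours (Z : Finset ℝ) {A B t : ℝ} (hA : A ∈ Z) (hB : B ∈ Z) (hBt : B < t) (htA : t < A)
    (htZ : t ∉ Z) : ∃ z₁ ∈ Z, ∃ z₂ ∈ Z, z₁ < t ∧ t < z₂ ∧ ∀ s ∈ Ioo z₁ z₂, s ∉ Z := by
  classical
  have h1 : (Z.filter (fun z => z < t)).Nonempty := ⟨B, by simp [hB, hBt]⟩
  have h2 : (Z.filter (fun z => t < z)).Nonempty := ⟨A, by simp [hA, htA]⟩
  have m1 := Finset.max'_mem _ h1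
  have m2 := Finset.min'_mem _ h2
  rw [Finset.mem_filter] at m1 m2
  refine ⟨_, m1.1, _, m2.1, m1.2, m2.2, ?_⟩
  intro s hs hsZ
  rcases lt_trichotomy s t with h | h | h
  · exact absurd (Finset.le_max' _ s (by simp [hsZ, h])) (not_le.2 hs.1)
  · exact htZ (h ▸ hsZ)
  · exact absurd (Finset.min'_le _ s (by simp [hsZ, h])) (not_le.2 hs.2)

/-- The hypotheses of the main step: `P`, `Q` are two differentiable functions, `h` is an order
isomorphism which preserves the sign of the derivative; `Z` is a finite set which contains the zeros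
of the derivative of `P`, and the signs of `P` and `Q` agree on `Z`. -/
structure Data (P Q dP dQ : ℝ → ℝ) (Z : Finset ℝ) (A B : ℝ) (h : ℝ ≃o ℝ) : Prop where
  derP : ∀ t, HasDerivAt P (dP t) t
  derQ : ∀ t, HasDerivAt Q (dQ t) t
  contP : Continuous dP
  onZ : ∀ z ∈ Z, SignType.sign (P z) = SignType.sign (Q (h z))
  der : ∀ t, SignType.sign (dP t) = SignType.sign (dQ (h t))
  zer : ∀ t, dP t = 0 → t ∈ Z
  memA : A ∈ Z
  memB : B ∈ Z
  neA : ∀ t, A ≤ t → P t ≠ 0
  neB : ∀ t, t ≤ B → P t ≠ 0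
  sgnA : ∀ t s, A ≤ t → h A ≤ s → SignType.sign (P t) = SignType.sign (Q s)
  sgnB : ∀ t s, t ≤ B → s ≤ h B → SignType.sign (P t) = SignType.sign (Q s)

variable {P Q dP dQ : ℝ → ℝ} {Z : Finset ℝ} {A B : ℝ} {h : ℝ ≃o ℝ}

lemma Data.neg (D : Data P Q dP dQ Z A B h) :
    Data (fun t => -P t) (fun t => -Q t) (fun t => -dP t) (fun t => -dQ t) Z A B h where
  derP t := (D.derP t).neg
  derQ t := (D.derQ t).neg
  contP := D.contP.neg
  onZ z hz := by rw [Left.sign_neg, Left.sign_neg, D.onZ z hz]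
  der t := by rw [Left.sign_neg, Left.sign_neg, D.der t]
  zer t ht := D.zer t (neg_eq_zero.1 ht)
  memA := D.memA
  memB := D.memB
  neA t ht h0 := D.neA t ht (neg_eq_zero.1 h0)
  neB t ht h0 := D.neB t ht (neg_eq_zero.1 h0)
  sgnA t s ht hs := by rw [Left.sign_neg, Left.sign_neg, D.sgnA t s ht hs]
  sgnB t s ht hs := by rw [Left.sign_neg, Left.sign_neg, D.sgnB t s ht hs]

/-- on an interval without points of `Z` the functions are strictly monotone -/
lemma Data.mono (D : Data P Q dP dQ Z A B h) {z₁ z₂ t : ℝ} (h1 : z₁ < t) (h2 : t < z₂)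
    (hZ : ∀ s ∈ Ioo z₁ z₂, s ∉ Z) (ht : 0 < dP t) :
    StrictMonoOn P (Icc z₁ z₂) ∧ StrictMonoOn Q (Icc (h z₁) (h z₂)) := by
  have hpos : ∀ s ∈ Ioo z₁ z₂, 0 < dP s := by
    intro s hs
    by_contra hneg
    rw [not_lt] at hneg
    have hne : dP s ≠ 0 := fun h0 => hZ s hs (D.zer s h0)
    have hlt : dP s < 0 := lt_of_le_of_ne hneg hne
    have h0 : (0 : ℝ) ∈ uIcc (dP s) (dP t) := by
      rw [uIcc_of_le (by linarith)]
      exact ⟨hlt.le, ht.le⟩
    obtain ⟨r, hr, hr0⟩ := intermediate_value_uIcc (D.contP.continuousOn (s := uIcc s t)) h0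
    have : r ∈ Ioo z₁ z₂ := by
      have := (ordConnected_Ioo (a := z₁) (b := z₂)).uIcc_subset hs ⟨h1, h2⟩ hr
      exact this
    exact hZ r this (D.zer r hr0)
  constructor
  · refine strictMonoOn_of_deriv_pos (convex_Icc _ _)
      (fun s _ => (D.derP s).continuousAt.continuousWithinAt) ?_
    intro s hs
    rw [interior_Icc] at hs
    rw [(D.derP s).deriv]
    exact hpos s hs
  · refine strictMonoOn_of_deriv_pos (convex_Icc _ _)
      (fun s _ => (D.derQ s).continuousAt.continuousWithinAt) ?_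
    intro s hs
    rw [interior_Icc] at hs
    rw [(D.derQ s).deriv]
    obtain ⟨r, rfl⟩ := h.surjective s
    have hr : r ∈ Ioo z₁ z₂ := ⟨h.lt_iff_lt.1 hs.1, h.lt_iff_lt.1 hs.2⟩
    have := D.der r
    rw [sign_pos (hpos r hr)] at this
    exact sign_eq_one_iff.1 this.symm

lemma Data.sign_eq_pos (D : Data P Q dP dQ Z A B h) {h' : ℝ ≃o ℝ} (hZ : ∀ z ∈ Z, h' z = h z)
    (h0 : ∀ t, P t = 0 → Q (h' t) = 0) {z₁ z₂ t : ℝ} (hz₁ : z₁ ∈ Z) (hz₂ : z₂ ∈ Z)
    (h1 : z₁ < t) (h2 : t < z₂) (hno : ∀ s ∈ Ioo z₁ z₂, s ∉ Z) (ht : 0 < dP t) :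
    SignType.sign (P t) = SignType.sign (Q (h' t)) := by
  obtain ⟨mP, mQ⟩ := D.mono h1 h2 hno ht
  have cP : Continuous P := continuous_iff_continuousAt.2 (fun s => (D.derP s).continuousAt)
  have hz1 : h' z₁ = h z₁ := hZ _ hz₁
  have hz2 : h' z₂ = h z₂ := hZ _ hz₂
  have k1 : h z₁ < h' t := by rw [← hz1]; exact h'.lt_iff_lt.2 h1
  have k2 : h' t < h z₂ := by rw [← hz2]; exact h'.lt_iff_lt.2 h2
  rcases lt_trichotomy (P t) 0 with hP | hP | hP
  · rw [sign_neg hP, eq_comm, sign_eq_neg_one_iff]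
    by_contra hneg
    rw [not_lt] at hneg
    have e1 : Q (h' t) < Q (h z₂) := mQ ⟨k1.le, k2.le⟩ ⟨(k1.trans k2).le, le_rfl⟩ k2
    have e2 : 0 < Q (h z₂) := by linarith
    have e3 : 0 < P z₂ := by
      have := D.onZ z₂ hz₂
      rw [sign_pos e2] at this
      exact sign_eq_one_iff.1 this
    obtain ⟨p, hp, hp0⟩ := intermediate_value_Icc h2.le cP.continuousOn
      (show (0 : ℝ) ∈ Icc (P t) (P z₂) from ⟨hP.le, e3.le⟩)
    have hp1 : t < p := lt_of_le_of_ne hp.1 (by rintro rfl; linarith)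
    have hp2 : p < z₂ := lt_of_le_of_ne hp.2 (by rintro rfl; linarith)
    have e4 := h0 p hp0
    have e5 : Q (h' t) < Q (h' p) := by
      refine mQ ⟨k1.le, k2.le⟩ ⟨?_, ?_⟩ (h'.lt_iff_lt.2 hp1)
      · exact (k1.trans (h'.lt_iff_lt.2 hp1)).le
      · rw [← hz2]; exact (h'.lt_iff_lt.2 hp2).le
    linarith
  · rw [hP, h0 t hP]
  · rw [sign_pos hP, eq_comm, sign_eq_one_iff]
    by_contra hneg
    rw [not_lt] at hneg
    have e1 : Q (h z₁) < Q (h' t) := mQ ⟨le_rfl, (k1.trans k2).le⟩ ⟨k1.le, k2.le⟩ k1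
    have e2 : Q (h z₁) < 0 := by linarith
    have e3 : P z₁ < 0 := by
      have := D.onZ z₁ hz₁
      rw [sign_neg e2] at this
      exact sign_eq_neg_one_iff.1 this
    obtain ⟨p, hp, hp0⟩ := intermediate_value_Icc h1.le cP.continuousOn
      (show (0 : ℝ) ∈ Icc (P z₁) (P t) from ⟨e3.le, hP.le⟩)
    have hp1 : z₁ < p := lt_of_le_of_ne hp.1 (by rintro rfl; linarith)
    have hp2 : p < t := lt_of_le_of_ne hp.2 (by rintro rfl; linarith)
    have e4 := h0 p hp0
    have e5 : Q (h' p) < Q (h' t) := by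
      refine mQ ⟨?_, ?_⟩ ⟨k1.le, k2.le⟩ (h'.lt_iff_lt.2 hp2)
      · rw [← hz1]; exact (h'.lt_iff_lt.2 hp1).le
      · exact ((h'.lt_iff_lt.2 hp2).trans k2).le
    linarith

lemma Data.sign_eq (D : Data P Q dP dQ Z A B h) {h' : ℝ ≃o ℝ} (hZ : ∀ z ∈ Z, h' z = h z)
    (h0 : ∀ t, P t = 0 → Q (h' t) = 0) (t : ℝ) :
    SignType.sign (P t) = SignType.sign (Q (h' t)) := by
  by_cases htZ : t ∈ Z
  · rw [hZ t htZ, D.onZ t htZ]
  by_cases htA : A ≤ t
  · exact D.sgnA t _ htA (by rw [← hZ A D.memA]; exact h'.le_iff_le.2 htA)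
  by_cases htB : t ≤ B
  · exact D.sgnB t _ htB (by rw [← hZ B D.memB]; exact h'.le_iff_le.2 htB)
  rw [not_le] at htA htB
  obtain ⟨z₁, hz₁, z₂, hz₂, h1, h2, hno⟩ := neighbours Z D.memA D.memB htB htA htZ
  rcases lt_trichotomy (dP t) 0 with hd | hd | hd
  · have := D.neg.sign_eq_pos hZ (fun t ht => neg_eq_zero.2 (h0 t (neg_eq_zero.1 ht))) hz₁ hz₂ h1 h2
      hno (by simpa using hd)
    rw [Left.sign_neg, Left.sign_neg] at this
    exact neg_injective this
  · exact absurd (D.zer t hd) htZ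
  · exact D.sign_eq_pos hZ h0 hz₁ hz₂ h1 h2 hno hd

/-- insertion of one zero of `P`: the case of an increasing function -/
lemma Data.insert_pos (D : Data P Q dP dQ Z A B h) {z₁ z₂ p : ℝ} (hz₁ : z₁ ∈ Z) (hz₂ : z₂ ∈ Z)
    (h1 : z₁ < p) (h2 : p < z₂) (hno : ∀ s ∈ Ioo z₁ z₂, s ∉ Z) (hp : P p = 0) (hd : 0 < dP p) :
    (∃ q, h z₁ < q ∧ q < h z₂ ∧ Q q = 0) ∧ ∀ p' ∈ Icc z₁ z₂, P p' = 0 → p' = p := by
  obtain ⟨mP, mQ⟩ := D.mono h1 h2 hno hd
  have cQ : Continuous Q := continuous_iff_continuousAt.2 (fun s => (D.derQ s).continuousAt)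
  have e1 : P z₁ < 0 := hp ▸ mP ⟨le_rfl, (h1.trans h2).le⟩ ⟨h1.le, h2.le⟩ h1
  have e2 : 0 < P z₂ := hp ▸ mP ⟨h1.le, h2.le⟩ ⟨(h1.trans h2).le, le_rfl⟩ h2
  have e3 : Q (h z₁) < 0 := by
    have := D.onZ z₁ hz₁
    rw [sign_neg e1] at this
    exact sign_eq_neg_one_iff.1 this.symm
  have e4 : 0 < Q (h z₂) := by
    have := D.onZ z₂ hz₂
    rw [sign_pos e2] at this
    exact sign_eq_one_iff.1 this.symm
  constructor
  · obtain ⟨q, hq, hq0⟩ := intermediate_value_Icc (h.le_iff_le.2 (h1.trans h2).le) cQ.continuousOn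
      (show (0 : ℝ) ∈ Icc (Q (h z₁)) (Q (h z₂)) from ⟨e3.le, e4.le⟩)
    refine ⟨q, lt_of_le_of_ne hq.1 ?_, lt_of_le_of_ne hq.2 ?_, hq0⟩
    · rintro rfl; linarith
    · rintro rfl; linarith
  · intro p' hp' h0
    exact mP.injOn hp' ⟨h1.le, h2.le⟩ (h0.trans hp.symm)

lemma Data.insert (D : Data P Q dP dQ Z A B h) {z₁ z₂ p : ℝ} (hz₁ : z₁ ∈ Z) (hz₂ : z₂ ∈ Z)
    (h1 : z₁ < p) (h2 : p < z₂) (hno : ∀ s ∈ Ioo z₁ z₂, s ∉ Z) (hp : P p = 0) :
    (∃ q, h z₁ < q ∧ q < h z₂ ∧ Q q = 0) ∧ ∀ p' ∈ Icc z₁ z₂, P p' = 0 → p' = p := by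
  rcases lt_trichotomy (dP p) 0 with hd | hd | hd
  · have := D.neg.insert_pos hz₁ hz₂ h1 h2 hno (by simpa using hp) (by simpa using hd)
    simpa using this
  · exact absurd (D.zer p hd) (hno p ⟨h1, h2⟩)
  · exact D.insert_pos hz₁ hz₂ h1 h2 hno hp hd

lemma Data.exists_iso (D : Data P Q dP dQ Z A B h) (T : Finset ℝ) :
    ∃ h' : ℝ ≃o ℝ, (∀ z ∈ Z, h' z = h z) ∧ ∀ t ∈ T, P t = 0 → Q (h' t) = 0 := by
  classical
  induction T using Finset.induction_on with
  | empty => exact ⟨h, fun _ _ => rfl, by simp⟩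
  | insert p T hpT ih =>
    obtain ⟨k, hk, hkT⟩ := ih
    by_cases hp : P p = 0
    · by_cases hpZ : p ∈ Z
      · refine ⟨k, hk, ?_⟩
        intro t ht ht0
        rw [Finset.mem_insert] at ht
        rcases ht with rfl | ht
        · rw [hk t hpZ]
          have := D.onZ t hpZ
          rw [ht0, sign_zero] at this
          exact sign_eq_zero_iff.1 this.symm
        · exact hkT t ht ht0
      · have hA : p < A := by
          by_contra hc
          exact D.neA p (not_lt.1 hc) hp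
        have hB : B < p := by
          by_contra hc
          exact D.neB p (not_lt.1 hc) hp
        obtain ⟨z₁, hz₁, z₂, hz₂, h1, h2, hno⟩ := neighbours Z D.memA D.memB hB hA hpZ
        obtain ⟨⟨q, hq1, hq2, hq0⟩, huniq⟩ := D.insert hz₁ hz₂ h1 h2 hno hp
        have hz1 : k z₁ = h z₁ := hk _ hz₁
        have hz2 : k z₂ = h z₂ := hk _ hz₂
        obtain ⟨g, hg1, hg2⟩ := bump (c := h z₁) (u := k p) (v := q) (d := h z₂)
          (by rw [← hz1]; exact k.lt_iff_lt.2 h1) (by rw [← hz2]; exact k.lt_iff_lt.2 h2) hq1 hq2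
        refine ⟨k.trans g, ?_, ?_⟩
        · intro z hz
          rw [OrderIso.trans_apply, hg2, hk z hz]
          by_contra hc
          rw [not_or, not_le, not_le, ← hz1, ← hz2] at hc
          exact hno z ⟨k.lt_iff_lt.1 hc.1, k.lt_iff_lt.1 hc.2⟩ hz
        · intro t ht ht0
          rw [Finset.mem_insert] at ht
          rw [OrderIso.trans_apply]
          by_cases htp : t = p
          · rw [htp, hg1, hq0]
          · have htT : t ∈ T := by
              rcases ht with h | h
              · exact absurd h htp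
              · exact h
            rw [hg2, hkT t htT ht0]
            by_contra hc
            rw [not_or, not_le, not_le, ← hz1, ← hz2] at hc
            exact htp (huniq t ⟨(k.lt_iff_lt.1 hc.1).le, (k.lt_iff_lt.1 hc.2).le⟩ ht0)
    · refine ⟨k, hk, ?_⟩
      intro t ht ht0
      rw [Finset.mem_insert] at ht
      rcases ht with rfl | ht
      · exact absurd ht0 hp
      · exact hkT t ht ht0

theorem Data.main (D : Data P Q dP dQ Z A B h) (hfin : {t | P t = 0}.Finite) :
    ∃ h' : ℝ ≃o ℝ, (∀ z ∈ Z, h' z = h z) ∧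
      ∀ t, SignType.sign (P t) = SignType.sign (Q (h' t)) := by
  obtain ⟨h', h1, h2⟩ := D.exists_iso hfin.toFinset
  exact ⟨h', h1, D.sign_eq h1 (fun t ht => h2 t (by simpa using ht) ht)⟩

/-! ### Polynomials -/

/-- signs of a polynomial near `+∞` -/
lemma sign_atTop (P : ℝ[X]) (hd : 0 < P.natDegree) :
    ∀ᶠ t in atTop, SignType.sign (P.eval t) = SignType.sign P.leadingCoeff := by
  have hd' : 0 < P.degree := natDegree_pos_iff_degree_pos.1 hd
  have hne : P.leadingCoeff ≠ 0 := by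
    rw [Ne, leadingCoeff_eq_zero]
    rintro rfl
    simp at hd
  rcases lt_or_gt_of_ne hne with h | h
  · have := P.tendsto_atBot_of_leadingCoeff_nonpos hd' h.le
    filter_upwards [this.eventually_lt_atBot 0] with t ht
    rw [sign_neg ht, sign_neg h]
  · have := P.tendsto_atTop_of_leadingCoeff_nonneg hd' h.le
    filter_upwards [this.eventually_gt_atTop 0] with t ht
    rw [sign_pos ht, sign_pos h]

/-- signs of a polynomial near `-∞` -/
lemma sign_atBot (P : ℝ[X]) (hd : 0 < P.natDegree) :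
    ∀ᶠ t in atBot, SignType.sign (P.eval t) =
      SignType.sign ((-1) ^ P.natDegree * P.leadingCoeff) := by
  have h1 : (P.comp (-X)).natDegree = P.natDegree := by
    rw [natDegree_comp, natDegree_neg, natDegree_X, mul_one]
  have h2 : (P.comp (-X)).leadingCoeff = (-1) ^ P.natDegree * P.leadingCoeff := by
    rw [leadingCoeff_comp (by rw [natDegree_neg, natDegree_X]; exact one_ne_zero),
      leadingCoeff_neg, leadingCoeff_X, mul_comm]
  have h3 := sign_atTop (P.comp (-X)) (by rw [h1]; exact hd)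
  rw [h2] at h3
  have h4 := tendsto_neg_atBot_atTop.eventually h3
  filter_upwards [h4] with t ht
  rw [← ht]
  simp

section Alg

variable {R : Type*} [CommRing R]

/-- the terms of degree at most `m` -/
def tr (m : ℕ) (g : R[X]) : R[X] := ∑ i ∈ Finset.range (m + 1), monomial i (g.coeff i)

lemma tr_coeff (m : ℕ) (g : R[X]) (i : ℕ) : (tr m g).coeff i = if i ≤ m then g.coeff i else 0 := by
  unfold tr
  rw [finset_sum_coeff]
  simp only [coeff_monomial]
  rw [Finset.sum_ite_eq' (Finset.range (m + 1)) i]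
  simp only [Finset.mem_range, Nat.lt_succ_iff]

lemma tr_natDegree (m : ℕ) (g : R[X]) (h : g.coeff m ≠ 0) : (tr m g).natDegree = m := by
  apply natDegree_eq_of_le_of_coeff_ne_zero
  · rw [natDegree_le_iff_coeff_eq_zero]
    intro i hi
    rw [tr_coeff, if_neg (by omega)]
  · rw [tr_coeff, if_pos le_rfl]; exact h

lemma pseudo (g : R[X]) (n : ℕ) : ∀ f : R[X], f.natDegree < n → 0 < g.natDegree →
    ∃ (k : ℕ) (q r : R[X]), C (g.leadingCoeff ^ k) * f = q * g + r ∧
      r.natDegree < g.natDegree := by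
  induction n with
  | zero => intro f hf; omega
  | succ n ih =>
    intro f hf hg
    by_cases hlt : f.natDegree < g.natDegree
    · exact ⟨0, 0, f, by simp, hlt⟩
    rw [not_lt] at hlt
    set f1 : R[X] := C g.leadingCoeff * f -
      C f.leadingCoeff * X ^ (f.natDegree - g.natDegree) * g with hf1
    have hdeg : f1.natDegree < f.natDegree := by
      have hle : f1.natDegree ≤ f.natDegree := by
        rw [hf1]
        refine (natDegree_sub_le _ _).trans (max_le (natDegree_C_mul_le g.leadingCoeff f) ?_)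
        refine natDegree_mul_le.trans ?_
        have := natDegree_C_mul_X_pow_le f.leadingCoeff (f.natDegree - g.natDegree)
        omega
      have hc : f1.coeff f.natDegree = 0 := by
        rw [hf1, coeff_sub, coeff_C_mul, mul_assoc, coeff_C_mul]
        have : f.natDegree = g.natDegree + (f.natDegree - g.natDegree) := by omega
        have h5 : (X ^ (f.natDegree - g.natDegree) * g).coeff f.natDegree = g.leadingCoeff := by
          have h6 := coeff_mul_X_pow g (f.natDegree - g.natDegree) g.natDegree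
          rw [← this, mul_comm] at h6
          exact h6
        rw [h5, show f.coeff f.natDegree = f.leadingCoeff from rfl]
        ring
      refine lt_of_le_of_ne hle ?_
      intro he
      have h0 : f1 = 0 := by
        rw [← leadingCoeff_eq_zero, leadingCoeff, he, hc]
      rw [h0, natDegree_zero] at he
      omega
    obtain ⟨k, q, r, h1, h2⟩ := ih f1 (by omega) hg
    refine ⟨k + 1, q + C (g.leadingCoeff ^ k) * (C f.leadingCoeff *
      X ^ (f.natDegree - g.natDegree)), r, ?_, h2⟩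
    rw [add_mul, add_right_comm, ← h1, hf1, pow_succ, C_mul]
    ring

lemma pseudo' (g f : R[X]) (hg : 0 < g.natDegree) :
    ∃ (k : ℕ) (q r : R[X]), C (g.leadingCoeff ^ (2 * k)) * f = q * g + r ∧
      r.natDegree < g.natDegree := by
  obtain ⟨k, q, r, h1, h2⟩ := pseudo g (f.natDegree + 1) f (Nat.lt_succ_self _) hg
  refine ⟨k, C (g.leadingCoeff ^ k) * q, C (g.leadingCoeff ^ k) * r, ?_,
    lt_of_le_of_lt (natDegree_C_mul_le _ _) h2⟩
  rw [two_mul, pow_add, C_mul, mul_assoc, h1]
  ring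

/-- the remainder of `f` by the terms of degree at most `m` of `g` -/
lemma exists_rem (g f : R[X]) (m : ℕ) : ∃ r : R[X], (0 < m → r.natDegree < m) ∧
    (0 < m → g.coeff m ≠ 0 → ∃ (k : ℕ) (q : R[X]),
      C (g.coeff m ^ (2 * k)) * f = q * tr m g + r) := by
  by_cases h : 0 < m ∧ g.coeff m ≠ 0
  · have h1 := tr_natDegree m g h.2
    obtain ⟨k, q, r, h2, h3⟩ := pseudo' (tr m g) f (by rw [h1]; exact h.1)
    rw [leadingCoeff, h1, tr_coeff, if_pos le_rfl] at h2
    rw [h1] at h3
    exact ⟨r, fun _ => h3, fun _ _ => ⟨k, q, h2⟩⟩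
  · refine ⟨0, fun hm => by simpa using hm, fun h1 h2 => absurd ⟨h1, h2⟩ h⟩

/-- the remainder -/
def rem (g f : R[X]) (m : ℕ) : R[X] := (exists_rem g f m).choose

lemma rem_natDegree (g f : R[X]) {m : ℕ} (hm : 0 < m) : (rem g f m).natDegree < m :=
  (exists_rem g f m).choose_spec.1 hm

lemma rem_spec (g f : R[X]) {m : ℕ} (hm : 0 < m) (h : g.coeff m ≠ 0) : ∃ (k : ℕ) (q : R[X]),
    C (g.coeff m ^ (2 * k)) * f = q * tr m g + rem g f m :=
  (exists_rem g f m).choose_spec.2 hm h

/-- the signs of the values at `x` of `F` under `φ` and at `y` under `ψ` agree -/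
def Same (F : Set R[X]) (φ ψ : R →+* ℝ) (x y : ℝ) : Prop :=
  ∀ f ∈ F, SignType.sign (eval₂ φ x f) = SignType.sign (eval₂ ψ y f)

/-- the property to be proved -/
def Good (F : Set R[X]) : Prop :=
  ∃ F₀ : Set R, F₀.Finite ∧ ∀ φ ψ : R →+* ℝ,
    (∀ a ∈ F₀, SignType.sign (φ a) = SignType.sign (ψ a)) →
    ∃ h : ℝ ≃o ℝ, ∀ t, Same F φ ψ t (h t)

lemma Good.mono {F G : Set R[X]} (h : F ⊆ G) (hG : Good G) : Good F := by
  obtain ⟨F₀, h1, h2⟩ := hG
  refine ⟨F₀, h1, fun φ ψ h3 => ?_⟩
  obtain ⟨k, hk⟩ := h2 φ ψ h3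
  exact ⟨k, fun t f hf => hk t f (h hf)⟩

lemma good_const {F : Set R[X]} (hF : F.Finite) (h : ∀ f ∈ F, f.natDegree < 1) : Good F := by
  refine ⟨(fun f : R[X] => f.coeff 0) '' F, hF.image _, fun φ ψ h1 => ?_⟩
  refine ⟨OrderIso.refl ℝ, fun t f hf => ?_⟩
  have h2 := h1 _ (mem_image_of_mem _ hf)
  have h3 : f = C (f.coeff 0) := eq_C_of_natDegree_eq_zero (by have := h f hf; omega)
  rw [h3, eval₂_C, eval₂_C]
  exact h2

/-- the new set -/
def nxt (L U : Set R[X]) (f : R[X]) : Set R[X] :=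
  L ∪ {derivative f, f.eraseLead, C f.leadingCoeff} ∪
    (⋃ g ∈ L ∪ U ∪ {derivative f}, ⋃ m ∈ Iic g.natDegree, {C (g.coeff m)}) ∪
    (⋃ g ∈ L ∪ U ∪ {derivative f}, ⋃ m ∈ Ioc 0 g.natDegree, {rem g f m})

lemma nxt_finite {L U : Set R[X]} (hL : L.Finite) (hU : U.Finite) (f : R[X]) :
    (nxt L U f).Finite := by
  unfold nxt
  have h1 : (L ∪ U ∪ {derivative f}).Finite := (hL.union hU).union (finite_singleton _)
  refine ((hL.union ?_).union ?_).union ?_
  · exact (finite_singleton _).insert _ |>.insert _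
  · exact h1.biUnion (fun g _ => (finite_Iic _).biUnion (fun m _ => finite_singleton _))
  · exact h1.biUnion (fun g _ => (finite_Ioc _ _).biUnion (fun m _ => finite_singleton _))

lemma nxt_natDegree {L U : Set R[X]} {d : ℕ} (hd : 1 ≤ d) (hL : ∀ f ∈ L, f.natDegree < d)
    (hU : ∀ f ∈ U, f.natDegree = d) {f : R[X]} (hf : f.natDegree = d) :
    ∀ g ∈ nxt L U f, g.natDegree < d := by
  have hder : (derivative f).natDegree < d := by
    rw [← hf]
    exact natDegree_derivative_lt (by omega)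
  have hall : ∀ g ∈ L ∪ U ∪ {derivative f}, g.natDegree ≤ d := by
    rintro g ((hg | hg) | hg)
    · exact (hL g hg).le
    · exact (hU g hg).le
    · rw [mem_singleton_iff] at hg; rw [hg]; exact hder.le
  rintro g (((hg | hg) | hg) | hg)
  · exact hL g hg
  · rw [mem_insert_iff, mem_insert_iff, mem_singleton_iff] at hg
    rcases hg with rfl | rfl | rfl
    · exact hder
    · have := f.eraseLead_natDegree_le
      omega
    · rw [natDegree_C]; omega
  · simp only [mem_iUnion, mem_singleton_iff] at hg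
    obtain ⟨g', -, m, -, rfl⟩ := hg
    rw [natDegree_C]; omega
  · simp only [mem_iUnion, mem_singleton_iff, mem_Ioc] at hg
    obtain ⟨g', hg', m, hm, rfl⟩ := hg
    have := rem_natDegree g' f hm.1
    have := hall g' hg'
    omega

end Alg

section Step

variable {R : Type*} [CommRing R]

lemma hasDerivAt_eval₂ (φ : R →+* ℝ) (f : R[X]) (t : ℝ) :
    HasDerivAt (fun t => eval₂ φ t f) (eval₂ φ t (derivative f)) t := by
  simp only [eval₂_eq_eval_map, ← derivative_map]
  exact (f.map φ).hasDerivAt t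

lemma continuous_eval₂ (φ : R →+* ℝ) (f : R[X]) : Continuous (fun t => eval₂ φ t f) := by
  simp only [eval₂_eq_eval_map]
  exact (f.map φ).continuous

lemma eval₂_congr_coeff (φ : R →+* ℝ) (f g : R[X]) (h : ∀ i, φ (f.coeff i) = φ (g.coeff i))
    (t : ℝ) : eval₂ φ t f = eval₂ φ t g := by
  rw [eval₂_eq_eval_map, eval₂_eq_eval_map]
  congr 1
  ext i
  rw [coeff_map, coeff_map, h]

lemma eval₂_tr (φ : R →+* ℝ) (g : R[X]) (m : ℕ) (h : ∀ i, m < i → φ (g.coeff i) = 0) (t : ℝ) :
    eval₂ φ t (tr m g) = eval₂ φ t g := by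
  apply eval₂_congr_coeff
  intro i
  rw [tr_coeff]
  split_ifs with hi
  · rfl
  · rw [map_zero, h i (by omega)]

lemma eval₂_eraseLead (φ : R →+* ℝ) (f : R[X]) (h : φ f.leadingCoeff = 0) (t : ℝ) :
    eval₂ φ t f = eval₂ φ t f.eraseLead := by
  apply eval₂_congr_coeff
  intro i
  rw [eraseLead_coeff]
  split_ifs with hi
  · rw [map_zero, hi]; exact h
  · rfl

lemma sign_rem (φ : R →+* ℝ) (g f : R[X]) {m : ℕ} (hm : 0 < m) (h1 : φ (g.coeff m) ≠ 0)
    (h2 : ∀ i, m < i → φ (g.coeff i) = 0) {t : ℝ} (ht : eval₂ φ t g = 0) :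
    SignType.sign (eval₂ φ t f) = SignType.sign (eval₂ φ t (rem g f m)) := by
  have h3 : g.coeff m ≠ 0 := by
    intro h0
    exact h1 (by rw [h0, map_zero])
  obtain ⟨k, q, h4⟩ := rem_spec g f hm h3
  have h5 := congrArg (eval₂ φ t) h4
  rw [eval₂_mul, eval₂_C, eval₂_add, eval₂_mul, eval₂_tr φ g m h2, ht, mul_zero, zero_add,
    map_pow] at h5
  rw [← h5, sign_mul, pow_mul]
  have h6 : 0 < (φ (g.coeff m) ^ 2) ^ k := by positivity
  rw [sign_pos h6, one_mul]

lemma sign_eq_of_no_zero {F : ℝ → ℝ} (hF : Continuous F) {a b : ℝ}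
    (h : ∀ s ∈ uIcc a b, F s ≠ 0) : SignType.sign (F a) = SignType.sign (F b) := by
  have ha := h a left_mem_uIcc
  have hb := h b right_mem_uIcc
  by_contra hne
  have h0 : (0 : ℝ) ∈ uIcc (F a) (F b) := by
    rcases lt_or_gt_of_ne ha with h1 | h1 <;> rcases lt_or_gt_of_ne hb with h2 | h2
    · exact absurd (by rw [sign_neg h1, sign_neg h2]) hne
    · rw [uIcc_of_le (by linarith)]; exact ⟨h1.le, h2.le⟩
    · rw [uIcc_of_ge (by linarith)]; exact ⟨h2.le, h1.le⟩
    · exact absurd (by rw [sign_pos h1, sign_pos h2]) hne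
  obtain ⟨s, hs, hs0⟩ := intermediate_value_uIcc hF.continuousOn h0
  exact h s hs hs0

lemma zero_iff_of_sign {a b : ℝ} (h : SignType.sign a = SignType.sign b) : a = 0 ↔ b = 0 := by
  rw [← sign_eq_zero_iff, h, sign_eq_zero_iff]

/-- the roots of the polynomials of `G` which do not vanish under `φ` -/
def rts (φ : R →+* ℝ) (G : Set R[X]) : Set ℝ :=
  ⋃ g ∈ {g ∈ G | g.map φ ≠ 0}, {t | (g.map φ).eval t = 0}

lemma rts_finite (φ : R →+* ℝ) {G : Set R[X]} (hG : G.Finite) : (rts φ G).Finite := by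
  refine (hG.subset (sep_subset _ _)).biUnion ?_
  intro g hg
  exact (g.map φ).roots.toFinset.finite_toSet.subset (fun t ht => by
    rw [Finset.mem_coe, Multiset.mem_toFinset, mem_roots hg.2]
    exact ht)

lemma mem_rts (φ : R →+* ℝ) {G : Set R[X]} {g : R[X]} (hg : g ∈ G) (h : g.map φ ≠ 0) {t : ℝ}
    (ht : eval₂ φ t g = 0) : t ∈ rts φ G := by
  rw [rts, mem_iUnion₂]
  exact ⟨g, ⟨hg, h⟩, by rw [mem_setOf_eq, ← eval₂_eq_eval_map]; exact ht⟩

lemma good_step {L U : Set R[X]} (hL : L.Finite) (hU : U.Finite) {f : R[X]}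
    (hf : 1 ≤ f.natDegree) (hG : Good (nxt L U f ∪ U)) : Good (insert f (L ∪ U)) := by
  obtain ⟨F₀, hfin, H⟩ := hG
  refine ⟨F₀, hfin, fun φ ψ h₀ => ?_⟩
  obtain ⟨h, hh⟩ := H φ ψ h₀
  have hsub : ∀ g ∈ L ∪ U ∪ {derivative f}, g ∈ nxt L U f ∪ U := by
    rintro g ((hg | hg) | hg)
    · exact Or.inl (Or.inl (Or.inl (Or.inl hg)))
    · exact Or.inr hg
    · rw [mem_singleton_iff] at hg
      rw [hg]
      exact Or.inl (Or.inl (Or.inl (Or.inr (by simp))))
  have hval : ∀ g ∈ L ∪ U ∪ {derivative f}, ∀ t,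
      SignType.sign (eval₂ φ t g) = SignType.sign (eval₂ ψ (h t) g) :=
    fun g hg t => hh t g (hsub g hg)
  have hcoef : ∀ g ∈ L ∪ U ∪ {derivative f}, ∀ i,
      SignType.sign (φ (g.coeff i)) = SignType.sign (ψ (g.coeff i)) := by
    intro g hg i
    by_cases hi : i ≤ g.natDegree
    · have h1 : C (g.coeff i) ∈ nxt L U f ∪ U := by
        refine Or.inl (Or.inl (Or.inr ?_))
        simp only [mem_iUnion]
        exact ⟨g, hg, i, hi, rfl⟩
      have := hh 0 _ h1
      rw [eval₂_C, eval₂_C] at this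
      exact this
    · rw [coeff_eq_zero_of_natDegree_lt (not_le.1 hi), φ.map_zero, ψ.map_zero]
  have hlead : SignType.sign (φ f.leadingCoeff) = SignType.sign (ψ f.leadingCoeff) := by
    have h1 : C f.leadingCoeff ∈ nxt L U f ∪ U := Or.inl (Or.inl (Or.inl (Or.inr (by simp))))
    have := hh 0 _ h1
    rw [eval₂_C, eval₂_C] at this
    exact this
  by_cases hl : φ f.leadingCoeff = 0
  · have hl' : ψ f.leadingCoeff = 0 := (zero_iff_of_sign hlead).1 hl
    refine ⟨h, fun t g hg => ?_⟩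
    rw [mem_insert_iff] at hg
    rcases hg with rfl | hg
    · rw [eval₂_eraseLead φ _ hl, eval₂_eraseLead ψ _ hl']
      exact hh t _ (Or.inl (Or.inl (Or.inl (Or.inr (by simp)))))
    · exact hval g (Or.inl hg) t
  have hl' : ψ f.leadingCoeff ≠ 0 := fun h1 => hl ((zero_iff_of_sign hlead).2 h1)
  -- the polynomials
  have dP : (f.map φ).natDegree = f.natDegree := natDegree_map_of_leadingCoeff_ne_zero φ hl
  have dQ : (f.map ψ).natDegree = f.natDegree := natDegree_map_of_leadingCoeff_ne_zero ψ hl'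
  have lP : (f.map φ).leadingCoeff = φ f.leadingCoeff := leadingCoeff_map_of_leadingCoeff_ne_zero φ hl
  have lQ : (f.map ψ).leadingCoeff = ψ f.leadingCoeff := leadingCoeff_map_of_leadingCoeff_ne_zero ψ hl'
  have nP : f.map φ ≠ 0 := by
    intro h0
    rw [h0, natDegree_zero] at dP
    omega
  have hfinG : (L ∪ U ∪ {derivative f}).Finite := (hL.union hU).union (finite_singleton _)
  have hfinZ := rts_finite φ hfinG
  -- infinity
  obtain ⟨A₁, hA₁⟩ := eventually_atTop.1 (sign_atTop (f.map φ) (by rw [dP]; exact hf))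
  obtain ⟨A₂, hA₂⟩ := eventually_atTop.1 (sign_atTop (f.map ψ) (by rw [dQ]; exact hf))
  obtain ⟨B₁, hB₁⟩ := eventually_atBot.1 (sign_atBot (f.map φ) (by rw [dP]; exact hf))
  obtain ⟨B₂, hB₂⟩ := eventually_atBot.1 (sign_atBot (f.map ψ) (by rw [dQ]; exact hf))
  set A : ℝ := max A₁ (h.symm A₂) with hA
  set B : ℝ := min B₁ (h.symm B₂) with hB
  have hA₂' : A₂ ≤ h A := by
    rw [← h.symm_apply_le]; exact le_max_right _ _
  have hB₂' : h B ≤ B₂ := by
    rw [← h.le_symm_apply]; exact min_le_right _ _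
  classical
  set Z : Finset ℝ := insert A (insert B hfinZ.toFinset) with hZ
  have hmemZ : ∀ t ∈ rts φ (L ∪ U ∪ {derivative f}), t ∈ Z := by
    intro t ht
    rw [hZ, Finset.mem_insert, Finset.mem_insert, hfinZ.mem_toFinset]
    exact Or.inr (Or.inr ht)
  have sA : ∀ t s, A ≤ t → h A ≤ s →
      SignType.sign (eval₂ φ t f) = SignType.sign (eval₂ ψ s f) := by
    intro t s ht hs
    rw [eval₂_eq_eval_map, eval₂_eq_eval_map, hA₁ t ((le_max_left _ _).trans ht),
      hA₂ s (hA₂'.trans hs), lP, lQ]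
    exact hlead
  have sB : ∀ t s, t ≤ B → s ≤ h B →
      SignType.sign (eval₂ φ t f) = SignType.sign (eval₂ ψ s f) := by
    intro t s ht hs
    rw [eval₂_eq_eval_map, eval₂_eq_eval_map, hB₁ t (ht.trans (min_le_left _ _)),
      hB₂ s (hs.trans hB₂'), lP, lQ, dP, dQ, sign_mul, sign_mul, hlead]
  have D : Data (fun t => eval₂ φ t f) (fun t => eval₂ ψ t f) (fun t => eval₂ φ t (derivative f))
      (fun t => eval₂ ψ t (derivative f)) Z A B h :=
    { derP := hasDerivAt_eval₂ φ f
      derQ := hasDerivAt_eval₂ ψ f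
      contP := continuous_eval₂ φ _
      onZ := by
        intro z hz
        rw [hZ, Finset.mem_insert, Finset.mem_insert, hfinZ.mem_toFinset] at hz
        rcases hz with rfl | rfl | hz
        · exact sA _ _ le_rfl le_rfl
        · exact sB _ _ le_rfl le_rfl
        · rw [rts, mem_iUnion₂] at hz
          obtain ⟨g, ⟨hg, hg0⟩, hz⟩ := hz
          rw [mem_setOf_eq, ← eval₂_eq_eval_map] at hz
          have hz' : eval₂ ψ (h z) g = 0 := (zero_iff_of_sign (hval g hg z)).1 hz
          set m := (g.map φ).natDegree with hm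
          have hm0 : 0 < m := by
            by_contra hc
            have hc' : (g.map φ).natDegree = 0 := by omega
            have h1 := eq_C_of_natDegree_eq_zero hc'
            rw [eval₂_eq_eval_map, h1, eval_C] at hz
            rw [hz, C_0] at h1
            exact hg0 h1
          have hc1 : φ (g.coeff m) ≠ 0 := by
            rw [← coeff_map, hm]
            exact leadingCoeff_ne_zero.2 hg0
          have hc2 : ∀ i, m < i → φ (g.coeff i) = 0 := by
            intro i hi
            rw [← coeff_map]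
            exact coeff_eq_zero_of_natDegree_lt hi
          have hc1' : ψ (g.coeff m) ≠ 0 :=
            fun h1 => hc1 ((zero_iff_of_sign (hcoef g hg m)).2 h1)
          have hc2' : ∀ i, m < i → ψ (g.coeff i) = 0 :=
            fun i hi => (zero_iff_of_sign (hcoef g hg i)).1 (hc2 i hi)
          change SignType.sign (eval₂ φ z f) = SignType.sign (eval₂ ψ (h z) f)
          rw [sign_rem φ g f hm0 hc1 hc2 hz, sign_rem ψ g f hm0 hc1' hc2' hz']
          apply hh z
          refine Or.inl (Or.inr ?_)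
          simp only [mem_iUnion]
          exact ⟨g, hg, m, ⟨hm0, natDegree_map_le⟩, rfl⟩
      der := fun t => hval _ (Or.inr rfl) t
      zer := by
        intro t ht
        apply hmemZ
        refine mem_rts φ (Or.inr rfl) ?_ ht
        rw [← derivative_map]
        intro h1
        have := natDegree_eq_zero_of_derivative_eq_zero h1
        omega
      memA := by rw [hZ]; simp
      memB := by rw [hZ]; simp
      neA := by
        intro t ht h0
        have h1 := hA₁ t ((le_max_left _ _).trans ht)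
        rw [← eval₂_eq_eval_map, h0, sign_zero, lP, eq_comm, sign_eq_zero_iff] at h1
        exact hl h1
      neB := by
        intro t ht h0
        have h1 := hB₁ t (ht.trans (min_le_left _ _))
        rw [← eval₂_eq_eval_map, h0, sign_zero, lP, eq_comm, sign_eq_zero_iff, mul_eq_zero] at h1
        rcases h1 with h1 | h1
        · exact pow_ne_zero _ (by norm_num) h1
        · exact hl h1
      sgnA := sA
      sgnB := sB }
  obtain ⟨h', h1, h2⟩ := D.main ((f.map φ).roots.toFinset.finite_toSet.subset (fun t ht => by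
    rw [Finset.mem_coe, Multiset.mem_toFinset, mem_roots nP]
    rw [mem_setOf_eq, eval₂_eq_eval_map] at ht
    exact ht))
  refine ⟨h', fun t g hg => ?_⟩
  rw [mem_insert_iff] at hg
  rcases hg with rfl | hg
  · exact h2 t
  have hg' : g ∈ L ∪ U ∪ {derivative f} := Or.inl hg
  by_cases hg0 : g.map φ = 0
  · have e1 : ∀ i, φ (g.coeff i) = 0 := by
      intro i
      rw [← coeff_map, hg0, coeff_zero]
    have e2 : ∀ i, ψ (g.coeff i) = 0 := fun i => (zero_iff_of_sign (hcoef g hg' i)).1 (e1 i)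
    rw [eval₂_congr_coeff φ g 0 (fun i => by rw [e1, coeff_zero, map_zero]),
      eval₂_congr_coeff ψ g 0 (fun i => by rw [e2, coeff_zero, map_zero]), eval₂_zero, eval₂_zero]
  rw [hval g hg' t]
  by_cases htZ : t ∈ Z
  · rw [h1 t htZ]
  apply sign_eq_of_no_zero (continuous_eval₂ ψ g)
  intro s hs h0
  obtain ⟨z, rfl⟩ := h.surjective s
  have hz0 : eval₂ φ z g = 0 := (zero_iff_of_sign (hval g hg' z)).2 h0
  have hzZ := hmemZ z (mem_rts φ hg' hg0 hz0)
  have hz' : h' z = h z := h1 z hzZ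
  rw [mem_uIcc] at hs
  rcases lt_trichotomy t z with hlt | rfl | hlt
  · have q1 := h.lt_iff_lt.2 hlt
    have q2 := h'.lt_iff_lt.2 hlt
    rw [hz'] at q2
    rcases hs with hs | hs <;> linarith [hs.1, hs.2]
  · exact htZ hzZ
  · have q1 := h.lt_iff_lt.2 hlt
    have q2 := h'.lt_iff_lt.2 hlt
    rw [hz'] at q2
    rcases hs with hs | hs <;> linarith [hs.1, hs.2]

theorem good_all (d : ℕ) : ∀ F : Set R[X], F.Finite → (∀ f ∈ F, f.natDegree < d + 1) → Good F := by
  induction d with
  | zero => exact fun F hF h => good_const hF h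
  | succ d ih =>
    have key : ∀ U : Set R[X], U.Finite → (∀ f ∈ U, f.natDegree = d + 1) → ∀ L : Set R[X],
        L.Finite → (∀ f ∈ L, f.natDegree < d + 1) → Good (L ∪ U) := by
      intro U hU
      induction U, hU using Set.Finite.induction_on with
      | empty =>
        intro _ L hL h
        rw [union_empty]
        exact ih L hL h
      | @insert f U hfU hU ihU =>
        intro h1 L hL h2
        have hf : f.natDegree = d + 1 := h1 f (mem_insert _ _)
        have hU' : ∀ g ∈ U, g.natDegree = d + 1 := fun g hg => h1 g (mem_insert_of_mem _ hg)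
        have h3 := ihU hU' (nxt L U f) (nxt_finite hL hU f)
          (nxt_natDegree (by omega) h2 hU' hf)
        have h4 := good_step hL hU (by omega) h3
        refine h4.mono ?_
        rintro g (hg | hg | hg)
        · exact Or.inr (Or.inl hg)
        · exact Or.inl hg
        · exact Or.inr (Or.inr hg)
    intro F hF h
    have h1 := key {f ∈ F | f.natDegree = d + 1} (hF.subset (sep_subset _ _)) (fun f hf => hf.2)
      {f ∈ F | f.natDegree < d + 1} (hF.subset (sep_subset _ _)) (fun f hf => hf.2)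
    refine h1.mono ?_
    intro f hf
    have := h f hf
    by_cases h2 : f.natDegree = d + 1
    · exact Or.inr ⟨hf, h2⟩
    · exact Or.inl ⟨hf, by omega⟩

theorem good (F : Set R[X]) (hF : F.Finite) : Good F := by
  obtain ⟨d, hd⟩ := (hF.image (fun f => f.natDegree)).bddAbove
  refine good_all d F hF (fun f hf => ?_)
  have := hd (mem_image_of_mem _ hf)
  omega

end Step

section Semi

variable {ι : Type}

lemma SA_univ : SemiAlg (univ : Set (ι → ℝ)) := by
  have := SemiAlg.pos (1 : MvPolynomial ι ℝ)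
  convert this using 1
  ext x
  simp

lemma SA_empty : SemiAlg (∅ : Set (ι → ℝ)) := by
  rw [← compl_univ]; exact SA_univ.compl

lemma SA_inter {s t : Set (ι → ℝ)} (hs : SemiAlg s) (ht : SemiAlg t) : SemiAlg (s ∩ t) := by
  rw [← compl_compl (s ∩ t), compl_inter]
  exact (hs.compl.union ht.compl).compl

lemma SA_iUnion {κ : Type*} (T : Set κ) (hT : T.Finite) (s : κ → Set (ι → ℝ))
    (h : ∀ i ∈ T, SemiAlg (s i)) : SemiAlg (⋃ i ∈ T, s i) := by
  induction T, hT using Set.Finite.induction_on with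
  | empty => simpa using SA_empty
  | @insert a T _ _ ih =>
    rw [biUnion_insert]
    exact (h a (mem_insert _ _)).union (ih (fun i hi => h i (mem_insert_of_mem _ hi)))

lemma SA_iInter {κ : Type*} (T : Set κ) (hT : T.Finite) (s : κ → Set (ι → ℝ))
    (h : ∀ i ∈ T, SemiAlg (s i)) : SemiAlg (⋂ i ∈ T, s i) := by
  induction T, hT using Set.Finite.induction_on with
  | empty => simpa using SA_univ
  | @insert a T _ _ ih =>
    rw [biInter_insert]
    exact SA_inter (h a (mem_insert _ _)) (ih (fun i hi => h i (mem_insert_of_mem _ hi)))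

lemma SA_sign (a : MvPolynomial ι ℝ) (σ : SignType) :
    SemiAlg {x : ι → ℝ | SignType.sign (MvPolynomial.eval x a) = σ} := by
  have hp := SemiAlg.pos a
  have hn := SemiAlg.pos (-a)
  rcases σ with _ | _ | _
  · have := (hp.union hn).compl
    convert this using 1
    ext x
    change SignType.sign _ = 0 ↔ _
    rw [sign_eq_zero_iff]
    simp only [mem_compl_iff, mem_union, mem_setOf_eq, map_neg, Left.neg_pos_iff, not_or, not_lt]
    constructor
    · intro h; rw [h]; exact ⟨le_rfl, le_rfl⟩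
    · intro h; exact le_antisymm h.1 h.2
  · convert hn using 1
    ext x
    change SignType.sign _ = -1 ↔ _
    rw [sign_eq_neg_one_iff]
    simp
  · convert hp using 1
    ext x
    change SignType.sign _ = 1 ↔ _
    rw [sign_eq_one_iff]
    simp

/-- membership in a semi-algebraic set is determined by the signs of finitely many polynomials -/
lemma SA_finite {s : Set (ι → ℝ)} (hs : SemiAlg s) : ∃ F : Set (MvPolynomial ι ℝ), F.Finite ∧
    ∀ x y : ι → ℝ, (∀ f ∈ F, SignType.sign (MvPolynomial.eval x f) =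
      SignType.sign (MvPolynomial.eval y f)) → (x ∈ s ↔ y ∈ s) := by
  induction hs with
  | pos f =>
    refine ⟨{f}, finite_singleton f, fun x y h => ?_⟩
    have := h f rfl
    rw [mem_setOf_eq, mem_setOf_eq, ← sign_eq_one_iff, this, sign_eq_one_iff]
  | compl _ ih =>
    obtain ⟨F, h1, h2⟩ := ih
    exact ⟨F, h1, fun x y h => not_congr (h2 x y h)⟩
  | union _ _ ih1 ih2 =>
    obtain ⟨F, h1, h2⟩ := ih1
    obtain ⟨G, h3, h4⟩ := ih2
    exact ⟨F ∪ G, h1.union h3, fun x y h => or_congr (h2 x y (fun f hf => h f (Or.inl hf)))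
      (h4 x y (fun f hf => h f (Or.inr hf)))⟩

lemma eval_option (f : MvPolynomial (Option ι) ℝ) (x : ι → ℝ) (t : ℝ) :
    MvPolynomial.eval (fun o : Option ι => o.elim t x) f =
      eval₂ (MvPolynomial.eval x) t (MvPolynomial.optionEquivLeft ℝ ι f) := by
  induction f using MvPolynomial.induction_on with
  | C a =>
    rw [MvPolynomial.eval_C, MvPolynomial.optionEquivLeft_C, eval₂_C, MvPolynomial.eval_C]
  | add p q hp hq => rw [map_add, map_add, eval₂_add, hp, hq]
  | mul_X p i hp =>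
    rw [map_mul, map_mul, eval₂_mul, hp, MvPolynomial.eval_X]
    congr 1
    cases i with
    | none => rw [MvPolynomial.optionEquivLeft_X_none, eval₂_X]; rfl
    | some i =>
      rw [MvPolynomial.optionEquivLeft_X_some, eval₂_C, MvPolynomial.eval_X]; rfl

theorem main (s : Set (Option ι → ℝ)) (hs : SemiAlg s) :
    SemiAlg {x : ι → ℝ | ∃ t : ℝ, (fun o : Option ι => o.elim t x) ∈ s} := by
  obtain ⟨F, hF, hFs⟩ := SA_finite hs
  obtain ⟨F₀, hF₀, H⟩ := good ((MvPolynomial.optionEquivLeft ℝ ι) '' F) (hF.image _)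
  haveI : Finite F₀ := hF₀
  let σ : (ι → ℝ) → (F₀ → SignType) := fun x a => SignType.sign (MvPolynomial.eval x a.1)
  set S : Set (ι → ℝ) := {x : ι → ℝ | ∃ t : ℝ, (fun o : Option ι => o.elim t x) ∈ s} with hS
  have hkey : ∀ x y : ι → ℝ, σ x = σ y → x ∈ S → y ∈ S := by
    intro x y hxy hx
    obtain ⟨t, ht⟩ := hx
    obtain ⟨h, hh⟩ := H (MvPolynomial.eval x) (MvPolynomial.eval y)
      (fun a ha => congrFun hxy ⟨a, ha⟩)
    refine ⟨h t, (hFs _ _ (fun f hf => ?_)).1 ht⟩
    rw [eval_option, eval_option]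
    exact hh t _ (mem_image_of_mem _ hf)
  have hSeq : S = ⋃ τ ∈ σ '' S, ⋂ a ∈ F₀, {x : ι → ℝ | ∀ h : a ∈ F₀,
      SignType.sign (MvPolynomial.eval x a) = τ ⟨a, h⟩} := by
    ext x
    simp only [mem_iUnion, mem_iInter, mem_setOf_eq, exists_prop]
    constructor
    · intro hx
      exact ⟨σ x, mem_image_of_mem _ hx, fun a ha _ => rfl⟩
    · rintro ⟨τ, ⟨y, hy, rfl⟩, hx⟩
      exact hkey y x (funext fun a => (hx a.1 a.2 a.2).symm) hy
  rw [hSeq]
  refine SA_iUnion _ (toFinite _) _ (fun τ _ => SA_iInter _ hF₀ _ (fun a ha => ?_))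
  have := SA_sign a (τ ⟨a, ha⟩)
  convert this using 1
  ext x
  exact ⟨fun h => h ha, fun h _ => h⟩

end Semi

end MP43832.T

namespace MP43832

/-- T: the theorem of Tarski and Seidenberg -/
theorem specTS : SpecTS := fun _ _ s hs => T.main s hs

end MP43832
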